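import Pool.Agent.CMT.LId
import Pool.Agent.RHK.Jet
import Pool.Agent.RHK.JetLine
import Pool.Agent.RHK.Ifc

/-!
# CMT-LTay: every complex differentiable function on `ι → ℂ` is `ev φ`; jets of `ev φ`

PLAN. (1) `jet1_ev`: `RHK.jet1 (ev φ) A = A! * coeff A φ`: induction over `A` (`RHK.exp_induction`, `RHK.jet_addz`, `jet_zero`),
the `k`-th derivative of `ev φ` = `ev (dd (single k 1) φ)` by `hasFDerivAt_ev`, and
`dd A (dd (single k 1) φ) = (A k + 1) dd (A + single k 1) φ`. (2) `exists_ev`: `φ_n := jet1 f n / n!`; Cauchy's inequality `RHK.jet_cauchy` (for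
`Φ v = f v.1`, radii `r`, `M` = supremum on the compact polydisc, `B = 0`) gives `‖φ_n‖ * r ^ dg n ≤ M` for every `r`, hence
`Ent φ` (compare with `2 r`; `∑_n 2^{-|n|} < ∞`). `g = f - ev φ` is differentiable with all `jet1 = 0`; `RHK.line_bound` with `E = 0`
(the jets with `B ≠ 0` of a function of `v.1` vanish) shows that `t ↦ g (t z)` has all derivatives `0` at `0`, so `g = 0`
(Taylor series of an entire function of one variable).
-/

set_option autoImplicit false

namespace Pool.Agent.CMT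

open Finset MvPowerSeries

noncomputable section

variable {ι : Type} [Fintype ι] [DecidableEq ι]

/-- the finitely supported function with given values -/
private def ltay_fs (A : ι → ℕ) : ι →₀ ℕ := Finsupp.equivFunOnFinite.symm A

omit [DecidableEq ι] in
private theorem ltay_fs_apply (A : ι → ℕ) (i : ι) : ltay_fs A i = A i := rfl

omit [DecidableEq ι] in
private theorem ltay_fs_coe (n : ι →₀ ℕ) : ltay_fs (fun i => n i) = n := by
  ext i
  rfl

private theorem ltay_fs_add (A : ι → ℕ) (j : ι) :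
    ltay_fs (A + Pi.single j 1) = ltay_fs A + Finsupp.single j 1 := by
  ext i
  rw [Finsupp.add_apply, ltay_fs_apply, ltay_fs_apply, Pi.add_apply]
  by_cases h : i = j
  · subst h
    simp
  · rw [Pi.single_eq_of_ne h, Finsupp.single_eq_of_ne h]

private theorem ltay_mb (n : ι →₀ ℕ) (j : ι) : mb n (Finsupp.single j 1) = n j + 1 := by
  unfold mb
  rw [Finset.prod_eq_single j]
  · simp
  · intro i _ hi
    rw [Finsupp.single_eq_of_ne hi]
    simp
  · intro h
    exact absurd (Finset.mem_univ j) h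

private theorem ltay_fac (n : ι →₀ ℕ) (j : ι) :
    fac (n + Finsupp.single j 1) = (n j + 1) * fac n := by
  unfold fac
  rw [← Finset.mul_prod_erase _ _ (Finset.mem_univ j),
    ← Finset.mul_prod_erase _ (fun i => (n i).factorial) (Finset.mem_univ j), ← mul_assoc]
  congr 1
  · simp [Nat.factorial_succ]
  · refine Finset.prod_congr rfl fun i hi => ?_
    rw [Finsupp.add_apply, Finsupp.single_eq_of_ne (Finset.ne_of_mem_erase hi), add_zero]

private theorem ltay_diff {f : (ι → ℂ) → ℂ} (h : Differentiable ℂ f) :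
    Differentiable ℂ (fun v : Pool.Agent.RHK.VV ι => f v.1) := h.comp differentiable_fst

private theorem ltay_dz {φ : MvPowerSeries ι ℂ} (h : Ent φ) (j : ι) :
    Pool.Agent.RHK.dz j (fun v : Pool.Agent.RHK.VV ι => ev φ v.1) =
      fun v => ev (dd (Finsupp.single j 1) φ) v.1 := by
  funext v
  unfold Pool.Agent.RHK.dz
  have h1 : HasFDerivAt (fun v : Pool.Agent.RHK.VV ι => ev φ v.1)
      ((∑ k, ev (dd (Finsupp.single k 1) φ) v.1 •
        (ContinuousLinearMap.proj k : (ι → ℂ) →L[ℂ] ℂ)).comp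
          (ContinuousLinearMap.fst ℂ (ι → ℂ) (ι → ℂ))) v :=
    (hasFDerivAt_ev h v.1).comp v hasFDerivAt_fst
  rw [h1.fderiv, ContinuousLinearMap.comp_apply, ContinuousLinearMap.sum_apply,
    Finset.sum_eq_single j]
  · simp
  · intro k _ hk
    simp [Pi.single_eq_of_ne hk]
  · intro hj
    exact absurd (Finset.mem_univ j) hj

private theorem ltay_jet (A : ι → ℕ) : ∀ φ : MvPowerSeries ι ℂ, Ent φ →
    Pool.Agent.RHK.jet (fun v : Pool.Agent.RHK.VV ι => ev φ v.1) A 0 =
      (fac (ltay_fs A) : ℂ) * coeff (ltay_fs A) φ := by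
  refine Pool.Agent.RHK.exp_induction (Q := fun A => ∀ φ : MvPowerSeries ι ℂ, Ent φ →
    Pool.Agent.RHK.jet (fun v : Pool.Agent.RHK.VV ι => ev φ v.1) A 0 =
      (fac (ltay_fs A) : ℂ) * coeff (ltay_fs A) φ) ?_ ?_ A
  · intro φ _
    rw [Pool.Agent.RHK.jet_zero]
    have h0 : ltay_fs (0 : ι → ℕ) = 0 := by
      ext i
      rfl
    have h1 : fac (0 : ι →₀ ℕ) = 1 := by
      unfold fac
      simp
    rw [h0, h1, Nat.cast_one, one_mul]
    exact ev_zero φ
  · intro A j ih φ hφ
    rw [Pool.Agent.RHK.jet_addz (ltay_diff (ev_differentiable hφ)), ltay_dz hφ,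
      ih _ (hφ.dd _), ltay_fs_add, ltay_fac]
    have h2 : coeff (ltay_fs A) (dd (Finsupp.single j 1) φ) =
        (mb (ltay_fs A) (Finsupp.single j 1) : ℂ) * coeff (ltay_fs A + Finsupp.single j 1) φ := rfl
    rw [h2, ltay_mb]
    push_cast
    ring

theorem jet1_ev {φ : MvPowerSeries ι ℂ} (h : Ent φ) (A : ι →₀ ℕ) :
    Pool.Agent.RHK.jet1 (ev φ) (fun i => A i) = (fac A : ℂ) * coeff A φ := by
  have h1 := ltay_jet (fun i => A i) φ h
  rw [ltay_fs_coe] at h1
  exact h1

private theorem ltay_geom : Summable (fun n : ι →₀ ℕ => (1 / 2 : ℝ) ^ dg n) := by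
  refine summable_of_sum_le (c := ∏ _i : ι, (2 : ℝ)) (fun n => by positivity) fun s => ?_
  obtain ⟨N, hN⟩ : ∃ N : ℕ, ∀ n ∈ s, ∀ i, n i < N := by
    refine ⟨(s.sup fun n => dg n) + 1, fun n hn i => ?_⟩
    have h1 : dg n ≤ s.sup fun n => dg n := Finset.le_sup (f := fun n => dg n) hn
    have h2 : n i ≤ dg n := Finset.single_le_sum (f := fun i => n i) (fun _ _ => Nat.zero_le _)
      (Finset.mem_univ i)
    omega
  have h3 : ∑ n ∈ s, (1 / 2 : ℝ) ^ dg n =
      ∑ x ∈ s.map (Finsupp.equivFunOnFinite (α := ι) (M := ℕ)).toEmbedding,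
        ∏ i, (1 / 2 : ℝ) ^ x i := by
    rw [Finset.sum_map]
    refine Finset.sum_congr rfl fun n _ => ?_
    unfold dg
    rw [← Finset.prod_pow_eq_pow_sum]
    rfl
  have h4 : s.map (Finsupp.equivFunOnFinite (α := ι) (M := ℕ)).toEmbedding ⊆
      Fintype.piFinset fun _ => Finset.range N := by
    intro x hx
    obtain ⟨n, hn, rfl⟩ := Finset.mem_map.1 hx
    rw [Fintype.mem_piFinset]
    intro i
    exact Finset.mem_range.2 (hN n hn i)
  rw [h3]
  refine (Finset.sum_le_sum_of_subset_of_nonneg h4 fun _ _ _ => by positivity).trans ?_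
  rw [← Finset.prod_univ_sum (fun _ : ι => Finset.range N) (fun _ j => (1 / 2 : ℝ) ^ j)]
  refine Finset.prod_le_prod (fun _ _ => Finset.sum_nonneg fun _ _ => by positivity)
    fun i _ => ?_
  have h5 := (summable_geometric_two).sum_le_tsum (Finset.range N) fun _ _ => by positivity
  rw [tsum_geometric_two] at h5
  exact h5

/-- the Taylor series -/
private def ltay_ser (f : (ι → ℂ) → ℂ) : MvPowerSeries ι ℂ :=
  fun n => Pool.Agent.RHK.jet1 f (fun i => n i) / (fac n : ℂ)

private theorem ltay_coeff (f : (ι → ℂ) → ℂ) (n : ι →₀ ℕ) :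
    coeff n (ltay_ser f) = Pool.Agent.RHK.jet1 f (fun i => n i) / (fac n : ℂ) := rfl

omit [DecidableEq ι] in
private theorem ltay_fac_pos (n : ι →₀ ℕ) : 0 < fac n :=
  Finset.prod_pos fun i _ => Nat.factorial_pos _

private theorem ltay_bd {f : (ι → ℂ) → ℂ} (hf : Differentiable ℂ f) {R : ℝ} (hR : 0 < R) :
    ∃ M : ℝ, 0 ≤ M ∧ ∀ n, ‖coeff n (ltay_ser f)‖ ≤ M / R ^ dg n := by
  obtain ⟨M, hM⟩ := (isCompact_closedBall (0 : ι → ℂ) R).exists_bound_of_continuousOn
    hf.continuous.continuousOn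
  have hM0 : 0 ≤ M := (norm_nonneg _).trans (hM 0 (by simpa using hR.le))
  refine ⟨M, hM0, fun n => ?_⟩
  have h1 := Pool.Agent.RHK.jet_cauchy (ltay_diff hf) (fun _ => R) (fun _ => 1) (fun _ => hR)
    (fun _ => one_pos) M (fun v hv _ => hM v.1 (by
      rw [mem_closedBall_zero_iff]
      exact (pi_norm_le_iff_of_nonneg hR.le).2 hv)) (fun i => n i) 0
  rw [ltay_coeff, norm_div, Complex.norm_natCast, div_le_iff₀ (by exact_mod_cast ltay_fac_pos n)]
  refine h1.trans (le_of_eq ?_)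
  simp only [Pi.zero_apply, Nat.factorial_zero, Nat.cast_one, mul_one, one_pow]
  rw [Finset.prod_pow_eq_pow_sum]
  unfold fac dg
  push_cast
  ring

private theorem ltay_ent {f : (ι → ℂ) → ℂ} (hf : Differentiable ℂ f) : Ent (ltay_ser f) := by
  intro r hr
  obtain ⟨M, hM0, hM⟩ := ltay_bd hf (R := 2 * (r + 1)) (by positivity)
  refine Summable.of_nonneg_of_le (fun n => by positivity) (fun n => ?_)
    (ltay_geom.mul_left M)
  have h1 : ‖coeff n (ltay_ser f)‖ * r ^ dg n ≤ M / (2 * (r + 1)) ^ dg n * (r + 1) ^ dg n :=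
    mul_le_mul (hM n) (pow_le_pow_left₀ hr (by linarith) _) (by positivity) (by positivity)
  refine h1.trans (le_of_eq ?_)
  rw [mul_pow, one_div, inv_pow]
  have h2 : (r + 1) ^ dg n ≠ 0 := by positivity
  field_simp

theorem exists_ev {f : (ι → ℂ) → ℂ} (hf : Differentiable ℂ f) :
    ∃ φ : MvPowerSeries ι ℂ, Ent φ ∧ ∀ z, ev φ z = f z := by
  refine ⟨ltay_ser f, ltay_ent hf, fun z => ?_⟩
  have he := ltay_ent hf
  have hd := ev_differentiable he
  have hg : Differentiable ℂ (fun v : Pool.Agent.RHK.VV ι =>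
      f v.1 + (-1) * ev (ltay_ser f) v.1) :=
    (ltay_diff hf).add ((ltay_diff hd).const_mul _)
  have hj : ∀ A B : ι → ℕ, Pool.Agent.RHK.jet (fun v : Pool.Agent.RHK.VV ι =>
      f v.1 + (-1) * ev (ltay_ser f) v.1) A B = 0 := by
    intro A B
    have h1 := Pool.Agent.RHK.jet_add (ltay_diff hf) ((ltay_diff hd).const_mul (-1)) A B
    rw [Pool.Agent.RHK.jet_const_mul (-1) (ltay_diff hd)] at h1
    refine h1.trans ?_
    rw [Pool.Agent.RHK.jet_fst hf, Pool.Agent.RHK.jet_fst hd]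
    split_ifs with hB
    · have h2 : Pool.Agent.RHK.jet (fun v : Pool.Agent.RHK.VV ι => ev (ltay_ser f) v.1) A 0 =
          (fac (ltay_fs A) : ℂ) * coeff (ltay_fs A) (ltay_ser f) := ltay_jet A _ he
      rw [h2, ltay_coeff, mul_div_cancel₀ _ (by exact_mod_cast (ltay_fac_pos _).ne')]
      have h3 : Pool.Agent.RHK.jet1 f (fun i => ltay_fs A i) =
          Pool.Agent.RHK.jet (fun v : Pool.Agent.RHK.VV ι => f v.1) A 0 := rfl
      rw [h3]
      ring
    · ring
  set G : Pool.Agent.RHK.VV ι → ℂ := fun v => f v.1 + (-1) * ev (ltay_ser f) v.1 with hG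
  have hder : ∀ n, iteratedDeriv n (fun t : ℂ => G (t • ((z, 0) : Pool.Agent.RHK.VV ι))) 0 = 0 := by
    intro n
    have h4 := Pool.Agent.RHK.line_bound hg n ((z, 0) : Pool.Agent.RHK.VV ι) ‖z‖ 0
      (norm_nonneg _) (fun i => norm_le_pi_norm z i) (fun i => by simp)
      (fun A B _ => by rw [hj, norm_zero])
    rw [mul_zero] at h4
    exact norm_le_zero_iff.1 h4
  have hdt : Differentiable ℂ (fun t : ℂ => G (t • ((z, 0) : Pool.Agent.RHK.VV ι))) :=
    hg.comp (differentiable_id.smul_const _)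
  have h5 := Complex.taylorSeries_eq_of_entire' (c := 0) (z := 1) hdt
  simp only [hder, mul_zero, zero_mul, tsum_zero, one_smul] at h5
  have h6 : f z + (-1) * ev (ltay_ser f) z = 0 := h5.symm
  linear_combination -h6

end

end Pool.Agent.CMT
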