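import Pool.Agent.CMT.RVan

/-!
# CMT-R2Gro: the linear growth lemma

Strong induction on the order, with the geometric series `∑ (1/2)^|n|`.
-/

set_option autoImplicit false
set_option linter.unusedSectionVars false

namespace Pool.Agent.CMT.Rec

open Finset

noncomputable section

variable {ι : Type} [Fintype ι] [DecidableEq ι]

private theorem r2gro_geom : Summable (fun n : ι →₀ ℕ => (1 / 2 : ℝ) ^ dg n) := by
  refine summable_of_sum_le (c := ∏ _i : ι, (2 : ℝ)) (fun n => by positivity) fun s => ?_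
  obtain ⟨N, hN⟩ : ∃ N : ℕ, ∀ n ∈ s, ∀ i, n i < N := by
    refine ⟨(s.sup fun n => dg n) + 1, fun n hn i => ?_⟩
    have h1 : dg n ≤ s.sup fun n => dg n := Finset.le_sup (f := fun n => dg n) hn
    have h2 : n i ≤ dg n := Finset.single_le_sum (f := fun i => n i) (fun _ _ => Nat.zero_le _)
      (Finset.mem_univ i)
    omega
  have h3 : ∑ n ∈ s, (1 / 2 : ℝ) ^ dg n =
      ∑ x ∈ s.map (Finsupp.equivFunOnFinite (α := ι) (M := ℕ)).toEmbedding,
        ∏ i, (1 / 2 : ℝ) ^ x i := by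
    rw [Finset.sum_map]
    refine Finset.sum_congr rfl fun n _ => ?_
    unfold dg
    rw [← Finset.prod_pow_eq_pow_sum]
    rfl
  have h4 : s.map (Finsupp.equivFunOnFinite (α := ι) (M := ℕ)).toEmbedding ⊆
      Fintype.piFinset fun _ => Finset.range N := by
    intro x hx
    obtain ⟨n, hn, rfl⟩ := Finset.mem_map.1 hx
    rw [Fintype.mem_piFinset]
    intro i
    exact Finset.mem_range.2 (hN n hn i)
  rw [h3]
  refine (Finset.sum_le_sum_of_subset_of_nonneg h4 fun _ _ _ => by positivity).trans ?_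
  rw [← Finset.prod_univ_sum (fun _ : ι => Finset.range N) (fun _ j => (1 / 2 : ℝ) ^ j)]
  refine Finset.prod_le_prod (fun _ _ => Finset.sum_nonneg fun _ _ => by positivity)
    fun i _ => ?_
  have h5 := (summable_geometric_two).sum_le_tsum (Finset.range N) fun _ _ => by positivity
  rw [tsum_geometric_two] at h5
  exact h5

private theorem r2gro_anti (m : ι →₀ ℕ) :
    ∑ p ∈ antidiagonal m, (1 / 2 : ℝ) ^ dg p.2 ≤ ∑' n : ι →₀ ℕ, (1 / 2 : ℝ) ^ dg n := by
  have h1 : ∑ p ∈ antidiagonal m, (1 / 2 : ℝ) ^ dg p.2 =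
      ∑ n ∈ (antidiagonal m).image Prod.snd, (1 / 2 : ℝ) ^ dg n := by
    rw [Finset.sum_image]
    intro p hp q hq h
    have hp' := Finset.HasAntidiagonal.mem_antidiagonal.1 (Finset.mem_coe.1 hp)
    have hq' := Finset.HasAntidiagonal.mem_antidiagonal.1 (Finset.mem_coe.1 hq)
    refine Prod.ext ?_ h
    rw [← hq', h] at hp'
    exact add_right_cancel hp'
  rw [h1]
  exact r2gro_geom.sum_le_tsum _ fun _ _ => by positivity

private theorem r2gro_term {ρ ρ0 : ℝ} (h0 : 1 ≤ ρ0) (h : 2 * ρ0 ≤ ρ) (i k : ℕ) :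
    ρ ^ (i + 1) * ρ0 ^ (k + 1) ≤ ρ ^ (i + k + 1) * ρ0 * (1 / 2 : ℝ) ^ k := by
  have hρ : 0 ≤ ρ := by linarith
  have hρ0 : 0 ≤ ρ0 := by linarith
  have h1 : ρ0 ^ k ≤ (ρ * (1 / 2)) ^ k := pow_le_pow_left₀ hρ0 (by linarith) k
  have h2 : ρ ^ (i + 1) * ρ0 * ρ0 ^ k ≤ ρ ^ (i + 1) * ρ0 * (ρ * (1 / 2)) ^ k :=
    mul_le_mul_of_nonneg_left h1 (by positivity)
  have h3 : ρ ^ (i + 1) * ρ0 * (ρ * (1 / 2)) ^ k = ρ ^ (i + k + 1) * ρ0 * (1 / 2 : ℝ) ^ k := by
    rw [mul_pow]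
    ring
  have h4 : ρ ^ (i + 1) * ρ0 ^ (k + 1) = ρ ^ (i + 1) * ρ0 * ρ0 ^ k := by ring
  rw [h4, ← h3]
  exact h2

private theorem r2gro_term' {ρ ρ0 : ℝ} (h0 : 1 ≤ ρ0) (h : 2 * ρ0 ≤ ρ) (i k : ℕ) (hk : k ≠ 0) :
    ρ ^ (i + 1) * ρ0 ^ (k + 1) ≤ ρ ^ (i + k) * (2 * ρ0 ^ 2) * (1 / 2 : ℝ) ^ k := by
  obtain ⟨j, rfl⟩ := Nat.exists_eq_succ_of_ne_zero hk
  have h1 := r2gro_term h0 h i j
  have hρ0 : 0 ≤ ρ0 := by linarith
  have h2 := mul_le_mul_of_nonneg_right h1 hρ0
  have h3 : ρ ^ (i + 1) * ρ0 ^ (j + 1) * ρ0 = ρ ^ (i + 1) * ρ0 ^ (j.succ + 1) := by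
    rw [Nat.succ_eq_add_one]
    ring
  have h4 : ρ ^ (i + j + 1) * ρ0 * (1 / 2 : ℝ) ^ j * ρ0 =
      ρ ^ (i + j.succ) * (2 * ρ0 ^ 2) * (1 / 2 : ℝ) ^ j.succ := by
    rw [Nat.succ_eq_add_one, pow_succ (1 / 2 : ℝ) j, ← add_assoc]
    ring
  rw [← h3, ← h4]
  exact h2

theorem growth2 (ν μ : (ι →₀ ℕ) → ℝ) (h0 : ∀ n, 0 ≤ ν n) (h0' : ∀ n, 0 ≤ μ n) (ρ0 : ℝ) (hρ0 : 1 ≤ ρ0)
    (hμ : ∀ n, μ n ≤ ρ0 ^ (dg n + 1)) (a b N0 : ℕ) (hab : a < b) (K : ℝ) (hK : 0 ≤ K)
    (S : Finset (ι →₀ ℕ)) (ha : ∀ A ∈ S, dg A ≤ a)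
    (hrec : ∀ n, N0 < dg n → ∃ B : ι →₀ ℕ, B ≤ n ∧ dg B = b ∧
      ν n ≤ (∑ p ∈ antidiagonal n, if p.2 = 0 then 0 else ν p.1 * μ p.2) +
        K * ∑ A ∈ S, ∑ p ∈ antidiagonal (A + (n - B)), ν p.1 * μ p.2) :
    ∃ ρ : ℝ, 1 ≤ ρ ∧ ∀ n, ν n ≤ ρ ^ (dg n + 1) := by
  set σ : ℝ := ∑' n : ι →₀ ℕ, (1 / 2 : ℝ) ^ dg n with hσ
  have hσ0 : 0 ≤ σ := tsum_nonneg fun _ => by positivity
  set c0 : ι →₀ ℕ := Finsupp.equivFunOnFinite.symm fun _ => N0 with hc0
  set T : ℝ := ∑ n ∈ Finset.Iic c0, ν n with hT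
  have hT0 : 0 ≤ T := Finset.sum_nonneg fun n _ => h0 n
  have hρ0' : 0 ≤ ρ0 := by linarith
  have hA : 0 ≤ 4 * ρ0 ^ 2 * σ := by positivity
  have hB : 0 ≤ 2 * K * (S.card : ℝ) * ρ0 * σ := by positivity
  set ρ : ℝ := 2 * ρ0 + 4 * ρ0 ^ 2 * σ + 2 * K * (S.card : ℝ) * ρ0 * σ + T with hρ
  have hρ2 : 2 * ρ0 ≤ ρ := by linarith
  have hρA : 4 * ρ0 ^ 2 * σ ≤ ρ := by linarith
  have hρB : 2 * K * (S.card : ℝ) * ρ0 * σ ≤ ρ := by linarith
  have hρT : T ≤ ρ := by linarith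
  have hρ1 : 1 ≤ ρ := by linarith
  have hρp : 0 ≤ ρ := by linarith
  clear_value ρ
  refine ⟨ρ, hρ1, ?_⟩
  have key : ∀ N : ℕ, ∀ n, dg n = N → ν n ≤ ρ ^ (dg n + 1) := by
    intro N
    induction N using Nat.strong_induction_on with
    | _ N ih =>
      intro n hn
      by_cases hN : dg n ≤ N0
      · have h1 : n ∈ Finset.Iic c0 := by
          rw [Finset.mem_Iic, Finsupp.le_def]
          intro i
          have h2 : n i ≤ dg n := Finset.single_le_sum (f := fun i => n i)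
            (fun _ _ => Nat.zero_le _) (Finset.mem_univ i)
          have h3 : c0 i = N0 := rfl
          omega
        have h2 : ν n ≤ T := Finset.single_le_sum (f := ν) (fun m _ => h0 m) h1
        have h3 : ρ ^ 1 ≤ ρ ^ (dg n + 1) := pow_le_pow_right₀ hρ1 (by omega)
        rw [pow_one] at h3
        linarith
      · push Not at hN
        obtain ⟨B, hBn, hBb, hr⟩ := hrec n hN
        have hsub : dg (n - B) + b = dg n := by
          have h1 : dg (n - B + B) = dg (n - B) + dg B := dg_add _ _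
          rw [tsub_add_cancel_of_le hBn, hBb] at h1
          exact h1.symm
        -- first sum
        have hF : (∑ p ∈ antidiagonal n, if p.2 = 0 then 0 else ν p.1 * μ p.2) ≤
            ρ ^ (dg n) * (2 * ρ0 ^ 2) * σ := by
          refine le_trans ?_ (mul_le_mul_of_nonneg_left (r2gro_anti n) (by positivity))
          rw [Finset.mul_sum]
          refine Finset.sum_le_sum fun p hp => ?_
          have hp' := Finset.HasAntidiagonal.mem_antidiagonal.1 hp
          have hd : dg p.1 + dg p.2 = dg n := by rw [← dg_add, hp']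
          by_cases hp2 : p.2 = 0
          · rw [if_pos hp2]
            positivity
          · rw [if_neg hp2]
            have hd2 : dg p.2 ≠ 0 := fun h => hp2 (dg_eq_zero.1 h)
            have h1 : ν p.1 ≤ ρ ^ (dg p.1 + 1) := ih (dg p.1) (by omega) p.1 rfl
            have h2 := hμ p.2
            have h3 : ν p.1 * μ p.2 ≤ ρ ^ (dg p.1 + 1) * ρ0 ^ (dg p.2 + 1) :=
              mul_le_mul h1 h2 (h0' _) (by positivity)
            refine h3.trans ?_
            have h4 := r2gro_term' hρ0 hρ2 (dg p.1) (dg p.2) hd2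
            rw [hd] at h4
            exact h4
        -- second sum
        have hG : ∀ A ∈ S, ∑ p ∈ antidiagonal (A + (n - B)), ν p.1 * μ p.2 ≤
            ρ ^ (dg n) * ρ0 * σ := by
          intro A hAS
          have hAa := ha A hAS
          have hdm : dg (A + (n - B)) = dg A + dg (n - B) := dg_add _ _
          have hle : dg (A + (n - B)) + 1 ≤ dg n := by omega
          have h5 : ∑ p ∈ antidiagonal (A + (n - B)), ν p.1 * μ p.2 ≤
              ρ ^ (dg (A + (n - B)) + 1) * ρ0 * σ := by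
            refine le_trans ?_ (mul_le_mul_of_nonneg_left (r2gro_anti (A + (n - B)))
              (by positivity))
            rw [Finset.mul_sum]
            refine Finset.sum_le_sum fun p hp => ?_
            have hp' := Finset.HasAntidiagonal.mem_antidiagonal.1 hp
            have hd : dg p.1 + dg p.2 = dg (A + (n - B)) := by rw [← dg_add, hp']
            have h1 : ν p.1 ≤ ρ ^ (dg p.1 + 1) := ih (dg p.1) (by omega) p.1 rfl
            have h2 := hμ p.2
            have h3 : ν p.1 * μ p.2 ≤ ρ ^ (dg p.1 + 1) * ρ0 ^ (dg p.2 + 1) :=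
              mul_le_mul h1 h2 (h0' _) (by positivity)
            refine h3.trans ?_
            have h4 := r2gro_term hρ0 hρ2 (dg p.1) (dg p.2)
            rw [hd] at h4
            exact h4
          refine h5.trans ?_
          refine mul_le_mul_of_nonneg_right ?_ hσ0
          refine mul_le_mul_of_nonneg_right ?_ hρ0'
          exact pow_le_pow_right₀ hρ1 hle
        have hG2 : ∑ A ∈ S, ∑ p ∈ antidiagonal (A + (n - B)), ν p.1 * μ p.2 ≤
            (S.card : ℝ) * (ρ ^ (dg n) * ρ0 * σ) := by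
          refine (Finset.sum_le_sum hG).trans (le_of_eq ?_)
          rw [Finset.sum_const, nsmul_eq_mul]
        have hG3 := mul_le_mul_of_nonneg_left hG2 hK
        have hP : 0 ≤ ρ ^ (dg n) := by positivity
        have h6 := mul_le_mul_of_nonneg_left hρA hP
        have h7 := mul_le_mul_of_nonneg_left hρB hP
        rw [pow_succ]
        nlinarith
  exact fun n => key (dg n) n rfl

end

end Pool.Agent.CMT.Rec
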