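import Pool.Agent.CMT.RDefs

/-!
# CMT-RSpl: the splitting `n = B + C` with `|B| = b0 a` and `binom(n, B)` large; simple bounds for `mb`
-/

set_option autoImplicit false
set_option linter.unusedSectionVars false

namespace Pool.Agent.CMT.Rec

open Finset

noncomputable section

variable {ι : Type} [Fintype ι] [DecidableEq ι]

private theorem dg_single (i : ι) (b : ℕ) : dg (Finsupp.single i b) = b := by
  unfold dg
  rw [Finset.sum_eq_single i]
  · exact Finsupp.single_eq_same
  · intro j _ hj
    exact Finsupp.single_eq_of_ne hj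
  · intro h
    exact absurd (mem_univ i) h

theorem exists_le_dg (n : ι →₀ ℕ) (k : ℕ) (hk : k ≤ dg n) : ∃ B : ι →₀ ℕ, B ≤ n ∧ dg B = k := by
  induction k with
  | zero => exact ⟨0, zero_le, dg_zero⟩
  | succ k ih =>
    obtain ⟨B, hB, hBk⟩ := ih (by omega)
    have hlt : ∑ i, B i < ∑ i, n i := by
      have h1 : dg B < dg n := by omega
      exact h1
    obtain ⟨i, -, hi⟩ := Finset.exists_lt_of_sum_lt hlt
    refine ⟨B + Finsupp.single i 1, ?_, ?_⟩
    · intro j
      rw [Finsupp.add_apply]
      by_cases h : j = i
      · subst h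
        rw [Finsupp.single_eq_same]
        exact hi
      · rw [Finsupp.single_eq_of_ne h, add_zero]
        exact hB j
    · rw [dg_add, dg_single, hBk]

theorem mb_pos (c p : ι →₀ ℕ) : 0 < mb c p := by
  unfold mb
  exact Finset.prod_pos fun i _ => Nat.choose_pos (Nat.le_add_left _ _)

theorem mb_le_pow (c p : ι →₀ ℕ) : mb c p ≤ dg (c + p) ^ dg p := by
  unfold mb
  calc ∏ i, (c i + p i).choose (p i) ≤ ∏ i, dg (c + p) ^ p i := by
        refine Finset.prod_le_prod' fun i _ => ?_
        refine (Nat.choose_le_pow _ _).trans (Nat.pow_le_pow_left ?_ _)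
        have h : (c + p) i ≤ dg (c + p) :=
          Finset.single_le_sum (f := fun i => (c + p) i) (fun _ _ => Nat.zero_le _) (mem_univ i)
        exact h
    _ = dg (c + p) ^ dg p := Finset.prod_pow_eq_pow_sum _ _ _

theorem fac_pos (n : ι →₀ ℕ) : 0 < fac n := by
  unfold fac
  exact Finset.prod_pos fun i _ => Nat.factorial_pos _

theorem fac_add (c p : ι →₀ ℕ) : fac (c + p) = mb c p * (fac c * fac p) := by
  unfold fac mb
  rw [← Finset.prod_mul_distrib, ← Finset.prod_mul_distrib]
  refine Finset.prod_congr rfl fun i _ => ?_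
  rw [Finsupp.add_apply]
  have h := Nat.choose_mul_factorial_mul_factorial (Nat.le_add_left (p i) (c i))
  rw [Nat.add_sub_cancel] at h
  rw [← h]
  ring

theorem exists_spl (ι : Type) [Fintype ι] [DecidableEq ι] (a : ℕ) :
    ∃ (K : ℕ) (sp : (ι →₀ ℕ) → (ι →₀ ℕ)), Spl a K sp := by
  set b := b0 a with hb
  set g := Fintype.card ι with hg
  set K : ℕ := (g * (b + 1) + 1) ^ b * b.factorial with hK
  have key : ∀ n : ι →₀ ℕ, 2 * a + 4 < dg n → ∃ B : ι →₀ ℕ, B ≤ n ∧ dg B = b ∧
      (dg n + 1) ^ b ≤ K * mb (n - B) B := by
    intro n hn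
    have hbn : b ≤ dg n := by
      have := b0_le a
      omega
    have hne : (univ : Finset ι).Nonempty := by
      rw [Finset.nonempty_iff_ne_empty]
      intro h
      have h1 : dg n = 0 := by
        unfold dg
        rw [h, Finset.sum_empty]
      omega
    obtain ⟨i, -, hi⟩ := Finset.exists_max_image univ (fun i => n i) hne
    have hdg : dg n ≤ g * n i := by
      have h1 : ∑ j, n j ≤ (univ : Finset ι).card • n i :=
        Finset.sum_le_card_nsmul _ _ _ fun j hj => hi j hj
      rw [smul_eq_mul, Finset.card_univ] at h1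
      exact h1
    rcases le_or_gt b (n i) with h | h
    · refine ⟨Finsupp.single i b, ?_, dg_single i b, ?_⟩
      · intro j
        by_cases hj : j = i
        · subst hj
          rw [Finsupp.single_eq_same]
          exact h
        · rw [Finsupp.single_eq_of_ne hj]
          exact Nat.zero_le _
      · have hmb : mb (n - Finsupp.single i b) (Finsupp.single i b) = (n i).choose b := by
          unfold mb
          rw [Finset.prod_eq_single i]
          · rw [Finsupp.tsub_apply, Finsupp.single_eq_same, Nat.sub_add_cancel h]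
          · intro j _ hj
            rw [Finsupp.single_eq_of_ne hj, Nat.choose_zero_right]
          · intro h'
            exact absurd (mem_univ i) h'
        rw [hmb]
        have hg1 : 1 ≤ g := by
          rw [hg]
          exact Fintype.card_pos_iff.2 ⟨i⟩
        have h1 : dg n + 1 ≤ g * (b + 1) * (n i + 1 - b) := by
          obtain ⟨m, hm⟩ : ∃ m, n i = b + m := ⟨n i - b, by omega⟩
          have h2 : n i + 1 - b = m + 1 := by omega
          rw [h2]
          rw [hm] at hdg
          have h3 : g * (b + m) + 1 ≤ g * (b + m + 1) := by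
            rw [Nat.mul_add g (b + m) 1, Nat.mul_one]
            omega
          have h4 : b + m + 1 ≤ (b + 1) * (m + 1) := by nlinarith
          calc dg n + 1 ≤ g * (b + m) + 1 := by omega
            _ ≤ g * (b + m + 1) := h3
            _ ≤ g * ((b + 1) * (m + 1)) := Nat.mul_le_mul_left _ h4
            _ = g * (b + 1) * (m + 1) := by ring
        calc (dg n + 1) ^ b ≤ (g * (b + 1) * (n i + 1 - b)) ^ b := Nat.pow_le_pow_left h1 _
          _ = (g * (b + 1)) ^ b * (n i + 1 - b) ^ b := mul_pow _ _ _
          _ ≤ (g * (b + 1)) ^ b * (n i).descFactorial b :=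
              Nat.mul_le_mul_left _ (Nat.pow_sub_le_descFactorial _ _)
          _ = (g * (b + 1)) ^ b * (b.factorial * (n i).choose b) := by
              rw [Nat.descFactorial_eq_factorial_mul_choose]
          _ = (g * (b + 1)) ^ b * b.factorial * (n i).choose b := by ring
          _ ≤ K * (n i).choose b := by
              refine Nat.mul_le_mul_right _ ?_
              rw [hK]
              exact Nat.mul_le_mul_right _ (Nat.pow_le_pow_left (Nat.le_succ _) _)
    · obtain ⟨B, hB, hBb⟩ := exists_le_dg n b hbn
      refine ⟨B, hB, hBb, ?_⟩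
      have h1 : dg n + 1 ≤ g * (b + 1) + 1 := by
        have h2 : g * n i ≤ g * (b + 1) := Nat.mul_le_mul_left _ (by omega)
        omega
      calc (dg n + 1) ^ b ≤ (g * (b + 1) + 1) ^ b := Nat.pow_le_pow_left h1 _
        _ ≤ (g * (b + 1) + 1) ^ b * b.factorial := Nat.le_mul_of_pos_right _ (Nat.factorial_pos _)
        _ = K := hK.symm
        _ ≤ K * mb (n - B) B := Nat.le_mul_of_pos_right _ (mb_pos _ _)
  refine ⟨K, fun n => if h : 2 * a + 4 < dg n then (key n h).choose else 0, fun n hn => ?_⟩
  simp only [hn, dif_pos]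
  exact (key n hn).choose_spec

end

end Pool.Agent.CMT.Rec
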