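import Pool.Agent.CMT.R2Nd
import Pool.Agent.CMT.R2Gro
import Pool.Agent.CMT.RSpl

/-!
# CMT-R2Bd: `∑ δ(φ_n) X^n` converges near `0`
-/

set_option autoImplicit false
set_option linter.unusedSectionVars false

namespace Pool.Agent.CMT.Rec

open Finset MvPowerSeries

noncomputable section

variable {ι : Type} [Fintype ι] [DecidableEq ι]

private theorem r2bd_coeff (A C : ι →₀ ℕ) (φ ψ : MvPowerSeries ι ℂ) :
    coeff C (hw2 A φ ψ) = hc2 A C (fun n => coeff n φ) (fun n => coeff n ψ) := by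
  unfold hw2 hc2
  rw [map_sum]
  refine Finset.sum_congr rfl fun p _ => ?_
  have e : (-1 : MvPowerSeries ι ℂ) ^ dg p.2 = MvPowerSeries.C ((-1 : ℂ) ^ dg p.2) := by
    rw [map_pow, map_neg, map_one]
  rw [e, MvPowerSeries.coeff_C_mul, MvPowerSeries.coeff_mul, Finset.mul_sum]
  refine Finset.sum_congr rfl fun q _ => ?_
  have e1 : ∀ (χ : MvPowerSeries ι ℂ) (n A : ι →₀ ℕ),
      coeff n (dd A χ) = (mb n A : ℂ) * coeff (n + A) χ := fun χ n A => rfl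
  rw [e1, e1]
  unfold tm2
  ring

private theorem r2bd_mb0 : mb (0 : ι →₀ ℕ) 0 = 1 := by
  unfold mb
  simp

private theorem r2bd_sum2 (B C : ι →₀ ℕ) (u v : (ι →₀ ℕ) → ℂ) (hv : v 0 = 1) :
    ∑ p ∈ antidiagonal B, ∑ q ∈ antidiagonal C, (if q.2 + p.2 = 0 then tm2 u v p q else 0) =
      (mb C B : ℂ) * u (B + C) := by
  rw [Finset.sum_eq_single (B, 0), Finset.sum_eq_single (C, 0)]
  · rw [if_pos (by simp)]
    unfold tm2
    simp only [r2bd_mb0, Nat.cast_one, mul_one, one_mul, add_zero, hv, dg_zero, pow_zero]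
    rw [add_comm C B]
  · intro q hq hne
    rw [if_neg]
    intro h
    apply hne
    rw [HasAntidiagonal.mem_antidiagonal] at hq
    have h1 : q.2 = 0 := by simpa using h
    rw [h1, add_zero] at hq
    exact Prod.ext hq h1
  · intro h
    exact absurd (HasAntidiagonal.mem_antidiagonal.2 (add_zero C)) h
  · intro p hp hne
    refine Finset.sum_eq_zero fun q _ => ?_
    rw [if_neg]
    intro h
    apply hne
    rw [HasAntidiagonal.mem_antidiagonal] at hp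
    have h1 : p.2 = 0 := (add_eq_zero.1 h).2
    rw [h1, add_zero] at hp
    exact Prod.ext hp h1
  · intro h
    exact absurd (HasAntidiagonal.mem_antidiagonal.2 (add_zero B)) h

/-- the sum without the terms with `q.2 + p.2 = 0` -/
private def r2rs (B C : ι →₀ ℕ) (u v : (ι →₀ ℕ) → ℂ) : ℂ :=
  ∑ p ∈ antidiagonal B, ∑ q ∈ antidiagonal C, if q.2 + p.2 = 0 then 0 else tm2 u v p q

private theorem r2bd_split (B C : ι →₀ ℕ) (u v : (ι →₀ ℕ) → ℂ) (hv : v 0 = 1) :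
    hc2 B C u v = (mb C B : ℂ) * u (B + C) + r2rs B C u v := by
  rw [← r2bd_sum2 B C u v hv]
  unfold hc2 r2rs
  rw [← Finset.sum_add_distrib]
  refine Finset.sum_congr rfl fun p _ => ?_
  rw [← Finset.sum_add_distrib]
  refine Finset.sum_congr rfl fun q _ => ?_
  split_ifs
  · rw [add_zero]
  · rw [zero_add]

private theorem r2bd_PP {S : Finset (ι →₀ ℕ)} {γ : (ι →₀ ℕ) → (ι →₀ ℕ) → ℂ}
    {φ ψ : MvPowerSeries ι ℂ} (h : PP2 S γ φ ψ) (B C : ι →₀ ℕ) :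
    hc2 B C (fun n => coeff n φ) (fun n => coeff n ψ) =
      ∑ A ∈ S, ∑ A' ∈ S, γ A A' * (hc2 A' B (fun n => coeff n φ) (fun n => coeff n ψ) *
        hc2 A C (fun n => coeff n φ) (fun n => coeff n ψ)) := by
  rw [← r2bd_coeff, h B, map_sum]
  refine Finset.sum_congr rfl fun A _ => ?_
  rw [MvPowerSeries.coeff_C_mul, r2bd_coeff, Finset.sum_mul]
  refine Finset.sum_congr rfl fun A' _ => ?_
  rw [r2bd_coeff, mul_assoc]

private theorem r2bd_neg_pow (δ : Derivation ℚ ℂ ℂ) (k : ℕ) (x : ℂ) :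
    nd δ ((-1) ^ k * x) = nd δ x := by
  rcases Nat.even_or_odd k with h | h
  · rw [h.neg_one_pow, one_mul]
  · rw [h.neg_one_pow, neg_one_mul, nd_neg]

private theorem r2bd_tm (δ : Derivation ℚ ℂ ℂ) (u v : (ι →₀ ℕ) → ℂ)
    (p q : (ι →₀ ℕ) × (ι →₀ ℕ)) : nd δ (tm2 u v p q) ≤
      ((mb q.1 p.1 : ℝ) * (mb q.2 p.2 : ℝ)) * (nd δ (u (q.1 + p.1)) * nd δ (v (q.2 + p.2))) := by
  have e : tm2 u v p q = (-1) ^ dg p.2 * (((mb q.1 p.1 * mb q.2 p.2 : ℕ) : ℂ) *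
      (u (q.1 + p.1) * v (q.2 + p.2))) := by
    unfold tm2
    push_cast
    ring
  rw [e, r2bd_neg_pow, nd_natCast_mul]
  push_cast
  exact mul_le_mul_of_nonneg_left (nd_mul_le δ _ _) (by positivity)

private theorem r2bd_rs (δ : Derivation ℚ ℂ ℂ) (u v : (ι →₀ ℕ) → ℂ) (B C : ι →₀ ℕ) :
    nd δ (r2rs B C u v) ≤ (mb C B : ℝ) * ∑ m ∈ antidiagonal (B + C),
      (if m.2 = 0 then 0 else nd δ (u m.1) * nd δ (v m.2)) := by
  rw [← van_sum B C (fun m => if m.2 = 0 then 0 else nd δ (u m.1) * nd δ (v m.2))]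
  unfold r2rs
  refine (nd_sum_le δ _ _).trans (Finset.sum_le_sum fun p _ => ?_)
  refine (nd_sum_le δ _ _).trans (Finset.sum_le_sum fun q _ => ?_)
  by_cases h : q.2 + p.2 = 0
  · rw [if_pos h, if_pos h, mul_zero]
    unfold nd
    rw [map_zero, norm_zero, add_zero]
  · rw [if_neg h, if_neg h]
    exact r2bd_tm δ u v p q

/-- majorant of `hc2` -/
private def r2Z (δ : Derivation ℚ ℂ ℂ) (u v : (ι →₀ ℕ) → ℂ) (A B : ι →₀ ℕ) : ℝ :=
  ∑ p ∈ antidiagonal A, ∑ q ∈ antidiagonal B,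
    ((mb q.1 p.1 : ℝ) * (mb q.2 p.2 : ℝ)) * (nd δ (u (q.1 + p.1)) * nd δ (v (q.2 + p.2)))

private theorem r2Z_nonneg (δ : Derivation ℚ ℂ ℂ) (u v : (ι →₀ ℕ) → ℂ)
    (A B : ι →₀ ℕ) : 0 ≤ r2Z δ u v A B := by
  unfold r2Z
  refine Finset.sum_nonneg fun p _ => Finset.sum_nonneg fun q _ => ?_
  have h1 := nd_nonneg δ (u (q.1 + p.1))
  have h2 := nd_nonneg δ (v (q.2 + p.2))
  positivity

private theorem r2bd_hc (δ : Derivation ℚ ℂ ℂ) (u v : (ι →₀ ℕ) → ℂ) (A C : ι →₀ ℕ) :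
    nd δ (hc2 A C u v) ≤ r2Z δ u v A C := by
  unfold hc2 r2Z
  refine (nd_sum_le δ _ _).trans (Finset.sum_le_sum fun p _ => ?_)
  exact (nd_sum_le δ _ _).trans (Finset.sum_le_sum fun q _ => r2bd_tm δ u v p q)

private theorem r2bd_Z_le (δ : Derivation ℚ ℂ ℂ) (u v : (ι →₀ ℕ) → ℂ) (A C : ι →₀ ℕ)
    {M b : ℕ} (hM : dg (A + C) ≤ M) (hb : dg A ≤ b) :
    r2Z δ u v A C ≤ (((M : ℝ) + 1) ^ b * ((antidiagonal A).card : ℝ)) *
      ∑ m ∈ antidiagonal (A + C), nd δ (u m.1) * nd δ (v m.2) := by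
  have hM1 : (1 : ℝ) ≤ (M : ℝ) + 1 := by
    have : (0 : ℝ) ≤ M := Nat.cast_nonneg M
    linarith
  have h1 : ∀ p ∈ antidiagonal A, ∑ q ∈ antidiagonal C,
      ((mb q.1 p.1 : ℝ) * (mb q.2 p.2 : ℝ)) *
        (nd δ (u (q.1 + p.1)) * nd δ (v (q.2 + p.2))) ≤
      ((M : ℝ) + 1) ^ b * ∑ m ∈ antidiagonal (A + C), nd δ (u m.1) * nd δ (v m.2) := by
    intro p hp
    have hp' := HasAntidiagonal.mem_antidiagonal.1 hp
    have h2 : ∀ q ∈ antidiagonal C,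
        ((mb q.1 p.1 : ℝ) * (mb q.2 p.2 : ℝ)) *
          (nd δ (u (q.1 + p.1)) * nd δ (v (q.2 + p.2))) ≤
        ((M : ℝ) + 1) ^ b * (nd δ (u (q.1 + p.1)) * nd δ (v (q.2 + p.2))) := by
      intro q hq
      have hq' := HasAntidiagonal.mem_antidiagonal.1 hq
      refine mul_le_mul_of_nonneg_right ?_ (mul_nonneg (nd_nonneg δ _) (nd_nonneg δ _))
      have hs : (q.1 + p.1) + (q.2 + p.2) = A + C := by
        rw [← hp', ← hq']
        abel
      have hd : dg (q.1 + p.1) + dg (q.2 + p.2) = dg (A + C) := by rw [← dg_add, hs]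
      have e1 : mb q.1 p.1 ≤ (M + 1) ^ dg p.1 :=
        (mb_le_pow _ _).trans (Nat.pow_le_pow_left (by omega) _)
      have e2 : mb q.2 p.2 ≤ (M + 1) ^ dg p.2 :=
        (mb_le_pow _ _).trans (Nat.pow_le_pow_left (by omega) _)
      have e3 : mb q.1 p.1 * mb q.2 p.2 ≤ (M + 1) ^ b := by
        refine (Nat.mul_le_mul e1 e2).trans ?_
        rw [← pow_add, ← dg_add, hp']
        exact Nat.pow_le_pow_right (Nat.succ_pos M) hb
      exact_mod_cast e3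
    refine (Finset.sum_le_sum h2).trans ?_
    rw [← Finset.mul_sum]
    refine mul_le_mul_of_nonneg_left ?_ (by positivity)
    exact inj_sum A C p hp (fun m => nd δ (u m.1) * nd δ (v m.2))
      (fun m => mul_nonneg (nd_nonneg δ _) (nd_nonneg δ _))
  unfold r2Z
  refine (Finset.sum_le_sum h1).trans ?_
  rw [Finset.sum_const, nsmul_eq_mul]
  apply le_of_eq
  ring

theorem nd_growth (δ : Derivation ℚ ℂ ℂ) {S : Finset (ι →₀ ℕ)} {γ : (ι →₀ ℕ) → (ι →₀ ℕ) → ℂ}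
    {φ ψ : MvPowerSeries ι ℂ} (h : PP2 S γ φ ψ) (h1 : coeff 0 ψ = 1) (ρ0 : ℝ) (hρ0 : 1 ≤ ρ0)
    (hψ : ∀ n, nd δ (coeff n ψ) ≤ ρ0 ^ (dg n + 1)) :
    ∃ ρ : ℝ, 1 ≤ ρ ∧ ∀ n, nd δ (coeff n φ) ≤ ρ ^ (dg n + 1) := by
  obtain ⟨a, ha⟩ : ∃ a : ℕ, ∀ A ∈ S, dg A ≤ a :=
    ⟨S.sup fun A => dg A, fun A hA => Finset.le_sup (f := fun A => dg A) hA⟩
  obtain ⟨K, sp, hsp⟩ := exists_spl ι a
  obtain ⟨u, hu⟩ : ∃ u : (ι →₀ ℕ) → ℂ, u = fun n => coeff n φ := ⟨_, rfl⟩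
  obtain ⟨v, hv⟩ : ∃ v : (ι →₀ ℕ) → ℂ, v = fun n => coeff n ψ := ⟨_, rfl⟩
  have hv0 : v 0 = 1 := by rw [hv]; exact h1
  have hPP := r2bd_PP h
  rw [← hu, ← hv] at hPP
  have hab := b0_gt a
  have hb2 := b0_le a
  have hnd : ∀ z, 0 ≤ nd δ z := nd_nonneg δ
  obtain ⟨K1, hK1⟩ : ∃ K1 : ℝ, K1 = ∑ B' ∈ Finset.finsuppAntidiag (univ : Finset ι) (b0 a),
    ∑ A' ∈ S, r2Z δ u v A' B' := ⟨_, rfl⟩
  obtain ⟨K2, hK2⟩ : ∃ K2 : ℝ, K2 = ∑ A ∈ S, ((antidiagonal A).card : ℝ) := ⟨_, rfl⟩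
  obtain ⟨G0, hG0⟩ : ∃ G0 : ℝ, G0 = ∑ A ∈ S, ∑ A' ∈ S, nd δ (γ A A') := ⟨_, rfl⟩
  have hG00 : 0 ≤ G0 := by
    rw [hG0]
    exact Finset.sum_nonneg fun A _ => Finset.sum_nonneg fun A' _ => hnd _
  have hK10 : 0 ≤ K1 := by
    rw [hK1]
    exact Finset.sum_nonneg fun B _ => Finset.sum_nonneg fun A _ => r2Z_nonneg δ u v A B
  have hK20 : 0 ≤ K2 := by
    rw [hK2]
    positivity
  have hZ : ∀ A' ∈ S, ∀ B : ι →₀ ℕ, dg B = b0 a → r2Z δ u v A' B ≤ K1 := by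
    intro A' hA' B hB
    have hmem : B ∈ Finset.finsuppAntidiag (univ : Finset ι) (b0 a) := by
      rw [Finset.mem_finsuppAntidiag]
      exact ⟨hB, Finset.subset_univ _⟩
    rw [hK1]
    refine le_trans ?_ (Finset.single_le_sum (f := fun B' => ∑ A' ∈ S, r2Z δ u v A' B')
      (fun B' _ => Finset.sum_nonneg fun A _ => r2Z_nonneg δ u v A B') hmem)
    exact Finset.single_le_sum (f := fun A' => r2Z δ u v A' B)
      (fun A _ => r2Z_nonneg δ u v A B) hA'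
  have hgr := growth2 (fun n => nd δ (u n)) (fun n => nd δ (v n)) (fun n => hnd _)
    (fun n => hnd _) ρ0 hρ0 (by rw [hv]; exact hψ) a (b0 a) (2 * a + 4) hab
    (G0 * K1 * K * K2) (by positivity) S ha ?_
  · rw [hu] at hgr
    exact hgr
  · intro n hn
    obtain ⟨h1, h2, h3⟩ := hsp n hn
    refine ⟨sp n, h1, h2, ?_⟩
    show nd δ (u n) ≤ (∑ p ∈ antidiagonal n,
      if p.2 = 0 then 0 else nd δ (u p.1) * nd δ (v p.2)) +
      (G0 * K1 * K * K2) * ∑ A ∈ S, ∑ p ∈ antidiagonal (A + (n - sp n)),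
        nd δ (u p.1) * nd δ (v p.2)
    obtain ⟨C, hC⟩ : ∃ C : ι →₀ ℕ, C = n - sp n := ⟨_, rfl⟩
    obtain ⟨B, hB⟩ : ∃ B : ι →₀ ℕ, B = sp n := ⟨_, rfl⟩
    have hBC : B + C = n := by
      rw [hB, hC]
      exact add_tsub_cancel_of_le h1
    have hdBC : dg B + dg C = dg n := by rw [← dg_add, hBC]
    have hdB : dg B = b0 a := by rw [hB]; exact h2
    rw [← hC]
    rw [← hC, ← hB] at h3
    obtain ⟨T, hT⟩ : ∃ T : (ι →₀ ℕ) → ℝ, T = fun A => ∑ p ∈ antidiagonal (A + C),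
      nd δ (u p.1) * nd δ (v p.2) := ⟨_, rfl⟩
    have hT0 : ∀ A, 0 ≤ T A := by
      intro A
      rw [hT]
      exact Finset.sum_nonneg fun p _ => mul_nonneg (hnd _) (hnd _)
    obtain ⟨G, hG⟩ : ∃ G : ℝ, G = ∑ p ∈ antidiagonal n,
      (if p.2 = 0 then (0 : ℝ) else nd δ (u p.1) * nd δ (v p.2)) := ⟨_, rfl⟩
    have hTs : ∑ A ∈ S, ∑ p ∈ antidiagonal (A + C), nd δ (u p.1) * nd δ (v p.2) =
        ∑ A ∈ S, T A := by rw [hT]
    rw [hTs, ← hG]
    have hm : (1 : ℝ) ≤ (mb C B : ℝ) := by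
      have := mb_pos C B
      exact_mod_cast this
    have hm0 : (0 : ℝ) < (mb C B : ℝ) := by linarith
    have hmc : (mb C B : ℂ) ≠ 0 := by
      have := (mb_pos C B).ne'
      exact_mod_cast this
    have hbn : ((dg n : ℝ) + 1) ^ b0 a ≤ (K : ℝ) * (mb C B : ℝ) := by exact_mod_cast h3
    have hA : ∀ A ∈ S, nd δ (hc2 A C u v) ≤ ((K : ℝ) * (mb C B : ℝ) * K2) * T A := by
      intro A hA
      have hdA := ha A hA
      refine (r2bd_hc δ u v A C).trans ?_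
      refine (r2bd_Z_le δ u v A C (M := dg n) (b := b0 a) ?_ (by omega)).trans ?_
      · rw [dg_add]
        omega
      · have e1 : (∑ m ∈ antidiagonal (A + C), nd δ (u m.1) * nd δ (v m.2)) = T A := by rw [hT]
        rw [e1]
        refine mul_le_mul_of_nonneg_right ?_ (hT0 A)
        refine mul_le_mul hbn ?_ (by positivity) (by positivity)
        rw [hK2]
        exact Finset.single_le_sum (f := fun A => ((antidiagonal A).card : ℝ))
          (fun A _ => by positivity) hA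
    have hsum : nd δ (∑ A ∈ S, ∑ A' ∈ S, γ A A' * (hc2 A' B u v * hc2 A C u v)) ≤
        (G0 * K1 * K * K2) * (mb C B : ℝ) * ∑ A ∈ S, T A := by
      refine (nd_sum_le δ _ _).trans ?_
      rw [Finset.mul_sum]
      refine Finset.sum_le_sum fun A hAS => ?_
      refine (nd_sum_le δ _ _).trans ?_
      have h5 : ∀ A' ∈ S, nd δ (γ A A' * (hc2 A' B u v * hc2 A C u v)) ≤
          nd δ (γ A A') * (K1 * (((K : ℝ) * (mb C B : ℝ) * K2) * T A)) := by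
        intro A' hA'
        refine (nd_mul_le δ _ _).trans ?_
        refine mul_le_mul_of_nonneg_left ?_ (hnd _)
        refine (nd_mul_le δ _ _).trans ?_
        exact mul_le_mul ((r2bd_hc δ u v A' B).trans (hZ A' hA' B hdB)) (hA A hAS)
          (hnd _) hK10
      refine (Finset.sum_le_sum h5).trans ?_
      rw [← Finset.sum_mul]
      have h6 : ∑ A' ∈ S, nd δ (γ A A') ≤ G0 := by
        rw [hG0]
        exact Finset.single_le_sum (f := fun A => ∑ A' ∈ S, nd δ (γ A A'))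
          (fun A _ => Finset.sum_nonneg fun A' _ => hnd _) hAS
      have h7 : 0 ≤ K1 * (((K : ℝ) * (mb C B : ℝ) * K2) * T A) := by
        have := hT0 A
        positivity
      refine (mul_le_mul_of_nonneg_right h6 h7).trans (le_of_eq ?_)
      ring
    have hrs : nd δ (r2rs B C u v) ≤ (mb C B : ℝ) * G := by
      have h6 := r2bd_rs δ u v B C
      rw [hBC, ← hG] at h6
      exact h6
    have hun : u n = (mb C B : ℂ)⁻¹ *
        (∑ A ∈ S, ∑ A' ∈ S, γ A A' * (hc2 A' B u v * hc2 A C u v) - r2rs B C u v) := by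
      rw [← hPP B C, r2bd_split B C u v hv0, hBC]
      field_simp
      ring
    rw [hun, nd_inv_natCast_mul, sub_eq_add_neg]
    have hrs' : nd δ (-(r2rs B C u v)) ≤ (mb C B : ℝ) * G := by
      rw [nd_neg]
      exact hrs
    have h8 := (nd_add_le δ (∑ A ∈ S, ∑ A' ∈ S, γ A A' * (hc2 A' B u v * hc2 A C u v))
      (-(r2rs B C u v))).trans (add_le_add hsum hrs')
    refine (mul_le_mul_of_nonneg_left h8 (by positivity)).trans (le_of_eq ?_)
    field_simp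
    ring

end

end Pool.Agent.CMT.Rec
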