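import Pool.Agent.CMT.Defs

/-!
# CMT-LNat: formal rules for `dd`, `hw`, `sc`, `NN`, `hom` (purely algebraic)

PLAN. Everything coefficientwise (`MvPowerSeries.ext`; `coeff n (dd A φ) = mb n A * coeff (n + A) φ` is `rfl`).
`dd_mul`: coefficient of `X^n`: `∑_{c + c' = n + A} mb n A φ_c ψ_c'` versus
`∑_{p + q = A} ∑_{d + d' = n} mb d p * mb d' q * φ_{d+p} ψ_{d'+q}`; for fixed `(c, c')` the sum over
`p + q = A`, `d + p = c`, `d' + q = c'` of `∏ choose(c_i, p_i) choose(c'_i, q_i)` is
`∏ choose (n_i + A_i, A_i)` (Vandermonde `Nat.add_choose_eq` in every coordinate). An alternative: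
`dd A = (1/A!) ∂^A` with Mathlib's `MvPowerSeries.pderiv` only works over `ℚ`-algebras, so please use the
coefficients (or prove it first for `A = single k j` and then write `dd A` as a composition of
`dd (single k (A k))`, which commute).
-/

set_option autoImplicit false
set_option linter.unusedSectionVars false

namespace Pool.Agent.CMT

open Finset MvPowerSeries

noncomputable section

variable {ι : Type} [Fintype ι] [DecidableEq ι] {R S : Type} [CommRing R] [CommRing S]

theorem coeff_dd (A n : ι →₀ ℕ) (φ : MvPowerSeries ι R) :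
    coeff n (dd A φ) = (mb n A : R) * coeff (n + A) φ := by
  rfl

theorem coeff_sc (a : ι → R) (n : ι →₀ ℕ) (φ : MvPowerSeries ι R) :
    coeff n (sc a φ) = (∏ i, a i ^ n i) * coeff n φ := by
  rfl

theorem dd_zero (φ : MvPowerSeries ι R) : dd 0 φ = φ := by
  ext n
  rw [coeff_dd, add_zero]
  simp [mb]

theorem dd_add (A : ι →₀ ℕ) (φ ψ : MvPowerSeries ι R) : dd A (φ + ψ) = dd A φ + dd A ψ := by
  ext n
  rw [coeff_dd, map_add, map_add, coeff_dd, coeff_dd, mul_add]

private theorem lnat_prod_anti {R : Type*} [CommSemiring R] (A : ι →₀ ℕ) (g : ι → ℕ → ℕ → R) :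
    ∑ p ∈ antidiagonal A, ∏ i, g i (p.1 i) (p.2 i) = ∏ i, ∑ q ∈ antidiagonal (A i), g i q.1 q.2 := by
  rw [Finset.prod_univ_sum]
  symm
  refine Finset.sum_bij' (fun x _ => (Finsupp.equivFunOnFinite.symm (fun i => (x i).1),
    Finsupp.equivFunOnFinite.symm (fun i => (x i).2))) (fun p _ => fun i => (p.1 i, p.2 i)) ?_ ?_ ?_ ?_ ?_
  · intro x hx
    rw [Finset.HasAntidiagonal.mem_antidiagonal]
    ext i
    have h1 := Finset.HasAntidiagonal.mem_antidiagonal.1 ((Fintype.mem_piFinset.1 hx) i)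
    simpa using h1
  · intro p hp
    rw [Fintype.mem_piFinset]
    intro i
    rw [Finset.HasAntidiagonal.mem_antidiagonal]
    have h1 := Finset.HasAntidiagonal.mem_antidiagonal.1 hp
    rw [← h1]
    rfl
  · intro x _
    rfl
  · intro p _
    refine Prod.ext ?_ ?_
    · ext i
      rfl
    · ext i
      rfl
  · intro x _
    rfl

private theorem lnat_shift (A n : ι →₀ ℕ) (p : (ι →₀ ℕ) × (ι →₀ ℕ)) (hp : p ∈ antidiagonal A)
    (φ ψ : MvPowerSeries ι R) :
    ∑ x ∈ antidiagonal n, coeff x.1 (dd p.1 φ) * coeff x.2 (dd p.2 ψ) =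
      ∑ x ∈ antidiagonal (n + A), ((∏ i, (x.1 i).choose (p.1 i) * (x.2 i).choose (p.2 i) : ℕ) : R) *
        (coeff x.1 φ * coeff x.2 ψ) := by
  have hp' : p.1 + p.2 = A := Finset.HasAntidiagonal.mem_antidiagonal.1 hp
  refine Finset.sum_of_injOn (fun x => (x.1 + p.1, x.2 + p.2)) ?_ ?_ ?_ ?_
  · intro x _ y _ hxy
    have h1 := congrArg Prod.fst hxy
    have h2 := congrArg Prod.snd hxy
    exact Prod.ext (add_right_cancel h1) (add_right_cancel h2)
  · intro x hx
    have h1 : x.1 + x.2 = n := Finset.HasAntidiagonal.mem_antidiagonal.1 hx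
    rw [Finset.mem_coe, Finset.HasAntidiagonal.mem_antidiagonal, ← h1, ← hp']
    ext i
    simp only [Finsupp.add_apply]
    omega
  · intro x hx hnot
    have h1 : x.1 + x.2 = n + A := Finset.HasAntidiagonal.mem_antidiagonal.1 hx
    by_cases h2 : p.1 ≤ x.1 ∧ p.2 ≤ x.2
    · exfalso
      apply hnot
      refine ⟨(x.1 - p.1, x.2 - p.2), ?_, ?_⟩
      · rw [Finset.mem_coe, Finset.HasAntidiagonal.mem_antidiagonal]
        have h3 : x.1 - p.1 + (x.2 - p.2) + A = n + A := by
          rw [← h1, ← hp']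
          ext i
          have h4 := h2.1 i
          have h5 := h2.2 i
          simp only [Finsupp.add_apply, Finsupp.tsub_apply]
          omega
        exact add_right_cancel h3
      · exact Prod.ext (tsub_add_cancel_of_le h2.1) (tsub_add_cancel_of_le h2.2)
    · have h3 : ∃ i, x.1 i < p.1 i ∨ x.2 i < p.2 i := by
        by_contra hcon
        push Not at hcon
        exact h2 ⟨fun i => (hcon i).1, fun i => (hcon i).2⟩
      obtain ⟨i, hi⟩ := h3
      rw [Finset.prod_eq_zero (Finset.mem_univ i), Nat.cast_zero, zero_mul]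
      rcases hi with hi | hi
      · rw [Nat.choose_eq_zero_of_lt hi, zero_mul]
      · rw [Nat.choose_eq_zero_of_lt hi, mul_zero]
  · intro x _
    rw [coeff_dd, coeff_dd, Finset.prod_mul_distrib, Nat.cast_mul]
    unfold mb
    simp only [Finsupp.add_apply]
    ring

private theorem lnat_mb_comm (c p : ι →₀ ℕ) : mb c p = mb p c := by
  unfold mb
  refine Finset.prod_congr rfl fun i _ => ?_
  rw [add_comm (p i) (c i)]
  exact Nat.choose_symm_add.symm

private theorem lnat_dg_add (c p : ι →₀ ℕ) : dg (c + p) = dg c + dg p := by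
  unfold dg
  rw [← Finset.sum_add_distrib]
  rfl

private theorem lnat_hw (A B : ι →₀ ℕ) (φ : MvPowerSeries ι R) :
    coeff B (hw A φ) = ∑ p ∈ antidiagonal A, ∑ c ∈ antidiagonal B,
      (-1 : R) ^ dg p.2 * ((mb c.1 p.1 : R) * coeff (c.1 + p.1) φ *
        ((mb c.2 p.2 : R) * coeff (c.2 + p.2) φ)) := by
  unfold hw
  rw [map_sum]
  refine Finset.sum_congr rfl fun p _ => ?_
  have h1 : (-1 : MvPowerSeries ι R) ^ dg p.2 = C ((-1 : R) ^ dg p.2) := by
    rw [map_pow, map_neg, map_one]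
  rw [h1, coeff_C_mul, coeff_mul, Finset.mul_sum]
  rfl

theorem dd_mul (A : ι →₀ ℕ) (φ ψ : MvPowerSeries ι R) :
    dd A (φ * ψ) = ∑ p ∈ antidiagonal A, dd p.1 φ * dd p.2 ψ := by
  ext n
  rw [coeff_dd, coeff_mul, map_sum]
  have h1 : ∀ p ∈ antidiagonal A, coeff n (dd p.1 φ * dd p.2 ψ) =
      ∑ x ∈ antidiagonal (n + A), ((∏ i, (x.1 i).choose (p.1 i) * (x.2 i).choose (p.2 i) : ℕ) : R) *
        (coeff x.1 φ * coeff x.2 ψ) := by
    intro p hp
    rw [coeff_mul]
    exact lnat_shift A n p hp φ ψ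
  rw [Finset.sum_congr rfl h1, Finset.sum_comm, Finset.mul_sum]
  refine Finset.sum_congr rfl fun x hx => ?_
  rw [← Finset.sum_mul, ← Nat.cast_sum, lnat_prod_anti A (fun i a b => (x.1 i).choose a * (x.2 i).choose b)]
  congr 2
  unfold mb
  refine Finset.prod_congr rfl fun i _ => ?_
  rw [← Nat.add_choose_eq]
  have h2 : x.1 + x.2 = n + A := Finset.HasAntidiagonal.mem_antidiagonal.1 hx
  have h3 := DFunLike.congr_fun h2 i
  rw [Finsupp.add_apply, Finsupp.add_apply] at h3
  rw [h3]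

/-- in particular the product rule -/
theorem dd_single_mul (k : ι) (φ ψ : MvPowerSeries ι R) :
    dd (Finsupp.single k 1) (φ * ψ) =
      dd (Finsupp.single k 1) φ * ψ + φ * dd (Finsupp.single k 1) ψ := by
  rw [dd_mul, Finsupp.antidiagonal_single, Finset.sum_map]
  rw [Finset.Nat.antidiagonal_succ]
  simp [dd_zero]
  ring

theorem sc_mul (a : ι → R) (φ ψ : MvPowerSeries ι R) : sc a (φ * ψ) = sc a φ * sc a ψ := by
  ext n
  rw [coeff_sc, coeff_mul, coeff_mul, Finset.mul_sum]
  refine Finset.sum_congr rfl fun x hx => ?_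
  have h2 : x.1 + x.2 = n := Finset.HasAntidiagonal.mem_antidiagonal.1 hx
  rw [coeff_sc, coeff_sc, ← h2]
  have h3 : (∏ i, a i ^ (x.1 + x.2) i) = (∏ i, a i ^ x.1 i) * ∏ i, a i ^ x.2 i := by
    rw [← Finset.prod_mul_distrib]
    refine Finset.prod_congr rfl fun i _ => ?_
    rw [Finsupp.add_apply, pow_add]
  rw [h3]
  ring

theorem map_dd (f : R →+* S) (A : ι →₀ ℕ) (φ : MvPowerSeries ι R) :
    MvPowerSeries.map f (dd A φ) = dd A (MvPowerSeries.map f φ) := by
  ext n
  rw [coeff_map, coeff_dd, coeff_dd, coeff_map, map_mul, map_natCast]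

theorem map_sc (f : R →+* S) (a : ι → R) (φ : MvPowerSeries ι R) :
    MvPowerSeries.map f (sc a φ) = sc (fun i => f (a i)) (MvPowerSeries.map f φ) := by
  ext n
  rw [coeff_map, coeff_sc, coeff_sc, coeff_map, map_mul, map_prod]
  simp only [map_pow]

theorem map_hw (f : R →+* S) (A : ι →₀ ℕ) (φ : MvPowerSeries ι R) :
    MvPowerSeries.map f (hw A φ) = hw A (MvPowerSeries.map f φ) := by
  unfold hw
  rw [map_sum]
  refine Finset.sum_congr rfl fun p _ => ?_
  rw [map_mul, map_mul, map_pow, map_neg, map_one, map_dd, map_dd]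

theorem map_NN (f : R →+* S) (A : ι →₀ ℕ) (k : Option ι) (φ : MvPowerSeries ι R) :
    MvPowerSeries.map f (NN A k φ) = NN A k (MvPowerSeries.map f φ) := by
  cases k with
  | none =>
    unfold NN
    simp only [map_mul, map_pow, map_hw]
  | some k =>
    unfold NN
    simp only [map_sub, map_mul, map_pow, map_hw, map_dd, map_ofNat]

theorem map_hom (f : R →+* S) (Ms : Finset (Option ι →₀ ℕ)) (M : ℕ) (r : (Option ι →₀ ℕ) → R)
    (g : Option ι → MvPowerSeries ι R) (F : MvPowerSeries ι R) :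
    MvPowerSeries.map f (hom Ms M r g F) =
      hom Ms M (fun m => f (r m)) (fun i => MvPowerSeries.map f (g i)) (MvPowerSeries.map f F) := by
  unfold hom
  rw [map_sum]
  refine Finset.sum_congr rfl fun m _ => ?_
  rw [map_mul, map_mul, map_prod, map_pow, map_C]
  simp only [map_pow]

theorem PP.map (f : R →+* S) {T : Finset (ι →₀ ℕ)} {γ : (ι →₀ ℕ) → (ι →₀ ℕ) → R}
    {φ : MvPowerSeries ι R} (h : PP T γ φ) :
    PP T (fun A A' => f (γ A A')) (MvPowerSeries.map f φ) := by
  intro B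
  have h1 := congrArg (MvPowerSeries.map f) (h B)
  rw [map_hw, map_sum] at h1
  rw [h1]
  refine Finset.sum_congr rfl fun A _ => ?_
  rw [map_mul, map_hw, map_C, map_sum]
  congr 2
  refine Finset.sum_congr rfl fun A' _ => ?_
  rw [map_mul, ← map_hw, coeff_map]

/-- for even power series the bilinear coefficients are symmetric:
`φ(X+Y) φ(X-Y)` is symmetric in `X, Y`. PLAN: the coefficient of `X^B` in `hw A φ` is
`∑_{p+q=A} ∑_{c+d=B} (-1)^|q| mb c p * mb d q * φ_{c+p} φ_{d+q}`; `mb c p = mb p c`; if `|d + q|` is odd the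
term is `0`, otherwise `(-1)^|q| = (-1)^|d|`. -/
theorem hw_symm {φ : MvPowerSeries ι R} (h : Ev1 φ) (A B : ι →₀ ℕ) :
    coeff B (hw A φ) = coeff A (hw B φ) := by
  rw [lnat_hw, lnat_hw, Finset.sum_comm]
  refine Finset.sum_congr rfl fun c _ => Finset.sum_congr rfl fun p _ => ?_
  rw [lnat_mb_comm c.1 p.1, lnat_mb_comm c.2 p.2, add_comm c.1 p.1, add_comm c.2 p.2]
  by_cases h1 : Even (dg (p.2 + c.2))
  · have h2 : (-1 : R) ^ dg p.2 = (-1 : R) ^ dg c.2 := by
      rw [lnat_dg_add] at h1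
      rcases Nat.even_or_odd (dg p.2) with h3 | h3
      · have h4 : Even (dg c.2) := (Nat.even_add.1 h1).1 h3
        rw [h3.neg_one_pow, h4.neg_one_pow]
      · have h4 : Odd (dg c.2) := by
          rw [← Nat.not_even_iff_odd] at h3 ⊢
          exact fun h5 => h3 ((Nat.even_add.1 h1).2 h5)
        rw [h3.neg_one_pow, h4.neg_one_pow]
    rw [h2]
  · rw [h.2 _ h1]
    ring

end

end Pool.Agent.CMT
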