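import Pool.Agent.CMT.LMul
import Pool.Agent.CMT.LNat

/-!
# CMT-LDer: divided derivatives and scaling of entire functions

PLAN. `mb c p * r^|c| * δ^|p| ≤ (r + δ)^|c+p|` (product over the coordinates of one term of the binomial
expansion of `(r + δ)^(c_i + p_i)`). So `∑_n mb n A |φ_{n+A}| r^|n| δ^|A| ≤ ∑_n |φ_{n+A}| (r+δ)^|n+A| ≤ nr (r+δ) φ`
(the sum over `n` is a sub-sum, `n ↦ n + A` is injective: `Summable.comp_injective`,
`Summable.tsum_le_tsum_of_inj`). `ev_sc`: `mo (a z) n = ∏ a_i^n_i * mo z n`.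
-/

set_option autoImplicit false

namespace Pool.Agent.CMT

open Finset MvPowerSeries

noncomputable section

variable {ι : Type} [Fintype ι] [DecidableEq ι]

private theorem lder_choose (c p : ℕ) {r δ : ℝ} (hr : 0 ≤ r) (hδ : 0 ≤ δ) :
    ((c + p).choose p : ℝ) * r ^ c * δ ^ p ≤ (r + δ) ^ (c + p) := by
  rw [add_pow]
  have h := Finset.single_le_sum (f := fun m => r ^ m * δ ^ (c + p - m) * ((c + p).choose m : ℝ))
    (s := Finset.range (c + p + 1)) (fun m _ => by positivity)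
    (Finset.mem_range.2 (show c < c + p + 1 by omega))
  refine le_trans (le_of_eq ?_) h
  show ((c + p).choose p : ℝ) * r ^ c * δ ^ p = r ^ c * δ ^ (c + p - c) * ((c + p).choose c : ℝ)
  rw [Nat.add_sub_cancel_left, Nat.choose_symm_add]
  ring

theorem mb_mul_le (c p : ι →₀ ℕ) {r δ : ℝ} (hr : 0 ≤ r) (hδ : 0 ≤ δ) :
    (mb c p : ℝ) * r ^ dg c * δ ^ dg p ≤ (r + δ) ^ dg (c + p) := by
  unfold mb dg
  rw [← Finset.prod_pow_eq_pow_sum, ← Finset.prod_pow_eq_pow_sum, ← Finset.prod_pow_eq_pow_sum,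
    Nat.cast_prod, ← Finset.prod_mul_distrib, ← Finset.prod_mul_distrib]
  refine Finset.prod_le_prod (fun i _ => by positivity) fun i _ => ?_
  rw [Finsupp.add_apply]
  exact lder_choose (c i) (p i) hr hδ

private theorem lder_term (φ : MvPowerSeries ι ℂ) (A n : ι →₀ ℕ) {r δ : ℝ} (hr : 0 ≤ r)
    (hδ : 0 < δ) : ‖coeff n (dd A φ)‖ * r ^ dg n ≤
      (‖coeff (n + A) φ‖ * (r + δ) ^ dg (n + A)) / δ ^ dg A := by
  rw [coeff_dd, norm_mul, Complex.norm_natCast, le_div_iff₀ (pow_pos hδ _)]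
  have h := mul_le_mul_of_nonneg_left (mb_mul_le n A hr hδ.le) (norm_nonneg (coeff (n + A) φ))
  calc _ = ‖coeff (n + A) φ‖ * ((mb n A : ℝ) * r ^ dg n * δ ^ dg A) := by ring
    _ ≤ _ := h

private theorem lder_sum {φ : MvPowerSeries ι ℂ} (h : Ent φ) (A : ι →₀ ℕ) {r δ : ℝ} (hr : 0 ≤ r)
    (hδ : 0 < δ) :
    Summable fun n : ι →₀ ℕ => (‖coeff (n + A) φ‖ * (r + δ) ^ dg (n + A)) / δ ^ dg A :=
  (((h (r + δ) (by linarith)).comp_injective (add_left_injective A)).div_const _)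

theorem Ent.dd {φ : MvPowerSeries ι ℂ} (h : Ent φ) (A : ι →₀ ℕ) : Ent (dd A φ) := by
  intro r hr
  exact Summable.of_nonneg_of_le (fun n => by positivity) (fun n => lder_term φ A n hr one_pos)
    (lder_sum h A hr one_pos)

theorem nr_dd_le {φ : MvPowerSeries ι ℂ} (h : Ent φ) (A : ι →₀ ℕ) {r δ : ℝ} (hr : 0 ≤ r)
    (hδ : 0 < δ) : nr r (CMT.dd A φ) ≤ nr (r + δ) φ / δ ^ dg A := by
  unfold nr
  rw [← tsum_div_const]
  refine Summable.tsum_le_tsum_of_inj (fun n => n + A) (add_left_injective A) (fun n _ => ?_)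
    (fun n => lder_term φ A n hr hδ) (h.dd A r hr) ((h (r + δ) (by linarith)).div_const _)
  positivity

theorem Ent.sc {φ : MvPowerSeries ι ℂ} (h : Ent φ) (a : ι → ℂ) : Ent (sc a φ) := by
  intro r hr
  refine Summable.of_nonneg_of_le (fun n => by positivity) (fun n => ?_)
    (h (‖a‖ * r) (mul_nonneg (norm_nonneg _) hr))
  rw [coeff_sc, norm_mul, mul_pow]
  have h1 : ‖∏ i, a i ^ n i‖ ≤ ‖a‖ ^ dg n := norm_mo_le a (fun i => norm_le_pi_norm a i) n
  calc ‖∏ i, a i ^ n i‖ * ‖coeff n φ‖ * r ^ dg n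
      ≤ ‖a‖ ^ dg n * ‖coeff n φ‖ * r ^ dg n := by gcongr
    _ = ‖coeff n φ‖ * (‖a‖ ^ dg n * r ^ dg n) := by ring

theorem ev_sc (a : ι → ℂ) (φ : MvPowerSeries ι ℂ) (z : ι → ℂ) :
    ev (CMT.sc a φ) z = ev φ (fun i => a i * z i) := by
  unfold ev
  refine tsum_congr fun n => ?_
  rw [coeff_sc]
  unfold mo
  simp only [mul_pow, Finset.prod_mul_distrib]
  ring

theorem Ent.hw {φ : MvPowerSeries ι ℂ} (h : Ent φ) (A : ι →₀ ℕ) : Ent (hw A φ) := by
  unfold CMT.hw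
  exact Ent.sum _ fun p _ => (Ent.one.neg.pow _).mul ((h.dd _).mul (h.dd _))

theorem Ent.NN {φ : MvPowerSeries ι ℂ} (h : Ent φ) (A : ι →₀ ℕ) (k : Option ι) :
    Ent (NN A k φ) := by
  cases k with
  | none => exact (h.hw A).mul (h.pow 2)
  | some k =>
    have h2 : Ent (2 : MvPowerSeries ι ℂ) := by
      have h3 := Ent.one.add (Ent.one (ι := ι))
      rwa [one_add_one_eq_two] at h3
    exact (((h.hw A).dd _).mul (h.pow 2)).sub (h2.mul (((h.hw A).mul h).mul (h.dd _)))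

theorem Ent.hom (Ms : Finset (Option ι →₀ ℕ)) (M : ℕ) (r : (Option ι →₀ ℕ) → ℂ)
    {g : Option ι → MvPowerSeries ι ℂ} {F : MvPowerSeries ι ℂ} (hg : ∀ i, Ent (g i))
    (hF : Ent F) : Ent (hom Ms M r g F) := by
  unfold CMT.hom
  exact Ent.sum _ fun m _ => ((Ent.C (r m)).mul (Ent.prod _ fun i _ => (hg i).pow _)).mul (hF.pow _)

theorem ev_hom (Ms : Finset (Option ι →₀ ℕ)) (M : ℕ) (r : (Option ι →₀ ℕ) → ℂ)
    {g : Option ι → MvPowerSeries ι ℂ} {F : MvPowerSeries ι ℂ} (hg : ∀ i, Ent (g i))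
    (hF : Ent F) (z : ι → ℂ) : ev (CMT.hom Ms M r g F) z =
      ∑ m ∈ Ms, r m * (∏ i, ev (g i) z ^ m i) * ev F z ^ (M - dg m) := by
  unfold CMT.hom
  rw [ev_sum _ (fun m _ => ((Ent.C (r m)).mul (Ent.prod _ fun i _ => (hg i).pow _)).mul (hF.pow _))]
  refine Finset.sum_congr rfl fun m _ => ?_
  have h1 : Ent (∏ i, g i ^ m i) := Ent.prod _ fun i _ => (hg i).pow _
  rw [ev_mul ((Ent.C (r m)).mul h1) (hF.pow _), ev_mul (Ent.C (r m)) h1, ev_C,
    ev_prod _ (fun i _ => (hg i).pow _), ev_pow hF]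
  congr 2
  exact Finset.prod_congr rfl fun i _ => ev_pow (hg i) _ z

private theorem lder_nr_sum {κ : Type} (s : Finset κ) {φ : κ → MvPowerSeries ι ℂ}
    (h : ∀ k ∈ s, Ent (φ k)) {r : ℝ} (hr : 0 ≤ r) :
    nr r (∑ k ∈ s, φ k) ≤ ∑ k ∈ s, nr r (φ k) := by
  classical
  induction s using Finset.induction_on with
  | empty =>
    rw [Finset.sum_empty, Finset.sum_empty]
    unfold nr
    simp
  | insert a s ha ih =>
    rw [Finset.sum_insert ha, Finset.sum_insert ha]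
    have h1 : ∀ k ∈ s, Ent (φ k) := fun k hk => h k (Finset.mem_insert_of_mem hk)
    exact (nr_add_le (h a (Finset.mem_insert_self a s)) (Ent.sum s h1) hr).trans
      (add_le_add le_rfl (ih h1))

/-- bound for the Hirota derivatives -/
theorem nr_hw_le {φ : MvPowerSeries ι ℂ} (h : Ent φ) (A : ι →₀ ℕ) {r δ : ℝ} (hr : 0 ≤ r)
    (hδ : 0 < δ) (hδ1 : δ ≤ 1) :
    nr r (CMT.hw A φ) ≤ (antidiagonal A).card * (nr (r + δ) φ) ^ 2 / δ ^ dg A := by
  unfold CMT.hw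
  refine (lder_nr_sum _ (fun p _ => (Ent.one.neg.pow _).mul ((h.dd _).mul (h.dd _))) hr).trans ?_
  have hterm : ∀ p ∈ antidiagonal A,
      nr r ((-1 : MvPowerSeries ι ℂ) ^ dg p.2 * (CMT.dd p.1 φ * CMT.dd p.2 φ)) ≤
        (nr (r + δ) φ) ^ 2 / δ ^ dg A := by
    intro p hp
    have hp' : p.1 + p.2 = A := by simpa using hp
    have h1 : (-1 : MvPowerSeries ι ℂ) ^ dg p.2 = MvPowerSeries.C ((-1 : ℂ) ^ dg p.2) := by
      rw [map_pow, map_neg, map_one]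
    have h2 : nr r ((-1 : MvPowerSeries ι ℂ) ^ dg p.2) = 1 := by
      rw [h1, nr_C _ hr, norm_pow, norm_neg, norm_one, one_pow]
    have h3 := nr_mul_le (Ent.one.neg.pow (dg p.2)) ((h.dd p.1).mul (h.dd p.2)) hr
    rw [h2, one_mul] at h3
    refine h3.trans ((nr_mul_le (h.dd p.1) (h.dd p.2) hr).trans ?_)
    have h4 := nr_dd_le h p.1 hr hδ
    have h5 := nr_dd_le h p.2 hr hδ
    have h6 : 0 ≤ nr (r + δ) φ / δ ^ dg p.1 :=
      div_nonneg (nr_nonneg (by linarith) φ) (pow_nonneg hδ.le _)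
    refine (mul_le_mul h4 h5 (nr_nonneg hr _) h6).trans (le_of_eq ?_)
    rw [← hp', dg_add, pow_add, div_mul_div_comm]
    ring
  refine (Finset.sum_le_sum hterm).trans (le_of_eq ?_)
  rw [Finset.sum_const, nsmul_eq_mul]
  ring

end

end Pool.Agent.CMT
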