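import Pool.Agent.CMT.R2Defs
import Pool.Agent.CMT.LDer

/-!
# CMT-R2Dbl: doubling of the radius of convergence
-/

set_option autoImplicit false
set_option linter.unusedSectionVars false

namespace Pool.Agent.CMT.Rec

open Finset MvPowerSeries

noncomputable section

variable {ι : Type} [Fintype ι] [DecidableEq ι]

private theorem rC (c : ℂ) (r : ℝ) : Rad r (C c : MvPowerSeries ι ℂ) := by
  refine summable_of_ne_finset_zero (s := {0}) fun n hn => ?_
  rw [Finset.mem_singleton] at hn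
  rw [MvPowerSeries.coeff_C, if_neg hn, norm_zero, zero_mul]

private theorem rzero (r : ℝ) : Rad r (0 : MvPowerSeries ι ℂ) := by
  have h := rC (ι := ι) 0 r
  rwa [map_zero] at h

private theorem radd {r : ℝ} (hr : 0 ≤ r) {φ ψ : MvPowerSeries ι ℂ} (h : Rad r φ) (h' : Rad r ψ) :
    Rad r (φ + ψ) := by
  refine Summable.of_nonneg_of_le (fun n => by positivity) (fun n => ?_) (h.add h')
  rw [map_add, ← add_mul]
  exact mul_le_mul_of_nonneg_right (norm_add_le _ _) (by positivity)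

private theorem rmul {r : ℝ} (hr : 0 ≤ r) {φ ψ : MvPowerSeries ι ℂ} (h : Rad r φ) (h' : Rad r ψ) :
    Rad r (φ * ψ) := by
  have h1 := summable_sum_mul_antidiagonal_of_summable_mul
    (Summable.mul_of_nonneg h h' (fun n => by simp only [Pi.zero_apply]; positivity)
      (fun n => by simp only [Pi.zero_apply]; positivity))
  exact Summable.of_nonneg_of_le (fun n => by positivity) (fun n => lmul_le φ ψ hr n) h1

private theorem rsum {κ : Type} {r : ℝ} (hr : 0 ≤ r) (s : Finset κ) {φ : κ → MvPowerSeries ι ℂ}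
    (h : ∀ k ∈ s, Rad r (φ k)) : Rad r (∑ k ∈ s, φ k) := by
  classical
  induction s using Finset.induction_on with
  | empty =>
    rw [Finset.sum_empty]
    exact rzero r
  | insert a s ha ih =>
    rw [Finset.sum_insert ha]
    exact radd hr (h a (Finset.mem_insert_self a s))
      (ih fun k hk => h k (Finset.mem_insert_of_mem hk))

private theorem rmono {r r' : ℝ} (hr : 0 ≤ r') (hrr : r' ≤ r) {φ : MvPowerSeries ι ℂ}
    (h : Rad r φ) : Rad r' φ := by
  refine Summable.of_nonneg_of_le (fun n => by positivity) (fun n => ?_) h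
  exact mul_le_mul_of_nonneg_left (pow_le_pow_left₀ hr hrr _) (norm_nonneg _)

private theorem rneg (r : ℝ) (k : ℕ) : Rad r ((-1 : MvPowerSeries ι ℂ) ^ k) := by
  have h1 : (-1 : MvPowerSeries ι ℂ) ^ k = MvPowerSeries.C ((-1 : ℂ) ^ k) := by
    rw [map_pow, map_neg, map_one]
  rw [h1]
  exact rC _ r

private theorem rdd {r r' : ℝ} (hr : 0 ≤ r') (hrr : r' < r) {φ : MvPowerSeries ι ℂ} (h : Rad r φ)
    (A : ι →₀ ℕ) : Rad r' (dd A φ) := by
  have hδ : 0 < r - r' := by linarith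
  have h1 : Summable fun n : ι →₀ ℕ =>
      (‖coeff (n + A) φ‖ * r ^ dg (n + A)) / (r - r') ^ dg A :=
    ((h.comp_injective (add_left_injective A)).div_const _)
  refine Summable.of_nonneg_of_le (fun n => by positivity) (fun n => ?_) h1
  rw [coeff_dd, norm_mul, Complex.norm_natCast, le_div_iff₀ (pow_pos hδ _)]
  have h2 := mul_le_mul_of_nonneg_left (mb_mul_le n A hr hδ.le) (norm_nonneg (coeff (n + A) φ))
  have h3 : r' + (r - r') = r := by ring
  rw [h3] at h2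
  calc _ = ‖coeff (n + A) φ‖ * ((mb n A : ℝ) * r' ^ dg n * (r - r') ^ dg A) := by ring
    _ ≤ _ := h2

private theorem rhw {r r' : ℝ} (hr : 0 ≤ r') (hrr : r' < r) {φ ψ : MvPowerSeries ι ℂ}
    (h : Rad r φ) (h' : Rad r ψ) (A : ι →₀ ℕ) : Rad r' (hw2 A φ ψ) := by
  unfold hw2
  exact rsum hr _ fun p _ => rmul hr (rneg r' _) (rmul hr (rdd hr hrr h _) (rdd hr hrr h' _))

private theorem rsc {r : ℝ} {u : MvPowerSeries ι ℂ} (h : Rad r (sc (fun _ => (2 : ℂ)) u)) :
    Rad (2 * r) u := by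
  refine Summable.congr h fun n => ?_
  rw [coeff_sc, norm_mul, mul_pow]
  have h1 : ‖∏ i, (2 : ℂ) ^ n i‖ = 2 ^ dg n := by
    rw [Finset.prod_pow_eq_pow_sum, norm_pow, Complex.norm_ofNat]
    rfl
  rw [h1]
  ring

theorem ent_of_dbl {S : Finset (ι →₀ ℕ)} {γ γ' : (ι →₀ ℕ) → (ι →₀ ℕ) → ℂ}
    {φ ψ u v : MvPowerSeries ι ℂ} (hφ : Ent φ) (hψ : Ent ψ)
    (hd : sc (fun _ => (2 : ℂ)) u = ∑ A ∈ S, ∑ A' ∈ S, (C (γ' A A') * (hw2 A φ ψ * hw2 A' φ ψ) +
      C (γ A A') * ((hw2 A u ψ + hw2 A φ v) * hw2 A' φ ψ +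
        hw2 A φ ψ * (hw2 A' u ψ + hw2 A' φ v))))
    (hu : ∃ r : ℝ, 0 < r ∧ Rad r u) (hv : ∀ r : ℝ, 0 ≤ r → Rad r u → Rad r v) : Ent u := by
  have step : ∀ r r' : ℝ, 0 ≤ r' → r' < r → Rad r u → Rad (2 * r') u := by
    intro r r' hr' hrr h
    have hr : 0 ≤ r := hr'.trans hrr.le
    have hv' : Rad r v := hv r hr h
    have hφr : Rad r φ := hφ r hr
    have hψr : Rad r ψ := hψ r hr
    apply rsc
    rw [hd]
    refine rsum hr' _ fun A _ => rsum hr' _ fun A' _ => ?_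
    have a1 := fun A => rhw hr' hrr hφr hψr A
    have a2 := fun A => radd hr' (rhw hr' hrr h hψr A) (rhw hr' hrr hφr hv' A)
    exact radd hr' (rmul hr' (rC _ r') (rmul hr' (a1 A) (a1 A')))
      (rmul hr' (rC _ r') (radd hr' (rmul hr' (a2 A) (a1 A')) (rmul hr' (a1 A) (a2 A'))))
  obtain ⟨r0, hr0, h0⟩ := hu
  have key : ∀ k : ℕ, Rad ((3 / 2) ^ k * r0) u := by
    intro k
    induction k with
    | zero => rwa [pow_zero, one_mul]
    | succ k ih =>
      have hp : 0 < (3 / 2 : ℝ) ^ k * r0 := by positivity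
      have h1 := step _ (3 / 4 * ((3 / 2 : ℝ) ^ k * r0)) (by positivity) (by linarith) ih
      have h2 : 2 * (3 / 4 * ((3 / 2 : ℝ) ^ k * r0)) = (3 / 2 : ℝ) ^ (k + 1) * r0 := by
        rw [pow_succ]
        ring
      rwa [h2] at h1
  intro r hr
  obtain ⟨k, hk⟩ := pow_unbounded_of_one_lt (r / r0) (show (1 : ℝ) < 3 / 2 by norm_num)
  have h1 : r ≤ (3 / 2) ^ k * r0 := by
    rw [div_lt_iff₀ hr0] at hk
    exact hk.le
  exact rmono hr h1 (key k)

private theorem geo : Summable (fun n : ι →₀ ℕ => (1 / 2 : ℝ) ^ dg n) := by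
  refine summable_of_sum_le (c := ∏ _i : ι, (2 : ℝ)) (fun n => by positivity) fun s => ?_
  obtain ⟨N, hN⟩ : ∃ N : ℕ, ∀ n ∈ s, ∀ i, n i < N := by
    refine ⟨(s.sup fun n => dg n) + 1, fun n hn i => ?_⟩
    have h1 : dg n ≤ s.sup fun n => dg n := Finset.le_sup (f := fun n => dg n) hn
    have h2 : n i ≤ dg n := Finset.single_le_sum (f := fun i => n i) (fun _ _ => Nat.zero_le _)
      (Finset.mem_univ i)
    omega
  have h3 : ∑ n ∈ s, (1 / 2 : ℝ) ^ dg n =
      ∑ x ∈ s.map (Finsupp.equivFunOnFinite (α := ι) (M := ℕ)).toEmbedding,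
        ∏ i, (1 / 2 : ℝ) ^ x i := by
    rw [Finset.sum_map]
    refine Finset.sum_congr rfl fun n _ => ?_
    unfold dg
    rw [← Finset.prod_pow_eq_pow_sum]
    rfl
  have h4 : s.map (Finsupp.equivFunOnFinite (α := ι) (M := ℕ)).toEmbedding ⊆
      Fintype.piFinset fun _ => Finset.range N := by
    intro x hx
    obtain ⟨n, hn, rfl⟩ := Finset.mem_map.1 hx
    rw [Fintype.mem_piFinset]
    intro i
    exact Finset.mem_range.2 (hN n hn i)
  rw [h3]
  refine (Finset.sum_le_sum_of_subset_of_nonneg h4 fun _ _ _ => by positivity).trans ?_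
  rw [← Finset.prod_univ_sum (fun _ : ι => Finset.range N) (fun _ j => (1 / 2 : ℝ) ^ j)]
  refine Finset.prod_le_prod (fun _ _ => Finset.sum_nonneg fun _ _ => by positivity)
    fun i _ => ?_
  have h5 := (summable_geometric_two).sum_le_tsum (Finset.range N) fun _ _ => by positivity
  rw [tsum_geometric_two] at h5
  exact h5

/-- a geometric bound gives a positive radius -/
theorem rad_of_bound {u : MvPowerSeries ι ℂ} {ρ : ℝ} (hρ : 1 ≤ ρ)
    (h : ∀ n, ‖coeff n u‖ ≤ ρ ^ (dg n + 1)) : ∃ r : ℝ, 0 < r ∧ Rad r u := by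
  have hρ0 : 0 < ρ := by linarith
  refine ⟨1 / (2 * ρ), by positivity, ?_⟩
  refine Summable.of_nonneg_of_le (fun n => by positivity) (fun n => ?_) (geo.mul_left ρ)
  calc ‖coeff n u‖ * (1 / (2 * ρ)) ^ dg n ≤ ρ ^ (dg n + 1) * (1 / (2 * ρ)) ^ dg n :=
        mul_le_mul_of_nonneg_right (h n) (by positivity)
    _ = ρ * (ρ * (1 / (2 * ρ))) ^ dg n := by rw [pow_succ, mul_pow]; ring
    _ = ρ * (1 / 2) ^ dg n := by
      congr 2
      field_simp

/-- an entire function has a geometric bound -/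
theorem bound_of_ent {u : MvPowerSeries ι ℂ} (h : Ent u) :
    ∃ ρ : ℝ, 1 ≤ ρ ∧ ∀ n, ‖coeff n u‖ ≤ ρ ^ (dg n + 1) := by
  refine ⟨max 1 (nr 1 u), le_max_left _ _, fun n => ?_⟩
  have h1 := norm_coeff_le h zero_le_one n
  rw [one_pow, mul_one] at h1
  calc ‖coeff n u‖ ≤ max 1 (nr 1 u) := h1.trans (le_max_right _ _)
    _ ≤ (max 1 (nr 1 u)) ^ (dg n + 1) := le_self_pow₀ (le_max_left _ _) (Nat.succ_ne_zero _)

end

end Pool.Agent.CMT.Rec
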