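import Pool.Agent.CMT.RDefs

/-!
# CMT-RVan: sums over antidiagonals of finitely supported functions
-/

set_option autoImplicit false
set_option linter.unusedSectionVars false

namespace Pool.Agent.CMT.Rec

open Finset MvPowerSeries

noncomputable section

variable {ι : Type} [Fintype ι] [DecidableEq ι]

theorem prod_anti {R : Type*} [CommSemiring R] (A : ι →₀ ℕ) (g : ι → ℕ → ℕ → R) :
    ∑ p ∈ antidiagonal A, ∏ i, g i (p.1 i) (p.2 i) = ∏ i, ∑ q ∈ antidiagonal (A i), g i q.1 q.2 := by
  rw [Finset.prod_univ_sum]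
  symm
  refine Finset.sum_bij' (fun x _ => (Finsupp.equivFunOnFinite.symm (fun i => (x i).1),
    Finsupp.equivFunOnFinite.symm (fun i => (x i).2))) (fun p _ => fun i => (p.1 i, p.2 i)) ?_ ?_ ?_ ?_ ?_
  · intro x hx
    rw [Finset.HasAntidiagonal.mem_antidiagonal]
    ext i
    have h1 := Finset.HasAntidiagonal.mem_antidiagonal.1 ((Fintype.mem_piFinset.1 hx) i)
    simpa using h1
  · intro p hp
    rw [Fintype.mem_piFinset]
    intro i
    rw [Finset.HasAntidiagonal.mem_antidiagonal]
    have h1 := Finset.HasAntidiagonal.mem_antidiagonal.1 hp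
    rw [← h1]
    rfl
  · intro x _
    rfl
  · intro p _
    refine Prod.ext ?_ ?_
    · ext i
      rfl
    · ext i
      rfl
  · intro x _
    rfl

private theorem van_inner (B C m m' : ι →₀ ℕ) (h : m + m' = B + C) (p : (ι →₀ ℕ) × (ι →₀ ℕ))
    (hp : p.1 + p.2 = B) :
    ∑ q ∈ antidiagonal C, (if q.1 + p.1 = m then mb q.1 p.1 * mb q.2 p.2 else 0) =
      ∏ i, ((m i).choose (p.1 i) * (m' i).choose (p.2 i)) := by
  have hc : ∀ i, m i + m' i = B i + C i := by
    intro i
    have := DFunLike.congr_fun h i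
    simpa using this
  have hb : ∀ i, p.1 i + p.2 i = B i := by
    intro i
    have := DFunLike.congr_fun hp i
    simpa using this
  have key : ∀ q ∈ antidiagonal C, q.1 + p.1 = m →
      ∀ i, q.1 i + p.1 i = m i ∧ q.2 i + p.2 i = m' i := by
    intro q hq h1 i
    rw [Finset.HasAntidiagonal.mem_antidiagonal] at hq
    have e1 : q.1 i + q.2 i = C i := by
      have := DFunLike.congr_fun hq i
      simpa using this
    have e2 : q.1 i + p.1 i = m i := by
      have := DFunLike.congr_fun h1 i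
      simpa using this
    have e3 := hc i
    have e4 := hb i
    exact ⟨e2, by omega⟩
  by_cases hle : p.1 ≤ m ∧ p.2 ≤ m'
  · obtain ⟨hl1, hl2⟩ := hle
    have hm0 : (m - p.1, m' - p.2) ∈ antidiagonal C := by
      rw [Finset.HasAntidiagonal.mem_antidiagonal]
      ext i
      have e1 : p.1 i ≤ m i := hl1 i
      have e2 : p.2 i ≤ m' i := hl2 i
      have e3 := hc i
      have e4 := hb i
      show (m - p.1) i + (m' - p.2) i = C i
      rw [Finsupp.tsub_apply, Finsupp.tsub_apply]
      omega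
    rw [Finset.sum_eq_single_of_mem (m - p.1, m' - p.2) hm0]
    · have e0 : (m - p.1) + p.1 = m := tsub_add_cancel_of_le hl1
      have e0' : (m' - p.2) + p.2 = m' := tsub_add_cancel_of_le hl2
      dsimp only
      rw [if_pos e0]
      unfold mb
      rw [← Finset.prod_mul_distrib]
      refine Finset.prod_congr rfl fun i _ => ?_
      have e1 : (m - p.1) i + p.1 i = m i := by
        have := DFunLike.congr_fun e0 i
        simpa using this
      have e2 : (m' - p.2) i + p.2 i = m' i := by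
        have := DFunLike.congr_fun e0' i
        simpa using this
      rw [e1, e2]
    · intro q hq hne
      rw [if_neg]
      intro h1
      apply hne
      have hk := key q hq h1
      refine Prod.ext ?_ ?_
      · ext i
        have := (hk i).1
        show q.1 i = (m - p.1) i
        rw [Finsupp.tsub_apply]
        omega
      · ext i
        have := (hk i).2
        show q.2 i = (m' - p.2) i
        rw [Finsupp.tsub_apply]
        omega
  · rw [Finset.sum_eq_zero]
    · symm
      rw [not_and_or] at hle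
      rcases hle with hle | hle
      · rw [Finsupp.le_def] at hle
        push Not at hle
        obtain ⟨i, hi⟩ := hle
        refine Finset.prod_eq_zero (mem_univ i) ?_
        rw [Nat.choose_eq_zero_of_lt hi, zero_mul]
      · rw [Finsupp.le_def] at hle
        push Not at hle
        obtain ⟨i, hi⟩ := hle
        refine Finset.prod_eq_zero (mem_univ i) ?_
        rw [Nat.choose_eq_zero_of_lt hi, mul_zero]
    · intro q hq
      rw [if_neg]
      intro h1
      apply hle
      have hk := key q hq h1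
      constructor
      · intro i
        have := (hk i).1
        omega
      · intro i
        have := (hk i).2
        omega

/-- Vandermonde -/
theorem van (B C m m' : ι →₀ ℕ) (h : m + m' = B + C) :
    ∑ p ∈ antidiagonal B, ∑ q ∈ antidiagonal C,
      (if q.1 + p.1 = m then mb q.1 p.1 * mb q.2 p.2 else 0) = mb C B := by
  have h1 : ∀ p ∈ antidiagonal B, ∑ q ∈ antidiagonal C,
      (if q.1 + p.1 = m then mb q.1 p.1 * mb q.2 p.2 else 0) =
      ∏ i, ((m i).choose (p.1 i) * (m' i).choose (p.2 i)) := by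
    intro p hp
    rw [Finset.HasAntidiagonal.mem_antidiagonal] at hp
    exact van_inner B C m m' h p hp
  rw [Finset.sum_congr rfl h1,
    prod_anti B (fun i a b => (m i).choose a * (m' i).choose b)]
  unfold mb
  refine Finset.prod_congr rfl fun i _ => ?_
  rw [← Nat.add_choose_eq]
  have h2 : m i + m' i = B i + C i := by
    have := DFunLike.congr_fun h i
    simpa using this
  rw [h2, add_comm]

/-- the double sum grouped by the orders, for any weights -/
theorem van_sum (B C : ι →₀ ℕ) (g : (ι →₀ ℕ) × (ι →₀ ℕ) → ℝ) :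
    ∑ p ∈ antidiagonal B, ∑ q ∈ antidiagonal C,
      ((mb q.1 p.1 : ℝ) * (mb q.2 p.2 : ℝ)) * g (q.1 + p.1, q.2 + p.2) =
    (mb C B : ℝ) * ∑ m ∈ antidiagonal (B + C), g m := by
  have h1 : ∀ m ∈ antidiagonal (B + C), (mb C B : ℝ) * g m =
      ∑ p ∈ antidiagonal B, ∑ q ∈ antidiagonal C,
        (if q.1 + p.1 = m.1 then ((mb q.1 p.1 : ℝ) * (mb q.2 p.2 : ℝ)) * g m else 0) := by
    intro m hm
    rw [Finset.HasAntidiagonal.mem_antidiagonal] at hm
    rw [← van B C m.1 m.2 hm, Nat.cast_sum, Finset.sum_mul]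
    refine Finset.sum_congr rfl fun p _ => ?_
    rw [Nat.cast_sum, Finset.sum_mul]
    refine Finset.sum_congr rfl fun q _ => ?_
    by_cases hq : q.1 + p.1 = m.1
    · rw [if_pos hq, if_pos hq, Nat.cast_mul]
    · rw [if_neg hq, if_neg hq, Nat.cast_zero, zero_mul]
  symm
  rw [Finset.mul_sum, Finset.sum_congr rfl h1, Finset.sum_comm]
  refine Finset.sum_congr rfl fun p hp => ?_
  rw [Finset.sum_comm]
  refine Finset.sum_congr rfl fun q hq => ?_
  rw [Finset.HasAntidiagonal.mem_antidiagonal] at hp hq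
  have h2 : (q.1 + p.1, q.2 + p.2) ∈ antidiagonal (B + C) := by
    rw [Finset.HasAntidiagonal.mem_antidiagonal]
    show q.1 + p.1 + (q.2 + p.2) = B + C
    rw [← hp, ← hq]
    abel
  rw [Finset.sum_eq_single_of_mem (q.1 + p.1, q.2 + p.2) h2]
  · rw [if_pos rfl]
  · intro m hm hne
    rw [if_neg]
    intro h3
    apply hne
    rw [Finset.HasAntidiagonal.mem_antidiagonal] at hm
    refine Prod.ext h3.symm ?_
    have h4 : (q.1 + p.1) + m.2 = (q.1 + p.1) + (q.2 + p.2) := by
      rw [h3, hm, ← h3, ← hp, ← hq]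
      abel
    exact add_left_cancel h4

theorem sum_mb (m : ι →₀ ℕ) : ∑ p ∈ antidiagonal m, mb p.1 p.2 = 2 ^ dg m := by
  unfold mb
  rw [prod_anti m (fun i a b => (a + b).choose b)]
  unfold dg
  rw [← Finset.prod_pow_eq_pow_sum]
  refine Finset.prod_congr rfl fun i _ => ?_
  have h := (Commute.all (1 : ℕ) 1).add_pow' (m i)
  rw [show (1 : ℕ) + 1 = 2 from rfl] at h
  rw [h]
  refine Finset.sum_congr rfl fun q hq => ?_
  rw [Finset.HasAntidiagonal.mem_antidiagonal] at hq
  rw [one_pow, one_pow, mul_one, smul_eq_mul, mul_one, ← hq]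
  exact (Nat.choose_symm_add).symm

theorem sum_mb_neg (m : ι →₀ ℕ) :
    ∑ p ∈ antidiagonal m, (-1 : ℤ) ^ dg p.2 * (mb p.1 p.2 : ℤ) = if m = 0 then 1 else 0 := by
  have h0 : ∀ p ∈ antidiagonal m, (-1 : ℤ) ^ dg p.2 * (mb p.1 p.2 : ℤ) =
      ∏ i, ((-1 : ℤ) ^ (p.2 i) * ((p.1 i + p.2 i).choose (p.2 i) : ℤ)) := by
    intro p _
    unfold dg mb
    rw [Finset.prod_mul_distrib, Finset.prod_pow_eq_pow_sum, Nat.cast_prod]
  rw [Finset.sum_congr rfl h0,
    prod_anti m (fun i a b => (-1 : ℤ) ^ b * ((a + b).choose b : ℤ))]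
  have h1 : ∀ i, ∑ q ∈ antidiagonal (m i), (-1 : ℤ) ^ q.2 * ((q.1 + q.2).choose q.2 : ℤ) =
      0 ^ (m i) := by
    intro i
    have h := (Commute.all (1 : ℤ) (-1)).add_pow' (m i)
    rw [show (1 : ℤ) + -1 = 0 from rfl] at h
    rw [h]
    refine Finset.sum_congr rfl fun q hq => ?_
    rw [Finset.HasAntidiagonal.mem_antidiagonal] at hq
    rw [one_pow, one_mul, nsmul_eq_mul, ← hq, Nat.choose_symm_add, mul_comm]
  rw [Finset.prod_congr rfl fun i _ => h1 i]
  by_cases hm : m = 0
  · rw [if_pos hm, hm]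
    simp
  · rw [if_neg hm]
    have h2 : ∃ i, m i ≠ 0 := by
      by_contra h3
      push Not at h3
      exact hm (Finsupp.ext h3)
    obtain ⟨i, hi⟩ := h2
    exact Finset.prod_eq_zero (mem_univ i) (zero_pow hi)

theorem inj_sum (A C : ι →₀ ℕ) (p : (ι →₀ ℕ) × (ι →₀ ℕ)) (hp : p ∈ antidiagonal A)
    (g : (ι →₀ ℕ) × (ι →₀ ℕ) → ℝ) (hg : ∀ m, 0 ≤ g m) :
    ∑ q ∈ antidiagonal C, g (q.1 + p.1, q.2 + p.2) ≤ ∑ m ∈ antidiagonal (A + C), g m := by
  rw [Finset.HasAntidiagonal.mem_antidiagonal] at hp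
  have hinj : Set.InjOn (fun q : (ι →₀ ℕ) × (ι →₀ ℕ) => (q.1 + p.1, q.2 + p.2))
      (antidiagonal C : Set ((ι →₀ ℕ) × (ι →₀ ℕ))) := by
    intro x _ y _ hxy
    have h1 := congrArg Prod.fst hxy
    have h2 := congrArg Prod.snd hxy
    exact Prod.ext (add_right_cancel h1) (add_right_cancel h2)
  rw [← Finset.sum_image (f := g) hinj]
  refine Finset.sum_le_sum_of_subset_of_nonneg ?_ fun m _ _ => hg m
  intro m hm
  rw [Finset.mem_image] at hm
  obtain ⟨q, hq, rfl⟩ := hm
  rw [Finset.HasAntidiagonal.mem_antidiagonal] at hq ⊢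
  show q.1 + p.1 + (q.2 + p.2) = A + C
  rw [← hp, ← hq]
  abel

end

end Pool.Agent.CMT.Rec
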