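import Pool.Agent.CMT.R2Defs
import Pool.Agent.CMT.RVan

/-!
# CMT-R2Dup: the duplication formula `φ(2X) ψ(0) = ∑ γ_{AA'} w_A(X) w_{A'}(X)`
-/

set_option autoImplicit false
set_option linter.unusedSectionVars false

namespace Pool.Agent.CMT.Rec

open Finset MvPowerSeries

noncomputable section

variable {ι : Type} [Fintype ι] [DecidableEq ι] {R : Type} [CommRing R]

private theorem r2_coeff_hw2 (A B : ι →₀ ℕ) (φ ψ : MvPowerSeries ι R) :
    coeff B (hw2 A φ ψ) = hc2 A B (fun n => coeff n φ) (fun n => coeff n ψ) := by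
  unfold hw2 hc2
  rw [map_sum]
  refine Finset.sum_congr rfl fun p _ => ?_
  have e : (-1 : MvPowerSeries ι R) ^ dg p.2 = MvPowerSeries.C ((-1 : R) ^ dg p.2) := by
    rw [map_pow, map_neg, map_one]
  rw [e, MvPowerSeries.coeff_C_mul, MvPowerSeries.coeff_mul, Finset.mul_sum]
  refine Finset.sum_congr rfl fun q _ => ?_
  have e1 : ∀ (χ : MvPowerSeries ι R) (n A : ι →₀ ℕ),
      coeff n (dd A χ) = (mb n A : R) * coeff (n + A) χ := fun χ n A => rfl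
  rw [e1, e1]
  unfold tm2
  ring

private theorem r2_regroup (n : ι →₀ ℕ) (F : (ι →₀ ℕ) × (ι →₀ ℕ) → (ι →₀ ℕ) × (ι →₀ ℕ) → R) :
    ∑ m ∈ antidiagonal n, ∑ p ∈ antidiagonal m.2, ∑ q ∈ antidiagonal m.1, F p q =
      ∑ s ∈ antidiagonal n, ∑ a ∈ antidiagonal s.1, ∑ b ∈ antidiagonal s.2,
        F (a.2, b.2) (a.1, b.1) := by
  have e1 : ∀ m ∈ antidiagonal n, (∑ p ∈ antidiagonal m.2, ∑ q ∈ antidiagonal m.1, F p q) =
      ∑ x ∈ antidiagonal m.2 ×ˢ antidiagonal m.1, F x.1 x.2 := by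
    intro m _
    rw [Finset.sum_product]
  have e2 : ∀ s ∈ antidiagonal n, (∑ a ∈ antidiagonal s.1, ∑ b ∈ antidiagonal s.2,
      F (a.2, b.2) (a.1, b.1)) =
      ∑ x ∈ antidiagonal s.1 ×ˢ antidiagonal s.2, F (x.1.2, x.2.2) (x.1.1, x.2.1) := by
    intro s _
    rw [Finset.sum_product]
  rw [Finset.sum_congr rfl e1, Finset.sum_congr rfl e2, Finset.sum_sigma', Finset.sum_sigma']
  refine Finset.sum_bij'
    (fun x _ => ⟨(x.2.2.1 + x.2.1.1, x.2.2.2 + x.2.1.2),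
      ((x.2.2.1, x.2.1.1), (x.2.2.2, x.2.1.2))⟩)
    (fun x _ => ⟨(x.2.1.1 + x.2.2.1, x.2.1.2 + x.2.2.2),
      ((x.2.1.2, x.2.2.2), (x.2.1.1, x.2.2.1))⟩) ?_ ?_ ?_ ?_ ?_
  · rintro ⟨m, p, q⟩ hx
    simp only [Finset.mem_sigma, Finset.mem_product, HasAntidiagonal.mem_antidiagonal] at hx ⊢
    obtain ⟨h1, h2, h3⟩ := hx
    refine ⟨?_, trivial, trivial⟩
    rw [← h1, ← h2, ← h3]
    abel
  · rintro ⟨s, a, b⟩ hx
    simp only [Finset.mem_sigma, Finset.mem_product, HasAntidiagonal.mem_antidiagonal] at hx ⊢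
    obtain ⟨h1, h2, h3⟩ := hx
    refine ⟨?_, trivial, trivial⟩
    rw [← h1, ← h2, ← h3]
    abel
  · rintro ⟨⟨m1, m2⟩, ⟨p1, p2⟩, ⟨q1, q2⟩⟩ hx
    simp only [Finset.mem_sigma, Finset.mem_product, HasAntidiagonal.mem_antidiagonal] at hx
    obtain ⟨h1, h2, h3⟩ := hx
    subst h2
    subst h3
    rfl
  · rintro ⟨⟨s1, s2⟩, ⟨a1, a2⟩, ⟨b1, b2⟩⟩ hx
    simp only [Finset.mem_sigma, Finset.mem_product, HasAntidiagonal.mem_antidiagonal] at hx
    obtain ⟨h1, h2, h3⟩ := hx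
    subst h2
    subst h3
    rfl
  · rintro ⟨⟨m1, m2⟩, ⟨p1, p2⟩, ⟨q1, q2⟩⟩ _
    rfl

private theorem r2_sum_mb (m : ι →₀ ℕ) :
    ∑ a ∈ antidiagonal m, (mb a.1 a.2 : R) = 2 ^ dg m := by
  have h := congrArg (fun x : ℕ => (x : R)) (sum_mb m)
  simpa using h

private theorem r2_sum_mb_neg (m : ι →₀ ℕ) :
    ∑ b ∈ antidiagonal m, (-1 : R) ^ dg b.2 * (mb b.1 b.2 : R) = if m = 0 then 1 else 0 := by
  have h := congrArg (fun x : ℤ => (x : R)) (sum_mb_neg m)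
  simpa using h

theorem PP2_dup {S : Finset (ι →₀ ℕ)} {γ : (ι →₀ ℕ) → (ι →₀ ℕ) → R} {φ ψ : MvPowerSeries ι R}
    (h : PP2 S γ φ ψ) (h1 : coeff 0 ψ = 1) :
    sc (fun _ => (2 : R)) φ = ∑ A ∈ S, ∑ A' ∈ S, C (γ A A') * (hw2 A φ ψ * hw2 A' φ ψ) := by
  ext n
  have hl : coeff n (sc (fun _ => (2 : R)) φ) = 2 ^ dg n * coeff n φ := by
    change (∏ i, (2 : R) ^ n i) * coeff n φ = 2 ^ dg n * coeff n φ
    rw [Finset.prod_pow_eq_pow_sum]
    rfl
  have hr : coeff n (∑ A ∈ S, ∑ A' ∈ S, C (γ A A') * (hw2 A φ ψ * hw2 A' φ ψ)) =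
      ∑ m ∈ antidiagonal n, coeff m.1 (hw2 m.2 φ ψ) := by
    have e : ∀ m ∈ antidiagonal n, coeff m.1 (hw2 m.2 φ ψ) =
        ∑ A ∈ S, ∑ A' ∈ S, γ A A' * (coeff m.1 (hw2 A φ ψ) * coeff m.2 (hw2 A' φ ψ)) := by
      intro m _
      conv_lhs => rw [h m.2]
      rw [map_sum]
      refine Finset.sum_congr rfl fun A _ => ?_
      rw [MvPowerSeries.coeff_C_mul, Finset.sum_mul]
      refine Finset.sum_congr rfl fun A' _ => ?_
      ring
    have e2 : (∑ m ∈ antidiagonal n, ∑ A ∈ S, ∑ A' ∈ S,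
        γ A A' * (coeff m.1 (hw2 A φ ψ) * coeff m.2 (hw2 A' φ ψ))) =
        ∑ A ∈ S, ∑ A' ∈ S, ∑ m ∈ antidiagonal n,
          γ A A' * (coeff m.1 (hw2 A φ ψ) * coeff m.2 (hw2 A' φ ψ)) := by
      rw [Finset.sum_comm]
      refine Finset.sum_congr rfl fun A _ => ?_
      rw [Finset.sum_comm]
    rw [Finset.sum_congr rfl e, e2, map_sum]
    refine Finset.sum_congr rfl fun A _ => ?_
    rw [map_sum]
    refine Finset.sum_congr rfl fun A' _ => ?_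
    rw [MvPowerSeries.coeff_C_mul, MvPowerSeries.coeff_mul, Finset.mul_sum]
  rw [hl, hr]
  have e3 : ∀ m ∈ antidiagonal n, coeff m.1 (hw2 m.2 φ ψ) =
      ∑ p ∈ antidiagonal m.2, ∑ q ∈ antidiagonal m.1,
        tm2 (fun n => coeff n φ) (fun n => coeff n ψ) p q := by
    intro m _
    rw [r2_coeff_hw2]
    rfl
  rw [Finset.sum_congr rfl e3, r2_regroup]
  have e4 : ∀ s ∈ antidiagonal n, (∑ a ∈ antidiagonal s.1, ∑ b ∈ antidiagonal s.2,
      tm2 (fun n => coeff n φ) (fun n => coeff n ψ) (a.2, b.2) (a.1, b.1)) =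
      (if s.2 = 0 then 1 else 0) * (2 ^ dg s.1 * (coeff s.1 φ * coeff s.2 ψ)) := by
    intro s _
    rw [← r2_sum_mb (R := R) s.1, ← r2_sum_mb_neg (R := R) s.2, Finset.sum_mul, Finset.sum_mul,
      Finset.sum_comm]
    refine Finset.sum_congr rfl fun b hb => ?_
    rw [Finset.mul_sum]
    refine Finset.sum_congr rfl fun a ha => ?_
    rw [HasAntidiagonal.mem_antidiagonal] at ha hb
    unfold tm2
    simp only
    rw [ha, hb]
    ring
  rw [Finset.sum_congr rfl e4, Finset.sum_eq_single (n, 0)]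
  · simp [h1]
  · rintro ⟨s1, s2⟩ hs hne
    rw [HasAntidiagonal.mem_antidiagonal] at hs
    rw [if_neg, zero_mul]
    intro h2
    apply hne
    simp only at h2 hs
    rw [h2, add_zero] at hs
    rw [h2, hs]
  · intro hn
    exact absurd (HasAntidiagonal.mem_antidiagonal.2 (add_zero n)) hn

end

end Pool.Agent.CMT.Rec
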