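import Pool.Agent.CMT.LShift

/-!
# CMT-LId: identity theorem

If `ev φ` vanishes on a ball, so do all its derivatives, hence all `ev (dd A φ)`; by the Taylor
expansion at the centre `ev φ` vanishes everywhere, in particular near `0`, where the values of
`ev (dd A φ)` at `0` are the coefficients.
-/

set_option autoImplicit false

namespace Pool.Agent.CMT

open Finset MvPowerSeries

noncomputable section

variable {ι : Type} [Fintype ι] [DecidableEq ι]

private theorem lid_dd_single (A : ι →₀ ℕ) (k : ι) (φ : MvPowerSeries ι ℂ) :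
    dd (Finsupp.single k 1) (dd A φ) =
      MvPowerSeries.C ((A k + 1 : ℕ) : ℂ) * dd (A + Finsupp.single k 1) φ := by
  ext n
  rw [coeff_C_mul, coeff_dd, coeff_dd, coeff_dd, ← mul_assoc, ← mul_assoc]
  have e1 : n + Finsupp.single k 1 + A = n + (A + Finsupp.single k 1) := by
    rw [add_assoc, add_comm (Finsupp.single k 1) A]
  rw [e1]
  congr 1
  have e2 : mb n (Finsupp.single k 1) * mb (n + Finsupp.single k 1) A =
      (A k + 1) * mb n (A + Finsupp.single k 1) := by
    unfold mb
    have e3 : (A k + 1) = ∏ i, if i = k then A k + 1 else 1 := by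
      rw [Finset.prod_ite_eq' Finset.univ k (fun _ => A k + 1), if_pos (Finset.mem_univ k)]
    rw [e3, ← Finset.prod_mul_distrib, ← Finset.prod_mul_distrib]
    refine Finset.prod_congr rfl fun i _ => ?_
    by_cases hi : i = k
    · subst hi
      rw [if_pos rfl, Finsupp.add_apply, Finsupp.add_apply, Finsupp.single_eq_same,
        Nat.choose_one_right]
      have h1 := Nat.choose_succ_right_eq (n i + (A i + 1)) (A i)
      have h2 : n i + (A i + 1) - A i = n i + 1 := by omega
      rw [h2] at h1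
      have h3 : n i + 1 + A i = n i + (A i + 1) := by omega
      rw [h3, mul_comm (n i + 1), ← h1, mul_comm]
    · rw [if_neg hi, Finsupp.add_apply, Finsupp.add_apply, Finsupp.single_apply,
        if_neg (Ne.symm hi)]
      simp
  exact_mod_cast e2

private theorem lid_dd_ball {φ : MvPowerSeries ι ℂ} (h : Ent φ) (x : ι → ℂ) {r : ℝ}
    (h0 : ∀ y ∈ Metric.ball x r, ev φ y = 0) :
    ∀ (m : ℕ) (A : ι →₀ ℕ), dg A = m → ∀ y ∈ Metric.ball x r, ev (dd A φ) y = 0 := by
  intro m
  induction m with
  | zero =>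
    intro A hA y hy
    have h1 : A = 0 := by
      ext i
      exact Finset.sum_eq_zero_iff.1 hA i (Finset.mem_univ i)
    rw [h1, dd_zero]
    exact h0 y hy
  | succ m ih =>
    intro A hA y hy
    have h1 : ∃ k, A k ≠ 0 := by
      by_contra hcon
      push Not at hcon
      have h2 : dg A = 0 := Finset.sum_eq_zero fun i _ => hcon i
      omega
    obtain ⟨k, hk⟩ := h1
    have hle : Finsupp.single k 1 ≤ A := by
      rw [Finsupp.single_le_iff]
      omega
    obtain ⟨B, hB⟩ : ∃ B, A = B + Finsupp.single k 1 := ⟨A - Finsupp.single k 1, by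
      rw [tsub_add_cancel_of_le hle]⟩
    have hBm : dg B = m := by
      have h2 : dg (Finsupp.single k 1 : ι →₀ ℕ) = 1 := by
        unfold dg
        rw [Finset.sum_eq_single k]
        · exact Finsupp.single_eq_same
        · intro i _ hi
          exact Finsupp.single_eq_of_ne hi
        · intro hk
          exact absurd (Finset.mem_univ k) hk
      rw [hB, dg_add, h2] at hA
      omega
    have hd := hasFDerivAt_ev (h.dd B) y
    have hev : ev (dd B φ) =ᶠ[nhds y] fun _ => 0 := by
      filter_upwards [Metric.isOpen_ball.mem_nhds hy] with w hw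
      exact ih B hBm w hw
    have hd0 : HasFDerivAt (ev (dd B φ)) (0 : (ι → ℂ) →L[ℂ] ℂ) y :=
      (hasFDerivAt_const (0 : ℂ) y).congr_of_eventuallyEq hev
    have h3 := congrArg (fun L : (ι → ℂ) →L[ℂ] ℂ => L (Pi.single k 1)) (hd.unique hd0)
    have h4 : ev (dd (Finsupp.single k 1) (dd B φ)) y = 0 := by
      simp only [ContinuousLinearMap.zero_apply] at h3
      rw [← h3, ContinuousLinearMap.sum_apply, Finset.sum_eq_single k]
      · simp
      · intro i _ hi
        simp [hi]
      · intro hk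
        exact absurd (Finset.mem_univ k) hk
    rw [lid_dd_single, ev_mul (Ent.C _) (h.dd _), ev_C] at h4
    rw [hB]
    rcases mul_eq_zero.1 h4 with h5 | h5
    · exact absurd h5 (Nat.cast_ne_zero.2 (Nat.succ_ne_zero _))
    · exact h5

theorem eq_zero_of_ball {φ : MvPowerSeries ι ℂ} (h : Ent φ) (x : ι → ℂ) {r : ℝ} (hr : 0 < r)
    (h0 : ∀ y ∈ Metric.ball x r, ev φ y = 0) : φ = 0 := by
  have h1 : ∀ y, ev φ y = 0 := by
    intro y
    have h2 := hasSum_shift h x (y - x)
    rw [add_sub_cancel] at h2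
    refine h2.unique ?_
    have h3 : (fun A : ι →₀ ℕ => ev (dd A φ) x * mo (y - x) A) = fun _ => 0 := by
      funext A
      rw [lid_dd_ball h x h0 _ A rfl x (Metric.mem_ball_self hr), zero_mul]
    rw [h3]
    exact hasSum_zero
  ext A
  have h4 := lid_dd_ball h 0 (r := 1) (fun y _ => h1 y) _ A rfl 0
    (Metric.mem_ball_self one_pos)
  rw [ev_zero, coeff_dd, zero_add] at h4
  have h5 : mb 0 A = 1 := by
    unfold mb
    refine Finset.prod_eq_one fun i _ => ?_
    rw [Finsupp.zero_apply, zero_add, Nat.choose_self]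
  rw [h5, Nat.cast_one, one_mul] at h4
  rw [h4]
  simp

theorem ev_inj {φ ψ : MvPowerSeries ι ℂ} (h : Ent φ) (h' : Ent ψ) (he : ∀ z, ev φ z = ev ψ z) :
    φ = ψ := by
  have h1 : φ - ψ = 0 := eq_zero_of_ball (h.sub h') 0 one_pos fun y _ => by
    rw [ev_sub h h', he y, sub_self]
  exact sub_eq_zero.1 h1

/-- finitely many non-zero entire functions have a common point of non-vanishing in every ball -/
theorem exists_common_ne {κ : Type} (s : Finset κ) {φ : κ → MvPowerSeries ι ℂ}
    (h : ∀ k ∈ s, Ent (φ k)) (h0 : ∀ k ∈ s, φ k ≠ 0) (x : ι → ℂ) {r : ℝ} (hr : 0 < r) :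
    ∃ y ∈ Metric.ball x r, ∀ k ∈ s, ev (φ k) y ≠ 0 := by
  by_contra hcon
  push Not at hcon
  have h1 : ∏ k ∈ s, φ k = 0 := by
    refine eq_zero_of_ball (Ent.prod s h) x hr fun y hy => ?_
    obtain ⟨k, hk, hk0⟩ := hcon y hy
    rw [ev_prod s h]
    exact Finset.prod_eq_zero hk hk0
  obtain ⟨k, hk, hk0⟩ := Finset.prod_eq_zero_iff.1 h1
  exact h0 k hk hk0

/-- if `ev φ * ev ψ = 0` near a point then one of them is `0` -/
theorem eq_zero_or_of_ball {φ ψ : MvPowerSeries ι ℂ} (h : Ent φ) (h' : Ent ψ) (x : ι → ℂ) {r : ℝ}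
    (hr : 0 < r) (h0 : ∀ y ∈ Metric.ball x r, ev φ y * ev ψ y = 0) : φ = 0 ∨ ψ = 0 := by
  have h1 : φ * ψ = 0 := eq_zero_of_ball (h.mul h') x hr fun y hy => by
    rw [ev_mul h h']
    exact h0 y hy
  exact mul_eq_zero.1 h1

end

end Pool.Agent.CMT
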