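import Pool.Agent.CMT.LDer

/-!
# CMT-LShift: Taylor expansion at an arbitrary point, differentiability

PLAN. `mo (x + y) n = ∑_{c + A = n} mb c A * mo x c * mo y A` (product of binomial theorems;
`Finset.sum` over `antidiagonal n`). So `ev φ (x + y) = ∑_n ∑_{(c,A) ∈ antidiagonal n} φ_{c+A} mb c A mo x c mo y A`, an
absolutely convergent double series over `(c, A)` (norms: the same with `‖x i‖ ≤ r`, `‖y i‖ ≤ r`, total
`≤ ∑_n ‖φ_n‖ (2r)^|n|`; `summable_norm` over the sigma type of antidiagonals, equivalence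
`Finset.sigmaAntidiagonalEquivProd`), rearranged as `∑_A mo y A ∑_c ...= ∑_A mo y A * ev (dd A φ) x`.
`hasFDerivAt_ev`: the tail `∑_{|A| ≥ 2}` is `O(‖y‖²)`: for `‖y‖ ≤ 1` its norm is
`≤ ‖y‖² ∑_A ‖ev (dd A φ) x‖` (sum with `y = (1,..,1)` of norms).
-/

set_option autoImplicit false

namespace Pool.Agent.CMT

open Finset MvPowerSeries

noncomputable section

variable {ι : Type} [Fintype ι] [DecidableEq ι]

private theorem lshift_prod_anti {R : Type*} [CommSemiring R] (A : ι →₀ ℕ) (g : ι → ℕ → ℕ → R) :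
    ∑ p ∈ antidiagonal A, ∏ i, g i (p.1 i) (p.2 i) = ∏ i, ∑ q ∈ antidiagonal (A i), g i q.1 q.2 := by
  rw [Finset.prod_univ_sum]
  symm
  refine Finset.sum_bij' (fun x _ => (Finsupp.equivFunOnFinite.symm (fun i => (x i).1),
    Finsupp.equivFunOnFinite.symm (fun i => (x i).2))) (fun p _ => fun i => (p.1 i, p.2 i)) ?_ ?_ ?_ ?_ ?_
  · intro x hx
    rw [Finset.HasAntidiagonal.mem_antidiagonal]
    ext i
    have h1 := Finset.HasAntidiagonal.mem_antidiagonal.1 ((Fintype.mem_piFinset.1 hx) i)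
    simpa using h1
  · intro p hp
    rw [Fintype.mem_piFinset]
    intro i
    rw [Finset.HasAntidiagonal.mem_antidiagonal]
    have h1 := Finset.HasAntidiagonal.mem_antidiagonal.1 hp
    rw [← h1]
    rfl
  · intro x _
    rfl
  · intro p _
    refine Prod.ext ?_ ?_
    · ext i
      rfl
    · ext i
      rfl
  · intro x _
    rfl

private theorem lshift_mo (x y : ι → ℂ) (n : ι →₀ ℕ) : mo (x + y) n =
    ∑ p ∈ antidiagonal n, (mb p.1 p.2 : ℂ) * (mo x p.1 * mo y p.2) := by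
  have h1 : ∀ p : (ι →₀ ℕ) × (ι →₀ ℕ), (mb p.1 p.2 : ℂ) * (mo x p.1 * mo y p.2) =
      ∏ i, (((p.1 i + p.2 i).choose (p.2 i) : ℕ) : ℂ) * (x i ^ p.1 i * y i ^ p.2 i) := by
    intro p
    unfold mb mo
    rw [Nat.cast_prod, ← Finset.prod_mul_distrib, ← Finset.prod_mul_distrib]
  rw [Finset.sum_congr rfl fun p _ => h1 p,
    lshift_prod_anti n (fun i a b => (((a + b).choose b : ℕ) : ℂ) * (x i ^ a * y i ^ b))]
  unfold mo
  refine Finset.prod_congr rfl fun i _ => ?_
  rw [Pi.add_apply, (Commute.all (x i) (y i)).add_pow' (n i)]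
  refine Finset.sum_congr rfl fun q hq => ?_
  rw [Finset.HasAntidiagonal.mem_antidiagonal] at hq
  rw [nsmul_eq_mul, ← hq, Nat.choose_symm_add]

private theorem lshift_pow (r : ℝ) (n : ι →₀ ℕ) : (r + r) ^ dg n =
    ∑ p ∈ antidiagonal n, (mb p.1 p.2 : ℝ) * (r ^ dg p.1 * r ^ dg p.2) := by
  have h := lshift_mo (fun _ : ι => (r : ℂ)) (fun _ => (r : ℂ)) n
  have h1 : ∀ (s : ℂ) (m : ι →₀ ℕ), mo (fun _ : ι => s) m = s ^ dg m := by
    intro s m
    unfold mo dg
    rw [Finset.prod_pow_eq_pow_sum]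
  have h2 : ((fun _ : ι => (r : ℂ)) + fun _ => (r : ℂ)) = fun _ => ((r : ℂ) + r) := by
    funext i; rfl
  rw [h2, h1] at h
  rw [Finset.sum_congr rfl fun p _ => by rw [h1, h1]] at h
  exact_mod_cast h

/-- the double family -/
private def lshift_G (φ : MvPowerSeries ι ℂ) (x y : ι → ℂ) (p : (ι →₀ ℕ) × (ι →₀ ℕ)) : ℂ :=
  (mb p.1 p.2 : ℂ) * coeff (p.1 + p.2) φ * (mo x p.1 * mo y p.2)

private theorem lshift_summable {φ : MvPowerSeries ι ℂ} (h : Ent φ) (x y : ι → ℂ) :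
    Summable (fun p => ‖lshift_G φ x y p‖) := by
  set r : ℝ := ‖x‖ + ‖y‖ with hr
  have hr0 : 0 ≤ r := by positivity
  have hx : ∀ i, ‖x i‖ ≤ r := fun i => (norm_le_pi_norm x i).trans (by
    rw [hr]; linarith [norm_nonneg y])
  have hy : ∀ i, ‖y i‖ ≤ r := fun i => (norm_le_pi_norm y i).trans (by
    rw [hr]; linarith [norm_nonneg x])
  have key : Summable (fun p : (ι →₀ ℕ) × (ι →₀ ℕ) =>
      ‖coeff (p.1 + p.2) φ‖ * ((mb p.1 p.2 : ℝ) * (r ^ dg p.1 * r ^ dg p.2))) := by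
    rw [← Finset.HasAntidiagonal.sigmaAntidiagonalEquivProd.summable_iff]
    rw [summable_sigma_of_nonneg (fun s => by
      simp only [Function.comp_apply]
      positivity)]
    refine ⟨fun n => (hasSum_fintype _).summable, ?_⟩
    refine (h (r + r) (by linarith)).congr fun n => ?_
    rw [tsum_fintype]
    have h3 : ∀ b : antidiagonal n, ((fun p : (ι →₀ ℕ) × (ι →₀ ℕ) =>
        ‖coeff (p.1 + p.2) φ‖ * ((mb p.1 p.2 : ℝ) * (r ^ dg p.1 * r ^ dg p.2))) ∘
        Finset.HasAntidiagonal.sigmaAntidiagonalEquivProd) ⟨n, b⟩ =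
        (fun p : (ι →₀ ℕ) × (ι →₀ ℕ) =>
          ‖coeff n φ‖ * ((mb p.1 p.2 : ℝ) * (r ^ dg p.1 * r ^ dg p.2))) b.1 := by
      intro b
      have hb := Finset.HasAntidiagonal.mem_antidiagonal.1 b.2
      show ‖coeff (b.1.1 + b.1.2) φ‖ * _ = _
      rw [hb]
      rfl
    rw [Finset.sum_congr rfl fun b _ => h3 b, Finset.sum_coe_sort (antidiagonal n)
      (fun p : (ι →₀ ℕ) × (ι →₀ ℕ) =>
          ‖coeff n φ‖ * ((mb p.1 p.2 : ℝ) * (r ^ dg p.1 * r ^ dg p.2))), ← Finset.mul_sum,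
      ← lshift_pow]
  refine Summable.of_nonneg_of_le (fun p => norm_nonneg _) (fun p => ?_) key
  unfold lshift_G
  rw [norm_mul, norm_mul, norm_mul, Complex.norm_natCast]
  have h1 := norm_mo_le x hx p.1
  have h2 := norm_mo_le y hy p.2
  calc (mb p.1 p.2 : ℝ) * ‖coeff (p.1 + p.2) φ‖ * (‖mo x p.1‖ * ‖mo y p.2‖)
      ≤ (mb p.1 p.2 : ℝ) * ‖coeff (p.1 + p.2) φ‖ * (r ^ dg p.1 * r ^ dg p.2) := by gcongr
    _ = _ := by ring

private theorem lshift_tsum {φ : MvPowerSeries ι ℂ} (h : Ent φ) (x y : ι → ℂ) :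
    ∑' p, lshift_G φ x y p = ev φ (x + y) := by
  rw [← Finset.HasAntidiagonal.sigmaAntidiagonalEquivProd.tsum_eq (lshift_G φ x y)]
  have hs : Summable (fun s : (Σ n : ι →₀ ℕ, antidiagonal n) =>
      lshift_G φ x y (Finset.HasAntidiagonal.sigmaAntidiagonalEquivProd s)) :=
    (Finset.HasAntidiagonal.sigmaAntidiagonalEquivProd.summable_iff (f := lshift_G φ x y)).2
      (lshift_summable h x y).of_norm
  rw [hs.tsum_sigma' (fun n => (hasSum_fintype _).summable)]
  unfold ev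
  refine tsum_congr fun n => ?_
  rw [tsum_fintype]
  have h3 : ∀ b : antidiagonal n,
      lshift_G φ x y (Finset.HasAntidiagonal.sigmaAntidiagonalEquivProd ⟨n, b⟩) =
        (fun p : (ι →₀ ℕ) × (ι →₀ ℕ) =>
          coeff n φ * ((mb p.1 p.2 : ℂ) * (mo x p.1 * mo y p.2))) b.1 := by
    intro b
    have hb := Finset.HasAntidiagonal.mem_antidiagonal.1 b.2
    show (mb b.1.1 b.1.2 : ℂ) * coeff (b.1.1 + b.1.2) φ * (mo x b.1.1 * mo y b.1.2) =
      coeff n φ * ((mb b.1.1 b.1.2 : ℂ) * (mo x b.1.1 * mo y b.1.2))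
    rw [hb]
    ring
  rw [Finset.sum_congr rfl fun b _ => h3 b, Finset.sum_coe_sort (antidiagonal n)
    (fun p : (ι →₀ ℕ) × (ι →₀ ℕ) =>
        coeff n φ * ((mb p.1 p.2 : ℂ) * (mo x p.1 * mo y p.2))), ← Finset.mul_sum,
    ← lshift_mo]

private theorem lshift_inner {φ : MvPowerSeries ι ℂ} (h : Ent φ) (x y : ι → ℂ) (A : ι →₀ ℕ) :
    HasSum (fun c : ι →₀ ℕ => lshift_G φ x y (c, A)) (ev (dd A φ) x * mo y A) := by
  have h1 := ((h.dd A).summable x).of_norm.hasSum.mul_right (mo y A)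
  have h2 : (fun c : ι →₀ ℕ => lshift_G φ x y (c, A)) =
      fun c => coeff c (dd A φ) * mo x c * mo y A := by
    funext c
    rw [coeff_dd]
    unfold lshift_G
    ring
  rw [h2]
  exact h1

private theorem lshift_swap {φ : MvPowerSeries ι ℂ} (h : Ent φ) (x y : ι → ℂ) :
    Summable (fun p : (ι →₀ ℕ) × (ι →₀ ℕ) => ‖lshift_G φ x y (p.2, p.1)‖) :=
  (Equiv.prodComm (ι →₀ ℕ) (ι →₀ ℕ)).summable_iff.2 (lshift_summable h x y)

theorem summable_shift {φ : MvPowerSeries ι ℂ} (h : Ent φ) (x y : ι → ℂ) :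
    Summable (fun A : ι →₀ ℕ => ‖ev (dd A φ) x * mo y A‖) := by
  have h1 := lshift_swap h x y
  refine Summable.of_nonneg_of_le (fun A => norm_nonneg _) (fun A => ?_) h1.prod
  have h2 : Summable (fun c : ι →₀ ℕ => ‖lshift_G φ x y (c, A)‖) := h1.prod_factor A
  rw [← (lshift_inner h x y A).tsum_eq]
  exact norm_tsum_le_tsum_norm h2

theorem hasSum_shift {φ : MvPowerSeries ι ℂ} (h : Ent φ) (x y : ι → ℂ) :
    HasSum (fun A : ι →₀ ℕ => ev (dd A φ) x * mo y A) (ev φ (x + y)) := by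
  have h1 := (lshift_swap h x y).of_norm.hasSum
  have h2 : ∑' p : (ι →₀ ℕ) × (ι →₀ ℕ), lshift_G φ x y (p.2, p.1) = ev φ (x + y) := by
    rw [← lshift_tsum h x y]
    exact (Equiv.prodComm (ι →₀ ℕ) (ι →₀ ℕ)).tsum_eq (lshift_G φ x y)
  rw [h2] at h1
  exact h1.prod_fiberwise fun A => lshift_inner h x y A

private theorem lshift_dg_zero {A : ι →₀ ℕ} (h : dg A = 0) : A = 0 := by
  unfold dg at h
  ext i
  have := (Finset.sum_eq_zero_iff.1 h) i (Finset.mem_univ i)
  simpa using this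

private theorem lshift_dg_one {A : ι →₀ ℕ} (h : dg A = 1) : ∃ k, A = Finsupp.single k 1 := by
  have h0 : A ≠ 0 := by
    rintro rfl
    simp [dg] at h
  obtain ⟨k, hk⟩ := Finsupp.ne_iff.1 h0
  have hk1 : 1 ≤ A k := Nat.one_le_iff_ne_zero.2 (by simpa using hk)
  refine ⟨k, ?_⟩
  have h1 : dg A = A k + ∑ i ∈ Finset.univ.erase k, A i := by
    unfold dg
    rw [Finset.add_sum_erase _ _ (Finset.mem_univ k)]
  have h2 : ∑ i ∈ Finset.univ.erase k, A i = 0 := by omega
  ext i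
  by_cases hi : i = k
  · subst hi
    rw [Finsupp.single_eq_same]
    omega
  · rw [Finsupp.single_eq_of_ne hi]
    exact (Finset.sum_eq_zero_iff.1 h2) i (Finset.mem_erase.2 ⟨hi, Finset.mem_univ i⟩)

private theorem lshift_mo_single (y : ι → ℂ) (k : ι) : mo y (Finsupp.single k 1) = y k := by
  unfold mo
  rw [Finset.prod_eq_single k]
  · rw [Finsupp.single_eq_same, pow_one]
  · intro i _ hi
    rw [Finsupp.single_eq_of_ne hi, pow_zero]
  · intro hk
    exact absurd (Finset.mem_univ k) hk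

private theorem lshift_tail {φ : MvPowerSeries ι ℂ} (h : Ent φ) (x : ι → ℂ) :
    ∃ M : ℝ, ∀ y : ι → ℂ, ‖y‖ ≤ 1 →
      ‖ev φ (x + y) - ev φ x - ∑ k, ev (dd (Finsupp.single k 1) φ) x * y k‖ ≤ M * ‖y‖ ^ 2 := by
  classical
  have h1 := summable_shift h x (fun _ => (1 : ℂ))
  have h1' : Summable (fun A : ι →₀ ℕ => ‖ev (dd A φ) x‖) := by
    refine h1.congr fun A => ?_
    have : mo (fun _ : ι => (1 : ℂ)) A = 1 := by
      unfold mo; simp
    rw [this, mul_one]
  refine ⟨∑' A : ι →₀ ℕ, ‖ev (dd A φ) x‖, fun y hy => ?_⟩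
  set F : Finset (ι →₀ ℕ) := insert 0 (Finset.univ.image fun k : ι => Finsupp.single k 1) with hF
  have h0F : (0 : ι →₀ ℕ) ∉ Finset.univ.image fun k : ι => (Finsupp.single k 1 : ι →₀ ℕ) := by
    intro h2
    obtain ⟨k, _, hk⟩ := Finset.mem_image.1 h2
    have := DFunLike.congr_fun hk k
    rw [Finsupp.single_eq_same] at this
    simp at this
  have hsum : ∑ A ∈ F, ev (dd A φ) x * mo y A =
      ev φ x + ∑ k, ev (dd (Finsupp.single k 1) φ) x * y k := by
    rw [hF, Finset.sum_insert h0F, dd_zero, Finset.sum_image]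
    · congr 1
      · have : mo y 0 = 1 := by unfold mo; simp
        rw [this, mul_one]
      · exact Finset.sum_congr rfl fun k _ => by rw [lshift_mo_single]
    · intro a _ b _ hab
      exact (Finsupp.single_left_injective one_ne_zero) hab
  have hf := hasSum_shift h x y
  have hg : HasSum (fun A : ι →₀ ℕ => if A ∈ F then ev (dd A φ) x * mo y A else 0)
      (∑ A ∈ F, ev (dd A φ) x * mo y A) := by
    have h3 : HasSum (fun A : ι →₀ ℕ => if A ∈ F then ev (dd A φ) x * mo y A else 0)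
        (∑ A ∈ F, if A ∈ F then ev (dd A φ) x * mo y A else 0) :=
      hasSum_sum_of_ne_finset_zero (fun A hA => if_neg hA)
    rwa [Finset.sum_congr rfl fun A hA => if_pos hA] at h3
  have hd := hf.sub hg
  rw [hsum] at hd
  have hb : ∀ A : ι →₀ ℕ, ‖ev (dd A φ) x * mo y A -
      (if A ∈ F then ev (dd A φ) x * mo y A else 0)‖ ≤ ‖ev (dd A φ) x‖ * ‖y‖ ^ 2 := by
    intro A
    by_cases hA : A ∈ F
    · rw [if_pos hA, sub_self, norm_zero]
      positivity
    · rw [if_neg hA, sub_zero, norm_mul]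
      refine mul_le_mul_of_nonneg_left ?_ (norm_nonneg _)
      have h4 : 2 ≤ dg A := by
        by_contra hc
        have h5 : dg A = 0 ∨ dg A = 1 := by omega
        rcases h5 with h5 | h5
        · apply hA
          rw [lshift_dg_zero h5, hF]
          exact Finset.mem_insert_self _ _
        · obtain ⟨k, hk⟩ := lshift_dg_one h5
          apply hA
          rw [hk, hF]
          exact Finset.mem_insert_of_mem (Finset.mem_image.2 ⟨k, Finset.mem_univ k, rfl⟩)
      exact (norm_mo_le y (fun i => norm_le_pi_norm y i) A).trans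
        (pow_le_pow_of_le_one (norm_nonneg y) hy h4)
  have hr := (h1'.mul_right (‖y‖ ^ 2))
  have h6 := norm_tsum_le_tsum_norm (Summable.of_nonneg_of_le (fun A => norm_nonneg _) hb hr)
  rw [hd.tsum_eq] at h6
  rw [sub_sub]
  refine h6.trans ?_
  rw [← tsum_mul_right]
  exact (Summable.of_nonneg_of_le (fun A => norm_nonneg _) hb hr).tsum_le_tsum hb hr

/-- the differential of `ev φ` -/
theorem hasFDerivAt_ev {φ : MvPowerSeries ι ℂ} (h : Ent φ) (x : ι → ℂ) :
    HasFDerivAt (ev φ) (∑ k, ev (dd (Finsupp.single k 1) φ) x •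
      (ContinuousLinearMap.proj k : (ι → ℂ) →L[ℂ] ℂ)) x := by
  rw [hasFDerivAt_iff_isLittleO_nhds_zero]
  obtain ⟨M, hM⟩ := lshift_tail h x
  have h1 : (fun y : ι → ℂ => ev φ (x + y) - ev φ x - (∑ k, ev (dd (Finsupp.single k 1) φ) x •
      (ContinuousLinearMap.proj k : (ι → ℂ) →L[ℂ] ℂ)) y) =O[nhds 0] fun y => ‖y‖ ^ 2 := by
    rw [Asymptotics.isBigO_iff]
    refine ⟨M, ?_⟩
    filter_upwards [Metric.closedBall_mem_nhds (0 : ι → ℂ) one_pos] with y hy
    rw [mem_closedBall_zero_iff] at hy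
    have h2 := hM y hy
    rw [norm_pow, norm_norm]
    refine le_trans (le_of_eq ?_) h2
    congr 2
    rw [_root_.sum_apply]
    exact Finset.sum_congr rfl fun k _ => by
      rw [_root_.smul_apply, ContinuousLinearMap.proj_apply, smul_eq_mul]
  exact h1.trans_isLittleO (Asymptotics.isLittleO_norm_pow_id one_lt_two)

theorem ev_differentiable {φ : MvPowerSeries ι ℂ} (h : Ent φ) : Differentiable ℂ (ev φ) :=
  fun x => (hasFDerivAt_ev h x).differentiableAt

/-- the shifted function is given by a power series, too -/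
theorem exists_shift {φ : MvPowerSeries ι ℂ} (h : Ent φ) (x : ι → ℂ) :
    ∃ ψ : MvPowerSeries ι ℂ, Ent ψ ∧ (∀ y, ev ψ y = ev φ (x + y)) ∧
      ∀ A, coeff A ψ = ev (dd A φ) x := by
  refine ⟨fun A => ev (dd A φ) x, ?_, ?_, fun A => rfl⟩
  · intro r hr
    refine (summable_shift h x (fun _ => (r : ℂ))).congr fun A => ?_
    have h1 : mo (fun _ : ι => (r : ℂ)) A = (r : ℂ) ^ dg A := by
      unfold mo dg
      rw [Finset.prod_pow_eq_pow_sum]
    rw [h1, norm_mul, norm_pow, Complex.norm_real, Real.norm_of_nonneg hr]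
    rfl
  · intro y
    exact (hasSum_shift h x y).tsum_eq

end

end Pool.Agent.CMT
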