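import Pool.Agent.CMT.R2Defs
import Pool.Agent.CMT.LShift
import Pool.Agent.CMT.LId

/-! # CMT-R2Fin: from the functions to the Taylor series -/

set_option autoImplicit false
set_option linter.unusedSectionVars false

namespace Pool.Agent.CMT.Rec

open Finset MvPowerSeries

noncomputable section

variable {ι : Type} [Fintype ι] [DecidableEq ι]

/-- finitely many evaluations separate the elements of a finite-dimensional space of functions -/
private theorem r2f_sep {X : Type*} :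
    ∀ (n : ℕ) (W : Submodule ℂ (X → ℂ)), FiniteDimensional ℂ W → Module.finrank ℂ W = n →
      ∃ F : Finset X, ∀ f ∈ W, (∀ x ∈ F, f x = 0) → f = 0 := by
  classical
  intro n
  induction n using Nat.strong_induction_on with
  | _ n ih =>
    intro W hW hn
    by_cases hbot : W = ⊥
    · refine ⟨∅, fun f hf _ => ?_⟩
      rw [hbot] at hf
      exact (Submodule.mem_bot ℂ).1 hf
    · obtain ⟨f, hf, hf0⟩ := (Submodule.ne_bot_iff W).1 hbot
      obtain ⟨x, hx⟩ : ∃ x, f x ≠ 0 := by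
        by_contra hcon
        push Not at hcon
        exact hf0 (funext hcon)
      obtain ⟨V, hV⟩ : ∃ V : Submodule ℂ (X → ℂ), V = W ⊓ LinearMap.ker (LinearMap.proj x : (X → ℂ) →ₗ[ℂ] ℂ) :=
        ⟨_, rfl⟩
      have hVW : V ≤ W := by rw [hV]; exact inf_le_left
      have hlt : V < W := by
        refine lt_of_le_of_ne hVW fun he => hx ?_
        have h1 : f ∈ V := by rw [he]; exact hf
        rw [hV] at h1
        exact LinearMap.mem_ker.1 h1.2
      have hVf : FiniteDimensional ℂ V := Submodule.finiteDimensional_of_le hVW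
      have hr : Module.finrank ℂ V < n := by
        rw [← hn]
        exact Submodule.finrank_lt_finrank_of_lt hlt
      obtain ⟨F, hF⟩ := ih _ hr V hVf rfl
      refine ⟨insert x F, fun g hg h0 => ?_⟩
      refine hF g ?_ fun y hy => h0 y (Finset.mem_insert_of_mem hy)
      rw [hV]
      exact ⟨hg, LinearMap.mem_ker.2 (h0 x (Finset.mem_insert_self x F))⟩

theorem exists_points {X : Type*} (W : Submodule ℂ (X → ℂ)) (hW : FiniteDimensional ℂ W) :
    ∃ (k : ℕ) (x : Fin k → X) (w : Fin k → X → ℂ), (∀ j, w j ∈ W) ∧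
      ∀ f ∈ W, f = ∑ j, f (x j) • w j := by
  classical
  obtain ⟨F, hF⟩ := r2f_sep _ W hW rfl
  obtain ⟨k, x, hx⟩ : ∃ (k : ℕ) (x : Fin k → X), ∀ y ∈ F, ∃ j, x j = y := by
    refine ⟨F.card, fun j => (F.equivFin.symm j : X), fun y hy => ⟨F.equivFin ⟨y, hy⟩, ?_⟩⟩
    show ((F.equivFin.symm (F.equivFin ⟨y, hy⟩) : F) : X) = y
    rw [Equiv.symm_apply_apply]
  obtain ⟨L, hL⟩ : ∃ L : W →ₗ[ℂ] (Fin k → ℂ), ∀ (f : W) (j : Fin k), L f j = (f : X → ℂ) (x j) :=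
    ⟨{ toFun := fun f j => (f : X → ℂ) (x j)
       map_add' := fun f g => by funext j; rfl
       map_smul' := fun c f => by funext j; rfl }, fun f j => rfl⟩
  have hinj : LinearMap.ker L = ⊥ := by
    rw [LinearMap.ker_eq_bot']
    intro f hf
    refine Subtype.ext (hF f f.2 fun y hy => ?_)
    obtain ⟨j, hj⟩ := hx y hy
    rw [← hj, ← hL, hf]
    rfl
  obtain ⟨g, hg⟩ := LinearMap.exists_leftInverse_of_injective L hinj
  refine ⟨k, x, fun j => (g (Pi.single j 1) : X → ℂ), fun j => (g (Pi.single j 1)).2, ?_⟩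
  intro f hf
  have h1 : g (L ⟨f, hf⟩) = ⟨f, hf⟩ := by
    have h2 := congrArg (fun T : W →ₗ[ℂ] W => T ⟨f, hf⟩) hg
    exact h2
  have h3 : L ⟨f, hf⟩ = ∑ j, f (x j) • (Pi.single j (1 : ℂ) : Fin k → ℂ) := by
    funext i
    rw [hL, Finset.sum_apply, Finset.sum_eq_single i]
    · simp
    · intro j _ hj
      simp [Ne.symm hj]
    · intro hi
      exact absurd (Finset.mem_univ i) hi
  have h4 : (f : X → ℂ) = ((g (L ⟨f, hf⟩) : W) : X → ℂ) := by rw [h1]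
  rw [h3, map_sum] at h4
  refine h4.trans ?_
  rw [Submodule.coe_sum]
  refine Finset.sum_congr rfl fun j _ => ?_
  rw [map_smul, Submodule.coe_smul]

omit [DecidableEq ι] in
private theorem r2f_mo_neg (y : ι → ℂ) (A : ι →₀ ℕ) : mo (-y) A = (-1) ^ dg A * mo y A := by
  unfold mo dg
  rw [← Finset.prod_pow_eq_pow_sum, ← Finset.prod_mul_distrib]
  refine Finset.prod_congr rfl fun i _ => ?_
  rw [Pi.neg_apply, neg_pow]

private theorem r2f_ev_one (x : ι → ℂ) : ev (1 : MvPowerSeries ι ℂ) x = 1 := by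
  have h := ev_C (ι := ι) 1 x
  rwa [map_one] at h

private theorem r2f_ent_term {φ ψ : MvPowerSeries ι ℂ} (h : Ent φ) (h' : Ent ψ) (p : (ι →₀ ℕ) × (ι →₀ ℕ)) :
    Ent ((-1 : MvPowerSeries ι ℂ) ^ dg p.2 * (dd p.1 φ * dd p.2 ψ)) := by
  have h1 : Ent (-1 : MvPowerSeries ι ℂ) := Ent.one.neg
  exact (h1.pow _).mul ((h.dd p.1).mul (h'.dd p.2))

private theorem r2f_ev_term {φ ψ : MvPowerSeries ι ℂ} (h : Ent φ) (h' : Ent ψ) (x : ι → ℂ)
    (p : (ι →₀ ℕ) × (ι →₀ ℕ)) :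
    ev ((-1 : MvPowerSeries ι ℂ) ^ dg p.2 * (dd p.1 φ * dd p.2 ψ)) x =
      (-1) ^ dg p.2 * (ev (dd p.1 φ) x * ev (dd p.2 ψ) x) := by
  have h1 : Ent (-1 : MvPowerSeries ι ℂ) := Ent.one.neg
  rw [ev_mul (h1.pow _) ((h.dd p.1).mul (h'.dd p.2)), ev_mul (h.dd p.1) (h'.dd p.2), ev_pow h1,
    ev_neg, r2f_ev_one]

private theorem r2f_ent_hw {φ ψ : MvPowerSeries ι ℂ} (h : Ent φ) (h' : Ent ψ) (A : ι →₀ ℕ) :
    Ent (hw2 A φ ψ) :=
  Ent.sum (antidiagonal A) fun p _ => r2f_ent_term h h' p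

private theorem r2f_ev_hw {φ ψ : MvPowerSeries ι ℂ} (h : Ent φ) (h' : Ent ψ) (x : ι → ℂ) (A : ι →₀ ℕ) :
    ev (hw2 A φ ψ) x = ∑ p ∈ antidiagonal A, (-1 : ℂ) ^ dg p.2 * (ev (dd p.1 φ) x * ev (dd p.2 ψ) x) := by
  have h3 := ev_sum (antidiagonal A) (fun p _ => r2f_ent_term h h' p) x
  refine Eq.trans h3 ?_
  exact Finset.sum_congr rfl fun p _ => r2f_ev_term h h' x p

theorem hasSum_hw2 {φ ψ : MvPowerSeries ι ℂ} (h : Ent φ) (h' : Ent ψ) (x y : ι → ℂ) :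
    HasSum (fun A : ι →₀ ℕ => ev (hw2 A φ ψ) x * mo y A) (ev φ (x + y) * ev ψ (x - y)) := by
  obtain ⟨f, hfd⟩ : ∃ f : (ι →₀ ℕ) → ℂ, f = fun A => ev (dd A φ) x * mo y A := ⟨_, rfl⟩
  obtain ⟨g, hgd⟩ : ∃ g : (ι →₀ ℕ) → ℂ, g = fun A => ev (dd A ψ) x * mo (-y) A := ⟨_, rfl⟩
  have hf : Summable fun A => ‖f A‖ := by
    rw [hfd]; exact summable_shift h x y
  have hg : Summable fun A => ‖g A‖ := by
    rw [hgd]; exact summable_shift h' x (-y)
  have hf1 : ∑' A, f A = ev φ (x + y) := by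
    rw [hfd]; exact (hasSum_shift h x y).tsum_eq
  have hg1 : ∑' A, g A = ev ψ (x - y) := by
    rw [hgd, sub_eq_add_neg]; exact (hasSum_shift h' x (-y)).tsum_eq
  have e2 : ∀ A : ι →₀ ℕ, ev (hw2 A φ ψ) x * mo y A = ∑ p ∈ antidiagonal A, f p.1 * g p.2 := by
    intro A
    rw [r2f_ev_hw h h', Finset.sum_mul]
    refine Finset.sum_congr rfl fun p hp => ?_
    rw [hfd, hgd]
    show _ = (ev (dd p.1 φ) x * mo y p.1) * (ev (dd p.2 ψ) x * mo (-y) p.2)
    rw [r2f_mo_neg, ← mem_antidiagonal.1 hp, mo_add]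
    ring
  have hfg : Summable fun p : (ι →₀ ℕ) × (ι →₀ ℕ) => f p.1 * g p.2 :=
    summable_mul_of_summable_norm hf hg
  have e1 := hf.of_norm.tsum_mul_tsum_eq_tsum_sum_antidiagonal hg.of_norm hfg
  have hs := (summable_sum_mul_antidiagonal_of_summable_mul hfg).hasSum
  rw [← e1, hf1, hg1] at hs
  exact hs.congr_fun e2

/-- the Taylor series of `y ↦ f(x+y) s(x-y)` -/
private def r2f_T (φ ψ : MvPowerSeries ι ℂ) (x : ι → ℂ) : MvPowerSeries ι ℂ :=
  fun A => ev (hw2 A φ ψ) x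

private theorem r2f_coeff_T (φ ψ : MvPowerSeries ι ℂ) (x : ι → ℂ) (A : ι →₀ ℕ) :
    coeff A (r2f_T φ ψ x) = ev (hw2 A φ ψ) x := rfl

private theorem r2f_ev_T {φ ψ : MvPowerSeries ι ℂ} (h : Ent φ) (h' : Ent ψ) (x y : ι → ℂ) :
    ev (r2f_T φ ψ x) y = ev φ (x + y) * ev ψ (x - y) :=
  (hasSum_hw2 h h' x y).tsum_eq

private theorem r2f_ent_T {φ ψ : MvPowerSeries ι ℂ} (h : Ent φ) (h' : Ent ψ) (x : ι → ℂ) :
    Ent (r2f_T φ ψ x) := by
  obtain ⟨φ', hφ', -, hc⟩ := exists_shift h x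
  obtain ⟨ψ', hψ', -, hc'⟩ := exists_shift h' x
  have he : r2f_T φ ψ x = φ' * sc (fun _ => -1) ψ' := by
    ext A
    rw [r2f_coeff_T, r2f_ev_hw h h', coeff_mul]
    refine Finset.sum_congr rfl fun p _ => ?_
    rw [coeff_sc, hc, hc']
    have h2 : (∏ i, (-1 : ℂ) ^ p.2 i) = (-1) ^ dg p.2 := by
      unfold dg
      rw [Finset.prod_pow_eq_pow_sum]
    rw [h2]
    ring
  rw [he]
  exact hφ'.mul (hψ'.sc _)

theorem fin_span {φ ψ : MvPowerSeries ι ℂ} (h : Ent φ) (h' : Ent ψ)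
    (hF : FRk (ev φ) (ev ψ)) :
    FiniteDimensional ℂ (Submodule.span ℂ (Set.range fun B : ι →₀ ℕ => hw2 B φ ψ)) := by
  obtain ⟨W, hW, hFW⟩ := hF
  obtain ⟨k, xs, w, -, hrep⟩ := exists_points W hW
  have hT : ∀ x, r2f_T φ ψ x = ∑ j, C (w j x) * r2f_T φ ψ (xs j) := by
    intro x
    have hE : ∀ j ∈ (Finset.univ : Finset (Fin k)), Ent (C (w j x) * r2f_T φ ψ (xs j)) :=
      fun j _ => (Ent.C _).mul (r2f_ent_T h h' (xs j))
    refine ev_inj (r2f_ent_T h h' x) (Ent.sum _ hE) fun y => ?_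
    rw [ev_sum _ hE, r2f_ev_T h h']
    have h1 := congrFun (hrep _ (hFW y)) x
    refine h1.trans ?_
    rw [Finset.sum_apply]
    refine Finset.sum_congr rfl fun j _ => ?_
    rw [ev_mul (Ent.C _) (r2f_ent_T h h' (xs j)), ev_C, r2f_ev_T h h', Pi.smul_apply, smul_eq_mul,
      mul_comm]
  have hA : ∀ (A : ι →₀ ℕ) (x : ι → ℂ), ev (hw2 A φ ψ) x = ∑ j, w j x * ev (hw2 A φ ψ) (xs j) := by
    intro A x
    have h1 := congrArg (coeff A) (hT x)
    rw [r2f_coeff_T, map_sum] at h1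
    refine h1.trans ?_
    refine Finset.sum_congr rfl fun j _ => ?_
    rw [coeff_C_mul, r2f_coeff_T]
  obtain ⟨S, hS⟩ : ∃ S : Submodule ℂ (MvPowerSeries ι ℂ),
      S = Submodule.span ℂ (Set.range fun B : ι →₀ ℕ => hw2 B φ ψ) := ⟨_, rfl⟩
  have hsm : ∀ (c : ℂ) (χ : MvPowerSeries ι ℂ), c • χ = C c * χ := by
    intro c χ
    ext n
    rw [coeff_C_mul]
    rfl
  have hSp : ∀ χ ∈ S, Ent χ ∧ ∀ x, ev χ x = ∑ j, w j x * ev χ (xs j) := by
    intro χ hχ
    rw [hS] at hχ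
    induction hχ using Submodule.span_induction with
    | mem χ hχ =>
      obtain ⟨A, rfl⟩ := hχ
      exact ⟨r2f_ent_hw h h' A, hA A⟩
    | zero =>
      refine ⟨Ent.zero, fun x => ?_⟩
      have h0 : ∀ z : ι → ℂ, ev (0 : MvPowerSeries ι ℂ) z = 0 := by
        intro z
        have h1 := ev_C (ι := ι) 0 z
        rwa [map_zero] at h1
      simp [h0]
    | add χ χ' _ _ h1 h2 =>
      refine ⟨h1.1.add h2.1, fun x => ?_⟩
      rw [ev_add h1.1 h2.1, h1.2 x, h2.2 x, ← Finset.sum_add_distrib]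
      refine Finset.sum_congr rfl fun j _ => ?_
      rw [ev_add h1.1 h2.1, mul_add]
    | smul c χ _ h1 =>
      rw [hsm]
      refine ⟨(Ent.C c).mul h1.1, fun x => ?_⟩
      rw [ev_mul (Ent.C c) h1.1, ev_C, h1.2 x, Finset.mul_sum]
      refine Finset.sum_congr rfl fun j _ => ?_
      rw [ev_mul (Ent.C c) h1.1, ev_C]
      ring
  rw [← hS]
  obtain ⟨E, hE⟩ : ∃ E : S →ₗ[ℂ] (Fin k → ℂ), ∀ (χ : S) (j : Fin k), E χ j = ev (χ : MvPowerSeries ι ℂ) (xs j) :=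
    ⟨{ toFun := fun χ j => ev (χ : MvPowerSeries ι ℂ) (xs j)
       map_add' := fun χ χ' => by
         funext j
         exact ev_add (hSp χ χ.2).1 (hSp χ' χ'.2).1 (xs j)
       map_smul' := fun c χ => by
         funext j
         have h1 : ((c • χ : S) : MvPowerSeries ι ℂ) = C c * (χ : MvPowerSeries ι ℂ) := by
           rw [Submodule.coe_smul, hsm]
         show ev ((c • χ : S) : MvPowerSeries ι ℂ) (xs j) = _
         rw [h1, ev_mul (Ent.C c) (hSp χ χ.2).1, ev_C]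
         rfl }, fun χ j => rfl⟩
  have hinj : Function.Injective E := by
    intro χ χ' he
    refine Subtype.ext (ev_inj (hSp χ χ.2).1 (hSp χ' χ'.2).1 fun z => ?_)
    rw [(hSp χ χ.2).2 z, (hSp χ' χ'.2).2 z]
    refine Finset.sum_congr rfl fun j _ => ?_
    rw [← hE, ← hE, he]
  exact FiniteDimensional.of_injective E hinj

end

end Pool.Agent.CMT.Rec
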