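import Pool.Agent.CMT.R2Defs

/-!
# CMT-R2Rk: a finite-dimensional span of the `w_A` gives the identity (P2)
-/

set_option autoImplicit false
set_option linter.unusedSectionVars false

namespace Pool.Agent.CMT.Rec

open Finset MvPowerSeries

noncomputable section

variable {ι : Type} [Fintype ι] [DecidableEq ι]

private theorem rk_coeff (A B : ι →₀ ℕ) (φ ψ : MvPowerSeries ι ℂ) :
    coeff B (hw2 A φ ψ) = hc2 A B (fun n => coeff n φ) (fun n => coeff n ψ) := by
  unfold hw2 hc2
  rw [map_sum]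
  refine Finset.sum_congr rfl fun p _ => ?_
  have h1 : ((-1 : MvPowerSeries ι ℂ)) ^ dg p.2 = C ((-1 : ℂ) ^ dg p.2) := by
    simp
  rw [h1, coeff_C_mul, coeff_mul, Finset.mul_sum]
  refine Finset.sum_congr rfl fun q _ => ?_
  have h2 : coeff q.1 (dd p.1 φ) = (mb q.1 p.1 : ℂ) * coeff (q.1 + p.1) φ := rfl
  have h3 : coeff q.2 (dd p.2 ψ) = (mb q.2 p.2 : ℂ) * coeff (q.2 + p.2) ψ := rfl
  rw [h2, h3]
  unfold tm2
  ring

private theorem rk_mb (m n : ι →₀ ℕ) : mb m n = mb n m := by
  unfold mb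
  refine Finset.prod_congr rfl fun i _ => ?_
  rw [add_comm (n i) (m i)]
  exact Nat.choose_symm_add.symm

private theorem rk_symm (A B : ι →₀ ℕ) (φ ψ : MvPowerSeries ι ℂ) (hψ : Evn ψ) :
    coeff B (hw2 A φ ψ) = coeff A (hw2 B φ ψ) := by
  rw [rk_coeff, rk_coeff]
  unfold hc2
  rw [Finset.sum_comm]
  refine Finset.sum_congr rfl fun q _ => Finset.sum_congr rfl fun p _ => ?_
  unfold tm2
  simp only
  rw [rk_mb p.1 q.1, rk_mb p.2 q.2, add_comm p.1 q.1, add_comm p.2 q.2]
  by_cases he : Even (dg (q.2 + p.2))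
  · rw [dg_add] at he
    have : ((-1 : ℂ)) ^ dg p.2 = (-1) ^ dg q.2 := by
      rcases Nat.even_or_odd (dg p.2) with h | h
      · have h' : Even (dg q.2) := by
          rcases Nat.even_or_odd (dg q.2) with h2 | h2
          · exact h2
          · exfalso
            rw [Nat.even_add] at he
            exact (Nat.not_even_iff_odd.2 h2) (he.2 h)
        rw [h.neg_one_pow, h'.neg_one_pow]
      · have h' : Odd (dg q.2) := by
          rcases Nat.even_or_odd (dg q.2) with h2 | h2
          · exfalso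
            rw [Nat.even_add] at he
            exact (Nat.not_even_iff_odd.2 h) (he.1 h2)
          · exact h2
        rw [h.neg_one_pow, h'.neg_one_pow]
    rw [this]
  · rw [hψ _ he]
    simp

private theorem rk_mem (K : Subfield ℂ) (A B : ι →₀ ℕ) (φ ψ : MvPowerSeries ι ℂ)
    (h1 : ∀ n, coeff n φ ∈ K) (h2 : ∀ n, coeff n ψ ∈ K) : coeff B (hw2 A φ ψ) ∈ K := by
  rw [rk_coeff]
  unfold hc2 tm2
  refine sum_mem fun p _ => sum_mem fun q _ => ?_
  refine mul_mem (mul_mem (pow_mem (neg_mem (one_mem K)) _) (mul_mem (natCast_mem K _) (natCast_mem K _)))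
    (mul_mem (h1 _) (h2 _))

theorem exists_PP2 (φ ψ : MvPowerSeries ι ℂ) (hψ : Evn ψ)
    (hfd : FiniteDimensional ℂ (Submodule.span ℂ (Set.range fun B : ι →₀ ℕ => hw2 B φ ψ))) :
    ∃ (S : Finset (ι →₀ ℕ)) (γ : (ι →₀ ℕ) → (ι →₀ ℕ) → ℂ), PP2 S γ φ ψ ∧
      ∀ K : Subfield ℂ, (∀ n, coeff n φ ∈ K) → (∀ n, coeff n ψ ∈ K) → ∀ A A', γ A A' ∈ K := by
  classical
  obtain ⟨κ, a, hinj, hspan, hli⟩ := exists_linearIndependent' ℂ (fun B : ι →₀ ℕ => hw2 B φ ψ)
  have hli' : LinearIndependent ℂ ((fun B : ι →₀ ℕ => hw2 B φ ψ) ∘ a) := hli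
  -- κ is finite
  have hfin : Finite κ := by
    have hmem : ∀ i, ((fun B : ι →₀ ℕ => hw2 B φ ψ) ∘ a) i ∈
        Submodule.span ℂ (Set.range fun B : ι →₀ ℕ => hw2 B φ ψ) := fun i =>
      Submodule.subset_span ⟨a i, rfl⟩
    have h2 : LinearIndependent ℂ (fun i => (⟨((fun B : ι →₀ ℕ => hw2 B φ ψ) ∘ a) i, hmem i⟩ :
        Submodule.span ℂ (Set.range fun B : ι →₀ ℕ => hw2 B φ ψ))) := by
      apply LinearIndependent.of_comp (Submodule.subtype _)
      exact hli'
    exact h2.finite
  have := Fintype.ofFinite κ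
  -- every row is a combination
  have hrow : ∀ B : ι →₀ ℕ, ∃ c : κ → ℂ, hw2 B φ ψ = ∑ i, c i • hw2 (a i) φ ψ := by
    intro B
    have h1 : hw2 B φ ψ ∈ Submodule.span ℂ (Set.range ((fun B : ι →₀ ℕ => hw2 B φ ψ) ∘ a)) := by
      rw [hspan]
      exact Submodule.subset_span ⟨B, rfl⟩
    rw [Submodule.mem_span_range_iff_exists_fun] at h1
    obtain ⟨c, hc⟩ := h1
    exact ⟨c, hc.symm⟩
  have hrowc : ∀ B : ι →₀ ℕ, ∃ c : κ → ℂ, hw2 B φ ψ = ∑ i, c i • hw2 (a i) φ ψ ∧
      ∀ D, coeff D (hw2 B φ ψ) = ∑ i, c i * coeff D (hw2 (a i) φ ψ) := by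
    intro B
    obtain ⟨c, hc⟩ := hrow B
    refine ⟨c, hc, fun D => ?_⟩
    conv_lhs => rw [hc]
    rw [map_sum]
    refine Finset.sum_congr rfl fun i _ => ?_
    rw [LinearMap.map_smul_of_tower, smul_eq_mul]
  set MM : Matrix κ κ ℂ := fun i j => coeff (a j) (hw2 (a i) φ ψ) with hMM
  have hsymm : ∀ i j, MM i j = MM j i := fun i j => rk_symm _ _ _ _ hψ
  have hdet : MM.det ≠ 0 := by
    intro h0
    obtain ⟨x, hx0, hx⟩ := Matrix.exists_vecMul_eq_zero_iff.2 h0
    have hx' : ∀ j, ∑ i, x i * MM i j = 0 := by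
      intro j
      have := congrFun hx j
      simpa [Matrix.vecMul, dotProduct] using this
    apply hx0
    have hz : ∑ i, x i • ((fun B : ι →₀ ℕ => hw2 B φ ψ) ∘ a) i = 0 := by
      ext D
      rw [map_sum, map_zero]
      obtain ⟨c, -, hc⟩ := hrowc D
      calc ∑ i, coeff D (x i • ((fun B : ι →₀ ℕ => hw2 B φ ψ) ∘ a) i)
          = ∑ i, x i * coeff (a i) (hw2 D φ ψ) := by
            refine Finset.sum_congr rfl fun i _ => ?_
            rw [LinearMap.map_smul_of_tower, smul_eq_mul]
            simp only [Function.comp]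
            rw [rk_symm _ _ _ _ hψ]
        _ = ∑ i, x i * ∑ j, c j * coeff (a i) (hw2 (a j) φ ψ) := by
            refine Finset.sum_congr rfl fun i _ => ?_
            rw [hc]
        _ = ∑ j, c j * ∑ i, x i * MM i j := by
            simp_rw [Finset.mul_sum]
            rw [Finset.sum_comm]
            refine Finset.sum_congr rfl fun j _ => Finset.sum_congr rfl fun i _ => ?_
            rw [hsymm i j]
            simp only [hMM]
            ring
        _ = 0 := by
            simp [hx']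
    have := Fintype.linearIndependent_iff.1 hli' x hz
    funext i
    exact this i
  have hunit : IsUnit MM.det := isUnit_iff_ne_zero.2 hdet
  set W : Matrix κ κ ℂ := MM⁻¹ with hW
  have hMW : MM * W = 1 := Matrix.mul_nonsing_inv _ hunit
  have hWsymm : ∀ i j, W i j = W j i := by
    have h1 : MM.transpose = MM := by
      ext i j
      rw [Matrix.transpose_apply]
      exact hsymm j i
    have h2 : W.transpose = W := by
      rw [hW, Matrix.transpose_nonsing_inv, h1]
    intro i j
    conv_lhs => rw [← h2]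
    rfl
  set S : Finset (ι →₀ ℕ) := Finset.univ.map ⟨a, hinj⟩ with hS
  set γ : (ι →₀ ℕ) → (ι →₀ ℕ) → ℂ := fun A A' =>
    ∑ i, ∑ j, if a i = A ∧ a j = A' then W i j else 0 with hγ
  have hγa : ∀ i j, γ (a i) (a j) = W i j := by
    intro i j
    simp only [hγ]
    rw [Finset.sum_eq_single i]
    · rw [Finset.sum_eq_single j]
      · simp
      · intro j' _ hj'
        rw [if_neg]
        rintro ⟨-, h⟩
        exact hj' (hinj h)
      · intro h
        exact absurd (Finset.mem_univ j) h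
    · intro i' _ hi'
      apply Finset.sum_eq_zero
      intro j' _
      rw [if_neg]
      rintro ⟨h, -⟩
      exact hi' (hinj h)
    · intro h
      exact absurd (Finset.mem_univ i) h
  refine ⟨S, γ, ?_, ?_⟩
  · intro B
    obtain ⟨c, hc, hc'⟩ := hrowc B
    have hci : ∀ i, c i = ∑ j, W i j * coeff B (hw2 (a j) φ ψ) := by
      intro i
      have e1 : ∀ j, coeff B (hw2 (a j) φ ψ) = ∑ k, c k * MM k j := by
        intro j
        rw [rk_symm _ _ _ _ hψ, hc' (a j)]
      simp_rw [e1, Finset.mul_sum]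
      rw [Finset.sum_comm]
      have e2 : ∀ k, ∑ j, W i j * (c k * MM k j) = c k * (MM * W) k i := by
        intro k
        rw [Matrix.mul_apply, Finset.mul_sum]
        refine Finset.sum_congr rfl fun j _ => ?_
        rw [hWsymm i j]
        ring
      simp_rw [e2, hMW]
      rw [Finset.sum_eq_single i]
      · simp
      · intro k _ hk
        rw [Matrix.one_apply_ne hk, mul_zero]
      · intro h
        exact absurd (Finset.mem_univ i) h
    have hsum : ∀ F : (ι →₀ ℕ) → MvPowerSeries ι ℂ, ∑ A ∈ S, F A = ∑ i, F (a i) := by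
      intro F
      rw [hS, Finset.sum_map]
      rfl
    have hsumc : ∀ F : (ι →₀ ℕ) → ℂ, ∑ A ∈ S, F A = ∑ i, F (a i) := by
      intro F
      rw [hS, Finset.sum_map]
      rfl
    rw [hsum]
    conv_lhs => rw [hc]
    refine Finset.sum_congr rfl fun i _ => ?_
    rw [hsumc]
    simp_rw [hγa]
    rw [← hci i, smul_eq_C_mul]
  · intro K h1 h2 A A'
    have hWK : ∀ i j, W i j ∈ K := by
      set MK : Matrix κ κ K := fun i j => ⟨MM i j, rk_mem K _ _ _ _ h1 h2⟩ with hMK
      have hmap : MK.map K.subtype = MM := by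
        ext i j
        rfl
      have hdK : MK.det ≠ 0 := by
        intro h
        apply hdet
        rw [← hmap]
        have := RingHom.map_det K.subtype MK
        rw [h, map_zero] at this
        exact this.symm
      have h3 : MK * MK⁻¹ = 1 := Matrix.mul_nonsing_inv _ (isUnit_iff_ne_zero.2 hdK)
      have h4 : MM * (MK⁻¹).map K.subtype = 1 := by
        rw [← hmap, ← Matrix.map_mul, h3]
        exact Matrix.map_one _ (map_zero _) (map_one _)
      have h5 : W = (MK⁻¹).map K.subtype := by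
        rw [hW]
        exact Matrix.inv_eq_right_inv h4
      intro i j
      rw [h5]
      exact (MK⁻¹ i j).2
    simp only [hγ]
    refine sum_mem fun i _ => sum_mem fun j _ => ?_
    split_ifs
    · exact hWK i j
    · exact zero_mem K

end

end Pool.Agent.CMT.Rec
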