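import Pool.Agent.CMT.RWn
import Pool.Agent.CMT.LTay

/-!
# CMT-RAlg: algebraic parameters give `AlgTay`
-/

set_option autoImplicit false
set_option linter.unusedSectionVars false

namespace Pool.Agent.CMT

open Finset MvPowerSeries

noncomputable section

variable {ι : Type} [Fintype ι] [DecidableEq ι] {Q : Type} [Fintype Q]

private theorem ralg_L1_rename {σ τ : Type} (f : σ → τ) (P : MvPolynomial σ ℤ) :
    Pool.Agent.RHK.L1 (MvPolynomial.rename f P) ≤ Pool.Agent.RHK.L1 P := by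
  have h : MvPolynomial.rename f P =
      ∑ e ∈ P.support, MvPolynomial.rename f (MvPolynomial.monomial e (P.coeff e)) := by
    conv_lhs => rw [P.as_sum]
    rw [map_sum]
  rw [h]
  refine (Pool.Agent.RHK.L1_sum_le _ _).trans ?_
  unfold Pool.Agent.RHK.L1
  refine Finset.sum_le_sum fun e _ => ?_
  have h2 := Pool.Agent.RHK.L1_monomial (Finsupp.mapDomain f e) (P.coeff e)
  rw [← MvPolynomial.rename_monomial] at h2
  exact h2.le

private theorem ralg_coeff {P' : MvPolynomial Q ℤ} {P : MvPolynomial Q ℚ} {c : ℚ}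
    (h : MvPolynomial.map (Int.castRingHom ℚ) P' = MvPolynomial.C c * P) (μ : Q →₀ ℕ) :
    ((P'.coeff μ : ℤ) : ℝ) = (c : ℝ) * ((P.coeff μ : ℚ) : ℝ) := by
  have h1 := congrArg (MvPolynomial.coeff μ) h
  rw [MvPolynomial.coeff_map, MvPolynomial.coeff_C_mul, eq_intCast] at h1
  exact_mod_cast congrArg (fun x : ℚ => (x : ℝ)) h1

private theorem ralg_sub {P' : MvPolynomial Q ℤ} {P : MvPolynomial Q ℚ} {c : ℚ}
    (h : MvPolynomial.map (Int.castRingHom ℚ) P' = MvPolynomial.C c * P) :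
    P'.support ⊆ P.support := by
  intro μ hμ
  rw [MvPolynomial.mem_support_iff] at hμ ⊢
  intro h0
  apply hμ
  have h1 := ralg_coeff h μ
  rw [h0, Rat.cast_zero, mul_zero] at h1
  exact_mod_cast h1

private theorem ralg_L1 {P' : MvPolynomial Q ℤ} {P : MvPolynomial Q ℚ} {c : ℚ} (hc : 0 ≤ c)
    (h : MvPolynomial.map (Int.castRingHom ℚ) P' = MvPolynomial.C c * P) :
    Pool.Agent.RHK.L1 P' ≤ (c : ℝ) * wn 1 P := by
  have hc' : (0 : ℝ) ≤ (c : ℝ) := by exact_mod_cast hc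
  rw [Pool.Agent.RHK.L1_eq_of_subset P' _ (ralg_sub h)]
  unfold wn
  rw [Finset.mul_sum]
  refine Finset.sum_le_sum fun μ _ => ?_
  rw [ralg_coeff h μ, abs_mul, abs_of_nonneg hc', one_pow, mul_one]

private theorem ralg_deg {P' : MvPolynomial Q ℤ} {P : MvPolynomial Q ℚ} {c : ℚ} (hc : 0 ≤ c)
    (h : MvPolynomial.map (Int.castRingHom ℚ) P' = MvPolynomial.C c * P) {μ : Q →₀ ℕ}
    (hμ : μ ∈ P'.support) : (2 : ℝ) ^ (∑ i, μ i) ≤ (c : ℝ) * wn 2 P := by
  have hc' : (0 : ℝ) ≤ (c : ℝ) := by exact_mod_cast hc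
  have h1 : (1 : ℝ) ≤ |((P'.coeff μ : ℤ) : ℝ)| := by
    have h2 : P'.coeff μ ≠ 0 := MvPolynomial.mem_support_iff.1 hμ
    have h3 : (1 : ℤ) ≤ |P'.coeff μ| := Int.one_le_abs h2
    exact_mod_cast h3
  have h4 : |((P.coeff μ : ℚ) : ℝ)| * 2 ^ (∑ i, μ i) ≤ wn 2 P := by
    unfold wn
    exact Finset.single_le_sum (f := fun m : Q →₀ ℕ => |((P.coeff m : ℚ) : ℝ)| * 2 ^ (∑ i, m i))
      (fun m _ => by positivity) (ralg_sub h hμ)
  calc (2 : ℝ) ^ (∑ i, μ i) = 1 * 2 ^ (∑ i, μ i) := (one_mul _).symm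
    _ ≤ |((P'.coeff μ : ℤ) : ℝ)| * 2 ^ (∑ i, μ i) :=
        mul_le_mul_of_nonneg_right h1 (by positivity)
    _ = (c : ℝ) * (|((P.coeff μ : ℚ) : ℝ)| * 2 ^ (∑ i, μ i)) := by
        rw [ralg_coeff h μ, abs_mul, abs_of_nonneg hc']
        ring
    _ ≤ (c : ℝ) * wn 2 P := mul_le_mul_of_nonneg_left h4 hc'

private theorem ralg_fac {N : ℕ} (n : ι →₀ ℕ) (h : dg n ≤ N) : fac n ≤ (N + 2) ^ (N + 1) := by
  have h1 : fac n ≤ (dg n).factorial :=
    Nat.le_of_dvd (Nat.factorial_pos _) (Nat.prod_factorial_dvd_factorial_sum _ _)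
  calc fac n ≤ (dg n).factorial := h1
    _ ≤ N.factorial := Nat.factorial_le h
    _ ≤ N ^ N := Nat.factorial_le_pow N
    _ ≤ (N + 2) ^ N := Nat.pow_le_pow_left (by omega) _
    _ ≤ (N + 2) ^ (N + 1) := Nat.pow_le_pow_right (by omega) (by omega)

/-- powers as exponentials -/
private theorem ralg_exp {d ρ : ℝ} (hd : 1 ≤ d) (hρ : 1 ≤ ρ) (N : ℕ) :
    d ^ (N + 1) * ((N : ℝ) + 2) ^ (N + 1) * ρ ^ (N + 1) =
      Real.exp (((N : ℝ) + 1) * (Real.log d + Real.log (N + 2) + Real.log ρ)) := by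
  have hN : (0 : ℝ) < (N : ℝ) + 2 := by positivity
  have h : ∀ x : ℝ, 0 < x → x ^ (N + 1) = Real.exp (((N : ℝ) + 1) * Real.log x) := by
    intro x hx
    have h1 := Real.exp_nat_mul (Real.log x) (N + 1)
    rw [Real.exp_log hx] at h1
    rw [← h1]
    push_cast
    rfl
  rw [h d (by linarith), h _ hN, h ρ (by linarith), ← Real.exp_add, ← Real.exp_add]
  congr 1
  ring

/-- comparison of the exponents -/
private theorem ralg_cmp {a b b' : ℝ} (ha : 0 ≤ a) (hb : 0 ≤ b) (hb' : 0 ≤ b') (N : ℕ) :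
    2 * (((N : ℝ) + 1) * (a + Real.log (N + 2) + b)) ≤
      8 * (a + b + b' + 1) * (N + 1) * Real.log (N + 2) ^ 2 := by
  have hN : (0 : ℝ) ≤ N := Nat.cast_nonneg N
  have h2 : (1 / 2 : ℝ) ≤ Real.log 2 := by
    have := Real.log_two_gt_d9
    linarith
  have hl : (1 / 2 : ℝ) ≤ Real.log (N + 2) :=
    h2.trans (Real.log_le_log (by norm_num) (by linarith))
  set l := Real.log ((N : ℝ) + 2) with hl'
  have h3 : (1 / 4 : ℝ) ≤ l ^ 2 := by nlinarith
  have h4 : l ≤ 2 * l ^ 2 := by nlinarith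
  have h5 : a + l + b ≤ 4 * (a + b + b' + 1) * l ^ 2 := by
    nlinarith [mul_nonneg ha (by linarith : (0 : ℝ) ≤ l ^ 2 - 1 / 4),
      mul_nonneg hb (by linarith : (0 : ℝ) ≤ l ^ 2 - 1 / 4),
      mul_nonneg hb' (by positivity : (0 : ℝ) ≤ l ^ 2)]
  have h6 := mul_le_mul_of_nonneg_left h5 (by linarith : (0 : ℝ) ≤ (N : ℝ) + 1)
  nlinarith [h6]

private theorem ralg_sum (μ : Q →₀ ℕ) : (μ.sum fun _ e => e) = ∑ i, μ i := by
  rw [Finsupp.sum_fintype]
  intro i
  rfl

theorem algTay_of_model {c : Q → ℂ} {φ : MvPowerSeries ι ℂ} (m : Model c φ) (s : Q → ℂ)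
    (hs : ∀ q, IsAlgebraic ℚ (s q)) (hE : Ent (m.at s)) :
    Pool.Agent.RHK.AlgTay (ev (m.at s)) := by
  obtain ⟨d, hd, hi⟩ := m.hi
  obtain ⟨ρ₁, hρ₁, hb₁⟩ := m.hb 1 le_rfl
  obtain ⟨ρ₂, hρ₂, hb₂⟩ := m.hb 2 (by norm_num)
  have hd1 : (1 : ℝ) ≤ (d : ℝ) := by exact_mod_cast hd
  have hla : 0 ≤ Real.log (d : ℝ) := Real.log_nonneg hd1
  have hl1 : 0 ≤ Real.log ρ₁ := Real.log_nonneg hρ₁
  have hl2 : 0 ≤ Real.log ρ₂ := Real.log_nonneg hρ₂
  set e := Fintype.equivFin Q with he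
  refine ⟨Fintype.card Q, fun i => s (e.symm i),
    8 * (Real.log (d : ℝ) + Real.log ρ₁ + Real.log ρ₂ + 1), fun i => hs _, by positivity,
    fun N => ⟨d ^ (N + 1), by positivity, ?_, ?_⟩⟩
  · have h1 := ralg_cmp hla hl1 hl2 N
    have h2 : ((d ^ (N + 1) : ℕ) : ℝ) = Real.exp (((N : ℝ) + 1) * Real.log (d : ℝ)) := by
      have h3 := Real.exp_nat_mul (Real.log (d : ℝ)) (N + 1)
      rw [Real.exp_log (by linarith)] at h3
      push_cast at h3 ⊢
      rw [← h3]
    rw [h2]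
    refine Real.exp_le_exp.2 (le_trans ?_ h1)
    have hl : 0 ≤ Real.log ((N : ℝ) + 2) := Real.log_nonneg (by
      have : (0 : ℝ) ≤ N := Nat.cast_nonneg N
      linarith)
    have hN : (0 : ℝ) ≤ (N : ℝ) + 1 := by positivity
    nlinarith [mul_nonneg hN hla, mul_nonneg hN hl, mul_nonneg hN hl1]
  · intro A hA
    set n : ι →₀ ℕ := Finsupp.equivFunOnFinite.symm A with hn
    have hnA : (fun i => n i) = A := by
      funext i
      rfl
    have hdn : dg n ≤ N := by
      unfold dg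
      exact hA
    obtain ⟨P', hP'⟩ := hi n
    set cc : ℚ := (d : ℚ) ^ (dg n + 1) * fac n with hcc
    have hcc0 : 0 ≤ cc := by positivity
    have hccr : (cc : ℝ) = (d : ℝ) ^ (dg n + 1) * (fac n : ℝ) := by
      rw [hcc]
      push_cast
      rfl
    have hfac : (fac n : ℝ) ≤ ((N : ℝ) + 2) ^ (N + 1) := by
      exact_mod_cast ralg_fac n hdn
    refine ⟨MvPolynomial.rename e (MvPolynomial.C ((d : ℤ) ^ (N - dg n)) * P'), ⟨?_, ?_⟩, ?_⟩
    · -- degree
      have h1 : (MvPolynomial.rename e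
          (MvPolynomial.C ((d : ℤ) ^ (N - dg n)) * P')).totalDegree ≤ P'.totalDegree := by
        refine (MvPolynomial.totalDegree_rename_le _ _).trans ?_
        refine (MvPolynomial.totalDegree_mul _ _).trans ?_
        rw [MvPolynomial.totalDegree_C, zero_add]
      have h2 : (((MvPolynomial.rename e
          (MvPolynomial.C ((d : ℤ) ^ (N - dg n)) * P')).totalDegree : ℕ) : ℝ) ≤
            (P'.totalDegree : ℝ) := by exact_mod_cast h1
      refine h2.trans ?_
      set X : ℝ := 8 * (Real.log (d : ℝ) + Real.log ρ₁ + Real.log ρ₂ + 1) * (N + 1) *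
        Real.log (N + 2) ^ 2 with hX
      have hX0 : 0 ≤ X := by positivity
      have h3 : P'.totalDegree ≤ ⌊X⌋₊ := by
        unfold MvPolynomial.totalDegree
        refine Finset.sup_le fun μ hμ => ?_
        rw [ralg_sum]
        refine Nat.le_floor ?_
        have h4 := ralg_deg hcc0 hP' hμ
        have h5 : (cc : ℝ) * wn 2 (m.P n) ≤
            Real.exp (((N : ℝ) + 1) * (Real.log d + Real.log (N + 2) + Real.log ρ₂)) := by
          rw [← ralg_exp hd1 hρ₂ N, hccr]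
          have h6 : (d : ℝ) ^ (dg n + 1) ≤ (d : ℝ) ^ (N + 1) :=
            pow_le_pow_right₀ hd1 (by omega)
          have h7 : wn 2 (m.P n) ≤ ρ₂ ^ (N + 1) :=
            (hb₂ n).trans (pow_le_pow_right₀ hρ₂ (by omega))
          exact mul_le_mul (mul_le_mul h6 hfac (by positivity) (by positivity)) h7
            (Rec.wn_nonneg (by norm_num) _) (by positivity)
        have h8 := Real.log_le_log (by positivity) (h4.trans h5)
        rw [Real.log_exp, Real.log_pow] at h8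
        have h9 : (1 / 2 : ℝ) ≤ Real.log 2 := by
          have := Real.log_two_gt_d9
          linarith
        have h10 := ralg_cmp hla hl2 hl1 N
        have h11 : ((∑ i, μ i : ℕ) : ℝ) * (1 / 2) ≤ ((∑ i, μ i : ℕ) : ℝ) * Real.log 2 :=
          mul_le_mul_of_nonneg_left h9 (Nat.cast_nonneg _)
        have h12 : X = 8 * (Real.log (d : ℝ) + Real.log ρ₂ + Real.log ρ₁ + 1) * (N + 1) *
            Real.log (N + 2) ^ 2 := by
          rw [hX]
          ring
        rw [h12]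
        linarith
      exact (Nat.cast_le.2 h3).trans (Nat.floor_le hX0)
    · -- length
      refine (ralg_L1_rename _ _).trans ((Pool.Agent.RHK.L1_C_mul_le _ _).trans ?_)
      have h1 := ralg_L1 hcc0 hP'
      have h2 : |(((d : ℤ) ^ (N - dg n) : ℤ) : ℝ)| = (d : ℝ) ^ (N - dg n) := by
        push_cast
        exact abs_of_nonneg (by positivity)
      rw [h2]
      have h3 : (d : ℝ) ^ (N - dg n) * Pool.Agent.RHK.L1 P' ≤
          (d : ℝ) ^ (N + 1) * (fac n : ℝ) * wn 1 (m.P n) := by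
        refine (mul_le_mul_of_nonneg_left h1 (by positivity)).trans (le_of_eq ?_)
        rw [hccr]
        have h4 : (d : ℝ) ^ (N + 1) = (d : ℝ) ^ (N - dg n) * (d : ℝ) ^ (dg n + 1) := by
          rw [← pow_add]
          congr 1
          omega
        rw [h4]
        ring
      refine h3.trans ?_
      have h7 : wn 1 (m.P n) ≤ ρ₁ ^ (N + 1) :=
        (hb₁ n).trans (pow_le_pow_right₀ hρ₁ (by omega))
      have h8 : (d : ℝ) ^ (N + 1) * (fac n : ℝ) * wn 1 (m.P n) ≤
          (d : ℝ) ^ (N + 1) * ((N : ℝ) + 2) ^ (N + 1) * ρ₁ ^ (N + 1) :=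
        mul_le_mul (mul_le_mul_of_nonneg_left hfac (by positivity)) h7
          (Rec.wn_nonneg (by norm_num) _) (by positivity)
      refine h8.trans ?_
      rw [ralg_exp hd1 hρ₁ N]
      refine Real.exp_le_exp.2 ?_
      have h9 := ralg_cmp hla hl1 hl2 N
      have h10 : 0 ≤ ((N : ℝ) + 1) * (Real.log d + Real.log (N + 2) + Real.log ρ₁) := by
        have hl : 0 ≤ Real.log ((N : ℝ) + 2) := Real.log_nonneg (by
          have : (0 : ℝ) ≤ N := Nat.cast_nonneg N
          linarith)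
        positivity
      linarith
    · -- value
      rw [MvPolynomial.aeval_rename]
      have hcomp : ((fun i => s (e.symm i)) ∘ e) = s := by
        funext q
        simp
      rw [hcomp, map_mul, MvPolynomial.aeval_C, ← hnA, jet1_ev hE n]
      have h1 : MvPolynomial.aeval s P' = (cc : ℂ) * MvPolynomial.aeval s (m.P n) := by
        have h2 := congrArg (MvPolynomial.aeval s : MvPolynomial Q ℚ →ₐ[ℚ] ℂ) hP'
        have h3 : (MvPolynomial.aeval s : MvPolynomial Q ℚ →ₐ[ℚ] ℂ)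
            (MvPolynomial.map (Int.castRingHom ℚ) P') = MvPolynomial.aeval s P' :=
          MvPolynomial.aeval_map_algebraMap ℚ s P'
        rw [h3, map_mul, MvPolynomial.aeval_C] at h2
        rw [h2]
        rfl
      rw [h1]
      have h2 : coeff n (m.at s) = MvPolynomial.aeval s (m.P n) := rfl
      rw [h2, hcc]
      have h4 : (d : ℂ) ^ (N + 1) = (d : ℂ) ^ (N - dg n) * (d : ℂ) ^ (dg n + 1) := by
        rw [← pow_add]
        congr 1
        omega
      push_cast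
      rw [h4]
      ring

end

end Pool.Agent.CMT
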