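import Pool.Agent.CMT.RWn

/-!
# CMT-RDer: derivations of `ℂ` applied to the Taylor coefficients

Chain rule for derivations of `ℂ` and the resulting growth bound.
-/

set_option autoImplicit false
set_option linter.unusedSectionVars false

namespace Pool.Agent.CMT

open Finset MvPowerSeries

noncomputable section

variable {ι : Type} [Fintype ι] [DecidableEq ι] {Q : Type} [Fintype Q]

theorem der_aeval (δ : Derivation ℚ ℂ ℂ) (c : Q → ℂ) (P : MvPolynomial Q ℚ) :
    δ (MvPolynomial.aeval c P) =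
      ∑ q, MvPolynomial.aeval c (MvPolynomial.pderiv q P) * δ (c q) := by
  classical
  induction P using MvPolynomial.induction_on with
  | C a =>
    rw [MvPolynomial.aeval_C, Derivation.map_algebraMap]
    simp
  | add p q hp hq =>
    rw [map_add, map_add, hp, hq, ← Finset.sum_add_distrib]
    refine Finset.sum_congr rfl fun i _ => ?_
    rw [map_add, map_add]
    ring
  | mul_X p q' hp =>
    rw [map_mul, MvPolynomial.aeval_X, Derivation.leibniz, hp, smul_eq_mul, smul_eq_mul]
    have h1 : ∀ q, MvPolynomial.aeval c (MvPolynomial.pderiv q (p * MvPolynomial.X q')) * δ (c q) =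
        (if q = q' then MvPolynomial.aeval c p * δ (c q) else 0) +
          c q' * (MvPolynomial.aeval c (MvPolynomial.pderiv q p) * δ (c q)) := by
      intro q
      rw [Derivation.leibniz, MvPolynomial.pderiv_X, smul_eq_mul, smul_eq_mul, map_add, map_mul,
        map_mul, MvPolynomial.aeval_X]
      by_cases h : q = q'
      · subst h
        simp
        ring
      · rw [if_neg h, Pi.single_eq_of_ne (Ne.symm h)]
        simp
        ring
    rw [Finset.sum_congr rfl fun q _ => h1 q, Finset.sum_add_distrib, Finset.sum_ite_eq',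
      if_pos (mem_univ _), ← Finset.mul_sum]

theorem der_bound {c : Q → ℂ} {φ : MvPowerSeries ι ℂ} (m : Model c φ) (δ : Derivation ℚ ℂ ℂ) :
    ∃ ρ : ℝ, 1 ≤ ρ ∧ ∀ n, ‖δ (coeff n φ)‖ ≤ ρ ^ (dg n + 1) := by
  set r : ℝ := 1 + ∑ q, ‖c q‖ with hr
  have hs : 0 ≤ ∑ q, ‖c q‖ := Finset.sum_nonneg fun q _ => norm_nonneg _
  have hr1 : 1 ≤ r := by linarith
  have hc : ∀ q, ‖c q‖ ≤ r := by
    intro q
    have := Finset.single_le_sum (f := fun q => ‖c q‖) (fun q _ => norm_nonneg _) (mem_univ q)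
    have h2 : ‖c q‖ ≤ ∑ q, ‖c q‖ := this
    linarith
  obtain ⟨ρ, hρ1, hρ⟩ := m.hb (2 * r) (by linarith)
  set E : ℝ := ∑ q, ‖δ (c q)‖ with hE
  have hE0 : 0 ≤ E := Finset.sum_nonneg fun q _ => norm_nonneg _
  have hρ0 : 0 ≤ ρ := by linarith
  refine ⟨ρ * (1 + E), ?_, fun n => ?_⟩
  · calc (1 : ℝ) = 1 * 1 := by ring
      _ ≤ ρ * (1 + E) := by
        gcongr
        linarith
  · rw [m.hP n, der_aeval]
    have h1 : ∀ q ∈ (univ : Finset Q), ‖MvPolynomial.aeval c (MvPolynomial.pderiv q (m.P n)) * δ (c q)‖ ≤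
        ρ ^ (dg n + 1) * ‖δ (c q)‖ := by
      intro q _
      rw [norm_mul]
      gcongr
      exact (Rec.norm_aeval_le c hc _).trans ((Rec.wn_pderiv hr1 q _).trans (hρ n))
    refine (norm_sum_le _ _).trans ((Finset.sum_le_sum h1).trans ?_)
    rw [← Finset.mul_sum, ← hE, mul_pow]
    have h2 : E ≤ (1 + E) ^ (dg n + 1) := by
      have h3 : (1 + E) ^ 1 ≤ (1 + E) ^ (dg n + 1) :=
        pow_le_pow_right₀ (by linarith) (by omega)
      rw [pow_one] at h3
      linarith
    have h4 : 0 ≤ ρ ^ (dg n + 1) := pow_nonneg hρ0 _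
    exact mul_le_mul_of_nonneg_left h2 h4

end

end Pool.Agent.CMT
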