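import Pool.Agent.CMT.RFin
import Pool.Agent.CMT.RAlg
import Pool.Agent.CMT.RDer
import Pool.Agent.CMT.R2Rk
import Pool.Agent.CMT.R2Fin
import Pool.Agent.CMT.R2Bd
import Pool.Agent.CMT.R2Dup
import Pool.Agent.CMT.R2Dbl

/-!
# CMT block R2: final theorems, for entire functions

`f(x+y) s(x-y)` of finite rank, `s` even, `s(0) = 1`. (Theta functions: finite-dimensional spaces of
sections.) (1) `s` has a `δ`-derivative which is entire; (2) so has `f`; (3) algebraic jets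
imply `AlgTay`.
-/

set_option autoImplicit false
set_option linter.unusedSectionVars false

namespace Pool.Agent.CMT

open Finset MvPowerSeries Rec

noncomputable section

variable {ι : Type} [Fintype ι] [DecidableEq ι]

/-- `u` is the entire function whose Taylor coefficients at `0` are `δ` of those of `f` -/
def IsDer (δ : Derivation ℚ ℂ ℂ) (f u : (ι → ℂ) → ℂ) : Prop :=
  Differentiable ℂ u ∧ ∀ A : ι → ℕ, Pool.Agent.RHK.jet1 u A = δ (Pool.Agent.RHK.jet1 f A)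

private theorem r2_jet {φ : MvPowerSeries ι ℂ} (h : Ent φ) (A : ι → ℕ) :
    Pool.Agent.RHK.jet1 (ev φ) A = (fac (Finsupp.equivFunOnFinite.symm A) : ℂ) *
      coeff (Finsupp.equivFunOnFinite.symm A) φ := by
  have := jet1_ev h (Finsupp.equivFunOnFinite.symm A)
  exact this

private theorem r2_evn {φ : MvPowerSeries ι ℂ} (h : Ent φ) (hev : ∀ z, ev φ (-z) = ev φ z) :
    Evn φ := by
  have h1 : sc (fun _ : ι => (-1 : ℂ)) φ = φ := by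
    refine ev_inj (h.sc _) h fun z => ?_
    rw [ev_sc]
    have h2 : (fun i => (-1 : ℂ) * z i) = -z := by
      funext i
      rw [Pi.neg_apply]
      ring
    rw [h2, hev]
  intro n hn
  have h3 := congrArg (coeff n) h1
  have h4 : coeff n (sc (fun _ : ι => (-1 : ℂ)) φ) = (∏ i, (-1 : ℂ) ^ n i) * coeff n φ := rfl
  have h5 : (∏ i, (-1 : ℂ) ^ n i) = (-1) ^ dg n := by
    rw [dg, Finset.prod_pow_eq_pow_sum]
  rw [h4, h5, Odd.neg_one_pow (Nat.not_even_iff_odd.1 hn)] at h3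
  linear_combination (-1 / 2 : ℂ) * h3

private theorem r2_der_nat (δ : Derivation ℚ ℂ ℂ) (k : ℕ) (z : ℂ) : δ ((k : ℂ) * z) = k * δ z := by
  rw [Derivation.leibniz, Derivation.map_natCast, smul_zero, add_zero, smul_eq_mul]

private theorem r2_isDer (δ : Derivation ℚ ℂ ℂ) {φ : MvPowerSeries ι ℂ} (h : Ent φ)
    (h' : Ent (dl δ φ)) : IsDer δ (ev φ) (ev (dl δ φ)) := by
  refine ⟨ev_differentiable h', fun A => ?_⟩
  rw [r2_jet h', r2_jet h, r2_der_nat]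
  rfl

private theorem r2_fac_ne (n : ι →₀ ℕ) : (fac n : ℂ) ≠ 0 := Nat.cast_ne_zero.2 (fac_pos n).ne'

private theorem r2_dl_eq (δ : Derivation ℚ ℂ ℂ) {φ υ : MvPowerSeries ι ℂ} (h : Ent φ) (h' : Ent υ)
    (hD : ∀ A : ι → ℕ, Pool.Agent.RHK.jet1 (ev υ) A = δ (Pool.Agent.RHK.jet1 (ev φ) A)) :
    υ = dl δ φ := by
  ext n
  have h1 := hD (fun i => n i)
  rw [jet1_ev h', jet1_ev h, r2_der_nat] at h1
  exact mul_left_cancel₀ (r2_fac_ne n) h1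

private theorem r2_dup (δ : Derivation ℚ ℂ ℂ) {S : Finset (ι →₀ ℕ)}
    {γ : (ι →₀ ℕ) → (ι →₀ ℕ) → ℂ} {φ ψ : MvPowerSeries ι ℂ} (h : PP2 S γ φ ψ) (h1 : coeff 0 ψ = 1) :
    sc (fun _ => (2 : ℂ)) (dl δ φ) = ∑ A ∈ S, ∑ A' ∈ S, (C (δ (γ A A')) * (hw2 A φ ψ * hw2 A' φ ψ) +
      C (γ A A') * ((hw2 A (dl δ φ) ψ + hw2 A φ (dl δ ψ)) * hw2 A' φ ψ +
        hw2 A φ ψ * (hw2 A' (dl δ φ) ψ + hw2 A' φ (dl δ ψ)))) := by
  rw [← dl_sc2, PP2_dup h h1, dl_sum]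
  refine Finset.sum_congr rfl fun A _ => ?_
  rw [dl_sum]
  refine Finset.sum_congr rfl fun A' _ => ?_
  rw [dl_mul, dl_C, dl_mul, dl_hw2, dl_hw2]

private theorem r2_data {φ : MvPowerSeries ι ℂ} (h : Ent φ) (h0 : coeff 0 φ = 1) (hE : Evn φ)
    (hW : FRk (ev φ) (ev φ)) : ∃ (S : Finset (ι →₀ ℕ)) (γ : (ι →₀ ℕ) → (ι →₀ ℕ) → ℂ) (q : ℕ)
      (c : Fin q → ℂ), PP2 S γ φ φ ∧ Nonempty (Model c φ) ∧
      ∀ K : Subfield ℂ, (∀ n, coeff n φ ∈ K) → ∀ i, c i ∈ K := by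
  obtain ⟨S, γ, hP, hK⟩ := exists_PP2 φ φ hE (fin_span h h hW)
  obtain ⟨q, c, hm, hc⟩ := exists_params φ ⟨h0, hE⟩ S γ hP
  refine ⟨S, γ, q, c, hP, hm, fun K hφ i => ?_⟩
  rcases hc i with ⟨A, A', h1⟩ | ⟨n, h1⟩
  · rw [h1]
    exact hK K hφ hφ A A'
  · rw [h1]
    exact hφ n

theorem exists_isDer (δ : Derivation ℚ ℂ ℂ) {s : (ι → ℂ) → ℂ} (hs : Differentiable ℂ s) (h0 : s 0 = 1)
    (hev : ∀ z, s (-z) = s z) (hW : FRk s s) : ∃ u, IsDer δ s u := by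
  obtain ⟨φ, hφ, he⟩ := exists_ev hs
  obtain rfl : ev φ = s := funext he
  rw [ev_zero] at h0
  obtain ⟨S, γ, q, c, hP, ⟨m⟩, -⟩ := r2_data hφ h0 (r2_evn hφ hev) hW
  obtain ⟨ρ, hρ, hb⟩ := der_bound m δ
  have h1 : Ent (dl δ φ) := ent_of_dbl hφ hφ (r2_dup δ hP h0) (rad_of_bound hρ hb)
    (fun r _ h => h)
  exact ⟨_, r2_isDer δ hφ h1⟩

theorem exists_isDer2 (δ : Derivation ℚ ℂ ℂ) {f s u : (ι → ℂ) → ℂ} (hf : Differentiable ℂ f)
    (hs : Differentiable ℂ s) (h0 : s 0 = 1) (hev : ∀ z, s (-z) = s z) (hu : IsDer δ s u)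
    (hW : FRk f s) : ∃ v, IsDer δ f v := by
  obtain ⟨φ, hφ, he⟩ := exists_ev hf
  obtain rfl : ev φ = f := funext he
  obtain ⟨ψ, hψ, he'⟩ := exists_ev hs
  obtain rfl : ev ψ = s := funext he'
  obtain ⟨υ, hυ, he''⟩ := exists_ev hu.1
  obtain rfl : ev υ = u := funext he''
  obtain rfl : υ = dl δ ψ := r2_dl_eq δ hψ hυ hu.2
  rw [ev_zero] at h0
  obtain ⟨S, γ, hP, -⟩ := exists_PP2 φ ψ (r2_evn hψ hev) (fin_span hφ hψ hW)
  obtain ⟨ρ1, hρ1, hb1⟩ := bound_of_ent hψ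
  obtain ⟨ρ2, hρ2, hb2⟩ := bound_of_ent hυ
  obtain ⟨ρ, hρ, hb⟩ := nd_growth δ hP h0 (ρ1 + ρ2) (by linarith) (fun n => by
    have h3 : ρ1 ^ (dg n + 1) + ρ2 ^ (dg n + 1) ≤ (ρ1 + ρ2) ^ (dg n + 1) :=
      pow_add_pow_le (by linarith) (by linarith) (Nat.succ_ne_zero _)
    exact (add_le_add (hb1 n) (hb2 n)).trans h3)
  have h1 : Ent (dl δ φ) := ent_of_dbl hφ hψ (r2_dup δ hP h0)
    (rad_of_bound hρ fun n => le_trans (le_add_of_nonneg_left (norm_nonneg _)) (hb n))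
    (fun r hr _ => hυ r hr)
  exact ⟨_, r2_isDer δ hφ h1⟩

theorem algTay_of_jets {s : (ι → ℂ) → ℂ} (hs : Differentiable ℂ s) (h0 : s 0 = 1)
    (hev : ∀ z, s (-z) = s z) (hW : FRk s s)
    (ha : ∀ A : ι → ℕ, IsAlgebraic ℚ (Pool.Agent.RHK.jet1 s A)) : Pool.Agent.RHK.AlgTay s := by
  obtain ⟨φ, hφ, he⟩ := exists_ev hs
  obtain rfl : ev φ = s := funext he
  rw [ev_zero] at h0
  obtain ⟨S, γ, q, c, hP, ⟨m⟩, hK⟩ := r2_data hφ h0 (r2_evn hφ hev) hW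
  have hc : ∀ i, IsAlgebraic ℚ (c i) := by
    intro i
    refine mem_algebraicClosure_iff.1 (hK (algebraicClosure ℚ ℂ).toSubfield (fun n => ?_) i)
    refine mem_algebraicClosure_iff.2 ?_
    have h1 := ha (fun i => n i)
    rw [jet1_ev hφ] at h1
    have h2 : coeff n φ = ((fac n : ℂ))⁻¹ * ((fac n : ℂ) * coeff n φ) := by
      rw [← mul_assoc, inv_mul_cancel₀ (r2_fac_ne n), one_mul]
    rw [h2]
    exact (isAlgebraic_natCast (fac n)).inv.mul h1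
  have h3 : m.at c = φ := by
    ext n
    exact (m.hP n).symm
  have h4 := algTay_of_model m c hc (by rw [h3]; exact hφ)
  rwa [h3] at h4

end

end Pool.Agent.CMT
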