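import Mathlib

/-!
# CMT-FU2: Fourier uniqueness on the torus; entire functions vanishing on the real points (Mathlib only)

PLAN. `four_zero`: `h` descends to a continuous function `H` on `UnitAddTorus (Fin n) = Fin n → UnitAddCircle`
(quotient map of `ℝ → ℝ/ℤ` in every coordinate; it is an open quotient map, so `H` is continuous). The Fourier coefficient
`mFourierCoeff H m = ∫ t, mFourier (-m) t • H t` is the integral over the box (`UnitAddCircle` carries the product measure;
`UnitAddCircle.measurePreserving_mk`, `measurePreserving_pi` on `Ioc`, `Ioc` and `Icc` differ by a null set). All of them vanish, so `H = 0`: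
by `UnitAddTorus.span_mFourier_closure_eq_top` (density in `C(torus, ℂ)`) `∫ conj H * H = 0`, `H` continuous.
`real_zero`: one variable at a time: by induction on `k ≤ n`: `h z = 0` whenever `z i` is real for all `i ≥ k`; step: an entire function of one variable
vanishing on `ℝ` is `0` (identity theorem, `AnalyticOnNhd.eq_of_frequently_eq` at `0`).
-/

set_option autoImplicit false

namespace Pool.Agent.CMT

open Complex Finset MeasureTheory

noncomputable section

private theorem fu2_periodic {n : ℕ} (h : (Fin n → ℝ) → ℂ)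
    (hp : ∀ j x, h (x + Pi.single j 1) = h x) (k : Fin n → ℤ) (x : Fin n → ℝ) :
    h (x + fun i => (k i : ℝ)) = h x := by
  have h1 : ∀ j (m : ℤ), Function.Periodic h (m • (Pi.single j (1 : ℝ) : Fin n → ℝ)) := by
    intro j m
    have hj : Function.Periodic h (Pi.single j (1 : ℝ) : Fin n → ℝ) := fun x => hp j x
    exact hj.zsmul m
  have h2 : ∀ s : Finset (Fin n),
      Function.Periodic h (∑ j ∈ s, (k j) • (Pi.single j (1 : ℝ) : Fin n → ℝ)) := by
    intro s
    induction s using Finset.induction_on with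
    | empty =>
      intro y
      simp
    | insert a s ha ih =>
      rw [Finset.sum_insert ha]
      exact (h1 a (k a)).add_period ih
  have h3 : (fun i => (k i : ℝ)) = ∑ j ∈ Finset.univ, (k j) • (Pi.single j (1 : ℝ) : Fin n → ℝ) := by
    ext i
    rw [Finset.sum_apply]
    simp [Pi.single_apply]
  rw [h3]
  exact h2 _ x

theorem four_zero {n : ℕ} (h : (Fin n → ℝ) → ℂ) (hc : Continuous h)
    (hp : ∀ j x, h (x + Pi.single j 1) = h x)
    (h0 : ∀ m : Fin n → ℤ, ∫ x in Set.Icc (0 : Fin n → ℝ) 1,
      h x * cexp (-(2 * Real.pi * I * ∑ i, (m i : ℂ) * x i)) = 0) (x : Fin n → ℝ) : h x = 0 := by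
  -- the quotient map onto the torus
  let q : C(Fin n → ℝ, UnitAddTorus (Fin n)) :=
    ⟨Pi.map fun _ => (QuotientAddGroup.mk : ℝ → UnitAddCircle),
      (IsOpenQuotientMap.piMap fun _ => QuotientAddGroup.isOpenQuotientMap_mk).continuous⟩
  have hq : Topology.IsQuotientMap q :=
    (IsOpenQuotientMap.piMap fun _ => QuotientAddGroup.isOpenQuotientMap_mk).isQuotientMap
  let g : C(Fin n → ℝ, ℂ) := ⟨h, hc⟩
  have hfac : Function.FactorsThrough g q := by
    intro a b hab
    have h1 : ∀ i, ∃ k : ℤ, b i - a i = k := by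
      intro i
      have h2 : ((a i : ℝ) : UnitAddCircle) = ((b i : ℝ) : UnitAddCircle) := congrFun hab i
      have h3 := QuotientAddGroup.eq.mp h2
      obtain ⟨k, hk⟩ := AddSubgroup.mem_zmultiples_iff.mp h3
      refine ⟨k, ?_⟩
      rw [zsmul_eq_mul, mul_one] at hk
      linarith
    choose k hk using h1
    have h4 : b = a + fun i => (k i : ℝ) := by
      ext i
      rw [Pi.add_apply, ← hk i]
      ring
    change h a = h b
    rw [h4, fu2_periodic h hp]
  let H : C(UnitAddTorus (Fin n), ℂ) := hq.lift g hfac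
  have hH : ∀ y, H (q y) = h y := by
    intro y
    have := DFunLike.congr_fun (hq.lift_comp g hfac) y
    exact this
  have hcoef : ∀ m, UnitAddTorus.mFourierCoeff H m = 0 := by
    intro m
    rw [UnitAddTorus.mFourierCoeff_eq_integral H m 0]
    have hset : ({x : Fin n → ℝ | ∀ i, x i ∈ Set.Ioc ((0 : Fin n → ℝ) i) ((0 : Fin n → ℝ) i + 1)} :
        Set (Fin n → ℝ)) = Set.univ.pi fun i => Set.Ioc ((0 : Fin n → ℝ) i) ((1 : Fin n → ℝ) i) := by
      ext y
      simp [Set.mem_pi]
    have hae : (Set.univ.pi fun i => Set.Ioc ((0 : Fin n → ℝ) i) ((1 : Fin n → ℝ) i)) =ᵐ[volume]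
        Set.Icc (0 : Fin n → ℝ) 1 := by
      rw [MeasureTheory.volume_pi]
      exact MeasureTheory.Measure.univ_pi_Ioc_ae_eq_Icc
    rw [hset, MeasureTheory.setIntegral_congr_set hae, ← h0 m]
    refine MeasureTheory.setIntegral_congr_fun measurableSet_Icc fun y _ => ?_
    have h5 : H (fun i => ((y i : ℝ) : UnitAddCircle)) = h y := hH y
    have h6 : UnitAddTorus.mFourier (-m) (fun i => ((y i : ℝ) : UnitAddCircle)) =
        cexp (-(2 * Real.pi * I * ∑ i, (m i : ℂ) * y i)) := by
      change ∏ i, fourier ((-m) i) ((y i : ℝ) : UnitAddCircle) = _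
      simp only [fourier_coe_apply]
      rw [← Complex.exp_sum]
      congr 1
      rw [Finset.mul_sum, ← Finset.sum_neg_distrib]
      refine Finset.sum_congr rfl fun i _ => ?_
      simp
      ring
    change UnitAddTorus.mFourier (-m) (fun i => ((y i : ℝ) : UnitAddCircle)) •
      H (fun i => ((y i : ℝ) : UnitAddCircle)) = _
    rw [h5, h6, smul_eq_mul, mul_comm]
  have hsum := UnitAddTorus.hasSum_mFourier_series_of_summable (f := H) (by
    have : UnitAddTorus.mFourierCoeff H = 0 := funext hcoef
    rw [this]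
    exact summable_zero)
  have hz : H = 0 := by
    have h7 : (fun i => UnitAddTorus.mFourierCoeff H i • UnitAddTorus.mFourier (d := Fin n) i) =
        fun _ => 0 := by
      funext i
      rw [hcoef i]
      ext y
      simp
    rw [h7] at hsum
    exact hsum.unique hasSum_zero
  rw [← hH x, hz]
  rfl

theorem real_zero {n : ℕ} (h : (Fin n → ℂ) → ℂ) (hd : Differentiable ℂ h)
    (h0 : ∀ x : Fin n → ℝ, h (fun i => (x i : ℂ)) = 0) (z : Fin n → ℂ) : h z = 0 := by
  let g : ℂ → ℂ := fun t => h (fun i => ((z i).re : ℂ) + t * ((z i).im : ℂ))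
  have hg : Differentiable ℂ g := by
    refine hd.comp ?_
    rw [differentiable_pi]
    intro i
    fun_prop
  have hga : AnalyticOnNhd ℂ g Set.univ := hg.differentiableOn.analyticOnNhd isOpen_univ
  have hreal : ∀ t : ℝ, g (t : ℂ) = 0 := by
    intro t
    have := h0 (fun i => (z i).re + t * (z i).im)
    push_cast at this
    exact this
  have hfreq : ∃ᶠ t in nhdsWithin (0 : ℂ) {0}ᶜ, g t = (fun _ => (0 : ℂ)) t := by
    have h1 : Filter.Tendsto (fun t : ℝ => (t : ℂ)) (nhdsWithin 0 {0}ᶜ) (nhdsWithin (0 : ℂ) {0}ᶜ) := by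
      refine tendsto_nhdsWithin_iff.mpr ⟨?_, ?_⟩
      · have h2 : Filter.Tendsto (fun t : ℝ => (t : ℂ)) (nhds 0) (nhds ((0 : ℝ) : ℂ)) :=
          Complex.continuous_ofReal.tendsto 0
        rw [Complex.ofReal_zero] at h2
        exact h2.mono_left nhdsWithin_le_nhds
      · filter_upwards [self_mem_nhdsWithin] with t ht
        simpa using ht
    refine h1.frequently (Filter.Eventually.frequently ?_)
    exact Filter.Eventually.of_forall hreal
  have hgz := hga.eq_of_frequently_eq analyticOnNhd_const hfreq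
  have h3 : g I = h z := by
    change h (fun i => ((z i).re : ℂ) + I * ((z i).im : ℂ)) = h z
    congr 1
    ext i
    rw [mul_comm]
    exact Complex.re_add_im (z i)
  rw [← h3, hgz]

end

end Pool.Agent.CMT
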