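import Pool.Agent.CMT.FU1
import Pool.Agent.CMT.FU2

/-!
# CMT-FU3: theta functions of a principal system of multipliers form a space of dimension one
-/

set_option autoImplicit false

namespace Pool.Agent.CMT

open Complex Finset MeasureTheory

noncomputable section

private def fu3_J {n : ℕ} (h : (Fin n → ℂ) → ℂ) (m : Fin n → ℤ) : ℂ :=
  ∫ x in Set.Icc (0 : Fin n → ℝ) 1,
    h (fun i => (x i : ℂ)) * cexp (-(2 * Real.pi * I * ∑ i, (m i : ℂ) * x i))

private theorem fu3_step {n : ℕ} (C : Fin n → ℂ) (ω : Fin n → Fin n → ℂ) (h : (Fin n → ℂ) → ℂ)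
    (hd : Differentiable ℂ h) (hp : ∀ j z, h (z + Pi.single j 1) = h z)
    (hq : ∀ k z, h (z + ω k) = C k * cexp (2 * Real.pi * I * z k) * h z) (m : Fin n → ℤ)
    (k : Fin n) : fu3_J h m =
      C k * cexp (-(2 * Real.pi * I * ∑ i, (m i : ℂ) * ω k i)) * fu3_J h (m - Pi.single k 1) := by
  set g : (Fin n → ℂ) → ℂ := fun z => h z * cexp (-(2 * Real.pi * I * ∑ i, (m i : ℂ) * z i))
    with hg
  have hgd : Differentiable ℂ g := by
    apply hd.mul
    apply Differentiable.cexp
    apply Differentiable.neg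
    apply Differentiable.const_mul
    apply Differentiable.fun_sum
    intro i _
    apply Differentiable.const_mul
    exact differentiable_apply i
  have hgp : ∀ j z, g (z + Pi.single j 1) = g z := by
    intro j z
    simp only [hg]
    rw [hp j z]
    congr 1
    have e : ∑ i, (m i : ℂ) * (z + Pi.single j 1 : Fin n → ℂ) i =
        ∑ i, (m i : ℂ) * z i + m j := by
      simp only [Pi.add_apply, mul_add, Finset.sum_add_distrib]
      congr 1
      rw [Finset.sum_eq_single j]
      · simp
      · intro b _ hb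
        simp [hb]
      · intro hj
        exact absurd (Finset.mem_univ j) hj
    rw [e]
    have e2 : -(2 * (Real.pi : ℂ) * I * (∑ i, (m i : ℂ) * z i + m j)) =
        -(2 * Real.pi * I * ∑ i, (m i : ℂ) * z i) + ((-m j : ℤ) : ℂ) * (2 * Real.pi * I) := by
      push_cast
      ring
    rw [e2, Complex.exp_add, Complex.exp_int_mul_two_pi_mul_I, mul_one]
  have h1 := per_int g hgd hgp (ω k)
  have h2 : fu3_J h m = ∫ x in Set.Icc (0 : Fin n → ℝ) 1, g (fun i => (x i : ℂ)) := rfl
  rw [h2, ← h1]
  unfold fu3_J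
  rw [← integral_const_mul]
  refine integral_congr_ae (Filter.Eventually.of_forall fun x => ?_)
  simp only [hg]
  have e3 : (fun i => (x i : ℂ) + ω k i) = (fun i => (x i : ℂ)) + ω k := rfl
  rw [e3, hq k]
  have e4 : ∑ i, (m i : ℂ) * ((x i : ℂ) + ω k i) =
      ∑ i, (m i : ℂ) * x i + ∑ i, (m i : ℂ) * ω k i := by
    simp only [mul_add, Finset.sum_add_distrib]
  have e5 : ∑ i, (((m - Pi.single k 1 : Fin n → ℤ) i : ℤ) : ℂ) * x i =
      ∑ i, (m i : ℂ) * x i - x k := by
    have e6 : ∀ i, (((m - Pi.single k 1 : Fin n → ℤ) i : ℤ) : ℂ) * x i =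
        (m i : ℂ) * x i - (if i = k then (x k : ℂ) else 0) := by
      intro i
      by_cases hi : i = k
      · subst hi
        simp
        ring
      · simp [hi]
    rw [Finset.sum_congr rfl (fun i _ => e6 i), Finset.sum_sub_distrib]
    simp
  rw [e4, e5]
  have e7 : cexp (-(2 * Real.pi * I * (∑ i, (m i : ℂ) * x i + ∑ i, (m i : ℂ) * ω k i))) =
      cexp (-(2 * Real.pi * I * ∑ i, (m i : ℂ) * x i)) *
        cexp (-(2 * Real.pi * I * ∑ i, (m i : ℂ) * ω k i)) := by
    rw [← Complex.exp_add]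
    congr 1
    ring
  have e8 : cexp (-(2 * Real.pi * I * (∑ i, (m i : ℂ) * x i - x k))) =
      cexp (2 * Real.pi * I * x k) * cexp (-(2 * Real.pi * I * ∑ i, (m i : ℂ) * x i)) := by
    rw [← Complex.exp_add]
    congr 1
    ring
  rw [e7, e8]
  ring

private theorem fu3_all {n : ℕ} (P : (Fin n → ℤ) → Prop) (h0 : P 0)
    (hs : ∀ m k, P m ↔ P (m - Pi.single k 1)) (m : Fin n → ℤ) : P m := by
  have h1 : ∀ (k : Fin n) (a : ℤ) (m : Fin n → ℤ), P m → P (m + a • Pi.single k 1) := by
    intro k a
    induction a using Int.induction_on with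
    | zero => intro m hm; simpa using hm
    | succ a ih =>
      intro m hm
      have h2 := ih m hm
      rw [hs _ k]
      have e : m + ((a : ℤ) + 1) • (Pi.single k 1 : Fin n → ℤ) - Pi.single k 1 =
          m + (a : ℤ) • Pi.single k 1 := by
        rw [add_smul, one_smul]
        abel
      rw [e]
      exact h2
    | pred a ih =>
      intro m hm
      have h2 := ih m hm
      rw [hs _ k] at h2
      have e : m + (-(a : ℤ) - 1) • (Pi.single k 1 : Fin n → ℤ) =
          m + (-(a : ℤ)) • Pi.single k 1 - Pi.single k 1 := by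
        rw [sub_smul, one_smul]
        abel
      rw [e]
      exact h2
  have h2 : ∀ S : Finset (Fin n), P (∑ k ∈ S, m k • (Pi.single k 1 : Fin n → ℤ)) := by
    intro S
    induction S using Finset.induction_on with
    | empty => simpa using h0
    | insert a S ha ih =>
      rw [Finset.sum_insert ha, add_comm]
      exact h1 a (m a) _ ih
  have h3 := h2 Finset.univ
  have e : ∑ k, m k • (Pi.single k 1 : Fin n → ℤ) = m := by
    ext i
    rw [Finset.sum_apply, Finset.sum_eq_single i]
    · simp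
    · intro b _ hb
      simp [hb.symm]
    · intro hi
      exact absurd (Finset.mem_univ i) hi
  rwa [e] at h3

private theorem fu3_zero {n : ℕ} (C : Fin n → ℂ) (hC : ∀ j, C j ≠ 0) (ω : Fin n → Fin n → ℂ)
    (h : (Fin n → ℂ) → ℂ) (hd : Differentiable ℂ h) (hp : ∀ j z, h (z + Pi.single j 1) = h z)
    (hq : ∀ k z, h (z + ω k) = C k * cexp (2 * Real.pi * I * z k) * h z) (h0 : fu3_J h 0 = 0)
    (z : Fin n → ℂ) : h z = 0 := by
  have h1 : ∀ m, fu3_J h m = 0 := by
    apply fu3_all (fun m => fu3_J h m = 0) h0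
    intro m k
    rw [fu3_step C ω h hd hp hq m k]
    constructor
    · intro h2
      rcases mul_eq_zero.1 h2 with h3 | h3
      · rcases mul_eq_zero.1 h3 with h4 | h4
        · exact absurd h4 (hC k)
        · exact absurd h4 (Complex.exp_ne_zero _)
      · exact h3
    · intro h2
      rw [h2, mul_zero]
  apply real_zero h hd
  intro x
  have hcont : Continuous (fun x : Fin n → ℝ => h (fun i => (x i : ℂ))) := by
    apply hd.continuous.comp
    apply continuous_pi
    intro i
    exact Complex.continuous_ofReal.comp (continuous_apply i)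
  apply four_zero (fun x : Fin n → ℝ => h (fun i => (x i : ℂ))) hcont _ h1 x
  intro j y
  have e : (fun i => (((y + Pi.single j 1 : Fin n → ℝ) i : ℝ) : ℂ)) =
      (fun i => (y i : ℂ)) + Pi.single j 1 := by
    ext i
    by_cases hi : i = j
    · subst hi
      simp
    · simp [hi]
  rw [e, hp]

theorem four_unique {n : ℕ} (χ C : Fin n → ℂ) (hχ : ∀ j, χ j ≠ 0) (hC : ∀ j, C j ≠ 0)
    (ω : Fin n → Fin n → ℂ) (G1 G2 : (Fin n → ℂ) → ℂ) (h1 : Differentiable ℂ G1)
    (h2 : Differentiable ℂ G2) (h1p : ∀ j z, G1 (z + Pi.single j 1) = χ j * G1 z)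
    (h2p : ∀ j z, G2 (z + Pi.single j 1) = χ j * G2 z)
    (h1q : ∀ k z, G1 (z + ω k) = C k * cexp (2 * Real.pi * I * z k) * G1 z)
    (h2q : ∀ k z, G2 (z + ω k) = C k * cexp (2 * Real.pi * I * z k) * G2 z)
    (h0 : ∃ z, G1 z ≠ 0) : ∃ c : ℂ, ∀ z, G2 z = c * G1 z := by
  have hs : ∀ j, ∃ s : ℂ, cexp (2 * Real.pi * I * s) = χ j := by
    intro j
    refine ⟨Complex.log (χ j) / (2 * Real.pi * I), ?_⟩
    rw [mul_div_cancel₀ _ Complex.two_pi_I_ne_zero, Complex.exp_log (hχ j)]
  choose s hs using hs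
  set E : (Fin n → ℂ) → ℂ := fun z => cexp (-(2 * Real.pi * I * ∑ j, s j * z j)) with hE
  have hEd : Differentiable ℂ E := by
    apply Differentiable.cexp
    apply Differentiable.neg
    apply Differentiable.const_mul
    apply Differentiable.fun_sum
    intro i _
    apply Differentiable.const_mul
    exact differentiable_apply i
  have hE0 : ∀ z, E z ≠ 0 := fun z => Complex.exp_ne_zero _
  have hEadd : ∀ z w, E (z + w) = E z * E w := by
    intro z w
    simp only [hE]
    rw [← Complex.exp_add]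
    congr 1
    simp only [Pi.add_apply, mul_add, Finset.sum_add_distrib]
    ring
  have hEs : ∀ j, E (Pi.single j 1) * χ j = 1 := by
    intro j
    rw [← hs j]
    simp only [hE]
    rw [← Complex.exp_add, Finset.sum_eq_single j]
    · simp
    · intro b _ hb
      simp [hb]
    · intro hj
      exact absurd (Finset.mem_univ j) hj
  set C' : Fin n → ℂ := fun k => C k * E (ω k) with hC'
  have hC0 : ∀ k, C' k ≠ 0 := fun k => mul_ne_zero (hC k) (hE0 _)
  have key : ∀ G : (Fin n → ℂ) → ℂ, Differentiable ℂ G →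
      (∀ j z, G (z + Pi.single j 1) = χ j * G z) →
      (∀ k z, G (z + ω k) = C k * cexp (2 * Real.pi * I * z k) * G z) →
      Differentiable ℂ (fun z => G z * E z) ∧
      (∀ j z, (fun z => G z * E z) (z + Pi.single j 1) = (fun z => G z * E z) z) ∧
      (∀ k z, (fun z => G z * E z) (z + ω k) =
        C' k * cexp (2 * Real.pi * I * z k) * (fun z => G z * E z) z) := by
    intro G hG hGp hGq
    refine ⟨hG.mul hEd, ?_, ?_⟩
    · intro j z
      simp only
      rw [hGp j z, hEadd]
      have := hEs j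
      linear_combination (G z * E z) * this
    · intro k z
      simp only [hC']
      rw [hGq k z, hEadd]
      ring
  obtain ⟨d1, p1, q1⟩ := key G1 h1 h1p h1q
  obtain ⟨d2, p2, q2⟩ := key G2 h2 h2p h2q
  have hJ1 : fu3_J (fun z => G1 z * E z) 0 ≠ 0 := by
    intro hJ
    obtain ⟨z, hz⟩ := h0
    have h3 := fu3_zero C' hC0 ω _ d1 p1 q1 hJ z
    exact (mul_ne_zero hz (hE0 z)) h3
  set c : ℂ := fu3_J (fun z => G2 z * E z) 0 / fu3_J (fun z => G1 z * E z) 0 with hc
  refine ⟨c, ?_⟩
  obtain ⟨d3, p3, q3⟩ := key (fun z => G2 z - c * G1 z) (h2.sub (h1.const_mul c))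
    (by
      intro j z
      rw [h1p, h2p]
      ring)
    (by
      intro k z
      rw [h1q, h2q]
      ring)
  have hcont : ∀ h : (Fin n → ℂ) → ℂ, Differentiable ℂ h →
      Continuous (fun x : Fin n → ℝ => h (fun i => (x i : ℂ)) *
        cexp (-(2 * Real.pi * I * ∑ i, (((0 : Fin n → ℤ) i : ℤ) : ℂ) * x i))) := by
    intro h hd
    have c1 : Continuous (fun x : Fin n → ℝ => (fun i => (x i : ℂ) : Fin n → ℂ)) := by
      apply continuous_pi
      intro i
      exact Complex.continuous_ofReal.comp (continuous_apply i)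
    apply (hd.continuous.comp c1).mul
    simp only [Pi.zero_apply, Int.cast_zero, zero_mul, Finset.sum_const_zero, mul_zero, neg_zero,
      Complex.exp_zero]
    exact continuous_const
  have hJ3 : fu3_J (fun z => (G2 z - c * G1 z) * E z) 0 = 0 := by
    have i1 := (hcont _ d1).integrableOn_Icc (μ := volume) (a := (0 : Fin n → ℝ)) (b := 1)
    have i2 := (hcont _ d2).integrableOn_Icc (μ := volume) (a := (0 : Fin n → ℝ)) (b := 1)
    have e1 : fu3_J (fun z => (G2 z - c * G1 z) * E z) 0 =
        fu3_J (fun z => G2 z * E z) 0 - c * fu3_J (fun z => G1 z * E z) 0 := by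
      unfold fu3_J
      rw [← integral_const_mul, ← integral_sub i2 (i1.const_mul c)]
      refine integral_congr_ae (Filter.Eventually.of_forall fun x => ?_)
      simp only
      ring
    rw [e1, hc, div_mul_cancel₀ _ hJ1, sub_self]
  intro z
  have h3 := fu3_zero C' hC0 ω _ d3 p3 q3 hJ3 z
  rcases mul_eq_zero.1 h3 with h4 | h4
  · exact sub_eq_zero.1 h4
  · exact absurd h4 (hE0 z)

theorem four_unique' {ι : Type} [Fintype ι] [DecidableEq ι] (χ C : ι → ℂ) (hχ : ∀ j, χ j ≠ 0)
    (hC : ∀ j, C j ≠ 0) (ω : ι → ι → ℂ) (G1 G2 : (ι → ℂ) → ℂ) (h1 : Differentiable ℂ G1)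
    (h2 : Differentiable ℂ G2) (h1p : ∀ j z, G1 (z + Pi.single j 1) = χ j * G1 z)
    (h2p : ∀ j z, G2 (z + Pi.single j 1) = χ j * G2 z)
    (h1q : ∀ k z, G1 (z + ω k) = C k * cexp (2 * Real.pi * I * z k) * G1 z)
    (h2q : ∀ k z, G2 (z + ω k) = C k * cexp (2 * Real.pi * I * z k) * G2 z)
    (h0 : ∃ z, G1 z ≠ 0) : ∃ c : ℂ, ∀ z, G2 z = c * G1 z := by
  set e := Fintype.equivFin ι with he
  have hsing : ∀ j : Fin (Fintype.card ι), (fun i => (Pi.single j 1 : Fin (Fintype.card ι) → ℂ) (e i)) =
      Pi.single (e.symm j) 1 := by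
    intro j
    ext i
    by_cases hi : e i = j
    · have hi' : i = e.symm j := by rw [← hi, Equiv.symm_apply_apply]
      subst hi'
      simp
    · have hi' : i ≠ e.symm j := by
        intro h
        apply hi
        rw [h, Equiv.apply_symm_apply]
      simp [hi, hi']
  have hdiff : ∀ G : (ι → ℂ) → ℂ, Differentiable ℂ G →
      Differentiable ℂ (fun z : Fin (Fintype.card ι) → ℂ => G (fun i => z (e i))) := by
    intro G hG
    apply hG.comp
    rw [differentiable_pi]
    intro i
    exact differentiable_apply (e i)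
  have key : ∀ G : (ι → ℂ) → ℂ, (∀ j z, G (z + Pi.single j 1) = χ j * G z) →
      ∀ (j : Fin (Fintype.card ι)) (z : Fin (Fintype.card ι) → ℂ),
        (fun z : Fin (Fintype.card ι) → ℂ => G (fun i => z (e i))) (z + Pi.single j 1) =
          χ (e.symm j) * (fun z : Fin (Fintype.card ι) → ℂ => G (fun i => z (e i))) z := by
    intro G hG j z
    have h3 := hG (e.symm j) (fun i => z (e i))
    rw [← hsing j] at h3
    exact h3
  have key2 : ∀ G : (ι → ℂ) → ℂ,
      (∀ k z, G (z + ω k) = C k * cexp (2 * Real.pi * I * z k) * G z) →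
      ∀ (k : Fin (Fintype.card ι)) (z : Fin (Fintype.card ι) → ℂ),
        (fun z : Fin (Fintype.card ι) → ℂ => G (fun i => z (e i)))
            (z + (fun l => ω (e.symm k) (e.symm l))) =
          C (e.symm k) * cexp (2 * Real.pi * I * z k) *
            (fun z : Fin (Fintype.card ι) → ℂ => G (fun i => z (e i))) z := by
    intro G hG k z
    have h3 := hG (e.symm k) (fun i => z (e i))
    have e1 : (fun i => (z + (fun l => ω (e.symm k) (e.symm l)) : Fin (Fintype.card ι) → ℂ) (e i)) =
        (fun i => z (e i)) + ω (e.symm k) := by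
      ext i
      simp
    simp only
    rw [e1, h3, Equiv.apply_symm_apply]
  obtain ⟨c, hc⟩ := four_unique (fun j => χ (e.symm j)) (fun j => C (e.symm j))
    (fun j => hχ _) (fun j => hC _) (fun k l => ω (e.symm k) (e.symm l))
    (fun z => G1 (fun i => z (e i))) (fun z => G2 (fun i => z (e i))) (hdiff G1 h1) (hdiff G2 h2)
    (key G1 h1p) (key G2 h2p) (key2 G1 h1q) (key2 G2 h2q) (by
      obtain ⟨z, hz⟩ := h0
      refine ⟨fun j => z (e.symm j), ?_⟩
      simpa using hz)
  refine ⟨c, fun z => ?_⟩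
  have h3 := hc (fun j => z (e.symm j))
  simpa using h3

end

end Pool.Agent.CMT
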