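import Mathlib

/-!
# Project CMT (MP_c2409d_nt, all levels): definitions

Paper: /team-store/alld_thetaCM_h37.md (Theorem A and (U)).

Entire functions of several variables are given by their Taylor series: a multivariate power
series `φ : MvPowerSeries ι ℂ` with `Ent φ`, value `ev φ z`.
`dd A φ` is the divided derivative `∂^A φ / A!`, `hw A φ` the divided Hirota derivative
(`f(X+Y) f(X-Y) = ∑_A hw A f (X) Y^A`), `PP` the bilinear identity (P) of the paper.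
-/

set_option autoImplicit false

namespace Pool.Agent.CMT

open Finset MvPowerSeries

noncomputable section

variable {ι : Type} [Fintype ι] [DecidableEq ι]

/-- `|n|` -/
def dg (n : ι →₀ ℕ) : ℕ := ∑ i, n i

/-- `z^n` -/
def mo (z : ι → ℂ) (n : ι →₀ ℕ) : ℂ := ∏ i, z i ^ n i

/-- `n!` -/
def fac (n : ι →₀ ℕ) : ℕ := ∏ i, (n i).factorial

/-- `∏ binom (c_i + p_i, p_i)` -/
def mb (c p : ι →₀ ℕ) : ℕ := ∏ i, (c i + p i).choose (p i)

/-- the Taylor series converges everywhere -/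
def Ent (φ : MvPowerSeries ι ℂ) : Prop :=
  ∀ r : ℝ, 0 ≤ r → Summable (fun n : ι →₀ ℕ => ‖coeff n φ‖ * r ^ dg n)

/-- the majorant `∑ |φ_n| r^|n|` -/
def nr (r : ℝ) (φ : MvPowerSeries ι ℂ) : ℝ := ∑' n : ι →₀ ℕ, ‖coeff n φ‖ * r ^ dg n

/-- the value of the entire function with Taylor series `φ` -/
def ev (φ : MvPowerSeries ι ℂ) (z : ι → ℂ) : ℂ := ∑' n : ι →₀ ℕ, coeff n φ * mo z n

section Ring

variable {R : Type} [CommRing R]

/-- divided derivative `∂^A / A!` -/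
def dd (A : ι →₀ ℕ) (φ : MvPowerSeries ι R) : MvPowerSeries ι R :=
  fun n => (mb n A : R) * coeff (n + A) φ

/-- `φ(a X)` -/
def sc (a : ι → R) (φ : MvPowerSeries ι R) : MvPowerSeries ι R :=
  fun n => (∏ i, a i ^ n i) * coeff n φ

/-- divided Hirota derivative: the coefficient of `Y^A` in `φ(X+Y) φ(X-Y)` -/
def hw (A : ι →₀ ℕ) (φ : MvPowerSeries ι R) : MvPowerSeries ι R :=
  ∑ p ∈ antidiagonal A, (-1 : MvPowerSeries ι R) ^ dg p.2 * (dd p.1 φ * dd p.2 φ)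

/-- identity (P): `φ(X+Y) φ(X-Y) = ∑ γ_{AA'} hw A φ (X) hw A' φ (Y)` -/
def PP (S : Finset (ι →₀ ℕ)) (γ : (ι →₀ ℕ) → (ι →₀ ℕ) → R) (φ : MvPowerSeries ι R) : Prop :=
  ∀ B : ι →₀ ℕ, hw B φ = ∑ A ∈ S, C (∑ A' ∈ S, γ A A' * coeff B (hw A' φ)) * hw A φ

/-- even power series with constant term `1` -/
def Ev1 (φ : MvPowerSeries ι R) : Prop :=
  coeff 0 φ = 1 ∧ ∀ n : ι →₀ ℕ, ¬ Even (dg n) → coeff n φ = 0

/-- the numerators of `h_A = w_A / f²` (`none`) and `∂_k h_A` (`some k`), denominator `f⁴` -/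
def NN (A : ι →₀ ℕ) (k : Option ι) (φ : MvPowerSeries ι R) : MvPowerSeries ι R :=
  match k with
  | none => hw A φ * φ ^ 2
  | some k => dd (Finsupp.single k 1) (hw A φ) * φ ^ 2 -
      2 * (hw A φ * φ * dd (Finsupp.single k 1) φ)

/-- the homogenised polynomial relation `F^M P(g/F)`, `P = ∑_{m ∈ Ms} r_m z^m`, `|m| ≤ M` -/
def hom (Ms : Finset (Option ι →₀ ℕ)) (M : ℕ) (r : (Option ι →₀ ℕ) → R)
    (g : Option ι → MvPowerSeries ι R) (F : MvPowerSeries ι R) : MvPowerSeries ι R :=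
  ∑ m ∈ Ms, C (r m) * (∏ i, g i ^ m i) * F ^ (M - dg m)

end Ring

/-! ## Parameters -/

/-- the field of algebraic numbers -/
abbrev Qb : IntermediateField ℚ ℂ := algebraicClosure ℚ ℂ

variable {Q : Type} [Fintype Q]

/-- `s` is a specialisation of `c` over the algebraic numbers -/
def Sp (c s : Q → ℂ) : Prop :=
  ∀ P : MvPolynomial Q Qb, MvPolynomial.aeval c P = 0 → MvPolynomial.aeval s P = 0

/-- weighted `ℓ¹`-norm of a polynomial -/
def wn (r : ℝ) (P : MvPolynomial Q ℚ) : ℝ := ∑ m ∈ P.support, |((P.coeff m : ℚ) : ℝ)| * r ^ (∑ i, m i)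

/-- all Taylor coefficients of `φ` are polynomials in the finitely many numbers `c`, with growth
and denominators under control -/
structure Model (c : Q → ℂ) (φ : MvPowerSeries ι ℂ) where
  P : (ι →₀ ℕ) → MvPolynomial Q ℚ
  hP : ∀ n, coeff n φ = MvPolynomial.aeval c (P n)
  hb : ∀ r : ℝ, 1 ≤ r → ∃ ρ : ℝ, 1 ≤ ρ ∧ ∀ n, wn r (P n) ≤ ρ ^ (dg n + 1)
  hi : ∃ d : ℕ, 0 < d ∧ ∀ n, ∃ P' : MvPolynomial Q ℤ,
    MvPolynomial.map (Int.castRingHom ℚ) P' = MvPolynomial.C ((d : ℚ) ^ (dg n + 1) * fac n) * P n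

/-- the power series at the parameter `s` -/
def Model.at {c : Q → ℂ} {φ : MvPowerSeries ι ℂ} (m : Model c φ) (s : Q → ℂ) : MvPowerSeries ι ℂ :=
  fun n => MvPolynomial.aeval s (m.P n)

/-- convergence of sequences of entire functions: coefficientwise with uniform majorants -/
def Cv (φ : ℕ → MvPowerSeries ι ℂ) (ψ : MvPowerSeries ι ℂ) : Prop :=
  Ent ψ ∧ (∀ k, Ent (φ k)) ∧
  (∀ n, Filter.Tendsto (fun k => coeff n (φ k)) Filter.atTop (nhds (coeff n ψ))) ∧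
  ∀ r : ℝ, 0 ≤ r → ∃ M : ℝ, ∀ k, nr r (φ k) ≤ M

/-- `u` is a quasi-period of `f`: `f(z+u) = exp(a z + b) f(z)` -/
def QPr (f : (ι → ℂ) → ℂ) (u a : ι → ℂ) (b : ℂ) : Prop :=
  ∀ z, f (z + u) = Complex.exp (∑ i, a i * z i + b) * f z

end

end Pool.Agent.CMT
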