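import Pool.Agent.CMT.Defs

/-!
# Project CMT: second part of the definitions (interface between the blocks)
-/

set_option autoImplicit false

namespace Pool.Agent.CMT

open Finset MvPowerSeries Filter Topology

noncomputable section

variable {ι : Type} [Fintype ι] [DecidableEq ι]

section Ring

variable {R : Type} [CommRing R]

/-- numerator of `∂_k (NN A κ φ / φ⁴)`; the denominator is `φ⁵` -/
def DN (A : ι →₀ ℕ) (κ : Option ι) (k : ι) (φ : MvPowerSeries ι R) : MvPowerSeries ι R :=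
  dd (Finsupp.single k 1) (NN A κ φ) * φ - 4 * (NN A κ φ * dd (Finsupp.single k 1) φ)

/-- numerators of the functions `ψ_{I i}(X)` (`some i`) and `ψ'_{A,κ}(α X)` (`none`), where
`ψ_{A,κ} = NN A κ φ / φ⁴`, `ψ'_{A,κ} = NN A κ φ' / φ'⁴`; common denominator `FF α φ φ'` -/
def GG (I : ι → (ι →₀ ℕ) × Option ι) (A : ι →₀ ℕ) (κ : Option ι) (α : ι → R)
    (φ φ' : MvPowerSeries ι R) : Option ι → MvPowerSeries ι R
  | some i => NN (I i).1 (I i).2 φ * sc α φ' ^ 4
  | none => φ ^ 4 * sc α (NN A κ φ')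

/-- the common denominator -/
def FF (α : ι → R) (φ φ' : MvPowerSeries ι R) : MvPowerSeries ι R := φ ^ 4 * sc α φ' ^ 4

/-- the homogenised derivative of the relation with respect to the last variable:
`F^(M-1) (∂P/∂z)(g/F)` -/
def homD (Ms : Finset (Option ι →₀ ℕ)) (M : ℕ) (r : (Option ι →₀ ℕ) → R)
    (g : Option ι → MvPowerSeries ι R) (F : MvPowerSeries ι R) : MvPowerSeries ι R :=
  ∑ m ∈ Ms, C ((m none : R) * r m) * (∏ i : ι, g (some i) ^ m (some i)) *
    g none ^ (m none - 1) * F ^ (M - dg m)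

end Ring

/-- the value of `ψ_{A,κ}` at `z` -/
def ps (A : ι →₀ ℕ) (κ : Option ι) (φ : MvPowerSeries ι ℂ) (z : ι → ℂ) : ℂ :=
  ev (NN A κ φ) z / ev φ z ^ 4

/-- a sequence of relations `R_k (ψ_I (X), ψ'_{A,κ} (α_k X)) = 0` for `φ_k → φ`, `φ'_k → φ'`,
`α_k → α` with converging coefficients, whose limit has a simple root at the generic point -/
def RelSeq (I : ι → (ι →₀ ℕ) × Option ι) (A : ι →₀ ℕ) (κ : Option ι)
    (φk φk' : ℕ → MvPowerSeries ι ℂ) (αk : ℕ → ι → ℂ)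
    (φ φ' : MvPowerSeries ι ℂ) (α : ι → ℂ) : Prop :=
  ∃ (Ms : Finset (Option ι →₀ ℕ)) (M : ℕ) (rk : ℕ → (Option ι →₀ ℕ) → ℂ)
    (r : (Option ι →₀ ℕ) → ℂ),
    (∀ m ∈ Ms, dg m ≤ M) ∧ (∀ m ∈ Ms, Tendsto (fun k => rk k m) atTop (𝓝 (r m))) ∧
    (∀ k, hom Ms M (rk k) (GG I A κ (αk k) (φk k) (φk' k)) (FF (αk k) (φk k) (φk' k)) = 0) ∧
    homD Ms M r (GG I A κ α φ φ') (FF α φ φ') ≠ 0

/-- the subalgebra generated over the algebraic numbers by the constants -/
abbrev RR {q : ℕ} (c : Fin q → ℂ) : Subalgebra Qb ℂ := Algebra.adjoin Qb (Set.range c)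

/-- the jacobian of the functions `ψ_{I i}` (numerators) is not identically zero -/
def Jac (I : ι → (ι →₀ ℕ) × Option ι) (φ : MvPowerSeries ι ℂ) : Prop :=
  (Matrix.of fun i k : ι => DN (I i).1 (I i).2 k φ).det ≠ 0

end

end Pool.Agent.CMT
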