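import Mathlib

/-!
# CMT-FU1: the mean value of a periodic entire function does not depend on the imaginary part (Mathlib only)

PLAN. `J w := ∫ x in Icc 0 1, h (x + w)`. (a) `J` is differentiable, `fderiv J w v = ∫ x in Icc 0 1, fderiv ℂ h (x + w) v`
(`hasFDerivAt_integral_of_dominated_of_fderiv_le`: on the compact box times a ball `fderiv h` is bounded, it is continuous because
`h` is analytic: `Differentiable.analyticAt`/`ContDiff`). (b) For every `j`: `∫ x in Icc 0 1, fderiv ℂ h (x + w) e_j = 0`: for `n = 0` there is no `j`; for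
`n + 1` it is the divergence theorem for the vector field with the single component `h (x + w)` at `j`
(`integral_divergence_of_hasFDerivAt_off_countable`, or `MeasureTheory.integral_divergence...`): the two faces `x_j = 0`, `x_j = 1` cancel
by periodicity (or Fubini and the fundamental theorem of calculus in `x_j`). (c) So `fderiv J w = 0` for every `w` (complex linear, all basis
vectors), `J` is constant (`is_const_of_fderiv_eq_zero`), compare `w` and `0`.
-/

set_option autoImplicit false

namespace Pool.Agent.CMT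

open Complex Finset MeasureTheory

noncomputable section

private theorem fu1_one (g : ℂ → ℂ) (hg : Differentiable ℂ g) (hp : ∀ z, g (z + 1) = g z) (c : ℂ) :
    ∫ x in Set.Icc (0 : ℝ) 1, g ((x : ℂ) + c) = ∫ x in Set.Icc (0 : ℝ) 1, g (x : ℂ) := by
  rw [integral_Icc_eq_integral_Ioc, integral_Icc_eq_integral_Ioc,
    ← intervalIntegral.integral_of_le zero_le_one, ← intervalIntegral.integral_of_le zero_le_one]
  have h1 := Complex.integral_boundary_rect_eq_zero_of_differentiableOn (fun z => g (z + c.re))
    0 (1 + c.im * I) (fun z _ => ((hg _).comp z ((differentiableAt_id).add_const _)).differentiableWithinAt)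
  have e1 : ∀ y : ℝ, g (((1 + c.im * I : ℂ).re : ℂ) + y * I + c.re) =
      g (((0 : ℂ).re : ℂ) + y * I + c.re) := by
    intro y
    have : (((1 + c.im * I : ℂ).re : ℂ) + y * I + c.re) =
      (((0 : ℂ).re : ℂ) + y * I + c.re) + 1 := by
      simp
      ring
    rw [this, hp]
  simp only [e1] at h1
  rw [add_sub_cancel_right, sub_eq_zero] at h1
  have e2 : ∀ x : ℝ, g ((x : ℂ) + ((0 : ℂ).im : ℂ) * I + c.re) = g (((x + c.re : ℝ) : ℂ)) := by
    intro x
    simp
  have e3 : ∀ x : ℝ, g ((x : ℂ) + ((1 + c.im * I : ℂ).im : ℂ) * I + c.re) = g ((x : ℂ) + c) := by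
    intro x
    congr 1
    apply Complex.ext <;> simp
  simp only [e2, e3] at h1
  have e4 : (0 : ℂ).re = 0 := rfl
  have e5 : (1 + c.im * I : ℂ).re = 1 := by simp
  rw [e4, e5] at h1
  rw [← h1]
  have hper : Function.Periodic (fun x : ℝ => g (x : ℂ)) 1 := by
    intro x
    have := hp x
    simpa using this
  have h2 := hper.intervalIntegral_add_eq c.re 0
  rw [intervalIntegral.integral_comp_add_right (fun x : ℝ => g (x : ℂ))]
  rw [zero_add, add_comm 1 c.re, h2, zero_add]

private theorem fu1_fub {n : ℕ} (F : (Fin (n + 1) → ℝ) → ℂ) (hF : Continuous F) :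
    ∫ x in Set.Icc (0 : Fin (n + 1) → ℝ) 1, F x =
      ∫ a in Set.Icc (0 : ℝ) 1, ∫ y in Set.Icc (0 : Fin n → ℝ) 1,
        F (Fin.cons (α := fun _ => ℝ) a y) := by
  have e := volume_preserving_piFinSuccAbove (fun _ : Fin (n + 1) => ℝ) 0
  have h1 := e.symm.setIntegral_preimage_emb (MeasurableEquiv.measurableEmbedding _) F
    (Set.Icc 0 1)
  have h2 : (MeasurableEquiv.piFinSuccAbove (fun _ : Fin (n + 1) => ℝ) 0).symm ⁻¹' Set.Icc 0 1 =
      Set.Icc (0 : ℝ) 1 ×ˢ Set.Icc (0 : Fin n → ℝ) 1 := by
    ext p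
    obtain ⟨a, y⟩ := p
    simp only [Set.mem_preimage, Set.mem_Icc, Set.mem_prod, Pi.le_def, Fin.forall_fin_succ,
      MeasurableEquiv.piFinSuccAbove_symm_apply, Fin.insertNthEquiv_apply,
      Fin.insertNth_zero, Fin.cons_zero, Fin.cons_succ, Pi.zero_apply, Pi.one_apply]
    tauto
  rw [← h1, h2, Measure.volume_eq_prod, setIntegral_prod]
  · have h3 : ∀ (a : ℝ) (y : Fin n → ℝ),
        (MeasurableEquiv.piFinSuccAbove (fun _ : Fin (n + 1) => ℝ) 0).symm (a, y) =
        Fin.cons (α := fun _ => ℝ) a y := by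
      intro a y
      funext i
      rw [MeasurableEquiv.piFinSuccAbove_symm_apply, Fin.insertNthEquiv_apply, Fin.insertNth_zero]
      rfl
    simp only [h3]
  · apply ContinuousOn.integrableOn_compact (isCompact_Icc.prod isCompact_Icc)
    apply Continuous.continuousOn
    refine hF.comp ?_
    rw [continuous_pi_iff]
    intro i
    refine Fin.cases ?_ (fun j => ?_) i
    · simp only [MeasurableEquiv.piFinSuccAbove_symm_apply, Fin.insertNthEquiv_apply,
        Fin.insertNth_zero, Fin.cons_zero]
      exact continuous_fst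
    · simp only [MeasurableEquiv.piFinSuccAbove_symm_apply, Fin.insertNthEquiv_apply,
        Fin.insertNth_zero, Fin.cons_succ]
      exact (continuous_apply j).comp continuous_snd

private theorem fu1_cons_diff {n : ℕ} {E : Type} [NormedAddCommGroup E] [NormedSpace ℂ E]
    {a : E → ℂ} {y : E → Fin n → ℂ} (ha : Differentiable ℂ a) (hy : Differentiable ℂ y) :
    Differentiable ℂ fun e => (Fin.cons (a e) (y e) : Fin (n + 1) → ℂ) := by
  rw [differentiable_pi]
  intro i
  refine Fin.cases ?_ (fun j => ?_) i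
  · simpa using ha
  · simpa using (differentiable_pi.1 hy) j

private theorem fu1_cons_cont {n : ℕ} {E : Type} [TopologicalSpace E]
    {a : E → ℂ} {y : E → Fin n → ℂ} (ha : Continuous a) (hy : Continuous y) :
    Continuous fun e => (Fin.cons (a e) (y e) : Fin (n + 1) → ℂ) := by
  rw [continuous_pi_iff]
  intro i
  refine Fin.cases ?_ (fun j => ?_) i
  · simpa using ha
  · simpa using (continuous_pi_iff.1 hy) j

theorem per_int {n : ℕ} (h : (Fin n → ℂ) → ℂ) (hd : Differentiable ℂ h)
    (hp : ∀ j z, h (z + Pi.single j 1) = h z) (w : Fin n → ℂ) :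
    ∫ x in Set.Icc (0 : Fin n → ℝ) 1, h (fun i => (x i : ℂ) + w i) =
      ∫ x in Set.Icc (0 : Fin n → ℝ) 1, h (fun i => (x i : ℂ)) := by
  induction n with
  | zero =>
    congr 1
    funext x
    congr 1
    exact Subsingleton.elim _ _
  | succ n ih =>
    have hc : Continuous h := hd.continuous
    have hofReal : ∀ (a : ℝ) (y : Fin n → ℝ),
        (fun i => ((Fin.cons (α := fun _ => ℝ) a y i : ℝ) : ℂ)) =
        (Fin.cons (α := fun _ => ℂ) (a : ℂ) (fun j => (y j : ℂ)) : Fin (n + 1) → ℂ) := by
      intro a y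
      funext i
      refine Fin.cases ?_ (fun j => ?_) i <;> simp
    have hofReal' : ∀ (a : ℝ) (y : Fin n → ℝ),
        (fun i => ((Fin.cons (α := fun _ => ℝ) a y i : ℝ) : ℂ) + w i) =
        (Fin.cons (α := fun _ => ℂ) ((a : ℂ) + w 0) (fun j => (y j : ℂ) + w j.succ) :
          Fin (n + 1) → ℂ) := by
      intro a y
      funext i
      refine Fin.cases ?_ (fun j => ?_) i <;> simp
    have hcr : Continuous fun x : Fin (n + 1) → ℝ => (fun i => (x i : ℂ)) := by fun_prop
    have hcr' : Continuous fun x : Fin (n + 1) → ℝ => (fun i => (x i : ℂ) + w i) := by fun_prop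
    rw [fu1_fub (fun x => h (fun i => (x i : ℂ))) (hc.comp hcr),
      fu1_fub (fun x => h (fun i => (x i : ℂ) + w i)) (hc.comp hcr')]
    simp only [hofReal, hofReal']
    -- inner shift
    have hin : ∀ a : ℝ, ∫ y in Set.Icc (0 : Fin n → ℝ) 1,
        h (Fin.cons (α := fun _ => ℂ) ((a : ℂ) + w 0) (fun j => (y j : ℂ) + w j.succ)) =
        ∫ y in Set.Icc (0 : Fin n → ℝ) 1,
        h (Fin.cons (α := fun _ => ℂ) ((a : ℂ) + w 0) (fun j => (y j : ℂ))) := by
      intro a
      refine ih (fun z => h (Fin.cons (α := fun _ => ℂ) ((a : ℂ) + w 0) z)) ?_ ?_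
        (fun j => w j.succ)
      · exact hd.comp (fu1_cons_diff (differentiable_const _) differentiable_id)
      · intro j z
        have : (Fin.cons (α := fun _ => ℂ) ((a : ℂ) + w 0) (z + Pi.single j 1) :
            Fin (n + 1) → ℂ) = Fin.cons (α := fun _ => ℂ) ((a : ℂ) + w 0) z +
            Pi.single j.succ 1 := by
          funext i
          refine Fin.cases ?_ (fun k => ?_) i
          · simp
          · by_cases hk : k = j
            · subst hk
              simp
            · have : k.succ ≠ j.succ := fun h => hk (Fin.succ_injective _ h)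
              simp [hk, this]
        show h _ = h _
        rw [this, hp]
    simp only [hin]
    -- swap
    have hsw : ∀ c : ℂ, ∫ a in Set.Icc (0 : ℝ) 1, ∫ y in Set.Icc (0 : Fin n → ℝ) 1,
        h (Fin.cons (α := fun _ => ℂ) ((a : ℂ) + c) (fun j => (y j : ℂ))) =
        ∫ y in Set.Icc (0 : Fin n → ℝ) 1, ∫ a in Set.Icc (0 : ℝ) 1,
        h (Fin.cons (α := fun _ => ℂ) ((a : ℂ) + c) (fun j => (y j : ℂ))) := by
      intro c
      apply integral_integral_swap
      rw [Measure.prod_restrict]
      apply ContinuousOn.integrableOn_compact (isCompact_Icc.prod isCompact_Icc)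
      apply Continuous.continuousOn
      refine hc.comp (fu1_cons_cont (by fun_prop) (by fun_prop))
    have h0 : ∫ a in Set.Icc (0 : ℝ) 1, ∫ y in Set.Icc (0 : Fin n → ℝ) 1,
        h (Fin.cons (α := fun _ => ℂ) (a : ℂ) (fun j => (y j : ℂ))) =
        ∫ y in Set.Icc (0 : Fin n → ℝ) 1, ∫ a in Set.Icc (0 : ℝ) 1,
        h (Fin.cons (α := fun _ => ℂ) (a : ℂ) (fun j => (y j : ℂ))) := by
      have := hsw 0
      simpa only [add_zero] using this
    rw [hsw, h0]
    congr 1
    funext y
    refine fu1_one (fun c => h (Fin.cons (α := fun _ => ℂ) c (fun j => (y j : ℂ)))) ?_ ?_ (w 0)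
    · exact hd.comp (fu1_cons_diff differentiable_id (differentiable_const _))
    · intro z
      have : (Fin.cons (α := fun _ => ℂ) (z + 1) (fun j => (y j : ℂ)) : Fin (n + 1) → ℂ) =
          Fin.cons (α := fun _ => ℂ) z (fun j => (y j : ℂ)) + Pi.single 0 1 := by
        funext i
        refine Fin.cases ?_ (fun k => ?_) i <;> simp
      show h _ = h _
      rw [this, hp]

end

end Pool.Agent.CMT
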