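import Pool.Agent.CMT.FU3

/-!
# CMT-FU4: canonical theta functions of a unimodular lattice `N + P` form a space of dimension one

Notation: `a(x, y) = ∑ a_s x_s conj(y_s)`.
PLAN. (1) the `n_j` are a `ℂ`-basis: if `∑ (α_j + i β_j) n_j = 0` put `x = ∑ α_j n_j`, `y = ∑ β_j n_j`, `x = - i y`; `Im a(x, y) = 0` (`hnn`, real combinations), but
`Im a(-i y, y) = - a(y, y)`, so `y = 0`, `x = 0` (`a_s > 0`), and `Im a(∑ β_j n_j, p_k) = -π β_k` gives `β = α = 0`. So `T x = ∑ x_j n_j` is a linear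
equivalence, `p_k = T ω_k`. (2) `G_jk = a(n_j, n_k)` is real and symmetric. `g(x) = f(T x) exp (-1/2 ∑ G_jk x_j x_k)`: `g(x + e_j) = χn j * g(x)` (the exponent is
`a(Tx, n_j) + a(n_j,n_j)/2 - ∑_l G_lj x_l - G_jj/2 = 0`), and `g(x + ω_k) = C_k exp(..) g(x)` where the linear form
`x ↦ a(T x, p_k) - ∑ G_jl x_j ω_kl` has the value `a(n_j, p_k) - a(p_k, n_j) = 2 i Im a(n_j, p_k) = - 2 π i δ_jk` at `e_j`. So `g(x + ω_k) = C_k exp(-2 π i x_k) g(x)`; replace `x` by
`-x` (`g(-x)`, or use `-ω_k`: `g(x - ω_k) = C_k^{-1} exp(2 π i (x - ω_k)_k) g(x)`) and apply `four_unique'`.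
-/

set_option autoImplicit false

namespace Pool.Agent.CMT

open Complex Finset MeasureTheory

noncomputable section

/-- the form `a(x, y) = ∑ a_s x_s conj(y_s)` -/
def af {ι : Type} [Fintype ι] (a : ι → ℝ) (x y : ι → ℂ) : ℂ :=
  ∑ s, (a s : ℂ) * x s * (starRingEnd ℂ) (y s)

private theorem fu4_left {ι : Type} [Fintype ι] (a : ι → ℝ) (c : ι → ℂ) (v : ι → ι → ℂ)
    (y : ι → ℂ) : af a (∑ j, c j • v j) y = ∑ j, c j * af a (v j) y := by
  unfold af
  simp only [Finset.sum_apply, Pi.smul_apply, smul_eq_mul, Finset.mul_sum, Finset.sum_mul]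
  rw [Finset.sum_comm]
  refine Finset.sum_congr rfl fun j _ => Finset.sum_congr rfl fun s _ => ?_
  ring

private theorem fu4_conj {ι : Type} [Fintype ι] (a : ι → ℝ) (x y : ι → ℂ) :
    (starRingEnd ℂ) (af a x y) = af a y x := by
  unfold af
  rw [map_sum]
  refine Finset.sum_congr rfl fun s _ => ?_
  rw [map_mul, map_mul, Complex.conj_ofReal, Complex.conj_conj]
  ring

private theorem fu4_add {ι : Type} [Fintype ι] (a : ι → ℝ) (x x' y : ι → ℂ) :
    af a (x + x') y = af a x y + af a x' y := by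
  unfold af
  rw [← Finset.sum_add_distrib]
  refine Finset.sum_congr rfl fun s _ => ?_
  rw [Pi.add_apply]
  ring

private theorem fu4_right {ι : Type} [Fintype ι] (a : ι → ℝ) (c : ι → ℝ) (v : ι → ι → ℂ)
    (x : ι → ℂ) : af a x (∑ j, (c j : ℂ) • v j) = ∑ j, (c j : ℂ) * af a x (v j) := by
  rw [← fu4_conj, fu4_left, map_sum]
  refine Finset.sum_congr rfl fun j _ => ?_
  rw [map_mul, Complex.conj_ofReal, fu4_conj]

private theorem fu4_pos {ι : Type} [Fintype ι] (a : ι → ℝ) (ha : ∀ s, 0 < a s) (y : ι → ℂ)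
    (h : af a y y = 0) : y = 0 := by
  have h1 : af a y y = ((∑ s, a s * Complex.normSq (y s) : ℝ) : ℂ) := by
    unfold af
    push_cast
    refine Finset.sum_congr rfl fun s _ => ?_
    rw [mul_assoc, Complex.mul_conj]
  rw [h1] at h
  have h2 : ∑ s, a s * Complex.normSq (y s) = 0 := by exact_mod_cast h
  rw [Finset.sum_eq_zero_iff_of_nonneg (fun s _ => mul_nonneg (ha s).le (Complex.normSq_nonneg _))] at h2
  funext s
  have h3 := h2 s (Finset.mem_univ s)
  have h4 := (mul_eq_zero.1 h3).resolve_left (ha s).ne'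
  exact Complex.normSq_eq_zero.1 h4

private theorem fu4_real {ι : Type} [Fintype ι] [DecidableEq ι] (a : ι → ℝ) (ha : ∀ s, 0 < a s)
    (n p : ι → ι → ℂ) (hnp : ∀ j k, (af a (n j) (p k)).im = if j = k then -Real.pi else 0)
    (β : ι → ℝ) (h : ∀ k, ∑ j, (β j : ℂ) * af a (n j) (n k) = 0) (k : ι) : β k = 0 := by
  have h1 : ∀ k, af a (∑ j, (β j : ℂ) • n j) (n k) = 0 := by
    intro k
    rw [fu4_left, h k]
  have h2 : af a (∑ j, (β j : ℂ) • n j) (∑ j, (β j : ℂ) • n j) = 0 := by
    rw [fu4_right]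
    exact Finset.sum_eq_zero fun j _ => by rw [h1 j, mul_zero]
  have h3 := fu4_pos a ha _ h2
  have h4 : af a (∑ j, (β j : ℂ) • n j) (p k) = 0 := by
    rw [h3]
    unfold af
    exact Finset.sum_eq_zero fun s _ => by rw [Pi.zero_apply, mul_zero, zero_mul]
  rw [fu4_left] at h4
  have h5 := congrArg Complex.im h4
  rw [Complex.im_sum, Complex.zero_im] at h5
  have h6 : ∀ j, ((β j : ℂ) * af a (n j) (p k)).im = if j = k then β j * -Real.pi else 0 := by
    intro j
    rw [Complex.im_ofReal_mul, hnp]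
    split_ifs
    · rfl
    · rw [mul_zero]
  rw [Finset.sum_congr rfl fun j _ => h6 j, Finset.sum_ite_eq', if_pos (Finset.mem_univ _)] at h5
  have h7 := Real.pi_pos
  exact (mul_eq_zero.1 h5).resolve_right (by linarith)

private theorem fu4_inj {ι : Type} [Fintype ι] [DecidableEq ι] (a : ι → ℝ) (ha : ∀ s, 0 < a s)
    (n p : ι → ι → ℂ) (hnn : ∀ j k, (af a (n j) (n k)).im = 0)
    (hnp : ∀ j k, (af a (n j) (p k)).im = if j = k then -Real.pi else 0)
    (c : ι → ℂ) (h : ∑ j, c j • n j = 0) : c = 0 := by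
  have h1 : ∀ k, ∑ j, c j * af a (n j) (n k) = 0 := by
    intro k
    rw [← fu4_left, h]
    unfold af
    exact Finset.sum_eq_zero fun s _ => by rw [Pi.zero_apply, mul_zero, zero_mul]
  have hG : ∀ j k, af a (n j) (n k) = (((af a (n j) (n k)).re : ℝ) : ℂ) := by
    intro j k
    apply Complex.ext
    · rw [Complex.ofReal_re]
    · rw [Complex.ofReal_im, hnn]
  have hre : ∀ k, ∑ j, ((c j).re : ℂ) * af a (n j) (n k) = 0 := by
    intro k
    have h2 := congrArg Complex.re (h1 k)
    rw [Complex.re_sum, Complex.zero_re] at h2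
    have h3 : ∑ j, ((c j).re : ℂ) * af a (n j) (n k) =
        ((∑ j, (c j * af a (n j) (n k)).re : ℝ) : ℂ) := by
      rw [Complex.ofReal_sum]
      refine Finset.sum_congr rfl fun j _ => ?_
      rw [Complex.mul_re, hnn, mul_zero, sub_zero, Complex.ofReal_mul, ← hG]
    rw [h3, h2, Complex.ofReal_zero]
  have him : ∀ k, ∑ j, ((c j).im : ℂ) * af a (n j) (n k) = 0 := by
    intro k
    have h2 := congrArg Complex.im (h1 k)
    rw [Complex.im_sum, Complex.zero_im] at h2
    have h3 : ∑ j, ((c j).im : ℂ) * af a (n j) (n k) =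
        ((∑ j, (c j * af a (n j) (n k)).im : ℝ) : ℂ) := by
      rw [Complex.ofReal_sum]
      refine Finset.sum_congr rfl fun j _ => ?_
      rw [Complex.mul_im, hnn, mul_zero, zero_add, Complex.ofReal_mul, ← hG]
    rw [h3, h2, Complex.ofReal_zero]
  funext k
  apply Complex.ext
  · exact fu4_real a ha n p hnp (fun j => (c j).re) hre k
  · exact fu4_real a ha n p hnp (fun j => (c j).im) him k

/-- the quadratic form -/
private def fu4_B {ι : Type} [Fintype ι] (G : ι → ι → ℂ) (x y : ι → ℂ) : ℂ :=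
  ∑ l, ∑ m, G l m * x l * y m

private theorem fu4_B_add {ι : Type} [Fintype ι] (G : ι → ι → ℂ) (hG : ∀ l m, G l m = G m l)
    (x y : ι → ℂ) : fu4_B G (x + y) (x + y) = fu4_B G x x + 2 * fu4_B G x y + fu4_B G y y := by
  have h1 : fu4_B G y x = fu4_B G x y := by
    unfold fu4_B
    rw [Finset.sum_comm]
    refine Finset.sum_congr rfl fun l _ => Finset.sum_congr rfl fun m _ => ?_
    rw [hG m l]
    ring
  have h2 : fu4_B G (x + y) (x + y) = fu4_B G x x + fu4_B G x y + fu4_B G y x + fu4_B G y y := by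
    unfold fu4_B
    rw [← Finset.sum_add_distrib, ← Finset.sum_add_distrib, ← Finset.sum_add_distrib]
    refine Finset.sum_congr rfl fun l _ => ?_
    rw [← Finset.sum_add_distrib, ← Finset.sum_add_distrib, ← Finset.sum_add_distrib]
    refine Finset.sum_congr rfl fun m _ => ?_
    rw [Pi.add_apply, Pi.add_apply]
    ring
  rw [h2, h1]
  ring

/-- quasi-periodicity of the normalised function -/
private theorem fu4_step {ι : Type} [Fintype ι] (a : ι → ℝ) (n : ι → ι → ℂ) (G : ι → ι → ℂ)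
    (hG : ∀ l m, G l m = af a (n l) (n m)) (hsym : ∀ l m, G l m = G m l) (q w : ι → ℂ)
    (hw : ∑ j, w j • n j = q) (χ : ℂ) (f : (ι → ℂ) → ℂ)
    (hf : ∀ z, f (z + q) = χ * cexp (af a z q + af a q q / 2) * f z) (x : ι → ℂ) :
    f (∑ j, (x + w) j • n j) * cexp (-(fu4_B G (x + w) (x + w) / 2)) =
      χ * cexp (af a q q / 2 - fu4_B G w w / 2) *
        cexp (∑ l, x l * (af a (n l) q - af a q (n l))) *
        (f (∑ j, x j • n j) * cexp (-(fu4_B G x x / 2))) := by
  have h1 : ∑ j, (x + w) j • n j = ∑ j, x j • n j + q := by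
    rw [← hw, ← Finset.sum_add_distrib]
    refine Finset.sum_congr rfl fun j _ => ?_
    rw [Pi.add_apply, add_smul]
  have h2 : fu4_B G x w = ∑ l, x l * af a q (n l) := by
    unfold fu4_B
    refine Finset.sum_congr rfl fun l _ => ?_
    rw [← hw, fu4_left, Finset.mul_sum]
    refine Finset.sum_congr rfl fun m _ => ?_
    rw [hsym l m, hG]
    ring
  have h3 : af a (∑ j, x j • n j) q = ∑ l, x l * af a (n l) q := fu4_left a x n q
  have h4 : ∑ l, x l * (af a (n l) q - af a q (n l)) =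
      ∑ l, x l * af a (n l) q - fu4_B G x w := by
    rw [h2, ← Finset.sum_sub_distrib]
    refine Finset.sum_congr rfl fun l _ => ?_
    ring
  rw [h1, hf, h3, fu4_B_add G hsym, h4]
  have h5 : cexp (∑ l, x l * af a (n l) q + af a q q / 2) *
      cexp (-((fu4_B G x x + 2 * fu4_B G x w + fu4_B G w w) / 2)) =
      cexp (af a q q / 2 - fu4_B G w w / 2) *
        cexp (∑ l, x l * af a (n l) q - fu4_B G x w) * cexp (-(fu4_B G x x / 2)) := by
    rw [← Complex.exp_add, ← Complex.exp_add, ← Complex.exp_add]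
    congr 1
    ring
  linear_combination χ * f (∑ j, x j • n j) * h5

theorem one_dim {ι : Type} [Fintype ι] [DecidableEq ι] (a : ι → ℝ) (ha : ∀ s, 0 < a s)
    (n p : ι → ι → ℂ) (hnn : ∀ j k, (af a (n j) (n k)).im = 0)
    (hpp : ∀ j k, (af a (p j) (p k)).im = 0)
    (hnp : ∀ j k, (af a (n j) (p k)).im = if j = k then -Real.pi else 0)
    (χn χp : ι → ℂ) (hn : ∀ j, χn j ≠ 0) (hp : ∀ j, χp j ≠ 0) (f1 f2 : (ι → ℂ) → ℂ)
    (h1 : Differentiable ℂ f1) (h2 : Differentiable ℂ f2)
    (h1n : ∀ j z, f1 (z + n j) = χn j * cexp (af a z (n j) + af a (n j) (n j) / 2) * f1 z)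
    (h2n : ∀ j z, f2 (z + n j) = χn j * cexp (af a z (n j) + af a (n j) (n j) / 2) * f2 z)
    (h1p : ∀ j z, f1 (z + p j) = χp j * cexp (af a z (p j) + af a (p j) (p j) / 2) * f1 z)
    (h2p : ∀ j z, f2 (z + p j) = χp j * cexp (af a z (p j) + af a (p j) (p j) / 2) * f2 z)
    (h0 : ∃ z, f1 z ≠ 0) : ∃ c : ℂ, ∀ z, f2 z = c * f1 z := by
  have hinj : Function.Injective (fun c : ι → ℂ => ∑ j, c j • n j) := by
    intro c c' h
    have h3 : c - c' = 0 := by
      apply fu4_inj a ha n p hnn hnp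
      have h4 : ∑ j, (c - c') j • n j = ∑ j, c j • n j - ∑ j, c' j • n j := by
        rw [← Finset.sum_sub_distrib]
        refine Finset.sum_congr rfl fun j _ => ?_
        rw [Pi.sub_apply, sub_smul]
      rw [h4]
      exact sub_eq_zero.2 h
    exact sub_eq_zero.1 h3
  have hsurj : Function.Surjective (fun c : ι → ℂ => ∑ j, c j • n j) := by
    have h3 : Function.Injective (Fintype.linearCombination ℂ n) := by
      intro c c' h
      apply hinj
      simpa only [Fintype.linearCombination_apply] using h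
    have h4 := LinearMap.injective_iff_surjective.1 h3
    intro z
    obtain ⟨c, hc⟩ := h4 z
    refine ⟨c, ?_⟩
    rw [Fintype.linearCombination_apply] at hc
    exact hc
  choose ω hω using fun k => hsurj (p k)
  obtain ⟨G, hG⟩ : ∃ G : ι → ι → ℂ, ∀ l m, G l m = af a (n l) (n m) := ⟨_, fun _ _ => rfl⟩
  have hsym : ∀ l m, G l m = G m l := by
    intro l m
    rw [hG, hG, ← fu4_conj a (n l) (n m)]
    exact (Complex.conj_eq_iff_im.2 (hnn l m)).symm
  obtain ⟨C, hC⟩ : ∃ C : ι → ℂ, ∀ k, C k =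
      χp k * cexp (af a (p k) (p k) / 2 - fu4_B G (ω k) (ω k) / 2) := ⟨_, fun _ => rfl⟩
  have hC0 : ∀ k, C k ≠ 0 := fun k => by
    rw [hC]
    exact mul_ne_zero (hp k) (Complex.exp_ne_zero _)
  -- the properties of the normalised function
  have key : ∀ f : (ι → ℂ) → ℂ, Differentiable ℂ f →
      (∀ j z, f (z + n j) = χn j * cexp (af a z (n j) + af a (n j) (n j) / 2) * f z) →
      (∀ j z, f (z + p j) = χp j * cexp (af a z (p j) + af a (p j) (p j) / 2) * f z) →
      Differentiable ℂ (fun x : ι → ℂ => f (∑ j, x j • n j) * cexp (-(fu4_B G x x / 2))) ∧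
      (∀ j (x : ι → ℂ), f (∑ l, (x + (Pi.single j 1 : ι → ℂ)) l • n l) *
        cexp (-(fu4_B G (x + (Pi.single j 1 : ι → ℂ)) (x + (Pi.single j 1 : ι → ℂ)) / 2)) =
        χn j * (f (∑ l, x l • n l) * cexp (-(fu4_B G x x / 2)))) ∧
      (∀ k (x : ι → ℂ), f (∑ l, (x + -ω k) l • n l) *
        cexp (-(fu4_B G (x + -ω k) (x + -ω k) / 2)) =
        ((C k)⁻¹ * cexp (-(2 * Real.pi * I * ω k k))) * cexp (2 * Real.pi * I * x k) *
          (f (∑ l, x l • n l) * cexp (-(fu4_B G x x / 2)))) := by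
    intro f hf hfn hfp
    refine ⟨?_, ?_, ?_⟩
    · refine Differentiable.mul (hf.comp ?_) ?_
      · fun_prop
      · unfold fu4_B
        fun_prop
    · intro j x
      have hs : ∑ l, (Pi.single j (1 : ℂ) : ι → ℂ) l • n l = n j := by
        rw [Finset.sum_eq_single j]
        · rw [Pi.single_eq_same, one_smul]
        · intro b _ hb
          rw [Pi.single_eq_of_ne hb, zero_smul]
        · intro h
          exact absurd (Finset.mem_univ j) h
      have h3 := fu4_step a n G hG hsym (n j) (Pi.single j 1) hs (χn j) f (hfn j) x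
      rw [h3]
      have h4 : fu4_B G (Pi.single j 1) (Pi.single j 1) = af a (n j) (n j) := by
        unfold fu4_B
        rw [Finset.sum_eq_single j, Finset.sum_eq_single j]
        · rw [Pi.single_eq_same, hG]
          ring
        · intro b _ hb
          rw [Pi.single_eq_of_ne hb, mul_zero]
        · intro h
          exact absurd (Finset.mem_univ j) h
        · intro b _ hb
          refine Finset.sum_eq_zero fun m _ => ?_
          rw [Pi.single_eq_of_ne hb, mul_zero, zero_mul]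
        · intro h
          exact absurd (Finset.mem_univ j) h
      have h5 : ∑ l, x l * (af a (n l) (n j) - af a (n j) (n l)) = 0 := by
        refine Finset.sum_eq_zero fun l _ => ?_
        rw [← hG, ← hG, hsym l j, sub_self, mul_zero]
      rw [h4, h5, sub_self, Complex.exp_zero, mul_one, mul_one]
    · intro k x
      have h3 := fu4_step a n G hG hsym (p k) (ω k) (hω k) (χp k) f (hfp k) (x + -ω k)
      rw [neg_add_cancel_right, ← hC] at h3
      have h5 : ∑ l, (x + -ω k) l * (af a (n l) (p k) - af a (p k) (n l)) =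
          -(2 * Real.pi * I * (x k - ω k k)) := by
        rw [Finset.sum_eq_single k]
        · rw [← fu4_conj a (n k) (p k), Complex.sub_conj, hnp, if_pos rfl, Pi.add_apply,
            Pi.neg_apply]
          push_cast
          ring
        · intro l _ hl
          rw [← fu4_conj a (n l) (p k), Complex.sub_conj, hnp, if_neg hl]
          push_cast
          ring
        · intro h
          exact absurd (Finset.mem_univ k) h
      rw [h5] at h3
      rw [h3]
      have h6 : cexp (-(2 * Real.pi * I * ω k k)) * cexp (2 * Real.pi * I * x k) *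
          cexp (-(2 * Real.pi * I * (x k - ω k k))) = 1 := by
        rw [← Complex.exp_add, ← Complex.exp_add]
        rw [show -(2 * (Real.pi : ℂ) * I * ω k k) + 2 * Real.pi * I * x k +
          -(2 * Real.pi * I * (x k - ω k k)) = 0 by ring, Complex.exp_zero]
      have h7 : (C k)⁻¹ * C k = 1 := inv_mul_cancel₀ (hC0 k)
      generalize f (∑ l, (x + -ω k) l • n l) *
        cexp (-(fu4_B G (x + -ω k) (x + -ω k) / 2)) = F
      calc F = 1 * 1 * F := by ring
        _ = ((C k)⁻¹ * C k) * (cexp (-(2 * Real.pi * I * ω k k)) * cexp (2 * Real.pi * I * x k) *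
          cexp (-(2 * Real.pi * I * (x k - ω k k)))) * F := by rw [h6, h7]
        _ = _ := by ring
  obtain ⟨d1, k1, l1⟩ := key f1 h1 h1n h1p
  obtain ⟨d2, k2, l2⟩ := key f2 h2 h2n h2p
  obtain ⟨z0, hz0⟩ := h0
  obtain ⟨x0, hx0⟩ := hsurj z0
  obtain ⟨c, hc⟩ := four_unique' χn (fun k => (C k)⁻¹ * cexp (-(2 * Real.pi * I * ω k k))) hn
    (fun k => mul_ne_zero (inv_ne_zero (hC0 k)) (Complex.exp_ne_zero _)) (fun k => -ω k)
    (fun x : ι → ℂ => f1 (∑ j, x j • n j) * cexp (-(fu4_B G x x / 2)))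
    (fun x : ι → ℂ => f2 (∑ j, x j • n j) * cexp (-(fu4_B G x x / 2)))
    d1 d2 k1 k2 l1 l2 ⟨x0, by
      have h3 : ∑ j, x0 j • n j = z0 := hx0
      show f1 (∑ j, x0 j • n j) * cexp (-(fu4_B G x0 x0 / 2)) ≠ 0
      rw [h3]
      exact mul_ne_zero hz0 (Complex.exp_ne_zero _)⟩
  refine ⟨c, fun z => ?_⟩
  obtain ⟨x, hx⟩ := hsurj z
  have h3 : ∑ j, x j • n j = z := hx
  have h4 : f2 (∑ j, x j • n j) * cexp (-(fu4_B G x x / 2)) =
      c * (f1 (∑ j, x j • n j) * cexp (-(fu4_B G x x / 2))) := hc x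
  rw [h3, ← mul_assoc] at h4
  exact mul_right_cancel₀ (Complex.exp_ne_zero _) h4

end

end Pool.Agent.CMT
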