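import Pool.Agent.CMT.LShift
import Pool.Agent.CMT.Defs2

/-!
# CMT-KExp: a function with proportional logarithmic derivatives is a quasi-period

PLAN. For fixed `Y` the entire functions `g(t) = f(P + tY + u) exp (-∑ a_i (P + tY)_i)` and
`h(t) = f(P + tY)` (`f = ev φ`) satisfy `g' h = g h'` (sum of the hypotheses over `k` with weights `Y_k`, `hasFDerivAt_ev`), so `g/h` is
constant near `t = 0` (`h(0) ≠ 0`), `g = (g(0)/h(0)) h` near `0`, hence everywhere (`AnalyticOnNhd.eq_of_eventuallyEq`), in
particular at `t = 1`. The constant `C = f(P+u) exp(-∑ a_i P_i) / f(P)` does not depend on `Y` and is `≠ 0`: write it as `exp b`.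
-/

set_option autoImplicit false

namespace Pool.Agent.CMT

open Finset MvPowerSeries

noncomputable section

variable {ι : Type} [Fintype ι] [DecidableEq ι]

theorem kexp_line {g h : ℂ → ℂ} (hg : Differentiable ℂ g) (hh : Differentiable ℂ h)
    (h0 : h 0 ≠ 0) (hw : ∀ t, deriv g t * h t = g t * deriv h t) (t : ℂ) :
    g t = g 0 / h 0 * h t := by
  have hopen : ∀ᶠ t in nhds (0:ℂ), h t ≠ 0 := hh.continuous.continuousAt.eventually_ne h0
  obtain ⟨r, hr, hball⟩ := Metric.eventually_nhds_iff_ball.1 hopen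
  have hq : ∀ s ∈ Metric.ball (0:ℂ) r, g s / h s = g 0 / h 0 := by
    intro s hs
    have hd : DifferentiableOn ℂ (fun t => g t / h t) (Metric.ball (0:ℂ) r) := by
      intro x hx
      exact ((hg x).div (hh x) (hball x hx)).differentiableWithinAt
    refine Metric.isOpen_ball.is_const_of_deriv_eq_zero (convex_ball (0:ℂ) r).isPreconnected hd
      ?_ hs (Metric.mem_ball_self hr)
    intro x hx
    have := ((hg x).hasDerivAt.div (hh x).hasDerivAt (hball x hx)).deriv
    have h2 : deriv (fun t => g t / h t) x = (deriv g x * h x - g x * deriv h x) / h x ^ 2 := this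
    rw [h2, hw x, sub_self, zero_div]
    rfl
  have hev : g =ᶠ[nhds 0] fun t => g 0 / h 0 * h t := by
    filter_upwards [Metric.ball_mem_nhds (0:ℂ) hr] with s hs
    rw [← hq s hs, div_mul_cancel₀ _ (hball s hs)]
  have h1 : AnalyticOnNhd ℂ g Set.univ := fun x _ => hg.analyticAt x
  have h2 : AnalyticOnNhd ℂ (fun t => g 0 / h 0 * h t) Set.univ := fun x _ =>
    (Differentiable.const_mul hh (g 0 / h 0)).analyticAt x
  exact congrFun (h1.eq_of_eventuallyEq h2 hev) t

theorem qpr_of_rel {φ : MvPowerSeries ι ℂ} (h : Ent φ) {u a P : ι → ℂ} (h1 : ev φ P ≠ 0)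
    (h2 : ev φ (P + u) ≠ 0)
    (hr : ∀ k Z, ev (dd (Finsupp.single k 1) φ) (Z + u) * ev φ Z -
      ev φ (Z + u) * ev (dd (Finsupp.single k 1) φ) Z = a k * (ev φ (Z + u) * ev φ Z)) :
    ∃ b, QPr (ev φ) u a b := by
  set C : ℂ := ev φ (P + u) * Complex.exp (-∑ i, a i * P i) / ev φ P with hC
  have hC0 : C ≠ 0 := div_ne_zero (mul_ne_zero h2 (Complex.exp_ne_zero _)) h1
  refine ⟨Complex.log C, fun z => ?_⟩
  -- the line from `P` to `z`
  set Y : ι → ℂ := z - P with hY
  have hline : ∀ t : ℂ, HasDerivAt (fun t : ℂ => P + t • Y) Y t := by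
    intro t
    have := ((hasDerivAt_id t).smul_const Y).const_add P
    simpa using this
  have hd1 : ∀ t : ℂ, HasDerivAt (fun t : ℂ => ev φ (P + t • Y))
      (∑ k, ev (dd (Finsupp.single k 1) φ) (P + t • Y) * Y k) t := by
    intro t
    have := (hasFDerivAt_ev h (P + t • Y)).comp_hasDerivAt t (hline t)
    refine (this.congr_deriv ?_)
    simp
  have hd2 : ∀ t : ℂ, HasDerivAt (fun t : ℂ => ev φ (P + t • Y + u))
      (∑ k, ev (dd (Finsupp.single k 1) φ) (P + t • Y + u) * Y k) t := by
    intro t
    have := (hasFDerivAt_ev h (P + t • Y + u)).comp_hasDerivAt t ((hline t).add_const u)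
    refine (this.congr_deriv ?_)
    simp
  have hd3 : ∀ t : ℂ, HasDerivAt (fun t : ℂ => Complex.exp (-∑ i, a i * (P + t • Y) i))
      (Complex.exp (-∑ i, a i * (P + t • Y) i) * (-∑ i, a i * Y i)) t := by
    intro t
    apply HasDerivAt.cexp
    apply HasDerivAt.neg
    apply HasDerivAt.fun_sum
    intro i _
    apply HasDerivAt.const_mul
    have := hasDerivAt_pi.1 (hline t) i
    simpa using this
  have key := kexp_line (g := fun t => ev φ (P + t • Y + u) *
      Complex.exp (-∑ i, a i * (P + t • Y) i)) (h := fun t => ev φ (P + t • Y))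
    (fun t => ((hd2 t).mul (hd3 t)).differentiableAt) (fun t => (hd1 t).differentiableAt)
    (by simpa using h1) ?_ 1
  · simp only [one_smul, zero_smul, add_zero] at key
    have hPY : P + Y = z := by rw [hY]; abel
    rw [hPY] at key
    rw [← hC] at key
    rw [Complex.exp_add, Complex.exp_log hC0]
    have he : Complex.exp (∑ i, a i * z i) * Complex.exp (-∑ i, a i * z i) = 1 := by
      rw [← Complex.exp_add, add_neg_cancel, Complex.exp_zero]
    calc ev φ (z + u) = ev φ (z + u) * 1 := (mul_one _).symm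
      _ = Complex.exp (∑ i, a i * z i) *
          (ev φ (z + u) * Complex.exp (-∑ i, a i * z i)) := by
          rw [← he]; ring
      _ = Complex.exp (∑ i, a i * z i) * (C * ev φ z) := by rw [key]
      _ = _ := by ring
  · intro t
    have hdd : deriv (fun t => ev φ (P + t • Y + u) *
        Complex.exp (-∑ i, a i * (P + t • Y) i)) t = _ := ((hd2 t).mul (hd3 t)).deriv
    rw [hdd, (hd1 t).deriv]
    have hsum : (∑ k, ev (dd (Finsupp.single k 1) φ) (P + t • Y + u) * Y k) *
        ev φ (P + t • Y) - ev φ (P + t • Y + u) *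
        (∑ k, ev (dd (Finsupp.single k 1) φ) (P + t • Y) * Y k) =
        (∑ i, a i * Y i) * (ev φ (P + t • Y + u) * ev φ (P + t • Y)) := by
      rw [sum_mul, mul_sum, ← sum_sub_distrib, sum_mul]
      apply sum_congr rfl
      intro k _
      have := hr k (P + t • Y)
      linear_combination (Y k) * this
    linear_combination (Complex.exp (-∑ i, a i * (P + t • Y) i)) * hsum

end

end Pool.Agent.CMT
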