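import Pool.Agent.CMT.KId
import Pool.Agent.CMT.KExp
import Pool.Agent.CMT.LId

/-!
# CMT-KKey: KEY LEMMA: if all `ψ_{A,κ}` agree at `P1` and `P2` then `P1 - P2` is a quasi-period

Write `f = ev φ`, `f_k = ev (dd (single k 1) φ)`.

PLAN. `key_rel`: the right hand sides of `key_L`, `key_id` (KId) agree for `X = P1` and `X = P2`. With `c_i = f_k(P_i)/f(P_i)`:
`(f_k(P1+Y) - c_1 f(P1+Y)) f(P1-Y)/f(P1)² = (f_k(P2+Y) - c_2 f(P2+Y)) f(P2-Y)/f(P2)²` and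
`f(P1+Y) f(P1-Y)/f(P1)² = f(P2+Y) f(P2-Y)/f(P2)²`. Cross multiplication gives
`[(f_k(P1+Y) - c_1 f(P1+Y)) f(P2+Y) - (f_k(P2+Y) - c_2 f(P2+Y)) f(P1+Y)] * f(P1-Y) f(P2-Y) = 0` for all `Y`; near `Y = 0` the
second factor is not `0`, so the bracket vanishes near `0` and (identity theorem: the bracket is `ev` of a power series
in `Y` by `exists_shift`, `Ent.mul`, `Ent.sub`; use `eq_zero_of_ball`) everywhere. Put `Y = Z - P2`, `a k = c_1 - c_2`.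
`key` = `key_rel` + `qpr_of_rel` (KExp) with `P = P2`, `u = P1 - P2`.
-/

set_option autoImplicit false

namespace Pool.Agent.CMT

open Finset MvPowerSeries

noncomputable section

variable {ι : Type} [Fintype ι] [DecidableEq ι]

private theorem kkey_brk {φ : MvPowerSeries ι ℂ} (h : Ent φ) {S : Finset (ι →₀ ℕ)}
    {γ : (ι →₀ ℕ) → (ι →₀ ℕ) → ℂ} (hP : PP S γ φ) {P1 P2 : ι → ℂ} (h1 : ev φ P1 ≠ 0)
    (h2 : ev φ P2 ≠ 0) (hψ : ∀ A ∈ S, ∀ κ : Option ι, ps A κ φ P1 = ps A κ φ P2) (k : ι)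
    (Y : ι → ℂ) :
    (ev (dd (Finsupp.single k 1) φ) (P1 + Y) -
      ev (dd (Finsupp.single k 1) φ) P1 / ev φ P1 * ev φ (P1 + Y)) * ev φ (P2 + Y) -
    (ev (dd (Finsupp.single k 1) φ) (P2 + Y) -
      ev (dd (Finsupp.single k 1) φ) P2 / ev φ P2 * ev φ (P2 + Y)) * ev φ (P1 + Y) = 0 := by
  set φk : MvPowerSeries ι ℂ := dd (Finsupp.single k 1) φ with hφk
  have hk : Ent φk := h.dd _
  set c1 : ℂ := ev φk P1 / ev φ P1 with hc1
  set c2 : ℂ := ev φk P2 / ev φ P2 with hc2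
  obtain ⟨f1, hf1, ef1, _⟩ := exists_shift h P1
  obtain ⟨f2, hf2, ef2, _⟩ := exists_shift h P2
  obtain ⟨g1, hg1, eg1, _⟩ := exists_shift hk P1
  obtain ⟨g2, hg2, eg2, _⟩ := exists_shift hk P2
  set B : MvPowerSeries ι ℂ := (g1 - MvPowerSeries.C c1 * f1) * f2 -
    (g2 - MvPowerSeries.C c2 * f2) * f1 with hB
  have e1 : Ent (MvPowerSeries.C c1 * f1) := (Ent.C _).mul hf1
  have e2 : Ent (MvPowerSeries.C c2 * f2) := (Ent.C _).mul hf2
  have e3 : Ent (g1 - MvPowerSeries.C c1 * f1) := hg1.sub e1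
  have e4 : Ent (g2 - MvPowerSeries.C c2 * f2) := hg2.sub e2
  have hBe : Ent B := (e3.mul hf2).sub (e4.mul hf1)
  have hBev : ∀ y, ev B y = (ev φk (P1 + y) - c1 * ev φ (P1 + y)) * ev φ (P2 + y) -
      (ev φk (P2 + y) - c2 * ev φ (P2 + y)) * ev φ (P1 + y) := by
    intro y
    rw [hB, ev_sub (e3.mul hf2) (e4.mul hf1), ev_mul e3 hf2, ev_mul e4 hf1, ev_sub hg1 e1,
      ev_sub hg2 e2, ev_mul (Ent.C _) hf1, ev_mul (Ent.C _) hf2, ev_C, ev_C, ef1, ef2, eg1, eg2]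
  have hcont : Continuous fun y : ι → ℂ => ev φ (P1 - y) * ev φ (P2 - y) := by
    have hc := (ev_differentiable h).continuous
    exact (hc.comp (continuous_const.sub continuous_id)).mul
      (hc.comp (continuous_const.sub continuous_id))
  have hne : ∀ᶠ y in nhds (0 : ι → ℂ), ev φ (P1 - y) * ev φ (P2 - y) ≠ 0 := by
    apply hcont.continuousAt.eventually_ne
    rw [sub_zero, sub_zero]
    exact mul_ne_zero h1 h2
  obtain ⟨r, hr, hball⟩ := Metric.eventually_nhds_iff_ball.1 hne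
  have hB0 : B = 0 := by
    refine eq_zero_of_ball hBe 0 hr fun y hy => ?_
    have hL : ev φ (P1 + y) * ev φ (P1 - y) / ev φ P1 ^ 2 =
        ev φ (P2 + y) * ev φ (P2 - y) / ev φ P2 ^ 2 := by
      rw [key_L h hP h1 y, key_L h hP h2 y]
      refine Finset.sum_congr rfl fun A hA => Finset.sum_congr rfl fun A' _ => ?_
      rw [hψ A hA none]
    have hK : (ev φk (P1 + y) - c1 * ev φ (P1 + y)) * ev φ (P1 - y) / ev φ P1 ^ 2 =
        (ev φk (P2 + y) - c2 * ev φ (P2 + y)) * ev φ (P2 - y) / ev φ P2 ^ 2 := by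
      have a1 := key_id h hP h1 y k
      have a2 := key_id h hP h2 y k
      rw [hc1, hc2, hφk, a1, a2]
      congr 1
      refine Finset.sum_congr rfl fun A hA => Finset.sum_congr rfl fun A' _ => ?_
      rw [hψ A hA none, hψ A hA (some k)]
    have hn := hball y hy
    have hn1 : ev φ (P1 - y) ≠ 0 := left_ne_zero_of_mul hn
    have hn2 : ev φ (P2 - y) ≠ 0 := right_ne_zero_of_mul hn
    rw [div_eq_div_iff (pow_ne_zero _ h1) (pow_ne_zero _ h2)] at hL hK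
    rw [hBev]
    have hprod : ((ev φk (P1 + y) - c1 * ev φ (P1 + y)) * ev φ (P2 + y) -
        (ev φk (P2 + y) - c2 * ev φ (P2 + y)) * ev φ (P1 + y)) *
        (ev φ (P1 - y) * ev φ (P2 - y) * (ev φ P1 ^ 2 * ev φ P2 ^ 2)) = 0 := by
      linear_combination (ev φ (P2 + y) * ev φ (P2 - y) * ev φ P1 ^ 2) * hK -
        ((ev φk (P2 + y) - c2 * ev φ (P2 + y)) * ev φ (P2 - y) * ev φ P1 ^ 2) * hL
    rcases mul_eq_zero.1 hprod with h3 | h3
    · exact h3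
    · exact absurd h3 (mul_ne_zero hn (mul_ne_zero (pow_ne_zero _ h1) (pow_ne_zero _ h2)))
  rw [← hBev, hB0]
  have := ev_C (ι := ι) (0 : ℂ) Y
  rwa [map_zero] at this

theorem key_rel {φ : MvPowerSeries ι ℂ} (h : Ent φ) {S : Finset (ι →₀ ℕ)}
    {γ : (ι →₀ ℕ) → (ι →₀ ℕ) → ℂ} (hP : PP S γ φ) {P1 P2 : ι → ℂ} (h1 : ev φ P1 ≠ 0)
    (h2 : ev φ P2 ≠ 0) (hψ : ∀ A ∈ S, ∀ κ : Option ι, ps A κ φ P1 = ps A κ φ P2) :
    ∃ a : ι → ℂ, ∀ k Z,
      ev (dd (Finsupp.single k 1) φ) (Z + (P1 - P2)) * ev φ Z -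
        ev φ (Z + (P1 - P2)) * ev (dd (Finsupp.single k 1) φ) Z =
      a k * (ev φ (Z + (P1 - P2)) * ev φ Z) := by
  refine ⟨fun k => ev (dd (Finsupp.single k 1) φ) P1 / ev φ P1 -
    ev (dd (Finsupp.single k 1) φ) P2 / ev φ P2, fun k Z => ?_⟩
  have h3 := kkey_brk h hP h1 h2 hψ k (Z - P2)
  have e1 : P1 + (Z - P2) = Z + (P1 - P2) := by abel
  have e2 : P2 + (Z - P2) = Z := by abel
  rw [e1, e2] at h3
  linear_combination h3

/-- the key lemma -/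
theorem key {φ : MvPowerSeries ι ℂ} (h : Ent φ) {S : Finset (ι →₀ ℕ)}
    {γ : (ι →₀ ℕ) → (ι →₀ ℕ) → ℂ} (hP : PP S γ φ) {P1 P2 : ι → ℂ} (h1 : ev φ P1 ≠ 0)
    (h2 : ev φ P2 ≠ 0) (hψ : ∀ A ∈ S, ∀ κ : Option ι, ps A κ φ P1 = ps A κ φ P2) :
    ∃ a b, QPr (ev φ) (P1 - P2) a b := by
  obtain ⟨a, ha⟩ := key_rel h hP h1 h2 hψ
  obtain ⟨b, hb⟩ := qpr_of_rel (P := P2) h h2 (by rwa [add_sub_cancel]) ha
  exact ⟨a, b, hb⟩

end

end Pool.Agent.CMT
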