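import Pool.Agent.CMT.LHir
import Pool.Agent.CMT.LId
import Pool.Agent.CMT.Defs2

/-!
# CMT-KPer: quasi-periods: group law, uniqueness, transformation of `hw` and `NN`

PLAN. `QPr.add`: `f (z + (u + u')) = f ((z + u') + u)`. `QPr.neg`: put `z - u`.
`QPr.uniq`: at points `z` of the open set `f ≠ 0` the exponentials `exp (a z + b)`, `exp (a' z + b')` agree; compare along
the lines `z0 + t e_i` (derivative at `t = 0`, `f` continuous, so non-zero for small `t`): `a i = a' i`.
`per_hw`: by `hasSum_hw` at `z + u` and at `z`, for all `y`: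
`∑_A ev (hw A φ) (z + u) mo y A = exp (2 (a z + b)) ∑_A ev (hw A φ) z mo y A`, since
`f (z+u+y) f (z+u-y) = exp (a (z+y) + b) exp (a (z-y) + b) f (z+y) f (z-y)`; coefficients of a power series in `y` are unique:
helper `coeff_unique` (both are `ev` of the power series `fun A => ev (hw A φ) (z+u)` etc., which is `Ent` because the series
converges absolutely for all `y`; then `ev_inj`).
`per_dd`: derivative of `f (z + u) = exp (..) f z` in the direction `k` (`hasFDerivAt_ev`).
`per_NN`: `none`: immediate; `some k`: derivative of `per_hw` in the direction `k` (with `Ent.hw`, `hasFDerivAt_ev`):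
`w_k(z+u) = E² (w_k + 2 a_k w)`, `f_k(z+u) = E (f_k + a_k f)`, insert in the definition of `NN`.
-/

set_option autoImplicit false

namespace Pool.Agent.CMT

open Finset MvPowerSeries

noncomputable section

variable {ι : Type} [Fintype ι] [DecidableEq ι]

theorem QPr.zero (f : (ι → ℂ) → ℂ) : QPr f 0 0 0 := by
  intro z
  simp

theorem QPr.add {f : (ι → ℂ) → ℂ} {u u' a a' : ι → ℂ} {b b' : ℂ} (h : QPr f u a b)
    (h' : QPr f u' a' b') : QPr f (u + u') (a + a') (b + b' + ∑ i, a i * u' i) := by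
  intro z
  have e : z + (u + u') = (z + u') + u := by
    rw [add_comm u u', add_assoc]
  rw [e, h, h', ← mul_assoc, ← Complex.exp_add]
  congr 2
  simp only [Pi.add_apply, mul_add, add_mul, Finset.sum_add_distrib]
  ring

theorem QPr.neg {f : (ι → ℂ) → ℂ} {u a : ι → ℂ} {b : ℂ} (h : QPr f u a b) :
    QPr f (-u) (-a) (-b + ∑ i, a i * u i) := by
  intro z
  have h1 := h (z + -u)
  rw [neg_add_cancel_right] at h1
  rw [h1, ← mul_assoc, ← Complex.exp_add]
  have e : (∑ i, (-a) i * z i + (-b + ∑ i, a i * u i)) + (∑ i, a i * (z + -u) i + b) = 0 := by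
    simp only [Pi.add_apply, Pi.neg_apply, mul_add, neg_mul, mul_neg, Finset.sum_add_distrib,
      Finset.sum_neg_distrib]
    ring
  rw [e, Complex.exp_zero, one_mul]

/-- integer multiples; the linear part is additive -/
theorem QPr.zsmul {f : (ι → ℂ) → ℂ} {u a : ι → ℂ} {b : ℂ} (h : QPr f u a b) (n : ℤ) :
    ∃ b', QPr f (n • u) (n • a) b' := by
  induction n using Int.induction_on with
  | zero =>
    refine ⟨0, ?_⟩
    rw [zero_smul, zero_smul]
    exact QPr.zero f
  | succ n ih =>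
    obtain ⟨b', hb⟩ := ih
    have h1 := hb.add h
    rw [add_smul, one_smul, add_smul, one_smul]
    exact ⟨_, h1⟩
  | pred n ih =>
    obtain ⟨b', hb⟩ := ih
    have h1 := hb.add h.neg
    rw [sub_smul, one_smul, sub_smul, one_smul, sub_eq_add_neg, sub_eq_add_neg]
    exact ⟨_, h1⟩

/-- integer combinations -/
theorem QPr.sum {f : (ι → ℂ) → ℂ} {κ : Type} (s : Finset κ) {u a : κ → ι → ℂ} {b : κ → ℂ}
    (h : ∀ j ∈ s, QPr f (u j) (a j) (b j)) (n : κ → ℤ) :
    ∃ b', QPr f (∑ j ∈ s, n j • u j) (∑ j ∈ s, n j • a j) b' := by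
  classical
  induction s using Finset.induction_on with
  | empty =>
    refine ⟨0, ?_⟩
    rw [Finset.sum_empty, Finset.sum_empty]
    exact QPr.zero f
  | insert j s hj ih =>
    obtain ⟨b', hb⟩ := ih fun k hk => h k (Finset.mem_insert_of_mem hk)
    obtain ⟨b1, hb1⟩ := (h j (Finset.mem_insert_self j s)).zsmul (n j)
    have h1 := hb1.add hb
    rw [Finset.sum_insert hj, Finset.sum_insert hj]
    exact ⟨_, h1⟩

/-- the linear part is determined by the quasi-period -/
theorem QPr.uniq {f : (ι → ℂ) → ℂ} (hf : Continuous f) (h0 : ∃ z, f z ≠ 0) {u a a' : ι → ℂ}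
    {b b' : ℂ} (h : QPr f u a b) (h' : QPr f u a' b') : a = a' := by
  obtain ⟨z, hz⟩ := h0
  funext i
  have hc : Continuous fun t : ℂ => f (z + t • Pi.single i 1) := hf.comp (by fun_prop)
  have hne : ∀ᶠ t : ℂ in nhds 0, f (z + t • Pi.single i 1) ≠ 0 := by
    refine hc.continuousAt.eventually_ne ?_
    rw [zero_smul, add_zero]
    exact hz
  set c : ℂ := ∑ j, (a j - a' j) * z j + (b - b') with hcdef
  have hone : ∀ᶠ t : ℂ in nhds 0, Complex.exp ((a i - a' i) * t + c) = 1 := by
    filter_upwards [hne] with t ht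
    have h1 := (h (z + t • Pi.single i 1)).symm.trans (h' (z + t • Pi.single i 1))
    have h2 := mul_right_cancel₀ ht h1
    have e1 : ∀ (a : ι → ℂ) (b : ℂ), ∑ j, a j * (z + t • (Pi.single i 1 : ι → ℂ)) j + b =
        a i * t + (∑ j, a j * z j + b) := by
      intro a b
      have e2 : ∑ j, a j * (z + t • (Pi.single i 1 : ι → ℂ)) j = ∑ j, a j * z j + a i * t := by
        simp only [Pi.add_apply, Pi.smul_apply, smul_eq_mul, mul_add, Finset.sum_add_distrib]
        congr 1
        rw [Finset.sum_eq_single i]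
        · rw [Pi.single_eq_same, mul_one]
        · intro j _ hj
          rw [Pi.single_eq_of_ne hj, mul_zero, mul_zero]
        · intro hi
          exact absurd (Finset.mem_univ i) hi
      rw [e2]
      ring
    rw [e1, e1] at h2
    have e3 : (a i - a' i) * t + c = (a i * t + (∑ j, a j * z j + b)) -
        (a' i * t + (∑ j, a' j * z j + b')) := by
      rw [hcdef]
      simp only [sub_mul, Finset.sum_sub_distrib]
      ring
    rw [e3, Complex.exp_sub, h2, div_self (Complex.exp_ne_zero _)]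
  have hd : HasDerivAt (fun t : ℂ => Complex.exp ((a i - a' i) * t + c))
      (Complex.exp ((a i - a' i) * 0 + c) * (a i - a' i)) 0 := by
    have h1 : HasDerivAt (fun t : ℂ => (a i - a' i) * t + c) (a i - a' i) 0 := by
      simpa using ((hasDerivAt_id (0 : ℂ)).const_mul (a i - a' i)).add_const c
    exact h1.cexp
  have hd2 : HasDerivAt (fun t : ℂ => Complex.exp ((a i - a' i) * t + c)) 0 0 :=
    (hasDerivAt_const (0 : ℂ) (1 : ℂ)).congr_of_eventuallyEq hone
  have h3 := hd.unique hd2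
  rcases mul_eq_zero.1 h3 with h4 | h4
  · exact absurd h4 (Complex.exp_ne_zero _)
  · exact sub_eq_zero.1 h4

/-- integrality of the commutators -/
theorem QPr.comm {f : (ι → ℂ) → ℂ} (h0 : ∃ z, f z ≠ 0) {u u' a a' : ι → ℂ} {b b' : ℂ}
    (h : QPr f u a b) (h' : QPr f u' a' b') :
    ∃ n : ℤ, ∑ i, a i * u' i - ∑ i, a' i * u i = 2 * Real.pi * Complex.I * n := by
  obtain ⟨z, hz⟩ := h0
  have h1 := h.add h' z
  have h2 := h'.add h z
  rw [add_comm u' u] at h2
  have h3 := mul_right_cancel₀ hz (h1.symm.trans h2)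
  have h4 : Complex.exp (∑ i, a i * u' i - ∑ i, a' i * u i) = 1 := by
    have e : ∑ i, a i * u' i - ∑ i, a' i * u i =
        (∑ i, (a + a') i * z i + (b + b' + ∑ i, a i * u' i)) -
        (∑ i, (a' + a) i * z i + (b' + b + ∑ i, a' i * u i)) := by
      rw [add_comm a' a]
      ring
    rw [e, Complex.exp_sub, h3, div_self (Complex.exp_ne_zero _)]
  obtain ⟨n, hn⟩ := Complex.exp_eq_one_iff.1 h4
  exact ⟨n, by rw [hn]; ring⟩

theorem QPr.ne_zero {f : (ι → ℂ) → ℂ} {u a : ι → ℂ} {b : ℂ} (h : QPr f u a b) {z : ι → ℂ}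
    (hz : f z ≠ 0) : f (z + u) ≠ 0 := by
  rw [h z]
  exact mul_ne_zero (Complex.exp_ne_zero _) hz

theorem kper_ent {c : (ι →₀ ℕ) → ℂ} (hc : ∀ y : ι → ℂ, Summable fun A => c A * mo y A) :
    Ent (c : MvPowerSeries ι ℂ) := by
  intro r hr
  have h1 := (hc fun _ => (r : ℂ)).norm
  refine h1.congr fun A => ?_
  have e : ‖mo (fun _ : ι => (r : ℂ)) A‖ = r ^ dg A := by
    unfold mo dg
    rw [norm_prod, ← Finset.prod_pow_eq_pow_sum]
    refine Finset.prod_congr rfl fun i _ => ?_
    rw [norm_pow, Complex.norm_real, Real.norm_of_nonneg hr]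
  rw [norm_mul, e]
  rfl

/-- uniqueness of the coefficients of a power series which converges everywhere -/
theorem coeff_unique {c c' : (ι →₀ ℕ) → ℂ} (hc : ∀ y : ι → ℂ, Summable fun A => c A * mo y A)
    (hc' : ∀ y : ι → ℂ, Summable fun A => c' A * mo y A)
    (h : ∀ y : ι → ℂ, ∑' A, c A * mo y A = ∑' A, c' A * mo y A) : c = c' :=
  ev_inj (kper_ent hc) (kper_ent hc') h

theorem kper_line {φ : MvPowerSeries ι ℂ} (h : Ent φ) (z : ι → ℂ) (k : ι) :
    HasDerivAt (fun t : ℂ => ev φ (z + t • Pi.single k 1)) (ev (dd (Finsupp.single k 1) φ) z) 0 := by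
  have h1 := hasFDerivAt_ev h z
  have h2 : HasDerivAt (fun t : ℂ => z + t • (Pi.single k 1 : ι → ℂ)) (Pi.single k 1) 0 := by
    have h3 := ((hasDerivAt_id (0 : ℂ)).smul_const (Pi.single k 1 : ι → ℂ)).const_add z
    rw [one_smul] at h3
    exact h3
  have h4 : z + (0 : ℂ) • (Pi.single k 1 : ι → ℂ) = z := by rw [zero_smul, add_zero]
  have h5 : HasFDerivAt (ev φ) (∑ k, ev (dd (Finsupp.single k 1) φ) z •
      (ContinuousLinearMap.proj k : (ι → ℂ) →L[ℂ] ℂ)) (z + (0 : ℂ) • (Pi.single k 1 : ι → ℂ)) := by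
    rw [h4]
    exact h1
  have h6 := h5.comp_hasDerivAt (0 : ℂ) h2
  have e : (∑ k, ev (dd (Finsupp.single k 1) φ) z •
      (ContinuousLinearMap.proj k : (ι → ℂ) →L[ℂ] ℂ)) (Pi.single k 1) =
      ev (dd (Finsupp.single k 1) φ) z := by
    rw [_root_.sum_apply, Finset.sum_eq_single k]
    · simp
    · intro j _ hj
      simp [Pi.single_eq_of_ne hj]
    · intro hk
      exact absurd (Finset.mem_univ k) hk
  rw [e] at h6
  exact h6

theorem per_dd {φ : MvPowerSeries ι ℂ} (h : Ent φ) {u a : ι → ℂ} {b : ℂ}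
    (hu : QPr (ev φ) u a b) (k : ι) (z : ι → ℂ) :
    ev (dd (Finsupp.single k 1) φ) (z + u) = Complex.exp (∑ i, a i * z i + b) *
      (ev (dd (Finsupp.single k 1) φ) z + a k * ev φ z) := by
  have h1 := kper_line h (z + u) k
  have h2 := kper_line h z k
  have e1 : ∀ t : ℂ, ∑ j, a j * (z + t • (Pi.single k 1 : ι → ℂ)) j + b =
      a k * t + (∑ j, a j * z j + b) := by
    intro t
    have e2 : ∑ j, a j * (z + t • (Pi.single k 1 : ι → ℂ)) j = ∑ j, a j * z j + a k * t := by
      simp only [Pi.add_apply, Pi.smul_apply, smul_eq_mul, mul_add, Finset.sum_add_distrib]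
      congr 1
      rw [Finset.sum_eq_single k]
      · rw [Pi.single_eq_same, mul_one]
      · intro j _ hj
        rw [Pi.single_eq_of_ne hj, mul_zero, mul_zero]
      · intro hk
        exact absurd (Finset.mem_univ k) hk
    rw [e2]
    ring
  have h3 : HasDerivAt (fun t : ℂ => Complex.exp (a k * t + (∑ j, a j * z j + b)))
      (Complex.exp (a k * 0 + (∑ j, a j * z j + b)) * a k) 0 := by
    have h4 : HasDerivAt (fun t : ℂ => a k * t + (∑ j, a j * z j + b)) (a k) 0 := by
      simpa using ((hasDerivAt_id (0 : ℂ)).const_mul (a k)).add_const (∑ j, a j * z j + b)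
    exact h4.cexp
  have h5 := h3.mul h2
  have h6 : (fun t : ℂ => ev φ (z + u + t • Pi.single k 1)) =
      fun t : ℂ => Complex.exp (a k * t + (∑ j, a j * z j + b)) *
        ev φ (z + t • Pi.single k 1) := by
    funext t
    have e3 : z + u + t • Pi.single k (1 : ℂ) = (z + t • Pi.single k (1 : ℂ)) + u := by
      rw [add_assoc, add_assoc, add_comm u]
    rw [e3, hu, e1]
  rw [h6] at h1
  have h7 := h1.unique h5
  rw [h7, zero_smul, add_zero, mul_zero, zero_add]
  ring

theorem per_hw {φ : MvPowerSeries ι ℂ} (h : Ent φ) {u a : ι → ℂ} {b : ℂ}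
    (hu : QPr (ev φ) u a b) (A : ι →₀ ℕ) (z : ι → ℂ) :
    ev (hw A φ) (z + u) = Complex.exp (∑ i, a i * z i + b) ^ 2 * ev (hw A φ) z := by
  have h1 : ∀ y : ι → ℂ, HasSum (fun A : ι →₀ ℕ => ev (hw A φ) (z + u) * mo y A)
      (Complex.exp (∑ i, a i * z i + b) ^ 2 * (ev φ (z + y) * ev φ (z - y))) := by
    intro y
    have h2 := hasSum_hw h (z + u) y
    have e1 : z + u + y = (z + y) + u := by rw [add_assoc, add_assoc, add_comm u]
    have e2 : z + u - y = (z - y) + u := by rw [add_sub_right_comm]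
    rw [e1, e2, hu, hu] at h2
    have e3 : Complex.exp (∑ i, a i * (z + y) i + b) * ev φ (z + y) *
        (Complex.exp (∑ i, a i * (z - y) i + b) * ev φ (z - y)) =
        Complex.exp (∑ i, a i * z i + b) ^ 2 * (ev φ (z + y) * ev φ (z - y)) := by
      have e4 : Complex.exp (∑ i, a i * (z + y) i + b) * Complex.exp (∑ i, a i * (z - y) i + b) =
          Complex.exp (∑ i, a i * z i + b) ^ 2 := by
        rw [← Complex.exp_add, ← Complex.exp_nat_mul]
        congr 1
        simp only [Pi.add_apply, Pi.sub_apply, mul_add, mul_sub, Finset.sum_add_distrib,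
          Finset.sum_sub_distrib]
        push_cast
        ring
      rw [← e4]
      ring
    rw [e3] at h2
    exact h2
  have h2 : ∀ y : ι → ℂ, HasSum (fun A : ι →₀ ℕ => (Complex.exp (∑ i, a i * z i + b) ^ 2 *
      ev (hw A φ) z) * mo y A)
      (Complex.exp (∑ i, a i * z i + b) ^ 2 * (ev φ (z + y) * ev φ (z - y))) := by
    intro y
    have h3 := (hasSum_hw h z y).mul_left (Complex.exp (∑ i, a i * z i + b) ^ 2)
    simp only [← mul_assoc] at h3 ⊢
    exact h3
  have h3 := coeff_unique (c := fun A => ev (hw A φ) (z + u))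
    (c' := fun A => Complex.exp (∑ i, a i * z i + b) ^ 2 * ev (hw A φ) z)
    (fun y => (h1 y).summable) (fun y => (h2 y).summable)
    (fun y => (h1 y).tsum_eq.trans (h2 y).tsum_eq.symm)
  exact congrFun h3 A

theorem per_NN {φ : MvPowerSeries ι ℂ} (h : Ent φ) {u a : ι → ℂ} {b : ℂ}
    (hu : QPr (ev φ) u a b) (A : ι →₀ ℕ) (κ : Option ι) (z : ι → ℂ) :
    ev (NN A κ φ) (z + u) = Complex.exp (∑ i, a i * z i + b) ^ 4 * ev (NN A κ φ) z := by
  have hf := hu z
  have hw1 := per_hw h hu A z
  cases κ with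
  | none =>
    have e : ∀ z, ev (NN A none φ) z = ev (hw A φ) z * ev φ z ^ 2 := by
      intro z
      show ev (hw A φ * φ ^ 2) z = _
      rw [ev_mul (h.hw A) (h.pow 2), ev_pow h]
    rw [e, e, hf, hw1]
    ring
  | some k =>
    have hg : QPr (ev (hw A φ)) u (fun i => 2 * a i) (2 * b) := by
      intro z
      rw [per_hw h hu A z, ← Complex.exp_nat_mul]
      congr 2
      push_cast
      rw [mul_add, Finset.mul_sum]
      congr 1
      refine Finset.sum_congr rfl fun i _ => ?_
      ring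
    have hg1 := per_dd (h.hw A) hg k z
    have hg2 : Complex.exp (∑ i, 2 * a i * z i + 2 * b) = Complex.exp (∑ i, a i * z i + b) ^ 2 := by
      rw [← Complex.exp_nat_mul]
      congr 1
      push_cast
      rw [mul_add, Finset.mul_sum]
      congr 1
      refine Finset.sum_congr rfl fun i _ => ?_
      ring
    have hf1 := per_dd h hu k z
    have e2 : Ent (2 : MvPowerSeries ι ℂ) := by
      have h3 := Ent.one.add (Ent.one (ι := ι))
      rwa [one_add_one_eq_two] at h3
    have e3 : ∀ z, ev (2 : MvPowerSeries ι ℂ) z = 2 := by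
      intro z
      have h3 := ev_C (ι := ι) 2 z
      rwa [map_ofNat] at h3
    have e : ∀ z, ev (NN A (some k) φ) z =
        ev (dd (Finsupp.single k 1) (hw A φ)) z * ev φ z ^ 2 -
          2 * (ev (hw A φ) z * ev φ z * ev (dd (Finsupp.single k 1) φ) z) := by
      intro z
      show ev (dd (Finsupp.single k 1) (hw A φ) * φ ^ 2 -
        2 * (hw A φ * φ * dd (Finsupp.single k 1) φ)) z = _
      have h4 : Ent (dd (Finsupp.single k 1) (hw A φ)) := (h.hw A).dd _
      have h5 : Ent (dd (Finsupp.single k 1) φ) := h.dd _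
      rw [ev_sub (h4.mul (h.pow 2)) (e2.mul (((h.hw A).mul h).mul h5)), ev_mul h4 (h.pow 2),
        ev_pow h, ev_mul e2 (((h.hw A).mul h).mul h5), e3, ev_mul ((h.hw A).mul h) h5,
        ev_mul (h.hw A) h]
    rw [e, e, hf, hw1, hf1, hg1, hg2]
    ring

/-- the functions `ψ_{A,κ}` are periodic -/
theorem per_ps {φ : MvPowerSeries ι ℂ} (h : Ent φ) {u a : ι → ℂ} {b : ℂ}
    (hu : QPr (ev φ) u a b) (A : ι →₀ ℕ) (κ : Option ι) (z : ι → ℂ) :
    ps A κ φ (z + u) = ps A κ φ z := by
  unfold ps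
  rw [per_NN h hu A κ z, hu z, mul_pow,
    mul_div_mul_left _ _ (pow_ne_zero 4 (Complex.exp_ne_zero _))]

end

end Pool.Agent.CMT
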