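import Pool.Agent.CMT.LShift

/-!
# CMT-LCv: convergence of sequences of entire functions

PLAN. `Cv φ ψ`: coefficientwise convergence and `nr r (φ k) ≤ M r` for all `k`. Products: the coefficient of a product is a
finite sum; `nr_mul_le`. `dd`: `nr_dd_le`. `Cv.tendsto`: `‖ev (φ k) z - ev ψ z‖ ≤ ∑_n ‖coeff n (φ k - ψ)‖ r^|n|`, and
`‖coeff n (φ k)‖ ≤ M (2r) / (2r)^|n|` (`norm_coeff_le`): dominated convergence for series
(`tendsto_tsum_of_dominated_convergence` with bound `2 M(2r) 2^{-|n|}`, `∑_n 2^{-|n|} < ∞` for a finite index type); together with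
continuity of `ev ψ`. For `z_k → z` take `r ≥ ‖z_k‖` for all `k`.
-/

set_option autoImplicit false

namespace Pool.Agent.CMT

open Finset MvPowerSeries Filter Topology

noncomputable section

variable {ι : Type} [Fintype ι] [DecidableEq ι]

theorem lcv_const {ψ : MvPowerSeries ι ℂ} (h : Ent ψ) : Cv (fun _ => ψ) ψ :=
  ⟨h, fun _ => h, fun _ => tendsto_const_nhds, fun r _ => ⟨nr r ψ, fun _ => le_rfl⟩⟩

theorem lcv_neg {φ : ℕ → MvPowerSeries ι ℂ} {ψ : MvPowerSeries ι ℂ} (h : Cv φ ψ) :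
    Cv (fun k => -φ k) (-ψ) := by
  refine ⟨h.1.neg, fun k => (h.2.1 k).neg, fun n => ?_, fun r hr => ?_⟩
  · have := (h.2.2.1 n).neg
    simpa using this
  · obtain ⟨M, hM⟩ := h.2.2.2 r hr
    refine ⟨M, fun k => ?_⟩
    have : nr r (-φ k) = nr r (φ k) := by simp [nr]
    rw [this]; exact hM k

theorem lcv_bdd {a : ℕ → ι → ℂ} {b : ι → ℂ} (ha : Tendsto a atTop (𝓝 b)) :
    ∃ α : ℝ, 1 ≤ α ∧ ∀ k i, ‖a k i‖ ≤ α := by
  obtain ⟨M, hM⟩ := ha.norm.bddAbove_range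
  refine ⟨max 1 M, le_max_left _ _, fun k i => ?_⟩
  exact le_trans (norm_le_pi_norm (a k) i) (le_trans (hM ⟨k, rfl⟩) (le_max_right _ _))

theorem lcv_mo {a : ℕ → ι → ℂ} {b : ι → ℂ} (ha : Tendsto a atTop (𝓝 b)) (n : ι →₀ ℕ) :
    Tendsto (fun k => mo (a k) n) atTop (𝓝 (mo b n)) := by
  unfold mo
  refine tendsto_finset_prod _ fun i _ => ?_
  exact ((tendsto_pi_nhds.1 ha) i).pow (n i)

theorem lcv_sc_le {φ : MvPowerSeries ι ℂ} (h : Ent φ) {a : ι → ℂ} {α r : ℝ} (hα : 0 ≤ α)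
    (hr : 0 ≤ r) (ha : ∀ i, ‖a i‖ ≤ α) : nr r (CMT.sc a φ) ≤ nr (α * r) φ := by
  unfold nr
  refine Summable.tsum_le_tsum (fun n => ?_) ((h.sc a) r hr) (h (α * r) (mul_nonneg hα hr))
  rw [coeff_sc, norm_mul, mul_pow]
  have h1 : ‖∏ i, a i ^ n i‖ ≤ α ^ dg n := norm_mo_le a ha n
  have h2 : 0 ≤ ‖coeff n φ‖ * r ^ dg n := mul_nonneg (norm_nonneg _) (pow_nonneg hr _)
  calc ‖∏ i, a i ^ n i‖ * ‖coeff n φ‖ * r ^ dg n
      = ‖∏ i, a i ^ n i‖ * (‖coeff n φ‖ * r ^ dg n) := by ring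
    _ ≤ α ^ dg n * (‖coeff n φ‖ * r ^ dg n) := mul_le_mul_of_nonneg_right h1 h2
    _ = ‖coeff n φ‖ * (α ^ dg n * r ^ dg n) := by ring

omit [DecidableEq ι] in
theorem lcv_summable : Summable (fun n : ι →₀ ℕ => ((1 / 2 : ℝ)) ^ dg n) := by
  classical
  have key : Summable (fun n : ι → ℕ => ∏ i, ((1 / 2 : ℝ)) ^ n i) := by
    refine summable_of_sum_le (c := ∏ _i : ι, (2 : ℝ))
      (fun n => Finset.prod_nonneg fun i _ => by positivity) (fun s => ?_)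
    obtain ⟨N, hN⟩ : ∃ N : ℕ, ∀ n ∈ s, ∀ i, n i < N := by
      refine ⟨(s.sup fun n => Finset.univ.sup fun i => n i) + 1, fun n hn i => ?_⟩
      refine Nat.lt_succ_of_le ?_
      exact le_trans (Finset.le_sup (f := fun i => n i) (Finset.mem_univ i))
        (Finset.le_sup (f := fun n : ι → ℕ => Finset.univ.sup fun i => n i) hn)
    have hsub : s ⊆ Fintype.piFinset (fun _ : ι => Finset.range N) := by
      intro n hn
      rw [Fintype.mem_piFinset]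
      intro i
      exact Finset.mem_range.2 (hN n hn i)
    calc ∑ n ∈ s, ∏ i, ((1 / 2 : ℝ)) ^ n i
        ≤ ∑ n ∈ Fintype.piFinset (fun _ : ι => Finset.range N), ∏ i, ((1 / 2 : ℝ)) ^ n i :=
          Finset.sum_le_sum_of_subset_of_nonneg hsub
            (fun n _ _ => Finset.prod_nonneg fun i _ => by positivity)
      _ = ∏ _i : ι, ∑ j ∈ Finset.range N, ((1 / 2 : ℝ)) ^ j :=
          (Finset.prod_univ_sum (fun _ : ι => Finset.range N)
            (fun _ j => ((1 / 2 : ℝ)) ^ j)).symm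
      _ ≤ ∏ _i : ι, (2 : ℝ) := by
          refine Finset.prod_le_prod (fun i _ => Finset.sum_nonneg fun j _ => by positivity)
            (fun i _ => ?_)
          have := sum_geometric_two_le N
          exact this
  have h2 := (Finsupp.equivFunOnFinite (α := ι) (M := ℕ)).summable_iff (f := fun n : ι → ℕ => ∏ i, ((1 / 2 : ℝ)) ^ n i)
  have h3 := h2.2 key
  refine h3.congr fun n => ?_
  simp only [Function.comp, dg, Finsupp.equivFunOnFinite_apply]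
  rw [← Finset.prod_pow_eq_pow_sum]

theorem Cv.C {c : ℕ → ℂ} {d : ℂ} (h : Tendsto c atTop (𝓝 d)) :
    Cv (fun k => (MvPowerSeries.C (c k) : MvPowerSeries ι ℂ)) (MvPowerSeries.C d) := by
  refine ⟨Ent.C d, fun k => Ent.C (c k), fun n => ?_, fun r hr => ?_⟩
  · simp only [MvPowerSeries.coeff_C]
    by_cases hn : n = 0
    · simpa [hn] using h
    · simp [hn]
  · obtain ⟨M, hM⟩ := h.norm.bddAbove_range
    exact ⟨M, fun k => by rw [nr_C _ hr]; exact hM ⟨k, rfl⟩⟩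

theorem Cv.add {φ φ' : ℕ → MvPowerSeries ι ℂ} {ψ ψ' : MvPowerSeries ι ℂ} (h : Cv φ ψ)
    (h' : Cv φ' ψ') : Cv (fun k => φ k + φ' k) (ψ + ψ') := by
  refine ⟨h.1.add h'.1, fun k => (h.2.1 k).add (h'.2.1 k), fun n => ?_, fun r hr => ?_⟩
  · have := (h.2.2.1 n).add (h'.2.2.1 n)
    simpa using this
  · obtain ⟨M, hM⟩ := h.2.2.2 r hr
    obtain ⟨M', hM'⟩ := h'.2.2.2 r hr
    exact ⟨M + M', fun k => (nr_add_le (h.2.1 k) (h'.2.1 k) hr).trans
      (add_le_add (hM k) (hM' k))⟩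

theorem Cv.sub {φ φ' : ℕ → MvPowerSeries ι ℂ} {ψ ψ' : MvPowerSeries ι ℂ} (h : Cv φ ψ)
    (h' : Cv φ' ψ') : Cv (fun k => φ k - φ' k) (ψ - ψ') := by
  have := h.add (lcv_neg h')
  simpa [sub_eq_add_neg] using this

theorem Cv.mul {φ φ' : ℕ → MvPowerSeries ι ℂ} {ψ ψ' : MvPowerSeries ι ℂ} (h : Cv φ ψ)
    (h' : Cv φ' ψ') : Cv (fun k => φ k * φ' k) (ψ * ψ') := by
  refine ⟨h.1.mul h'.1, fun k => (h.2.1 k).mul (h'.2.1 k), fun n => ?_, fun r hr => ?_⟩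
  · simp only [MvPowerSeries.coeff_mul]
    exact tendsto_finset_sum _ fun p _ => (h.2.2.1 p.1).mul (h'.2.2.1 p.2)
  · obtain ⟨M, hM⟩ := h.2.2.2 r hr
    obtain ⟨M', hM'⟩ := h'.2.2.2 r hr
    exact ⟨M * M', fun k => (nr_mul_le (h.2.1 k) (h'.2.1 k) hr).trans
      (mul_le_mul (hM k) (hM' k) (nr_nonneg hr _) ((nr_nonneg hr _).trans (hM k)))⟩

theorem Cv.pow {φ : ℕ → MvPowerSeries ι ℂ} {ψ : MvPowerSeries ι ℂ} (h : Cv φ ψ) (j : ℕ) :
    Cv (fun k => φ k ^ j) (ψ ^ j) := by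
  induction j with
  | zero => simpa using lcv_const (ι := ι) Ent.one
  | succ j ih =>
    have := ih.mul h
    simpa [pow_succ] using this

theorem Cv.sum {κ : Type} (s : Finset κ) {φ : κ → ℕ → MvPowerSeries ι ℂ}
    {ψ : κ → MvPowerSeries ι ℂ} (h : ∀ j ∈ s, Cv (φ j) (ψ j)) :
    Cv (fun k => ∑ j ∈ s, φ j k) (∑ j ∈ s, ψ j) := by
  classical
  induction s using Finset.induction_on with
  | empty => simpa using lcv_const (ι := ι) Ent.zero
  | insert a s ha ih =>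
    have h1 := h a (Finset.mem_insert_self a s)
    have h2 := ih fun j hj => h j (Finset.mem_insert_of_mem hj)
    have := h1.add h2
    simpa [Finset.sum_insert ha] using this

theorem Cv.prod {κ : Type} (s : Finset κ) {φ : κ → ℕ → MvPowerSeries ι ℂ}
    {ψ : κ → MvPowerSeries ι ℂ} (h : ∀ j ∈ s, Cv (φ j) (ψ j)) :
    Cv (fun k => ∏ j ∈ s, φ j k) (∏ j ∈ s, ψ j) := by
  classical
  induction s using Finset.induction_on with
  | empty => simpa using lcv_const (ι := ι) Ent.one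
  | insert a s ha ih =>
    have h1 := h a (Finset.mem_insert_self a s)
    have h2 := ih fun j hj => h j (Finset.mem_insert_of_mem hj)
    have := h1.mul h2
    simpa [Finset.prod_insert ha] using this

theorem Cv.dd {φ : ℕ → MvPowerSeries ι ℂ} {ψ : MvPowerSeries ι ℂ} (h : Cv φ ψ) (A : ι →₀ ℕ) :
    Cv (fun k => dd A (φ k)) (dd A ψ) := by
  refine ⟨h.1.dd A, fun k => (h.2.1 k).dd A, fun n => ?_, fun r hr => ?_⟩
  · simp only [coeff_dd]
    exact (h.2.2.1 (n + A)).const_mul _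
  · obtain ⟨M, hM⟩ := h.2.2.2 (r + 1) (by linarith)
    refine ⟨M, fun k => ?_⟩
    have := nr_dd_le (h.2.1 k) A hr (zero_lt_one (α := ℝ))
    rw [one_pow, div_one] at this
    exact this.trans (hM k)

theorem Cv.sc {φ : ℕ → MvPowerSeries ι ℂ} {ψ : MvPowerSeries ι ℂ} (h : Cv φ ψ)
    {a : ℕ → ι → ℂ} {b : ι → ℂ} (ha : Tendsto a atTop (𝓝 b)) :
    Cv (fun k => sc (a k) (φ k)) (sc b ψ) := by
  obtain ⟨α, hα, hb⟩ := lcv_bdd ha
  refine ⟨h.1.sc b, fun k => (h.2.1 k).sc (a k), fun n => ?_, fun r hr => ?_⟩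
  · simp only [coeff_sc]
    exact (lcv_mo ha n).mul (h.2.2.1 n)
  · obtain ⟨M, hM⟩ := h.2.2.2 (α * r) (mul_nonneg (by linarith) hr)
    exact ⟨M, fun k => (lcv_sc_le (h.2.1 k) (by linarith) hr (hb k)).trans (hM k)⟩

theorem Cv.hw {φ : ℕ → MvPowerSeries ι ℂ} {ψ : MvPowerSeries ι ℂ} (h : Cv φ ψ) (A : ι →₀ ℕ) :
    Cv (fun k => hw A (φ k)) (hw A ψ) := by
  unfold CMT.hw
  refine Cv.sum _ fun p _ => ?_
  exact (lcv_const ((Ent.one.neg).pow (dg p.2))).mul ((h.dd p.1).mul (h.dd p.2))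

theorem Cv.NN {φ : ℕ → MvPowerSeries ι ℂ} {ψ : MvPowerSeries ι ℂ} (h : Cv φ ψ) (A : ι →₀ ℕ)
    (j : Option ι) : Cv (fun k => NN A j (φ k)) (NN A j ψ) := by
  cases j with
  | none => exact (h.hw A).mul (h.pow 2)
  | some k =>
    have h2 : Ent (2 : MvPowerSeries ι ℂ) := by
      have := (Ent.one (ι := ι)).add Ent.one
      rwa [one_add_one_eq_two] at this
    exact (((h.hw A).dd (Finsupp.single k 1)).mul (h.pow 2)).sub
      ((lcv_const h2).mul (((h.hw A).mul h).mul (h.dd (Finsupp.single k 1))))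

theorem Cv.tendsto {φ : ℕ → MvPowerSeries ι ℂ} {ψ : MvPowerSeries ι ℂ} (h : Cv φ ψ)
    {z : ℕ → ι → ℂ} {w : ι → ℂ} (hz : Tendsto z atTop (𝓝 w)) :
    Tendsto (fun k => ev (φ k) (z k)) atTop (𝓝 (ev ψ w)) := by
  obtain ⟨r, hr, hb⟩ := lcv_bdd hz
  have hr0 : (0 : ℝ) ≤ 2 * r := by linarith
  obtain ⟨M, hM⟩ := h.2.2.2 (2 * r) hr0
  unfold ev
  refine tendsto_tsum_of_dominated_convergence (bound := fun n : ι →₀ ℕ => M * (1 / 2 : ℝ) ^ dg n)
    (lcv_summable.mul_left M) (fun n => (h.2.2.1 n).mul (lcv_mo hz n))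
    (Eventually.of_forall fun k n => ?_)
  have h1 : ‖mo (z k) n‖ ≤ r ^ dg n := norm_mo_le (z k) (hb k) n
  have h2 : ‖coeff n (φ k)‖ * (2 * r) ^ dg n ≤ M := (norm_coeff_le (h.2.1 k) hr0 n).trans (hM k)
  have h3 : r ^ dg n = (2 * r) ^ dg n * (1 / 2 : ℝ) ^ dg n := by
    rw [← mul_pow]; congr 1; ring
  rw [norm_mul]
  calc ‖coeff n (φ k)‖ * ‖mo (z k) n‖ ≤ ‖coeff n (φ k)‖ * r ^ dg n :=
        mul_le_mul_of_nonneg_left h1 (norm_nonneg _)
    _ = ‖coeff n (φ k)‖ * (2 * r) ^ dg n * (1 / 2 : ℝ) ^ dg n := by rw [h3]; ring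
    _ ≤ M * (1 / 2 : ℝ) ^ dg n := mul_le_mul_of_nonneg_right h2 (by positivity)

/-- the constant sequence -/
theorem Cv.const {ψ : MvPowerSeries ι ℂ} (h : Ent ψ) : Cv (fun _ => ψ) ψ := by
  exact lcv_const h

/-- subsequences -/
theorem Cv.comp {φ : ℕ → MvPowerSeries ι ℂ} {ψ : MvPowerSeries ι ℂ} (h : Cv φ ψ) {m : ℕ → ℕ}
    (hm : Tendsto m atTop atTop) : Cv (fun k => φ (m k)) ψ := by
  refine ⟨h.1, fun k => h.2.1 (m k), fun n => (h.2.2.1 n).comp hm, fun r hr => ?_⟩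
  obtain ⟨M, hM⟩ := h.2.2.2 r hr
  exact ⟨M, fun k => hM (m k)⟩

end

end Pool.Agent.CMT
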