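import Pool.Agent.CMT.LDer
import Pool.Agent.CMT.LCv
import Pool.Agent.CMT.Defs2

/-!
# CMT-KPs: derivative and convergence of `ps`

PLAN. `hasFDerivAt_ps`: quotient rule. `ps_tendsto`: `Cv.NN`, `Cv.tendsto`, quotient of limits. `dps_tendsto`: the same for `DN`.
`ne_near`: otherwise there are `k_n → ∞` strictly increasing, `x_n → X` with `ev (φ k_n) x_n = 0`; put `z k = x_n` for `k = k_n`,
`z k = X` otherwise; `Cv.tendsto` gives `ev (φ k) (z k) → ev ψ X ≠ 0`, contradiction. `ev_jac`: `Matrix.det_apply`, `ev_sum`, `ev_mul`, `ev_prod`.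
-/

set_option autoImplicit false

namespace Pool.Agent.CMT

open Finset MvPowerSeries Filter Topology

noncomputable section

variable {ι : Type} [Fintype ι] [DecidableEq ι]

private theorem kps_four : Ent (4 : MvPowerSeries ι ℂ) := by
  have h : (4 : MvPowerSeries ι ℂ) = MvPowerSeries.C (4 : ℂ) := (map_ofNat _ 4).symm
  rw [h]
  exact Ent.C 4

private theorem kps_ev_four (z : ι → ℂ) : ev (4 : MvPowerSeries ι ℂ) z = 4 := by
  have h : (4 : MvPowerSeries ι ℂ) = MvPowerSeries.C (4 : ℂ) := (map_ofNat _ 4).symm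
  rw [h, ev_C]

private theorem kps_joint {V W : Type} [TopologicalSpace V] [FirstCountableTopology V]
    [TopologicalSpace W] (g : ℕ → V → W) (X0 : V) (w : W)
    (hc : ∀ x : ℕ → V, Tendsto x atTop (𝓝 X0) → Tendsto (fun k => g k (x k)) atTop (𝓝 w)) :
    Tendsto (fun p : ℕ × V => g p.1 p.2) (atTop ×ˢ 𝓝 X0) (𝓝 w) := by
  refine tendsto_of_subseq_tendsto fun ns hns => ?_
  have h1 : Tendsto (fun n => (ns n).1) atTop atTop := tendsto_fst.comp hns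
  have h2 : Tendsto (fun n => (ns n).2) atTop (𝓝 X0) := tendsto_snd.comp hns
  obtain ⟨φ, hφ, hφ2⟩ := strictMono_subseq_of_tendsto_atTop h1
  refine ⟨φ, ?_⟩
  set κ : ℕ → ℕ := (fun n => (ns n).1) ∘ φ with hκ
  set z : ℕ → V := Function.extend κ (fun n => (ns (φ n)).2) (fun _ => X0) with hz
  have hzt : Tendsto z atTop (𝓝 X0) := by
    rw [tendsto_def]
    intro U hU
    have h3 : ∀ᶠ n in atTop, (ns (φ n)).2 ∈ U := (h2.comp hφ.tendsto_atTop).eventually hU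
    obtain ⟨N, hN⟩ := eventually_atTop.1 h3
    rw [mem_atTop_sets]
    refine ⟨κ N, fun j hj => ?_⟩
    change z j ∈ U
    by_cases hex : ∃ n, κ n = j
    · obtain ⟨n, rfl⟩ := hex
      have : z (κ n) = (ns (φ n)).2 := hφ2.injective.extend_apply _ _ _
      rw [this]
      exact hN n (hφ2.le_iff_le.1 hj)
    · have : z j = X0 := Function.extend_apply' _ _ _ hex
      rw [this]
      exact mem_of_mem_nhds hU
  have h4 := (hc z hzt).comp hφ2.tendsto_atTop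
  refine h4.congr fun n => ?_
  have : z (κ n) = (ns (φ n)).2 := hφ2.injective.extend_apply _ _ _
  show g (κ n) (z (κ n)) = g (ns (φ n)).1 (ns (φ n)).2
  rw [this]
  rfl

private theorem kps_DN {φ : ℕ → MvPowerSeries ι ℂ} {ψ : MvPowerSeries ι ℂ} (h : Cv φ ψ)
    (A : ι →₀ ℕ) (κ : Option ι) (l : ι) :
    Cv (fun k => CMT.DN A κ l (φ k)) (CMT.DN A κ l ψ) :=
  (((h.NN A κ).dd _).mul h).sub ((Cv.const kps_four).mul ((h.NN A κ).mul (h.dd _)))

theorem Ent.DN {φ : MvPowerSeries ι ℂ} (h : Ent φ) (A : ι →₀ ℕ) (κ : Option ι) (k : ι) :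
    Ent (DN A κ k φ) := by
  exact (((h.NN A κ).dd _).mul h).sub (kps_four.mul ((h.NN A κ).mul (h.dd _)))

theorem hasFDerivAt_ps {φ : MvPowerSeries ι ℂ} (h : Ent φ) (A : ι →₀ ℕ) (κ : Option ι)
    {z : ι → ℂ} (hz : ev φ z ≠ 0) :
    HasFDerivAt (ps A κ φ) (∑ k, (ev (CMT.DN A κ k φ) z / ev φ z ^ 5) •
      (ContinuousLinearMap.proj k : (ι → ℂ) →L[ℂ] ℂ)) z := by
  have hN := h.NN A κ
  have h1 := hasFDerivAt_ev hN z
  have h2 := (hasFDerivAt_ev h z).pow 4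
  have h3 := (hasDerivAt_inv (pow_ne_zero 4 hz)).comp_hasFDerivAt z h2
  have h4 := h1.mul h3
  have hfun : ps A κ φ = fun x => ev (CMT.NN A κ φ) x * (ev φ x ^ 4)⁻¹ := by
    funext x
    rw [ps, div_eq_mul_inv]
  rw [hfun]
  refine h4.congr_fderiv ?_
  ext v
  simp only [ContinuousLinearMap.add_apply, ContinuousLinearMap.smul_apply,
    ContinuousLinearMap.sum_apply, ContinuousLinearMap.proj_apply, smul_eq_mul,
    Finset.mul_sum, ← Finset.sum_add_distrib]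
  refine Finset.sum_congr rfl fun k _ => ?_
  have hDN : ev (CMT.DN A κ k φ) z = ev (CMT.dd (Finsupp.single k 1) (CMT.NN A κ φ)) z * ev φ z -
      4 * (ev (CMT.NN A κ φ) z * ev (CMT.dd (Finsupp.single k 1) φ) z) := by
    have e1 := h.dd (Finsupp.single k 1)
    have e2 := hN.dd (Finsupp.single k 1)
    unfold CMT.DN
    rw [ev_sub (e2.mul h) (kps_four.mul (hN.mul e1)), ev_mul e2 h, ev_mul kps_four (hN.mul e1),
      ev_mul hN e1, kps_ev_four]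
  rw [hDN]
  simp only [nsmul_eq_mul, Nat.cast_ofNat, Function.comp_apply]
  field_simp
  ring

theorem ps_tendsto {φ : ℕ → MvPowerSeries ι ℂ} {ψ : MvPowerSeries ι ℂ} (h : Cv φ ψ)
    (A : ι →₀ ℕ) (κ : Option ι) {z : ℕ → ι → ℂ} {w : ι → ℂ} (hz : Tendsto z atTop (𝓝 w))
    (hw : ev ψ w ≠ 0) : Tendsto (fun k => ps A κ (φ k) (z k)) atTop (𝓝 (ps A κ ψ w)) := by
  exact ((h.NN A κ).tendsto hz).div ((h.tendsto hz).pow 4) (pow_ne_zero 4 hw)

theorem dps_tendsto {φ : ℕ → MvPowerSeries ι ℂ} {ψ : MvPowerSeries ι ℂ} (h : Cv φ ψ)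
    (A : ι →₀ ℕ) (κ : Option ι) (l : ι) {z : ℕ → ι → ℂ} {w : ι → ℂ}
    (hz : Tendsto z atTop (𝓝 w)) (hw : ev ψ w ≠ 0) :
    Tendsto (fun k => ev (CMT.DN A κ l (φ k)) (z k) / ev (φ k) (z k) ^ 5) atTop
      (𝓝 (ev (CMT.DN A κ l ψ) w / ev ψ w ^ 5)) := by
  exact ((kps_DN h A κ l).tendsto hz).div ((h.tendsto hz).pow 5) (pow_ne_zero 5 hw)

theorem ne_near {φ : ℕ → MvPowerSeries ι ℂ} {ψ : MvPowerSeries ι ℂ} (h : Cv φ ψ) {X : ι → ℂ}
    (hX : ev ψ X ≠ 0) : ∃ r : ℝ, 0 < r ∧ ∀ᶠ k in atTop, ∀ x ∈ Metric.ball X r,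
      ev (φ k) x ≠ 0 := by
  have hj := kps_joint (fun k x => ev (φ k) x) X (ev ψ X) (fun x hx => h.tendsto hx)
  have h1 : ∀ᶠ p : ℕ × (ι → ℂ) in atTop ×ˢ 𝓝 X, ev (φ p.1) p.2 ≠ 0 := hj.eventually_ne hX
  obtain ⟨S, hS, U, hU, hSU⟩ := mem_prod_iff.1 h1
  obtain ⟨r, hr, hrU⟩ := Metric.mem_nhds_iff.1 hU
  refine ⟨r, hr, ?_⟩
  filter_upwards [hS] with k hk x hx
  exact hSU (Set.mk_mem_prod hk (hrU hx))

/-- the determinant of the jacobian as a function -/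
theorem ev_jac {I : ι → (ι →₀ ℕ) × Option ι} {φ : MvPowerSeries ι ℂ} (h : Ent φ) (z : ι → ℂ) :
    Ent (Matrix.of fun i k : ι => CMT.DN (I i).1 (I i).2 k φ).det ∧
    ev (Matrix.of fun i k : ι => CMT.DN (I i).1 (I i).2 k φ).det z =
      (Matrix.of fun i k : ι => ev (CMT.DN (I i).1 (I i).2 k φ) z).det := by
  have hD : ∀ i k : ι, Ent (CMT.DN (I i).1 (I i).2 k φ) := fun i k => h.DN _ _ _
  have hε : ∀ σ : Equiv.Perm ι, (((Equiv.Perm.sign σ : ℤˣ) : ℤ) : MvPowerSeries ι ℂ) =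
      MvPowerSeries.C ((((Equiv.Perm.sign σ : ℤˣ) : ℤ) : ℂ)) := fun σ => (map_intCast _ _).symm
  have hE : ∀ σ : Equiv.Perm ι, Ent (MvPowerSeries.C ((((Equiv.Perm.sign σ : ℤˣ) : ℤ) : ℂ)) *
      ∏ i, CMT.DN (I (σ i)).1 (I (σ i)).2 i φ) := fun σ =>
    (Ent.C _).mul (Ent.prod _ fun i _ => hD (σ i) i)
  simp only [Matrix.det_apply', Matrix.of_apply, hε]
  refine ⟨Ent.sum _ fun σ _ => hE σ, ?_⟩
  rw [ev_sum _ fun σ _ => hE σ]
  refine Finset.sum_congr rfl fun σ _ => ?_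
  rw [ev_mul (Ent.C _) (Ent.prod _ fun i _ => hD (σ i) i), ev_C,
    ev_prod _ fun i _ => hD (σ i) i]

end

end Pool.Agent.CMT
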