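import Mathlib

/-!
# CMT-KRoot: simple roots of converging polynomials (Mathlib only)
-/

set_option autoImplicit false

namespace Pool.Agent.CMT

open Finset Filter Topology

theorem root_uniq {ι : Type} [Fintype ι] (Ms : Finset (Option ι →₀ ℕ))
    (rk : ℕ → (Option ι →₀ ℕ) → ℂ) (r : (Option ι →₀ ℕ) → ℂ)
    (hr : ∀ m ∈ Ms, Tendsto (fun k => rk k m) atTop (𝓝 (r m)))
    (x : ℕ → ι → ℂ) (x0 : ι → ℂ) (hx : ∀ i, Tendsto (fun k => x k i) atTop (𝓝 (x0 i)))
    (z z' : ℕ → ℂ) (z0 : ℂ) (hz : Tendsto z atTop (𝓝 z0)) (hz' : Tendsto z' atTop (𝓝 z0))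
    (h : ∀ᶠ k in atTop, ∑ m ∈ Ms, rk k m * (∏ i, x k i ^ m (some i)) * z k ^ m none = 0)
    (h' : ∀ᶠ k in atTop, ∑ m ∈ Ms, rk k m * (∏ i, x k i ^ m (some i)) * z' k ^ m none = 0)
    (h0 : ∑ m ∈ Ms, (m none : ℂ) * r m * (∏ i, x0 i ^ m (some i)) * z0 ^ (m none - 1) ≠ 0) :
    ∀ᶠ k in atTop, z k = z' k := by
  have hlim : Tendsto (fun k => ∑ m ∈ Ms, rk k m * (∏ i, x k i ^ m (some i)) *
      ∑ b ∈ range (m none), z k ^ b * z' k ^ (m none - 1 - b)) atTop
      (𝓝 (∑ m ∈ Ms, r m * (∏ i, x0 i ^ m (some i)) *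
        ∑ b ∈ range (m none), z0 ^ b * z0 ^ (m none - 1 - b))) := by
    refine tendsto_finsetSum _ fun m hm => ?_
    refine ((hr m hm).mul (tendsto_finsetProd _ fun i _ => (hx i).pow _)).mul ?_
    exact tendsto_finsetSum _ fun b _ => (hz.pow _).mul (hz'.pow _)
  have hval : ∑ m ∈ Ms, r m * (∏ i, x0 i ^ m (some i)) *
        ∑ b ∈ range (m none), z0 ^ b * z0 ^ (m none - 1 - b) =
      ∑ m ∈ Ms, (m none : ℂ) * r m * (∏ i, x0 i ^ m (some i)) * z0 ^ (m none - 1) := by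
    refine Finset.sum_congr rfl fun m _ => ?_
    have h1 : ∑ b ∈ range (m none), z0 ^ b * z0 ^ (m none - 1 - b) =
        ∑ b ∈ range (m none), z0 ^ (m none - 1) := by
      refine Finset.sum_congr rfl fun b hb => ?_
      rw [← pow_add]
      congr 1
      have := mem_range.1 hb
      omega
    rw [h1, Finset.sum_const, card_range, nsmul_eq_mul]
    ring
  rw [hval] at hlim
  filter_upwards [hlim.eventually_ne h0, h, h'] with k hk h1 h2
  have h3 : (∑ m ∈ Ms, rk k m * (∏ i, x k i ^ m (some i)) *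
      ∑ b ∈ range (m none), z k ^ b * z' k ^ (m none - 1 - b)) * (z k - z' k) = 0 := by
    rw [Finset.sum_mul]
    calc ∑ m ∈ Ms, rk k m * (∏ i, x k i ^ m (some i)) *
          (∑ b ∈ range (m none), z k ^ b * z' k ^ (m none - 1 - b)) * (z k - z' k)
        = ∑ m ∈ Ms, (rk k m * (∏ i, x k i ^ m (some i)) * z k ^ m none -
            rk k m * (∏ i, x k i ^ m (some i)) * z' k ^ m none) := by
          refine Finset.sum_congr rfl fun m _ => ?_
          rw [mul_assoc, geom_sum₂_mul, mul_sub]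
      _ = 0 := by rw [Finset.sum_sub_distrib, h1, h2, sub_self]
  exact sub_eq_zero.1 ((mul_eq_zero.1 h3).resolve_left hk)

/-- if the derivative of the limit polynomial `z ↦ ∑ r m x0^m z^(m none)` is not zero at one point, then for large
`k` the polynomial `z ↦ ∑ rk k m (x k)^m z^(m none)` is not the zero polynomial and has at most `d` roots -/
theorem root_count {ι : Type} [Fintype ι] (Ms : Finset (Option ι →₀ ℕ))
    (rk : ℕ → (Option ι →₀ ℕ) → ℂ) (r : (Option ι →₀ ℕ) → ℂ)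
    (hr : ∀ m ∈ Ms, Tendsto (fun k => rk k m) atTop (𝓝 (r m)))
    (x : ℕ → ι → ℂ) (x0 : ι → ℂ) (hx : ∀ i, Tendsto (fun k => x k i) atTop (𝓝 (x0 i)))
    (z0 : ℂ)
    (h0 : ∑ m ∈ Ms, (m none : ℂ) * r m * (∏ i, x0 i ^ m (some i)) * z0 ^ (m none - 1) ≠ 0)
    (d : ℕ) (hd : ∀ m ∈ Ms, m none ≤ d) :
    ∀ᶠ k in atTop, ∀ T : Finset ℂ,
      (∀ z ∈ T, ∑ m ∈ Ms, rk k m * (∏ i, x k i ^ m (some i)) * z ^ m none = 0) → T.card ≤ d := by
  have hlim : Tendsto (fun k => ∑ m ∈ Ms, (m none : ℂ) * rk k m * (∏ i, x k i ^ m (some i)) *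
      z0 ^ (m none - 1)) atTop
      (𝓝 (∑ m ∈ Ms, (m none : ℂ) * r m * (∏ i, x0 i ^ m (some i)) * z0 ^ (m none - 1))) := by
    refine tendsto_finsetSum _ fun m hm => ?_
    exact (((hr m hm).const_mul _).mul (tendsto_finsetProd _ fun i _ => (hx i).pow _)).mul_const _
  filter_upwards [hlim.eventually_ne h0] with k hk T hT
  obtain ⟨p, hp⟩ : ∃ p : Polynomial ℂ, p = ∑ m ∈ Ms,
      Polynomial.C (rk k m * (∏ i, x k i ^ m (some i))) * Polynomial.X ^ (m none) := ⟨_, rfl⟩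
  have h1 : p ≠ 0 := by
    intro h
    apply hk
    have h2 : (Polynomial.derivative p).eval z0 = 0 := by rw [h]; simp
    rw [hp, Polynomial.derivative_sum, Polynomial.eval_finsetSum] at h2
    rw [← h2]
    refine Finset.sum_congr rfl fun m _ => ?_
    rw [Polynomial.derivative_C_mul, Polynomial.derivative_X_pow, Polynomial.eval_mul,
      Polynomial.eval_C, Polynomial.eval_mul, Polynomial.eval_C, Polynomial.eval_pow,
      Polynomial.eval_X]
    ring
  have h2 : p.natDegree ≤ d := by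
    rw [hp]
    refine Polynomial.natDegree_sum_le_of_forall_le _ _ fun m hm => ?_
    exact (Polynomial.natDegree_C_mul_X_pow_le _ _).trans (hd m hm)
  refine le_trans ?_ h2
  refine Polynomial.card_le_degree_of_subset_roots fun z hz => ?_
  rw [Polynomial.mem_roots h1, Polynomial.IsRoot.def, hp, Polynomial.eval_finsetSum,
    ← hT z hz]
  refine Finset.sum_congr rfl fun m _ => ?_
  rw [Polynomial.eval_mul, Polynomial.eval_C, Polynomial.eval_pow, Polynomial.eval_X]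

end Pool.Agent.CMT
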