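import Pool.Agent.CMT.KRel
import Pool.Agent.CMT.KPs
import Pool.Agent.CMT.KKey
import Pool.Agent.CMT.KPer
import Pool.Agent.CMT.KRoot

/-!
# CMT-KAlpha: multiplication by `α` maps quasi-periods to quasi-periods up to a bounded multiple
-/

set_option autoImplicit false

namespace Pool.Agent.CMT

open Finset MvPowerSeries Filter Topology

noncomputable section

variable {ι : Type} [Fintype ι] [DecidableEq ι]

private theorem kalpha_shift {φ' : MvPowerSeries ι ℂ} (h : Ent φ') (h0 : φ' ≠ 0) {α : ι → ℂ}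
    (hα : ∀ i, α i ≠ 0) (v : ι → ℂ) :
    ∃ ψ : MvPowerSeries ι ℂ, Ent ψ ∧ ψ ≠ 0 ∧ ∀ y, ev ψ y = ev φ' (fun i => α i * (y i + v i)) := by
  obtain ⟨ψ, h1, h2, _⟩ := exists_shift (h.sc α) v
  have h3 : ∀ y, ev ψ y = ev φ' (fun i => α i * (y i + v i)) := by
    intro y
    rw [h2, ev_sc]
    congr 1
    funext i
    rw [Pi.add_apply]
    ring
  refine ⟨ψ, h1, ?_, h3⟩
  intro hψ
  apply h0
  refine ev_inj h Ent.zero fun z => ?_
  have h4 := h3 fun i => z i / α i - v i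
  have h5 : (fun i => α i * (z i / α i - v i + v i)) = z := by
    funext i
    have := hα i
    rw [sub_add_cancel]
    field_simp
  rw [h5, hψ] at h4
  rw [← h4]
  have h6 := ev_C (ι := ι) (0 : ℂ) (fun i => z i / α i - v i)
  have h7 := ev_C (ι := ι) (0 : ℂ) z
  rw [map_zero] at h6 h7
  rw [h6, h7]

/-- pigeonhole -/
private theorem kalpha_pigeon {J : Type} [Fintype J] (D : J → ℕ) (v : ℕ → J → ℂ)
    (hv : ∀ j, ∀ T : Finset ℂ,
      (∀ z ∈ T, ∃ t ≤ ∏ j, (D j + 1), v t j = z) → T.card ≤ D j) :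
    ∃ t t' : ℕ, t < t' ∧ t' ≤ ∏ j, (D j + 1) ∧ v t = v t' := by
  classical
  set d := ∏ j, (D j + 1) with hd
  have h1 : ((Fintype.piFinset fun j => (Finset.range (d + 1)).image fun t => v t j)).card <
      (Finset.range (d + 1)).card := by
    rw [Fintype.card_piFinset, Finset.card_range]
    refine Nat.lt_succ_of_le ?_
    rw [hd]
    refine Finset.prod_le_prod' fun j _ => ?_
    refine (hv j _ ?_).trans (Nat.le_succ _)
    intro z hz
    rw [Finset.mem_image] at hz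
    obtain ⟨t, ht, rfl⟩ := hz
    exact ⟨t, Nat.lt_succ_iff.1 (Finset.mem_range.1 ht), rfl⟩
  obtain ⟨t, ht, t', ht', hne, he⟩ := Finset.exists_ne_map_eq_of_card_lt_of_maps_to h1
    (f := v) (by
      intro t ht
      rw [Finset.mem_coe, Fintype.mem_piFinset]
      intro j
      exact Finset.mem_image_of_mem _ ht)
  rw [Finset.mem_range] at ht ht'
  rcases lt_or_gt_of_ne hne with h | h
  · exact ⟨t, t', h, by omega, he⟩
  · exact ⟨t', t, h, by omega, he.symm⟩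

theorem alpha_qp {φk φk' : ℕ → MvPowerSeries ι ℂ} {φ φ' : MvPowerSeries ι ℂ} (hCv : Cv φk φ)
    (hCv' : Cv φk' φ') (h0 : φ ≠ 0) (h0' : φ' ≠ 0) {αk : ℕ → ι → ℂ} {α : ι → ℂ}
    (hαk : Tendsto αk atTop (𝓝 α)) (hα : ∀ i, α i ≠ 0) {S : Finset (ι →₀ ℕ)}
    {γk : ℕ → (ι →₀ ℕ) → (ι →₀ ℕ) → ℂ} (hP : ∀ k, PP S (γk k) (φk' k))
    {I : ι → (ι →₀ ℕ) × Option ι}
    (hrel : ∀ A ∈ S, ∀ κ : Option ι, RelSeq I A κ φk φk' αk φ φ' α)
    {u : ι → ℂ} (hu : ∃ a b, QPr (ev φ) u a b) {w : ℕ → ι → ℂ} (hw : Tendsto w atTop (𝓝 u))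
    (hq : ∀ᶠ k in atTop, ∃ a b, QPr (ev (φk k)) (w k) a b) :
    ∃ d : ℕ, 0 < d ∧ ∀ᶠ k in atTop, ∃ t : ℕ, 0 < t ∧ t ≤ d ∧
      ∃ a b, QPr (ev (φk' k)) (fun i => (t : ℂ) * (αk k i * w k i)) a b := by
  classical
  set J : Type := {A // A ∈ S} × Option ι with hJ
  have hrel' : ∀ j : J, ∃ (Ms : Finset (Option ι →₀ ℕ)) (M : ℕ) (rk : ℕ → (Option ι →₀ ℕ) → ℂ)
      (r : (Option ι →₀ ℕ) → ℂ),
      (∀ m ∈ Ms, dg m ≤ M) ∧ (∀ m ∈ Ms, Tendsto (fun k => rk k m) atTop (𝓝 (r m))) ∧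
      (∀ k, hom Ms M (rk k) (GG I j.1.1 j.2 (αk k) (φk k) (φk' k))
        (FF (αk k) (φk k) (φk' k)) = 0) ∧
      homD Ms M r (GG I j.1.1 j.2 α φ φ') (FF α φ φ') ≠ 0 := fun j => hrel j.1.1 j.1.2 j.2
  choose Ms M rk r hM hr hhom hhomD using hrel'
  have hE : Ent φ := hCv.1
  have hE' : Ent φ' := hCv'.1
  set D : J → ℕ := fun j => (Ms j).sup fun m => m none with hD
  set d : ℕ := ∏ j, (D j + 1) with hd
  have hdpos : 0 < d := Finset.prod_pos fun j _ => Nat.succ_pos _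
  -- the shifted functions
  have hsh : ∀ t : ℕ, ∃ ψ : MvPowerSeries ι ℂ, Ent ψ ∧ ψ ≠ 0 ∧
      ∀ y, ev ψ y = ev φ' (fun i => α i * (y i + (t : ℂ) * u i)) := by
    intro t
    exact kalpha_shift hE' h0' hα fun i => (t : ℂ) * u i
  choose ψ hψE hψ0 hψev using hsh
  obtain ⟨X1, _, hX1⟩ := exists_common_ne (κ := Unit ⊕ (Fin (d + 1) ⊕ J)) Finset.univ
    (φ := Sum.elim (fun _ => φ) (Sum.elim (fun t => ψ t)
      (fun j => homD (Ms j) (M j) (r j) (GG I j.1.1 j.2 α φ φ') (FF α φ φ'))))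
    (by
      rintro (_ | t | j) _
      · exact hE
      · exact hψE t
      · exact Ent.homD hE hE' _ _ _)
    (by
      rintro (_ | t | j) _
      · exact h0
      · exact hψ0 t
      · exact hhomD j) 0 one_pos
  have hX : ev φ X1 ≠ 0 := hX1 (Sum.inl ()) (Finset.mem_univ _)
  have hXt : ∀ t : ℕ, t ≤ d → ev φ' (fun i => α i * (X1 i + (t : ℂ) * u i)) ≠ 0 := by
    intro t ht
    have h1 := hX1 (Sum.inr (Sum.inl ⟨t, Nat.lt_succ_of_le ht⟩)) (Finset.mem_univ _)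
    rw [← hψev]
    exact h1
  have hXD : ∀ j : J, ev (homD (Ms j) (M j) (r j) (GG I j.1.1 j.2 α φ φ') (FF α φ φ')) X1 ≠ 0 :=
    fun j => hX1 (Sum.inr (Sum.inr j)) (Finset.mem_univ _)
  have hX0 : ev φ' (fun i => α i * X1 i) ≠ 0 := by
    have h1 := hXt 0 (Nat.zero_le _)
    simpa using h1
  -- eventually
  have ev1 : ∀ᶠ k in atTop, ev (φk k) X1 ≠ 0 :=
    (hCv.tendsto (tendsto_const_nhds (x := X1))).eventually_ne hX
  have ev2 : ∀ᶠ k in atTop, ∀ t ∈ Finset.range (d + 1),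
      ev (φk' k) (fun i => αk k i * (X1 i + (t : ℂ) * w k i)) ≠ 0 := by
    rw [Filter.eventually_all_finset]
    intro t ht
    refine (hCv'.tendsto (z := fun k => fun i => αk k i * (X1 i + (t : ℂ) * w k i))
      (w := fun i => α i * (X1 i + (t : ℂ) * u i)) ?_).eventually_ne
      (hXt t (Nat.lt_succ_iff.1 (Finset.mem_range.1 ht)))
    rw [tendsto_pi_nhds] at hαk hw ⊢
    intro i
    exact (hαk i).mul (tendsto_const_nhds.add ((hw i).const_mul _))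
  have ev3 : ∀ᶠ k in atTop, ∀ j ∈ (Finset.univ : Finset J), ∀ T : Finset ℂ,
      (∀ z ∈ T, ∑ m ∈ Ms j, rk j k m *
        (∏ i, ps (I i).1 (I i).2 (φk k) X1 ^ m (some i)) * z ^ m none = 0) → T.card ≤ D j := by
    rw [Filter.eventually_all_finset]
    intro j _
    refine root_count (Ms j) (rk j) (r j) (hr j) (fun k i => ps (I i).1 (I i).2 (φk k) X1)
      (fun i => ps (I i).1 (I i).2 φ X1) (fun i => ps_tendsto hCv _ _ tendsto_const_nhds hX)
      (ps j.1.1 j.2 φ' fun i => α i * X1 i) (relD_at hE hE' (hM j) (hXD j) hX hX0) (D j) ?_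
    intro m hm
    exact Finset.le_sup (f := fun m : Option ι →₀ ℕ => m none) hm
  refine ⟨d, hdpos, ?_⟩
  filter_upwards [ev1, ev2, ev3, hq] with k k1 k2 k3 k4
  obtain ⟨a, b, hab⟩ := k4
  have hEk : Ent (φk k) := hCv.2.1 k
  have hEk' : Ent (φk' k) := hCv'.2.1 k
  have hz : ∀ t : ℕ, (fun i => X1 i + (t : ℂ) * w k i) = X1 + (t : ℤ) • w k := by
    intro t
    funext i
    simp
  have hper : ∀ t : ℕ, ∀ (A : ι →₀ ℕ) (κ : Option ι),
      ps A κ (φk k) (fun i => X1 i + (t : ℂ) * w k i) = ps A κ (φk k) X1 := by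
    intro t A κ
    obtain ⟨b', hb'⟩ := hab.zsmul (t : ℤ)
    rw [hz t]
    exact per_ps hEk hb' A κ X1
  have hnz : ∀ t : ℕ, ev (φk k) (fun i => X1 i + (t : ℂ) * w k i) ≠ 0 := by
    intro t
    obtain ⟨b', hb'⟩ := hab.zsmul (t : ℤ)
    rw [hz t]
    exact hb'.ne_zero k1
  have hroot : ∀ t : ℕ, t ≤ d → ∀ j : J, ∑ m ∈ Ms j, rk j k m *
      (∏ i, ps (I i).1 (I i).2 (φk k) X1 ^ m (some i)) *
      ps j.1.1 j.2 (φk' k) (fun i => αk k i * (X1 i + (t : ℂ) * w k i)) ^ m none = 0 := by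
    intro t ht j
    have h1 := rel_at hEk hEk' (hM j) (hhom j k) (hnz t)
      (k2 t (Finset.mem_range.2 (Nat.lt_succ_of_le ht)))
    rw [← h1]
    refine Finset.sum_congr rfl fun m _ => ?_
    congr 2
    refine Finset.prod_congr rfl fun i _ => ?_
    rw [hper t]
  obtain ⟨t, t', htt, ht', he⟩ := kalpha_pigeon D
    (fun t j => ps j.1.1 j.2 (φk' k) (fun i => αk k i * (X1 i + (t : ℂ) * w k i))) (by
      intro j T hT
      refine k3 j (Finset.mem_univ j) T fun z hz => ?_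
      obtain ⟨t, ht, rfl⟩ := hT z hz
      exact hroot t ht j)
  obtain ⟨a', b', hab'⟩ := key hEk' (hP k)
    (P1 := fun i => αk k i * (X1 i + (t' : ℂ) * w k i))
    (P2 := fun i => αk k i * (X1 i + (t : ℂ) * w k i))
    (k2 t' (Finset.mem_range.2 (Nat.lt_succ_of_le ht')))
    (k2 t (Finset.mem_range.2 (Nat.lt_succ_of_le (htt.le.trans ht'))))
    (fun A hA κ => (congrFun he (⟨A, hA⟩, κ)).symm)
  refine ⟨t' - t, Nat.sub_pos_of_lt htt, (Nat.sub_le _ _).trans ht', a', b', ?_⟩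
  have h5 : (fun i => ((t' - t : ℕ) : ℂ) * (αk k i * w k i)) =
      (fun i => αk k i * (X1 i + (t' : ℂ) * w k i)) -
        fun i => αk k i * (X1 i + (t : ℂ) * w k i) := by
    funext i
    rw [Pi.sub_apply, Nat.cast_sub htt.le]
    ring
  rw [h5]
  exact hab'

end

end Pool.Agent.CMT
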