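import Mathlib

/-!
# CMT-KCoord: perturbation of a real basis (Mathlib only)
-/

set_option autoImplicit false

namespace Pool.Agent.CMT

open Finset MvPowerSeries Filter Topology
open scoped Matrix

noncomputable section

variable {ι : Type} [Fintype ι] [DecidableEq ι]

omit [DecidableEq ι] in
theorem kcoord_repr {J : Type} [Fintype J] (b : Module.Basis J ℝ (ι → ℂ)) (v : J → ι → ℂ)
    (x : J → ℝ) : (b.repr (∑ j, (x j : ℂ) • v j) : J → ℝ) =
      (Matrix.of fun i j => b.repr (v j) i) *ᵥ x := by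
  have h1 : ∀ j, ((x j : ℂ) • v j) = x j • v j := fun j => by
    funext i
    simp
  funext i
  rw [Finset.sum_congr rfl fun j _ => h1 j, map_sum, Finsupp.finsetSum_apply]
  unfold Matrix.mulVec dotProduct
  refine Finset.sum_congr rfl fun j _ => ?_
  rw [map_smul, Finsupp.smul_apply, smul_eq_mul, mul_comm]
  rfl

omit [DecidableEq ι] in
theorem kcoord_mat {J : Type} [Fintype J] [DecidableEq J] (b : Module.Basis J ℝ (ι → ℂ))
    (w : ℕ → J → ι → ℂ) (hw : ∀ j, Tendsto (fun k => w k j) atTop (𝓝 (b j))) :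
    Tendsto (fun k => (Matrix.of fun i j => b.repr (w k j) i : Matrix J J ℝ)) atTop (𝓝 1) := by
  refine tendsto_pi_nhds.2 fun i => tendsto_pi_nhds.2 fun j => ?_
  have h1 : Continuous fun v : ι → ℂ => b.coord i v :=
    LinearMap.continuous_of_finiteDimensional (b.coord i)
  have h2 := (h1.tendsto (b j)).comp (hw j)
  have h3 : b.coord i (b j) = (1 : Matrix J J ℝ) i j := by
    rw [Module.Basis.coord_apply, b.repr_self, Finsupp.single_apply, Matrix.one_apply]
    by_cases h : i = j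
    · rw [if_pos h.symm, if_pos h]
    · rw [if_neg (Ne.symm h), if_neg h]
  rw [h3] at h2
  exact h2

omit [DecidableEq ι] in
theorem kcoord_det {J : Type} [Fintype J] [DecidableEq J] (b : Module.Basis J ℝ (ι → ℂ))
    (w : ℕ → J → ι → ℂ) (hw : ∀ j, Tendsto (fun k => w k j) atTop (𝓝 (b j))) :
    Tendsto (fun k => (Matrix.of fun i j => b.repr (w k j) i : Matrix J J ℝ).det) atTop (𝓝 1) := by
  have h1 : Continuous fun M : Matrix J J ℝ => M.det := Continuous.matrix_det continuous_id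
  have h2 := (h1.tendsto 1).comp (kcoord_mat b w hw)
  rw [Matrix.det_one] at h2
  exact h2

omit [DecidableEq ι] in
theorem kcoord_ne {J : Type} [Fintype J] [DecidableEq J] (b : Module.Basis J ℝ (ι → ℂ))
    (w : ℕ → J → ι → ℂ) (hw : ∀ j, Tendsto (fun k => w k j) atTop (𝓝 (b j))) :
    ∀ᶠ k in atTop, IsUnit (Matrix.of fun i j => b.repr (w k j) i : Matrix J J ℝ).det := by
  filter_upwards [(kcoord_det b w hw).eventually_ne one_ne_zero] with k hk
  exact hk.isUnit

theorem coord_span {J : Type} [Fintype J] (b : Module.Basis J ℝ (ι → ℂ)) (w : ℕ → J → ι → ℂ)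
    (hw : ∀ j, Tendsto (fun k => w k j) atTop (𝓝 (b j))) :
    ∀ᶠ k in atTop, ∀ z : ι → ℂ, ∃ x : J → ℝ, z = ∑ j, (x j : ℂ) • w k j := by
  classical
  filter_upwards [kcoord_ne b w hw] with k hk z
  refine ⟨(Matrix.of fun i j => b.repr (w k j) i : Matrix J J ℝ)⁻¹ *ᵥ (b.repr z : J → ℝ), ?_⟩
  apply b.repr.injective
  apply DFunLike.coe_injective
  rw [kcoord_repr, Matrix.mulVec_mulVec, Matrix.mul_nonsing_inv _ hk, Matrix.one_mulVec]

theorem coord_tendsto {J : Type} [Fintype J] (b : Module.Basis J ℝ (ι → ℂ))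
    (w : ℕ → J → ι → ℂ) (hw : ∀ j, Tendsto (fun k => w k j) atTop (𝓝 (b j)))
    (x : ℕ → J → ℝ) (x0 : J → ℝ)
    (hx : Tendsto (fun k => ∑ j, (x k j : ℂ) • w k j) atTop (𝓝 (∑ j, (x0 j : ℂ) • b j))) :
    Tendsto x atTop (𝓝 x0) := by
  classical
  have hM := kcoord_mat b w hw
  have hd := kcoord_det b w hw
  have hc : Continuous fun v : ι → ℂ => (b.repr v : J → ℝ) :=
    continuous_pi fun i => LinearMap.continuous_of_finiteDimensional (b.coord i)
  have h1 := (hc.tendsto _).comp hx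
  have h0 : (b.repr (∑ j, (x0 j : ℂ) • b j) : J → ℝ) = x0 := by
    rw [kcoord_repr]
    have : (Matrix.of fun i j => b.repr (b j) i : Matrix J J ℝ) = 1 := by
      ext i j
      rw [Matrix.of_apply, b.repr_self, Finsupp.single_apply, Matrix.one_apply]
      by_cases h : i = j
      · rw [if_pos h.symm, if_pos h]
      · rw [if_neg (Ne.symm h), if_neg h]
    rw [this, Matrix.one_mulVec]
  rw [h0] at h1
  have h2 : Tendsto (fun k => (Matrix.of fun i j => b.repr (w k j) i : Matrix J J ℝ)⁻¹) atTop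
      (𝓝 1) := by
    have e : ∀ k, (Matrix.of fun i j => b.repr (w k j) i : Matrix J J ℝ)⁻¹ =
        (Matrix.of fun i j => b.repr (w k j) i : Matrix J J ℝ).det⁻¹ •
          (Matrix.of fun i j => b.repr (w k j) i : Matrix J J ℝ).adjugate := fun k => by
      rw [Matrix.inv_def, Ring.inverse_eq_inv']
    have h3 : Tendsto (fun k => (Matrix.of fun i j => b.repr (w k j) i : Matrix J J ℝ).det⁻¹ •
          (Matrix.of fun i j => b.repr (w k j) i : Matrix J J ℝ).adjugate) atTop
        (𝓝 ((1 : ℝ)⁻¹ • (1 : Matrix J J ℝ).adjugate)) := by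
      refine Tendsto.smul (hd.inv₀ one_ne_zero) ?_
      have h4 : Continuous fun M : Matrix J J ℝ => M.adjugate :=
        Continuous.matrix_adjugate continuous_id
      exact (h4.tendsto 1).comp hM
    rw [Matrix.adjugate_one, inv_one, one_smul] at h3
    exact h3.congr fun k => (e k).symm
  have h5 : Tendsto (fun k => (Matrix.of fun i j => b.repr (w k j) i : Matrix J J ℝ)⁻¹ *ᵥ
      (b.repr (∑ j, (x k j : ℂ) • w k j) : J → ℝ)) atTop (𝓝 ((1 : Matrix J J ℝ) *ᵥ x0)) := by
    have h6 : Continuous fun p : Matrix J J ℝ × (J → ℝ) => p.1 *ᵥ p.2 :=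
      Continuous.matrix_mulVec continuous_fst continuous_snd
    exact (h6.tendsto (1, x0)).comp (h2.prodMk_nhds h1)
  rw [Matrix.one_mulVec] at h5
  refine h5.congr' ?_
  filter_upwards [kcoord_ne b w hw] with k hk
  rw [kcoord_repr, Matrix.mulVec_mulVec, Matrix.nonsing_inv_mul _ hk, Matrix.one_mulVec]

/-- integral coordinates are eventually constant -/
theorem coord_int {J : Type} [Fintype J] (b : Module.Basis J ℝ (ι → ℂ))
    (w : ℕ → J → ι → ℂ) (hw : ∀ j, Tendsto (fun k => w k j) atTop (𝓝 (b j)))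
    (n : ℕ → J → ℤ) (n0 : J → ℤ) {y : ℕ → ι → ℂ}
    (hy : ∀ᶠ k in atTop, y k = ∑ j, (n k j : ℂ) • w k j)
    (hx : Tendsto y atTop (𝓝 (∑ j, (n0 j : ℂ) • b j))) :
    ∀ᶠ k in atTop, n k = n0 := by
  have h1 : Tendsto (fun k => ∑ j, (((n k j : ℤ) : ℝ) : ℂ) • w k j) atTop
      (𝓝 (∑ j, (((n0 j : ℤ) : ℝ) : ℂ) • b j)) := by
    have e : (∑ j, (((n0 j : ℤ) : ℝ) : ℂ) • b j) = ∑ j, (n0 j : ℂ) • b j := by
      simp only [Complex.ofReal_intCast]
    rw [e]
    refine hx.congr' ?_
    filter_upwards [hy] with k hk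
    rw [hk]
    simp only [Complex.ofReal_intCast]
  have h2 := coord_tendsto b w hw (fun k j => ((n k j : ℤ) : ℝ)) (fun j => ((n0 j : ℤ) : ℝ)) h1
  have h3 : ∀ j, ∀ᶠ k in atTop, n k j = n0 j := by
    intro j
    have h4 := (tendsto_pi_nhds.1 h2 j)
    filter_upwards [Metric.tendsto_nhds.1 h4 1 one_pos] with k hk
    rw [Real.dist_eq] at hk
    have h5 : |n k j - n0 j| < 1 := by exact_mod_cast hk
    have h6 := abs_lt.1 h5
    omega
  filter_upwards [eventually_all.2 h3] with k hk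
  exact funext hk

end

end Pool.Agent.CMT
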