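import Mathlib

/-!
# CMT-KEig: vectors with the same multiplication matrix are proportional (Mathlib only)

PLAN. For `r : ι` let `X_r := fun j => b j r`, `Xbar_r := fun j => conj (b j r)`, vectors in `J → ℂ`. They are non-zero (otherwise `z r = 0` for every
`z` in the real span of `b`, which is everything) and eigenvectors of the endomorphism `x ↦ (fun j => ∑ i, m i j * x i)` of `J → ℂ` with the
eigenvalues `β r`, `conj (β r)` (`m` is real), all different (`hβ`): linearly independent (`Module.End.eigenvectors_linearIndependent`),
`2 |ι| = |J|` of them (`Module.finrank`), so they form a basis. `W_r := fun j => w j r` is in the eigenspace of `β r`: expand `W_r` in the basis and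
compare `∑ c_s (β_s - β_r) X_s = 0`: only the component of `X_r` is left.
-/

set_option autoImplicit false

namespace Pool.Agent.CMT

open Finset MvPowerSeries Filter Topology

noncomputable section

variable {ι : Type} [Fintype ι] [DecidableEq ι]

omit [Fintype ι] in
private theorem keig_ne {J : Type} [Fintype J] (b : Module.Basis J ℝ (ι → ℂ)) (r : ι) :
    ∃ j, b j r ≠ 0 := by
  by_contra hcon
  push Not at hcon
  have h1 := b.sum_repr (Pi.single r 1 : ι → ℂ)
  have h2 := congrFun h1 r
  rw [Finset.sum_apply, Pi.single_eq_same] at h2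
  have h3 : ∑ j, (b.repr (Pi.single r 1 : ι → ℂ) j • b j) r = 0 := by
    refine Finset.sum_eq_zero fun j _ => ?_
    rw [Pi.smul_apply, hcon j, smul_zero]
  rw [h3] at h2
  exact zero_ne_one h2

private def keig_T {J : Type} [Fintype J] (m : J → J → ℝ) : (J → ℂ) →ₗ[ℂ] (J → ℂ) where
  toFun x := fun j => ∑ i, (m i j : ℂ) * x i
  map_add' x y := by
    funext j
    simp only [Pi.add_apply, mul_add, Finset.sum_add_distrib]
  map_smul' c x := by
    funext j
    simp only [Pi.smul_apply, smul_eq_mul, RingHom.id_apply, Finset.mul_sum]
    refine Finset.sum_congr rfl fun i _ => ?_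
    ring

theorem eig {J : Type} [Fintype J] (b : Module.Basis J ℝ (ι → ℂ)) (w : J → ι → ℂ)
    (m : J → J → ℝ) (β : ι → ℂ)
    (hβ : Function.Injective (Sum.elim β (fun i => (starRingEnd ℂ) (β i))))
    (hb : ∀ j r, β r * b j r = ∑ i, (m i j : ℂ) * b i r)
    (hw : ∀ j r, β r * w j r = ∑ i, (m i j : ℂ) * w i r) :
    ∃ v : ι → ℂ, ∀ j r, w j r = v r * b j r := by
  set E : ι ⊕ ι → J → ℂ := Sum.elim (fun r j => b j r) (fun r j => (starRingEnd ℂ) (b j r)) with hE
  have hev : ∀ s, Module.End.HasEigenvector (keig_T m)
      (Sum.elim β (fun i => (starRingEnd ℂ) (β i)) s) (E s) := by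
    intro s
    rw [Module.End.hasEigenvector_iff, Module.End.mem_eigenspace_iff]
    rcases s with r | r
    · constructor
      · funext j
        rw [Pi.smul_apply, smul_eq_mul]
        exact (hb j r).symm
      · obtain ⟨j, hj⟩ := keig_ne b r
        intro h
        exact hj (congrFun h j)
    · constructor
      · funext j
        rw [Pi.smul_apply, smul_eq_mul]
        change ∑ i, (m i j : ℂ) * (starRingEnd ℂ) (b i r) =
          (starRingEnd ℂ) (β r) * (starRingEnd ℂ) (b j r)
        rw [← map_mul, hb j r, map_sum]
        refine Finset.sum_congr rfl fun i _ => ?_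
        rw [map_mul, Complex.conj_ofReal]
      · obtain ⟨j, hj⟩ := keig_ne b r
        intro h
        apply hj
        have h1 : (starRingEnd ℂ) (b j r) = 0 := congrFun h j
        exact (_root_.map_eq_zero _).1 h1
  have hli : LinearIndependent ℂ E := Module.End.eigenvectors_linearIndependent' _ _ hβ _ hev
  have hcard : Fintype.card (ι ⊕ ι) = Module.finrank ℂ (J → ℂ) := by
    rw [Module.finrank_fintype_fun_eq_card, ← Module.finrank_eq_card_basis b,
      Module.finrank_pi_fintype, Fintype.card_sum]
    simp only [Complex.finrank_real_complex]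
    rw [Finset.sum_const, smul_eq_mul, Finset.card_univ]
    ring
  have key : ∀ r : ι, ∃ c : ℂ, ∀ j, w j r = c * b j r := by
    intro r
    have : Nonempty (ι ⊕ ι) := ⟨Sum.inl r⟩
    set B := basisOfLinearIndependentOfCardEqFinrank hli hcard with hB
    have hBE : ∀ s, B s = E s := fun s => by
      rw [hB, coe_basisOfLinearIndependentOfCardEqFinrank]
    set W : J → ℂ := fun j => w j r with hW
    have hTW : keig_T m W = β r • W := by
      funext j
      rw [Pi.smul_apply, smul_eq_mul]
      exact (hw j r).symm
    have hsum := B.sum_repr W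
    have h1 : ∑ s, (B.repr W s * (Sum.elim β (fun i => (starRingEnd ℂ) (β i)) s - β r)) • E s = 0 := by
      have h2 : keig_T m (∑ s, B.repr W s • B s) = β r • ∑ s, B.repr W s • B s := by
        rw [hsum]
        exact hTW
      rw [map_sum, Finset.smul_sum] at h2
      rw [← sub_eq_zero, ← Finset.sum_sub_distrib] at h2
      rw [← h2]
      refine Finset.sum_congr rfl fun s _ => ?_
      rw [map_smul, hBE, (Module.End.mem_eigenspace_iff.1 (hev s).1), smul_smul, smul_smul,
        ← sub_smul]
      congr 1
      ring
    have h2 := linearIndependent_iff'.1 hli Finset.univ _ h1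
    refine ⟨B.repr W (Sum.inl r), fun j => ?_⟩
    have h3 : ∀ s, s ≠ Sum.inl r → B.repr W s = 0 := by
      intro s hs
      have h4 := h2 s (Finset.mem_univ s)
      refine (mul_eq_zero.1 h4).resolve_right ?_
      rw [sub_eq_zero]
      intro h5
      apply hs
      apply hβ
      rw [h5]
      rfl
    have h4 : B.repr W (Sum.inl r) • E (Sum.inl r) = W := by
      rw [← hBE]
      conv_rhs => rw [← hsum]
      rw [Finset.sum_eq_single (Sum.inl r)]
      · intro s _ hs
        rw [h3 s hs, zero_smul]
      · intro hc
        exact absurd (Finset.mem_univ _) hc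
    have h5 := congrFun h4 j
    rw [Pi.smul_apply, smul_eq_mul] at h5
    exact h5.symm
  choose v hv using key
  exact ⟨v, fun j r => hv r j⟩

end

end Pool.Agent.CMT
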