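import Pool.Agent.CMT.LHir
import Pool.Agent.CMT.Defs2

/-!
# CMT-KId: the two basic identities behind the key lemma

Write `f = ev φ`, `f_k = ev (dd (single k 1) φ)` (the `k`-th derivative, `hasFDerivAt_ev`), `w_A = ev (hw A φ)`.

PLAN. `PP_ev`: `f(X+Y) f(X-Y) = ∑ γ w_A(X) w_A'(Y)`. Differentiate in `X_k` and in `Y_k`
(`HasDerivAt` along `X + t e_k`, `Y + t e_k`):
`f_k(X+Y) f(X-Y) + f(X+Y) f_k(X-Y) = ∑ γ w_{A,k}(X) w_A'(Y)`, `w_{A,k} = ev (dd (single k 1) (hw A φ))`,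
`f_k(X+Y) f(X-Y) - f(X+Y) f_k(X-Y) = ∑ γ w_A(X) w_{A',k}(Y)`. Add, divide by `2 f(X)²` (`f(X) ≠ 0`) and subtract
`(f_k(X)/f(X)) f(X+Y) f(X-Y) / f(X)²`:
`(f_k(X+Y) - (f_k(X)/f(X)) f(X+Y)) f(X-Y) / f(X)² = 1/2 ∑_{A,A'} γ (ps A (some k) φ X * w_A'(Y) + ps A none φ X * w_{A',k}(Y))`
because `NN A none φ = w_A f²` and `NN A (some k) φ = w_{A,k} f² - 2 w_A f f_k`.
-/

set_option autoImplicit false

namespace Pool.Agent.CMT

open Finset MvPowerSeries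

noncomputable section

variable {ι : Type} [Fintype ι] [DecidableEq ι]

private theorem kid_deriv {ψ : MvPowerSeries ι ℂ} (h : Ent ψ) (X : ι → ℂ) (k : ι) :
    HasDerivAt (fun t : ℂ => ev ψ (X + t • Pi.single k 1)) (ev (dd (Finsupp.single k 1) ψ) X) 0 := by
  have h1 : HasDerivAt (fun t : ℂ => X + t • (Pi.single k 1 : ι → ℂ)) (Pi.single k 1) 0 := by
    have := ((hasDerivAt_id (0 : ℂ)).smul_const (Pi.single k 1 : ι → ℂ)).const_add X
    simpa using this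
  have h2 : HasFDerivAt (ev ψ) (∑ j, ev (dd (Finsupp.single j 1) ψ) X •
      (ContinuousLinearMap.proj j : (ι → ℂ) →L[ℂ] ℂ)) (X + (0 : ℂ) • (Pi.single k 1 : ι → ℂ)) := by
    rw [zero_smul, add_zero]
    exact hasFDerivAt_ev h X
  have h3 := h2.comp_hasDerivAt (0 : ℂ) h1
  refine h3.congr_deriv ?_
  rw [_root_.sum_apply, Finset.sum_eq_single k]
  · simp
  · intro j _ hj
    simp [hj]
  · intro hk
    exact absurd (Finset.mem_univ k) hk

private theorem kid_deriv_neg {ψ : MvPowerSeries ι ℂ} (h : Ent ψ) (X : ι → ℂ) (k : ι) :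
    HasDerivAt (fun t : ℂ => ev ψ (X - t • Pi.single k 1))
      (-ev (dd (Finsupp.single k 1) ψ) X) 0 := by
  have h1 := kid_deriv h X k
  have h2 : HasDerivAt (fun t : ℂ => -t) (-1) 0 := hasDerivAt_neg 0
  have h3 : HasDerivAt (fun t : ℂ => ev ψ (X + t • Pi.single k 1))
      (ev (dd (Finsupp.single k 1) ψ) X) (-0) := by
    rw [neg_zero]
    exact h1
  have h4 := HasDerivAt.comp (0 : ℂ) h3 h2
  refine (h4.congr_deriv (by ring)).congr_of_eventuallyEq (Filter.Eventually.of_forall fun t => ?_)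
  simp only [Function.comp]
  rw [neg_smul, ← sub_eq_add_neg]

/-- the derivative in `X_k` of identity (P) -/
theorem PP_dX {φ : MvPowerSeries ι ℂ} (h : Ent φ) {S : Finset (ι →₀ ℕ)}
    {γ : (ι →₀ ℕ) → (ι →₀ ℕ) → ℂ} (hP : PP S γ φ) (X Y : ι → ℂ) (k : ι) :
    ev (dd (Finsupp.single k 1) φ) (X + Y) * ev φ (X - Y) +
      ev φ (X + Y) * ev (dd (Finsupp.single k 1) φ) (X - Y) =
      ∑ A ∈ S, ∑ A' ∈ S, γ A A' *
        (ev (dd (Finsupp.single k 1) (hw A φ)) X * ev (hw A' φ) Y) := by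
  have e1 : (X + Y) + (0 : ℂ) • (Pi.single k 1 : ι → ℂ) = X + Y := by rw [zero_smul, add_zero]
  have e2 : (X - Y) + (0 : ℂ) • (Pi.single k 1 : ι → ℂ) = X - Y := by rw [zero_smul, add_zero]
  have h1 := (kid_deriv h (X + Y) k).mul (kid_deriv h (X - Y) k)
  rw [e1, e2] at h1
  have h2 : HasDerivAt (fun t : ℂ => ∑ A ∈ S, ∑ A' ∈ S, γ A A' *
      (ev (hw A φ) (X + t • Pi.single k 1) * ev (hw A' φ) Y))
      (∑ A ∈ S, ∑ A' ∈ S, γ A A' *
        (ev (dd (Finsupp.single k 1) (hw A φ)) X * ev (hw A' φ) Y)) 0 :=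
    HasDerivAt.fun_sum fun A _ => HasDerivAt.fun_sum fun A' _ =>
      ((kid_deriv (h.hw A) X k).mul_const _).const_mul _
  refine h1.unique (h2.congr_of_eventuallyEq (Filter.Eventually.of_forall fun t => ?_))
  simp only [Pi.mul_apply]
  rw [← PP_ev h hP]
  congr 2
  · abel
  · abel

/-- the derivative in `Y_k` of identity (P) -/
theorem PP_dY {φ : MvPowerSeries ι ℂ} (h : Ent φ) {S : Finset (ι →₀ ℕ)}
    {γ : (ι →₀ ℕ) → (ι →₀ ℕ) → ℂ} (hP : PP S γ φ) (X Y : ι → ℂ) (k : ι) :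
    ev (dd (Finsupp.single k 1) φ) (X + Y) * ev φ (X - Y) -
      ev φ (X + Y) * ev (dd (Finsupp.single k 1) φ) (X - Y) =
      ∑ A ∈ S, ∑ A' ∈ S, γ A A' *
        (ev (hw A φ) X * ev (dd (Finsupp.single k 1) (hw A' φ)) Y) := by
  have e1 : (X + Y) + (0 : ℂ) • (Pi.single k 1 : ι → ℂ) = X + Y := by rw [zero_smul, add_zero]
  have e2 : (X - Y) - (0 : ℂ) • (Pi.single k 1 : ι → ℂ) = X - Y := by rw [zero_smul, sub_zero]
  have h1 := (kid_deriv h (X + Y) k).mul (kid_deriv_neg h (X - Y) k)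
  rw [e1, e2] at h1
  have h2 : HasDerivAt (fun t : ℂ => ∑ A ∈ S, ∑ A' ∈ S, γ A A' *
      (ev (hw A φ) X * ev (hw A' φ) (Y + t • Pi.single k 1)))
      (∑ A ∈ S, ∑ A' ∈ S, γ A A' *
        (ev (hw A φ) X * ev (dd (Finsupp.single k 1) (hw A' φ)) Y)) 0 :=
    HasDerivAt.fun_sum fun A _ => HasDerivAt.fun_sum fun A' _ =>
      ((kid_deriv (h.hw A') Y k).const_mul _).const_mul _
  have h3 := h1.unique (h2.congr_of_eventuallyEq (Filter.Eventually.of_forall fun t => by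
    simp only [Pi.mul_apply]
    rw [← PP_ev h hP]
    congr 2
    · abel
    · abel))
  rw [← h3]
  ring

private theorem kid_none {φ : MvPowerSeries ι ℂ} (h : Ent φ) {X : ι → ℂ} (hX : ev φ X ≠ 0)
    (A : ι →₀ ℕ) : ps A none φ X = ev (hw A φ) X / ev φ X ^ 2 := by
  have e : NN A none φ = hw A φ * φ ^ 2 := rfl
  unfold ps
  rw [e, ev_mul (h.hw A) (h.pow 2), ev_pow h]
  field_simp

private theorem kid_some {φ : MvPowerSeries ι ℂ} (h : Ent φ) {X : ι → ℂ} (hX : ev φ X ≠ 0)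
    (A : ι →₀ ℕ) (k : ι) : ps A (some k) φ X =
      ev (dd (Finsupp.single k 1) (hw A φ)) X / ev φ X ^ 2 -
        2 * ev (dd (Finsupp.single k 1) φ) X / ev φ X ^ 3 * ev (hw A φ) X := by
  have e : NN A (some k) φ = dd (Finsupp.single k 1) (hw A φ) * φ ^ 2 -
      (hw A φ * φ * dd (Finsupp.single k 1) φ + hw A φ * φ * dd (Finsupp.single k 1) φ) := by
    rw [← two_mul]
    rfl
  have h1 : Ent (hw A φ * φ * dd (Finsupp.single k 1) φ) := ((h.hw A).mul h).mul (h.dd _)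
  unfold ps
  rw [e, ev_sub (((h.hw A).dd _).mul (h.pow 2)) (h1.add h1), ev_add h1 h1,
    ev_mul ((h.hw A).dd _) (h.pow 2), ev_pow h, ev_mul ((h.hw A).mul h) (h.dd _),
    ev_mul (h.hw A) h]
  field_simp
  ring

theorem key_L {φ : MvPowerSeries ι ℂ} (h : Ent φ) {S : Finset (ι →₀ ℕ)}
    {γ : (ι →₀ ℕ) → (ι →₀ ℕ) → ℂ} (hP : PP S γ φ) {X : ι → ℂ} (hX : ev φ X ≠ 0) (Y : ι → ℂ) :
    ev φ (X + Y) * ev φ (X - Y) / ev φ X ^ 2 =
      ∑ A ∈ S, ∑ A' ∈ S, γ A A' * (ps A none φ X * ev (hw A' φ) Y) := by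
  rw [PP_ev h hP, Finset.sum_div]
  refine Finset.sum_congr rfl fun A _ => ?_
  rw [Finset.sum_div]
  refine Finset.sum_congr rfl fun A' _ => ?_
  rw [kid_none h hX]
  ring

theorem key_id {φ : MvPowerSeries ι ℂ} (h : Ent φ) {S : Finset (ι →₀ ℕ)}
    {γ : (ι →₀ ℕ) → (ι →₀ ℕ) → ℂ} (hP : PP S γ φ) {X : ι → ℂ} (hX : ev φ X ≠ 0) (Y : ι → ℂ)
    (k : ι) :
    (ev (dd (Finsupp.single k 1) φ) (X + Y) -
      ev (dd (Finsupp.single k 1) φ) X / ev φ X * ev φ (X + Y)) * ev φ (X - Y) / ev φ X ^ 2 =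
      1 / 2 * ∑ A ∈ S, ∑ A' ∈ S, γ A A' * (ps A (some k) φ X * ev (hw A' φ) Y +
        ps A none φ X * ev (dd (Finsupp.single k 1) (hw A' φ)) Y) := by
  have h0 := PP_ev h hP X Y
  have h1 := PP_dX h hP X Y k
  have h2 := PP_dY h hP X Y k
  have h3 : ∑ A ∈ S, ∑ A' ∈ S, γ A A' * (ps A (some k) φ X * ev (hw A' φ) Y +
        ps A none φ X * ev (dd (Finsupp.single k 1) (hw A' φ)) Y) =
      (∑ A ∈ S, ∑ A' ∈ S, γ A A' *
        (ev (dd (Finsupp.single k 1) (hw A φ)) X * ev (hw A' φ) Y)) / ev φ X ^ 2 -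
      2 * ev (dd (Finsupp.single k 1) φ) X / ev φ X ^ 3 *
        (∑ A ∈ S, ∑ A' ∈ S, γ A A' * (ev (hw A φ) X * ev (hw A' φ) Y)) +
      (∑ A ∈ S, ∑ A' ∈ S, γ A A' *
        (ev (hw A φ) X * ev (dd (Finsupp.single k 1) (hw A' φ)) Y)) / ev φ X ^ 2 := by
    rw [Finset.sum_div, Finset.sum_div, Finset.mul_sum, ← Finset.sum_sub_distrib,
      ← Finset.sum_add_distrib]
    refine Finset.sum_congr rfl fun A _ => ?_
    rw [Finset.sum_div, Finset.sum_div, Finset.mul_sum, ← Finset.sum_sub_distrib,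
      ← Finset.sum_add_distrib]
    refine Finset.sum_congr rfl fun A' _ => ?_
    rw [kid_none h hX, kid_some h hX]
    ring
  rw [h3, ← h0, ← h1, ← h2]
  field_simp
  ring

end

end Pool.Agent.CMT
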