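import Mathlib

/-!
# CMT-KInv: inverse function theorem for a sequence of maps (Mathlib only)

PLAN. Let `c = ‖f'.symm‖⁻¹ / 2`. Claim: there are `δ > 0`, `k0` with `‖Ψ' k x - f'‖ ≤ c` for `k ≥ k0`, `x ∈ ball X0 δ`: otherwise
there are (for `δ = 1/(n+1)`, `k0 = n`) `k_n ≥ n`, `x_n ∈ ball X0 (1/(n+1))` with `‖Ψ' k_n x_n - f'‖ > c`; choose them with
`k_n` strictly increasing and define `x` along all `k` (`x k = x_n` if `k = k_n`, else `X0`): contradiction to `hc`.
So (mean value inequality on the convex ball, `Convex.norm_image_sub_le_of_norm_hasFDerivWithin_le'`)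
`ApproximatesLinearOn (Ψ k) f' (closedBall X0 δ') c` for `k ≥ k0`, and
`ApproximatesLinearOn.surjOn_closedBall_of_nonlinearRightInverse` (or a Banach fixed point argument) gives:
for `0 < ε ≤ δ'`: `closedBall (Ψ k X0) ((‖f'.symm‖⁻¹ - c) ε) ⊆ Ψ k '' closedBall X0 ε`. Since `y k` and `Ψ k X0` have the same limit, for
every `ε` and all large `k` there is `x ∈ closedBall X0 ε` with `Ψ k x = y k`; the solution in `closedBall X0 δ'` is unique
(`ApproximatesLinearOn.injOn`), so the chosen one tends to `X0`.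
-/

set_option autoImplicit false

namespace Pool.Agent.CMT

open Filter Topology

private theorem kinv_joint {V W : Type} [TopologicalSpace V] [FirstCountableTopology V]
    [TopologicalSpace W] (g : ℕ → V → W) (X0 : V) (w : W)
    (hc : ∀ x : ℕ → V, Tendsto x atTop (𝓝 X0) → Tendsto (fun k => g k (x k)) atTop (𝓝 w)) :
    Tendsto (fun p : ℕ × V => g p.1 p.2) (atTop ×ˢ 𝓝 X0) (𝓝 w) := by
  refine tendsto_of_subseq_tendsto fun ns hns => ?_
  have h1 : Tendsto (fun n => (ns n).1) atTop atTop := tendsto_fst.comp hns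
  have h2 : Tendsto (fun n => (ns n).2) atTop (𝓝 X0) := tendsto_snd.comp hns
  obtain ⟨φ, hφ, hφ2⟩ := strictMono_subseq_of_tendsto_atTop h1
  refine ⟨φ, ?_⟩
  set κ : ℕ → ℕ := (fun n => (ns n).1) ∘ φ with hκ
  set z : ℕ → V := Function.extend κ (fun n => (ns (φ n)).2) (fun _ => X0) with hz
  have hzt : Tendsto z atTop (𝓝 X0) := by
    rw [tendsto_def]
    intro U hU
    have h3 : ∀ᶠ n in atTop, (ns (φ n)).2 ∈ U := (h2.comp hφ.tendsto_atTop).eventually hU
    obtain ⟨N, hN⟩ := eventually_atTop.1 h3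
    rw [mem_atTop_sets]
    refine ⟨κ N, fun j hj => ?_⟩
    change z j ∈ U
    by_cases hex : ∃ n, κ n = j
    · obtain ⟨n, rfl⟩ := hex
      have : z (κ n) = (ns (φ n)).2 := hφ2.injective.extend_apply _ _ _
      rw [this]
      exact hN n (hφ2.le_iff_le.1 hj)
    · have : z j = X0 := Function.extend_apply' _ _ _ hex
      rw [this]
      exact mem_of_mem_nhds hU
  have h4 := (hc z hzt).comp hφ2.tendsto_atTop
  refine h4.congr fun n => ?_
  have : z (κ n) = (ns (φ n)).2 := hφ2.injective.extend_apply _ _ _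
  show g (κ n) (z (κ n)) = g (ns (φ n)).1 (ns (φ n)).2
  rw [this]
  rfl

theorem seq_inverse {V : Type} [NormedAddCommGroup V] [NormedSpace ℂ V] [CompleteSpace V]
    (Ψ : ℕ → V → V) (Ψ' : ℕ → V → (V →L[ℂ] V)) (X0 : V) (f' : V ≃L[ℂ] V) (y0 : V)
    {r : ℝ} (hr : 0 < r)
    (hd : ∀ᶠ k in atTop, ∀ x ∈ Metric.ball X0 r, HasFDerivAt (Ψ k) (Ψ' k x) x)
    (hc : ∀ x : ℕ → V, Tendsto x atTop (𝓝 X0) →
      Tendsto (fun k => Ψ' k (x k)) atTop (𝓝 (f' : V →L[ℂ] V)))
    (h0 : Tendsto (fun k => Ψ k X0) atTop (𝓝 y0)) (y : ℕ → V) (hy : Tendsto y atTop (𝓝 y0)) :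
    ∃ x : ℕ → V, Tendsto x atTop (𝓝 X0) ∧ ∀ᶠ k in atTop, Ψ k (x k) = y k := by
  rcases subsingleton_or_nontrivial V with hV | hV
  · exact ⟨fun _ => X0, tendsto_const_nhds, Eventually.of_forall fun k => Subsingleton.elim _ _⟩
  have hN : 0 < ‖(f'.symm : V →L[ℂ] V)‖ := f'.norm_symm_pos
  set c : ℝ := ‖(f'.symm : V →L[ℂ] V)‖⁻¹ / 2 with hcdef
  have hc0 : 0 < c := by positivity
  have hj := kinv_joint Ψ' X0 (f' : V →L[ℂ] V) hc
  have h1 : ∀ᶠ p : ℕ × V in atTop ×ˢ 𝓝 X0, ‖Ψ' p.1 p.2 - (f' : V →L[ℂ] V)‖ ≤ c := by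
    have := hj.eventually (Metric.closedBall_mem_nhds (f' : V →L[ℂ] V) hc0)
    filter_upwards [this] with p hp
    rwa [dist_eq_norm] at hp
  obtain ⟨S, hS, U, hU, hSU⟩ := mem_prod_iff.1 h1
  obtain ⟨δ0, hδ0, hδU⟩ := Metric.mem_nhds_iff.1 hU
  set δ : ℝ := min δ0 r with hδ
  have hδpos : 0 < δ := lt_min hδ0 hr
  -- the approximation
  have happ : ∀ᶠ k in atTop, ApproximatesLinearOn (Ψ k) (f' : V →L[ℂ] V) (Metric.ball X0 δ)
      ⟨c, hc0.le⟩ := by
    filter_upwards [hS, hd] with k hk hdk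
    intro x hx y hy
    exact (convex_ball X0 δ).norm_image_sub_le_of_norm_hasFDerivWithin_le'
      (fun z hz => (hdk z (Metric.ball_subset_ball (min_le_right _ _) hz)).hasFDerivWithinAt)
      (fun z hz => hSU (Set.mk_mem_prod hk (hδU (Metric.ball_subset_ball (min_le_left _ _) hz))))
      hy hx
  -- the radius
  set ε : ℕ → ℝ := fun k => ‖y k - Ψ k X0‖ / c with hε
  have hε0 : Tendsto ε atTop (𝓝 0) := by
    have h3 : Tendsto (fun k => ‖y k - Ψ k X0‖) atTop (𝓝 ‖y0 - y0‖) := (hy.sub h0).norm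
    rw [sub_self, norm_zero] at h3
    have h4 := h3.div_const c
    rwa [zero_div] at h4
  have hex : ∀ᶠ k in atTop, ∃ x ∈ Metric.closedBall X0 (ε k), Ψ k x = y k := by
    filter_upwards [happ, hε0.eventually (gt_mem_nhds hδpos)] with k hk hεk
    have hεn : 0 ≤ ε k := by positivity
    have hs := hk.surjOn_closedBall_of_nonlinearRightInverse f'.toNonlinearRightInverse hεn
      (Metric.closedBall_subset_ball hεk)
    have hmem : y k ∈ Metric.closedBall (Ψ k X0)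
        (((f'.toNonlinearRightInverse.nnnorm : ℝ)⁻¹ - ((⟨c, hc0.le⟩ : NNReal) : ℝ)) * ε k) := by
      rw [mem_closedBall_iff_norm]
      have e1 : ((f'.toNonlinearRightInverse.nnnorm : ℝ)⁻¹ - ((⟨c, hc0.le⟩ : NNReal) : ℝ)) = c := by
        show ‖(f'.symm : V →L[ℂ] V)‖⁻¹ - c = c
        rw [hcdef]; ring
      rw [e1, hε]
      simp only
      rw [mul_div_cancel₀ _ hc0.ne']
    obtain ⟨x, hx, hxy⟩ := hs hmem
    exact ⟨x, hx, hxy⟩
  classical
  refine ⟨fun k => if h : ∃ x ∈ Metric.closedBall X0 (ε k), Ψ k x = y k then h.choose else X0,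
    ?_, ?_⟩
  · rw [tendsto_iff_dist_tendsto_zero]
    refine squeeze_zero (fun _ => dist_nonneg) (fun k => ?_) hε0
    by_cases h : ∃ x ∈ Metric.closedBall X0 (ε k), Ψ k x = y k
    · rw [dif_pos h]
      exact Metric.mem_closedBall.1 h.choose_spec.1
    · rw [dif_neg h, dist_self]
      positivity
  · filter_upwards [hex] with k hk
    rw [dif_pos hk]
    exact hk.choose_spec.2

end Pool.Agent.CMT
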