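import Pool.Agent.CMT.KPer

/-!
# CMT-KLat: all quasi-periods are rational combinations of a nondegenerate system of quasi-periods
-/

set_option autoImplicit false

namespace Pool.Agent.CMT

open Finset MvPowerSeries Filter Topology

noncomputable section

variable {ι : Type} [Fintype ι] [DecidableEq ι]

theorem per_rat {J : Type} [Fintype J] [DecidableEq J] {f : (ι → ℂ) → ℂ}
    (h0 : ∃ z, f z ≠ 0) (w a : J → ι → ℂ) (β : J → ℂ)
    (hspan : ∀ z : ι → ℂ, ∃ x : J → ℝ, z = ∑ j, (x j : ℂ) • w j)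
    (hq : ∀ j, QPr f (w j) (a j) (β j)) (E : Matrix J J ℤ)
    (hE : ∀ i j, ∑ r, a i r * w j r - ∑ r, a j r * w i r = 2 * Real.pi * Complex.I * E i j)
    {μ aμ : ι → ℂ} {bμ : ℂ} (hμ : QPr f μ aμ bμ) :
    ∃ n : J → ℤ, (E.det : ℂ) • μ = ∑ j, (n j : ℂ) • w j := by
  obtain ⟨x, hx⟩ := hspan μ
  have hcom : ∀ i, ∃ n : ℤ, ∑ r, aμ r * w i r - ∑ r, a i r * μ r = 2 * Real.pi * Complex.I * n :=
    fun i => QPr.comm h0 hμ (hq i)
  choose n hn using hcom
  obtain ⟨c, hc⟩ : ∃ c : ι → ℂ, c = fun r => aμ r - ∑ j, (x j : ℂ) * a j r := ⟨_, rfl⟩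
  have hμr : ∀ r, μ r = ∑ j, (x j : ℂ) * w j r := by
    intro r
    rw [hx, Finset.sum_apply]
    rfl
  have hcw : ∀ i, ∑ r, c r * w i r =
      2 * Real.pi * Complex.I * ((n i : ℂ) - ∑ j, (x j : ℂ) * (E j i : ℂ)) := by
    intro i
    have e1 : ∑ r, c r * w i r = ∑ r, aμ r * w i r - ∑ j, (x j : ℂ) * ∑ r, a j r * w i r := by
      have e2 : ∑ j, (x j : ℂ) * ∑ r, a j r * w i r = ∑ r, (∑ j, (x j : ℂ) * a j r) * w i r := by
        simp only [Finset.mul_sum, Finset.sum_mul]
        rw [Finset.sum_comm]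
        refine Finset.sum_congr rfl fun r _ => Finset.sum_congr rfl fun j _ => ?_
        ring
      rw [e2, hc, ← Finset.sum_sub_distrib]
      refine Finset.sum_congr rfl fun r _ => ?_
      ring
    have e3 : ∑ r, a i r * μ r = ∑ j, (x j : ℂ) * ∑ r, a i r * w j r := by
      simp only [hμr, Finset.mul_sum]
      rw [Finset.sum_comm]
      refine Finset.sum_congr rfl fun j _ => Finset.sum_congr rfl fun r _ => ?_
      ring
    have e4 : ∑ j, (x j : ℂ) * ∑ r, a j r * w i r - ∑ j, (x j : ℂ) * ∑ r, a i r * w j r =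
        2 * Real.pi * Complex.I * ∑ j, (x j : ℂ) * (E j i : ℂ) := by
      rw [← Finset.sum_sub_distrib, Finset.mul_sum]
      refine Finset.sum_congr rfl fun j _ => ?_
      rw [← mul_sub, hE j i]
      ring
    have e5 := hn i
    rw [e3] at e5
    rw [e1, mul_sub, ← e4, ← e5]
    ring
  have hre : ∀ i, (∑ r, c r * w i r).re = 0 := by
    intro i
    rw [hcw i]
    have e6 : (2 * Real.pi * Complex.I * ((n i : ℂ) - ∑ j, (x j : ℂ) * (E j i : ℂ))) =
        ((2 * Real.pi * ((n i : ℝ) - ∑ j, x j * (E j i : ℝ)) : ℝ) : ℂ) * Complex.I := by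
      push_cast
      ring
    rw [e6]
    simp
  have hc0 : ∀ r, c r = 0 := by
    obtain ⟨y, hy⟩ := hspan (fun r => (starRingEnd ℂ) (c r))
    have f1 : ∑ r, c r * (starRingEnd ℂ) (c r) = ∑ j, (y j : ℂ) * ∑ r, c r * w j r := by
      have f2 : ∀ r, (starRingEnd ℂ) (c r) = ∑ j, (y j : ℂ) * w j r := by
        intro r
        have := congrFun hy r
        rw [Finset.sum_apply] at this
        exact this
      simp only [f2, Finset.mul_sum]
      rw [Finset.sum_comm]
      refine Finset.sum_congr rfl fun j _ => Finset.sum_congr rfl fun r _ => ?_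
      ring
    have f3 : (∑ r, c r * (starRingEnd ℂ) (c r)).re = 0 := by
      rw [f1, Complex.re_sum]
      refine Finset.sum_eq_zero fun j _ => ?_
      rw [Complex.re_ofReal_mul, hre j, mul_zero]
    have f4 : (∑ r, c r * (starRingEnd ℂ) (c r)).re = ∑ r, Complex.normSq (c r) := by
      rw [Complex.re_sum]
      refine Finset.sum_congr rfl fun r _ => ?_
      rw [Complex.mul_conj, Complex.ofReal_re]
    rw [f4] at f3
    intro r
    have f5 := (Finset.sum_eq_zero_iff_of_nonneg fun r _ => Complex.normSq_nonneg (c r)).1 f3 r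
      (Finset.mem_univ r)
    exact Complex.normSq_eq_zero.1 f5
  have hxE : ∀ i, ∑ j, (x j : ℂ) * (E j i : ℂ) = n i := by
    intro i
    have g1 := hcw i
    have g2 : ∑ r, c r * w i r = 0 := Finset.sum_eq_zero fun r _ => by rw [hc0 r, zero_mul]
    rw [g2] at g1
    have g3 : (2 * Real.pi * Complex.I : ℂ) ≠ 0 := Complex.two_pi_I_ne_zero
    have g4 := (mul_eq_zero.1 g1.symm).resolve_left g3
    exact (sub_eq_zero.1 g4).symm
  refine ⟨fun j => ∑ i, n i * E.adjugate i j, ?_⟩
  have key : ∀ j, ((∑ i, n i * E.adjugate i j : ℤ) : ℂ) = (E.det : ℂ) * x j := by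
    intro j
    rw [Int.cast_sum]
    simp only [Int.cast_mul]
    have k1 : ∀ k : J, ∑ i, (E k i : ℂ) * (E.adjugate i j : ℂ) = if k = j then (E.det : ℂ) else 0 := by
      intro k
      have k2 := congrFun (congrFun E.mul_adjugate k) j
      rw [Matrix.mul_apply, Matrix.smul_apply, Matrix.one_apply] at k2
      have k3 : ((∑ i, E k i * E.adjugate i j : ℤ) : ℂ) =
          ((E.det • (if k = j then (1 : ℤ) else 0) : ℤ) : ℂ) := by rw [k2]
      push_cast at k3
      rw [k3]
      split_ifs <;> simp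
    calc ∑ i, (n i : ℂ) * (E.adjugate i j : ℂ)
        = ∑ i, ∑ k, (x k : ℂ) * ((E k i : ℂ) * (E.adjugate i j : ℂ)) := by
          refine Finset.sum_congr rfl fun i _ => ?_
          rw [← hxE i, Finset.sum_mul]
          refine Finset.sum_congr rfl fun k _ => ?_
          ring
      _ = ∑ k, (x k : ℂ) * ∑ i, (E k i : ℂ) * (E.adjugate i j : ℂ) := by
          rw [Finset.sum_comm]
          refine Finset.sum_congr rfl fun k _ => ?_
          rw [Finset.mul_sum]
      _ = (E.det : ℂ) * x j := by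
          simp only [k1, mul_ite, mul_zero, Finset.sum_ite_eq', Finset.mem_univ, if_true]
          ring
  rw [hx, Finset.smul_sum]
  refine Finset.sum_congr rfl fun j _ => ?_
  rw [key j, smul_smul]

end

end Pool.Agent.CMT
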