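import Pool.Agent.CMT.KPer
import Pool.Agent.CMT.LCv
import Pool.Agent.CMT.Defs2

/-!
# CMT-KLim: limits of the linear parts, commutators and signs

PLAN. `a_tendsto`: choose `z` with `ev φ z ≠ 0` (`ev_inj`), then `ev φ (z + u) ≠ 0` (`QPr.ne_zero`). `per_dd`:
`a l = ev (dd (single l 1) φ) (z+u) / ev φ (z+u) - ev (dd (single l 1) φ) z / ev φ z`, the same for `φk k`, `w k` (large `k`); `Cv.dd`, `Cv.tendsto`.
`expb_tendsto`: `exp b = ev φ (z + u) / (ev φ z exp (∑ a z))`. `comm_eventually`: by `QPr.comm` the commutator of `(w k, w' k)` is `2 π i n_k`,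
it tends to `2 π i n`: integers, eventually equal. `even_sign`: `f (-z) = f z`, `f (z+u) = exp(az+b) f z` at `z` and at `-z-u`:
`f z = f(-z) = exp(a(-z-u)+b) f(-z-u) = exp(-az-au+b) f(z+u) = exp(2b - au) f z`. `sign_eventually`: the numbers
`exp (b - (∑ a u)/2)` are `±1` (`even_sign`) and converge.
-/

set_option autoImplicit false

namespace Pool.Agent.CMT

open Finset MvPowerSeries Filter Topology

noncomputable section

variable {ι : Type} [Fintype ι] [DecidableEq ι]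

private theorem klim_ne {φ : MvPowerSeries ι ℂ} (h : Ent φ) (h0 : φ ≠ 0) : ∃ z, ev φ z ≠ 0 := by
  by_contra hc
  push Not at hc
  exact h0 (eq_zero_of_ball h 0 one_pos fun y _ => hc y)

private theorem klim_a {φ : MvPowerSeries ι ℂ} (h : Ent φ) {u a : ι → ℂ} {b : ℂ}
    (hu : QPr (ev φ) u a b) {z : ι → ℂ} (hz : ev φ z ≠ 0) (l : ι) :
    a l = ev (dd (Finsupp.single l 1) φ) (z + u) / ev φ (z + u) -
      ev (dd (Finsupp.single l 1) φ) z / ev φ z := by
  have hE := Complex.exp_ne_zero (∑ i, a i * z i + b)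
  rw [per_dd h hu, hu z]
  field_simp
  ring

theorem a_tendsto {φk : ℕ → MvPowerSeries ι ℂ} {φ : MvPowerSeries ι ℂ} (hCv : Cv φk φ)
    (h0 : φ ≠ 0) {w ak : ℕ → ι → ℂ} {bk : ℕ → ℂ} {u a : ι → ℂ} {b : ℂ}
    (hw : Tendsto w atTop (𝓝 u)) (hq : ∀ᶠ k in atTop, QPr (ev (φk k)) (w k) (ak k) (bk k))
    (hu : QPr (ev φ) u a b) : Tendsto ak atTop (𝓝 a) := by
  have h : Ent φ := hCv.1
  obtain ⟨z, hz⟩ := klim_ne h h0
  have hzu : ev φ (z + u) ≠ 0 := hu.ne_zero hz
  have hzw : Tendsto (fun k => z + w k) atTop (𝓝 (z + u)) := tendsto_const_nhds.add hw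
  have hzc : Tendsto (fun _ : ℕ => z) atTop (𝓝 z) := tendsto_const_nhds
  have t1 := hCv.tendsto hzc
  have t2 := hCv.tendsto hzw
  rw [tendsto_pi_nhds]
  intro l
  have t3 := (hCv.dd (Finsupp.single l 1)).tendsto hzc
  have t4 := (hCv.dd (Finsupp.single l 1)).tendsto hzw
  have t5 := (t4.div t2 hzu).sub (t3.div t1 hz)
  rw [← klim_a h hu hz l] at t5
  refine t5.congr' ?_
  filter_upwards [hq, t1.eventually_ne hz] with k hk hk0
  exact (klim_a (hCv.2.1 k) hk hk0 l).symm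

theorem expb_tendsto {φk : ℕ → MvPowerSeries ι ℂ} {φ : MvPowerSeries ι ℂ} (hCv : Cv φk φ)
    (h0 : φ ≠ 0) {w ak : ℕ → ι → ℂ} {bk : ℕ → ℂ} {u a : ι → ℂ} {b : ℂ}
    (hw : Tendsto w atTop (𝓝 u)) (hq : ∀ᶠ k in atTop, QPr (ev (φk k)) (w k) (ak k) (bk k))
    (hu : QPr (ev φ) u a b) :
    Tendsto (fun k => Complex.exp (bk k)) atTop (𝓝 (Complex.exp b)) := by
  have h : Ent φ := hCv.1
  have ha := a_tendsto hCv h0 hw hq hu
  obtain ⟨z, hz⟩ := klim_ne h h0
  have hzw : Tendsto (fun k => z + w k) atTop (𝓝 (z + u)) := tendsto_const_nhds.add hw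
  have hzc : Tendsto (fun _ : ℕ => z) atTop (𝓝 z) := tendsto_const_nhds
  have t1 := hCv.tendsto hzc
  have t2 := hCv.tendsto hzw
  have t3 : Tendsto (fun k => ∑ i, ak k i * z i) atTop (𝓝 (∑ i, a i * z i)) := by
    refine tendsto_finsetSum _ fun i _ => ?_
    exact ((tendsto_pi_nhds.1 ha) i).mul_const _
  have t4 := (Complex.continuous_exp.tendsto (∑ i, a i * z i)).comp t3
  have key : ∀ {ψ : MvPowerSeries ι ℂ} {v c : ι → ℂ} {d : ℂ}, QPr (ev ψ) v c d → ev ψ z ≠ 0 →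
      Complex.exp d = ev ψ (z + v) / (ev ψ z * Complex.exp (∑ i, c i * z i)) := by
    intro ψ v c d hv hψ
    have hE := Complex.exp_ne_zero (∑ i, c i * z i)
    rw [hv z, Complex.exp_add]
    field_simp
  have t5 := t2.div (t1.mul t4) (mul_ne_zero hz (Complex.exp_ne_zero _))
  rw [← key hu hz] at t5
  refine t5.congr' ?_
  filter_upwards [hq, t1.eventually_ne hz] with k hk hk0
  exact (key hk hk0).symm

theorem comm_eventually {φk : ℕ → MvPowerSeries ι ℂ} {φ : MvPowerSeries ι ℂ} (hCv : Cv φk φ)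
    (h0 : φ ≠ 0) (h0k : ∀ᶠ k in atTop, φk k ≠ 0) {w ak w' ak' : ℕ → ι → ℂ} {bk bk' : ℕ → ℂ}
    {u a u' a' : ι → ℂ} {b b' : ℂ}
    (hw : Tendsto w atTop (𝓝 u)) (hq : ∀ᶠ k in atTop, QPr (ev (φk k)) (w k) (ak k) (bk k))
    (hu : QPr (ev φ) u a b)
    (hw' : Tendsto w' atTop (𝓝 u')) (hq' : ∀ᶠ k in atTop, QPr (ev (φk k)) (w' k) (ak' k) (bk' k))
    (hu' : QPr (ev φ) u' a' b') :
    ∀ᶠ k in atTop, ∑ i, ak k i * w' k i - ∑ i, ak' k i * w k i =
      ∑ i, a i * u' i - ∑ i, a' i * u i := by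
  have h : Ent φ := hCv.1
  have ha := a_tendsto hCv h0 hw hq hu
  have ha' := a_tendsto hCv h0 hw' hq' hu'
  have t1 : Tendsto (fun k => ∑ i, ak k i * w' k i - ∑ i, ak' k i * w k i) atTop
      (𝓝 (∑ i, a i * u' i - ∑ i, a' i * u i)) := by
    refine Tendsto.sub ?_ ?_
    · refine tendsto_finsetSum _ fun i _ => ?_
      exact ((tendsto_pi_nhds.1 ha) i).mul ((tendsto_pi_nhds.1 hw') i)
    · refine tendsto_finsetSum _ fun i _ => ?_
      exact ((tendsto_pi_nhds.1 ha') i).mul ((tendsto_pi_nhds.1 hw) i)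
  obtain ⟨n, hn⟩ := QPr.comm (klim_ne h h0) hu hu'
  have t2 := (Metric.tendsto_nhds.1 t1) 1 one_pos
  filter_upwards [hq, hq', h0k, t2] with k h1 h2 h3 h4
  obtain ⟨m, hm⟩ := QPr.comm (klim_ne (hCv.2.1 k) h3) h1 h2
  rw [dist_eq_norm, hm, hn, ← mul_sub, norm_mul, norm_mul, Complex.norm_I, mul_one,
    norm_mul, Complex.norm_real, Real.norm_eq_abs, abs_of_pos Real.pi_pos, Complex.norm_ofNat] at h4
  have h5 : ‖((m - n : ℤ) : ℂ)‖ < 1 := by
    push_cast
    have hpi := Real.pi_gt_three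
    have h6 : 0 ≤ ‖(m : ℂ) - n‖ := norm_nonneg _
    nlinarith
  rw [Complex.norm_intCast] at h5
  have h6 : |m - n| < 1 := by exact_mod_cast h5
  have h7 : m - n = 0 := Int.abs_lt_one_iff.1 h6
  rw [hm, hn, show m = n by omega]

/-- even functions: the sign of a quasi-period -/
theorem even_sign {f : (ι → ℂ) → ℂ} (he : ∀ z, f (-z) = f z) (h0 : ∃ z, f z ≠ 0)
    {u a : ι → ℂ} {b : ℂ} (h : QPr f u a b) :
    Complex.exp (b - (∑ i, a i * u i) / 2) = 1 ∨ Complex.exp (b - (∑ i, a i * u i) / 2) = -1 := by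
  obtain ⟨z, hz⟩ := h0
  have h1 := h z
  have h2 := h (-z - u)
  rw [sub_add_cancel, he z] at h2
  have e1 : -z - u = -(z + u) := by abel
  rw [e1, he, h1, ← mul_assoc, ← Complex.exp_add] at h2
  have h3 : Complex.exp (∑ i, a i * (-(z + u)) i + b + (∑ i, a i * z i + b)) = 1 := by
    have h4 : Complex.exp (∑ i, a i * (-(z + u)) i + b + (∑ i, a i * z i + b)) * f z = 1 * f z := by
      rw [one_mul]
      exact h2.symm
    exact mul_right_cancel₀ hz h4
  have h5 : ∑ i, a i * (-(z + u)) i + b + (∑ i, a i * z i + b) =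
      (b - (∑ i, a i * u i) / 2) + (b - (∑ i, a i * u i) / 2) := by
    have h6 : ∑ i, a i * (-(z + u)) i = -(∑ i, a i * z i) - ∑ i, a i * u i := by
      rw [← Finset.sum_neg_distrib, ← Finset.sum_sub_distrib]
      refine Finset.sum_congr rfl fun i _ => ?_
      rw [Pi.neg_apply, Pi.add_apply]
      ring
    rw [h6]
    ring
  rw [h5, Complex.exp_add, ← sq] at h3
  have h7 : (Complex.exp (b - (∑ i, a i * u i) / 2) - 1) *
      (Complex.exp (b - (∑ i, a i * u i) / 2) + 1) = 0 := by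
    linear_combination h3
  rcases mul_eq_zero.1 h7 with h8 | h8
  · exact Or.inl (sub_eq_zero.1 h8)
  · exact Or.inr (eq_neg_of_add_eq_zero_left h8)

theorem Ev1.even {φ : MvPowerSeries ι ℂ} (h : Ev1 φ) (z : ι → ℂ) : ev φ (-z) = ev φ z := by
  unfold ev
  refine tsum_congr fun n => ?_
  by_cases hn : Even (dg n)
  · congr 1
    unfold mo
    have h1 : ∀ i, (-z) i ^ n i = (-1) ^ n i * z i ^ n i := by
      intro i
      rw [Pi.neg_apply, neg_pow]
    rw [Finset.prod_congr rfl fun i _ => h1 i, Finset.prod_mul_distrib,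
      Finset.prod_pow_eq_pow_sum]
    have h2 : (∑ i, n i) = dg n := rfl
    rw [h2, hn.neg_one_pow, one_mul]
  · rw [h.2 n hn, zero_mul, zero_mul]

private theorem klim_ev1 {φ : MvPowerSeries ι ℂ} (h : Ev1 φ) : ev φ 0 ≠ 0 := by
  rw [ev_zero, h.1]
  exact one_ne_zero

theorem sign_eventually {φk : ℕ → MvPowerSeries ι ℂ} {φ : MvPowerSeries ι ℂ} (hCv : Cv φk φ)
    (h1 : Ev1 φ) (h1k : ∀ k, Ev1 (φk k)) {w ak : ℕ → ι → ℂ} {bk : ℕ → ℂ} {u a : ι → ℂ} {b : ℂ}
    (hw : Tendsto w atTop (𝓝 u)) (hq : ∀ᶠ k in atTop, QPr (ev (φk k)) (w k) (ak k) (bk k))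
    (hu : QPr (ev φ) u a b) :
    ∀ᶠ k in atTop, Complex.exp (bk k - (∑ i, ak k i * w k i) / 2) =
      Complex.exp (b - (∑ i, a i * u i) / 2) := by
  have h : Ent φ := hCv.1
  have h0 : φ ≠ 0 := by
    intro h2
    have h3 := h1.1
    rw [h2, map_zero] at h3
    exact zero_ne_one h3
  have ha := a_tendsto hCv h0 hw hq hu
  have hb := expb_tendsto hCv h0 hw hq hu
  have t1 : Tendsto (fun k => ∑ i, ak k i * w k i) atTop (𝓝 (∑ i, a i * u i)) := by
    refine tendsto_finsetSum _ fun i _ => ?_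
    exact ((tendsto_pi_nhds.1 ha) i).mul ((tendsto_pi_nhds.1 hw) i)
  have t2 := (Complex.continuous_exp.tendsto _).comp (t1.div_const 2)
  have t3 := hb.div t2 (Complex.exp_ne_zero _)
  rw [← Complex.exp_sub] at t3
  have t4 := (Metric.tendsto_nhds.1 t3) 1 one_pos
  filter_upwards [hq, t4] with k hk hk4
  have e1 : (Complex.exp ∘ fun k => (∑ i, ak k i * w k i) / 2) k =
      Complex.exp ((∑ i, ak k i * w k i) / 2) := rfl
  rw [Pi.div_apply, e1, ← Complex.exp_sub] at hk4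
  rcases even_sign (fun z => (h1k k).even z) ⟨0, klim_ev1 (h1k k)⟩ hk with s1 | s1 <;>
    rcases even_sign (fun z => h1.even z) ⟨0, klim_ev1 h1⟩ hu with s2 | s2 <;>
    rw [s1, s2] at hk4 ⊢
  · rw [dist_eq_norm] at hk4
    norm_num at hk4
  · rw [dist_eq_norm] at hk4
    norm_num at hk4

end

end Pool.Agent.CMT
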