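import Pool.Agent.CMT.KRel
import Pool.Agent.CMT.KPs
import Pool.Agent.CMT.KKey
import Pool.Agent.CMT.KPer
import Pool.Agent.CMT.KInv
import Pool.Agent.CMT.KRoot

/-!
# CMT-KPersist: quasi-periods persist along the sequence

PLAN. By `exists_common_ne` (LId) choose `X0` with `ev φ X0 ≠ 0`, `ev (det) X0 ≠ 0` (`Jac`, `ev_jac`) and, for every `(A, κ)`, `A ∈ S` (finitely
many), `ev (homD ..) X0 ≠ 0` for the relation `RelSeq I A κ φk φk 1 φ φ 1`. `Ψ k z := fun i => ps (I i).1 (I i).2 (φk k) z`, derivative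
`Ψ' k z w := fun i => ∑ l, ev (DN (I i).1 (I i).2 l (φk k)) z / ev (φk k) z ^ 5 * w l` (`hasFDerivAt_ps`, `ne_near` gives the ball), its limit is
the invertible `f'` (matrix with determinant `det / f^(5n)`), `dps_tendsto` gives the hypothesis `hc` of `seq_inverse` (convergence of all
matrix entries). `y k := Ψ k (X0 + u)` tends to `Ψ (X0 + u) = Ψ X0` (`ps_tendsto`, `per_ps`, `QPr.ne_zero`). `seq_inverse`:
`x k → X0`, `Ψ k (x k) = Ψ k (X0 + u)` eventually. `w k := X0 + u - x k → u`. For every `(A, κ)`: `z_k := ps A κ (φk k) (x k)` and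
`z'_k := ps A κ (φk k) (X0 + u)` both tend to `ps A κ φ X0`, satisfy the relation (`rel_at`, `α = 1`: `fun i => 1 * z i`), `relD_at` at `X0`:
`root_uniq` gives `z_k = z'_k` eventually. Finitely many `(A, κ)`. `key` with `P1 = X0 + u`, `P2 = x k`.
-/

set_option autoImplicit false

namespace Pool.Agent.CMT

open Finset MvPowerSeries Filter Topology

noncomputable section

variable {ι : Type} [Fintype ι] [DecidableEq ι]

private def kpersist_G : (ι → ι → ℂ) →ₗ[ℂ] ((ι → ℂ) →L[ℂ] (ι → ℂ)) where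
  toFun c := ContinuousLinearMap.pi fun i => ∑ l, c i l •
    (ContinuousLinearMap.proj l : (ι → ℂ) →L[ℂ] ℂ)
  map_add' c c' := by
    ext w i
    simp [add_mul, Finset.sum_add_distrib]
  map_smul' a c := by
    ext w i
    simp [mul_assoc, Finset.mul_sum]

private theorem kpersist_G_apply (c : ι → ι → ℂ) (w : ι → ℂ) (i : ι) :
    kpersist_G c w i = ∑ l, c i l * w l := by
  simp [kpersist_G]

private theorem kpersist_equiv (c : ι → ι → ℂ) (hc : (Matrix.of c).det ≠ 0) :
    ∃ f : (ι → ℂ) ≃L[ℂ] (ι → ℂ), (f : (ι → ℂ) →L[ℂ] (ι → ℂ)) = kpersist_G c := by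
  have hinj : Function.Injective ((kpersist_G c : (ι → ℂ) →L[ℂ] (ι → ℂ)) : (ι → ℂ) →ₗ[ℂ] (ι → ℂ)) := by
    rw [injective_iff_map_eq_zero]
    intro w hw
    refine Matrix.eq_zero_of_mulVec_eq_zero hc ?_
    funext i
    have := congrFun hw i
    simpa [kpersist_G_apply, Matrix.mulVec, dotProduct] using this
  refine ⟨(LinearEquiv.ofInjectiveEndo _ hinj).toContinuousLinearEquiv, ?_⟩
  ext w i
  rfl

theorem persist {φk : ℕ → MvPowerSeries ι ℂ} {φ : MvPowerSeries ι ℂ} (hCv : Cv φk φ)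
    (h0 : φ ≠ 0) {S : Finset (ι →₀ ℕ)} {γk : ℕ → (ι →₀ ℕ) → (ι →₀ ℕ) → ℂ}
    (hP : ∀ k, PP S (γk k) (φk k)) {I : ι → (ι →₀ ℕ) × Option ι} (hJ : Jac I φ)
    (hrel : ∀ A ∈ S, ∀ κ : Option ι,
      RelSeq I A κ φk φk (fun _ _ => 1) φ φ (fun _ => 1))
    {u a : ι → ℂ} {b : ℂ} (hu : QPr (ev φ) u a b) :
    ∃ w : ℕ → ι → ℂ, Tendsto w atTop (𝓝 u) ∧
      ∀ᶠ k in atTop, ∃ a' b', QPr (ev (φk k)) (w k) a' b' := by
  have hE : Ent φ := hCv.1
  have hEk : ∀ k, Ent (φk k) := hCv.2.1
  choose! Ms M rk r hM hr hz hD using hrel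
  -- the common point
  let F : Option (Option ((ι →₀ ℕ) × Option ι)) → MvPowerSeries ι ℂ := fun o =>
    match o with
    | none => φ
    | some none => (Matrix.of fun i k : ι => DN (I i).1 (I i).2 k φ).det
    | some (some p) => homD (Ms p.1 p.2) (M p.1 p.2) (r p.1 p.2)
        (GG I p.1 p.2 (fun _ => 1) φ φ) (FF (fun _ => 1) φ φ)
  let s : Finset (Option (Option ((ι →₀ ℕ) × Option ι))) :=
    insert none (insert (some none) ((S ×ˢ Finset.univ).image fun p => some (some p)))
  have hsE : ∀ k ∈ s, Ent (F k) := by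
    intro k hk
    match k with
    | none => exact hE
    | some none => exact (ev_jac hE 0).1
    | some (some p) => exact Ent.homD hE hE _ _ _
  have hs0 : ∀ k ∈ s, F k ≠ 0 := by
    intro k hk
    match k with
    | none => exact h0
    | some none => exact hJ
    | some (some p) =>
      have hp : p.1 ∈ S := by
        simpa [s] using hk
      exact hD p.1 hp p.2
  obtain ⟨X0, -, hX⟩ := exists_common_ne s hsE hs0 0 one_pos
  have hX1 : ev φ X0 ≠ 0 := hX none (by simp [s])
  have hX2 : (Matrix.of fun i k : ι => ev (DN (I i).1 (I i).2 k φ) X0).det ≠ 0 := by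
    have := hX (some none) (by simp [s])
    rwa [show F (some none) = (Matrix.of fun i k : ι => DN (I i).1 (I i).2 k φ).det from rfl,
      (ev_jac hE X0).2] at this
  have hX3 : ∀ A ∈ S, ∀ κ : Option ι, ev (homD (Ms A κ) (M A κ) (r A κ)
      (GG I A κ (fun _ => 1) φ φ) (FF (fun _ => 1) φ φ)) X0 ≠ 0 := by
    intro A hA κ
    exact hX (some (some (A, κ))) (by simp [s, hA])
  have hXu : ev φ (X0 + u) ≠ 0 := hu.ne_zero hX1
  -- the maps
  let c : ℕ → (ι → ℂ) → ι → ι → ℂ := fun k z i l =>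
    ev (DN (I i).1 (I i).2 l (φk k)) z / ev (φk k) z ^ 5
  let c0 : ι → ι → ℂ := fun i l => ev (DN (I i).1 (I i).2 l φ) X0 / ev φ X0 ^ 5
  have hc0 : (Matrix.of c0).det ≠ 0 := by
    have : Matrix.of c0 = (ev φ X0 ^ 5)⁻¹ •
        (Matrix.of fun i k : ι => ev (DN (I i).1 (I i).2 k φ) X0) := by
      ext i l
      simp [c0, div_eq_inv_mul]
    rw [this, Matrix.det_smul]
    exact mul_ne_zero (pow_ne_zero _ (inv_ne_zero (pow_ne_zero _ hX1))) hX2
  obtain ⟨f', hf'⟩ := kpersist_equiv c0 hc0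
  have hGc : Continuous (kpersist_G (ι := ι)) := LinearMap.continuous_of_finiteDimensional _
  let Ψ : ℕ → (ι → ℂ) → (ι → ℂ) := fun k z i => ps (I i).1 (I i).2 (φk k) z
  obtain ⟨ρ, hρ, hne⟩ := ne_near hCv hX1
  have htX : Tendsto (fun _ : ℕ => X0) atTop (𝓝 X0) := tendsto_const_nhds
  have htXu : Tendsto (fun _ : ℕ => X0 + u) atTop (𝓝 (X0 + u)) := tendsto_const_nhds
  obtain ⟨x, hx, hxy⟩ := seq_inverse Ψ (fun k z => kpersist_G (c k z)) X0 f'
    (fun i => ps (I i).1 (I i).2 φ X0) hρ (by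
      filter_upwards [hne] with k hk z hz
      rw [hasFDerivAt_pi']
      intro i
      have := hasFDerivAt_ps (hEk k) (I i).1 (I i).2 (hk z hz)
      refine this.congr_fderiv ?_
      ext w
      simp [kpersist_G, c])
    (by
      intro x hx
      rw [hf']
      refine (hGc.tendsto c0).comp ?_
      rw [tendsto_pi_nhds]
      intro i
      rw [tendsto_pi_nhds]
      intro l
      exact dps_tendsto hCv (I i).1 (I i).2 l hx hX1)
    (by
      rw [tendsto_pi_nhds]
      intro i
      exact ps_tendsto hCv _ _ htX hX1)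
    (fun k => Ψ k (X0 + u))
    (by
      rw [tendsto_pi_nhds]
      intro i
      have := ps_tendsto hCv (I i).1 (I i).2 htXu hXu
      rwa [per_ps hE hu] at this)
  refine ⟨fun k => X0 + u - x k, ?_, ?_⟩
  · have := htXu.sub hx
    simpa using this
  · have hxne : ∀ᶠ k in atTop, ev (φk k) (x k) ≠ 0 := (hCv.tendsto hx).eventually_ne hX1
    have hune : ∀ᶠ k in atTop, ev (φk k) (X0 + u) ≠ 0 := (hCv.tendsto htXu).eventually_ne hXu
    have hone : ∀ z : ι → ℂ, (fun i => (1 : ℂ) * z i) = z := fun z => by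
      funext i
      rw [one_mul]
    have hall : ∀ A ∈ S, ∀ κ : Option ι, ∀ᶠ k in atTop,
        ps A κ (φk k) (x k) = ps A κ (φk k) (X0 + u) := by
      intro A hA κ
      have hlim' : Tendsto (fun k => ps A κ (φk k) (X0 + u)) atTop (𝓝 (ps A κ φ X0)) := by
        have := ps_tendsto hCv A κ htXu hXu
        rwa [per_ps hE hu] at this
      refine root_uniq (Ms A κ) (rk A κ) (r A κ) (hr A hA κ)
        (fun k i => ps (I i).1 (I i).2 (φk k) (x k)) (fun i => ps (I i).1 (I i).2 φ X0)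
        (fun i => ps_tendsto hCv _ _ hx hX1) _ _ (ps A κ φ X0)
        (ps_tendsto hCv A κ hx hX1) hlim' ?_ ?_ ?_
      · filter_upwards [hxne] with k hk
        have := rel_at (hEk k) (hEk k) (hM A hA κ) (hz A hA κ k) hk (by rwa [hone])
        rwa [hone] at this
      · filter_upwards [hune, hxy] with k hk hk'
        have := rel_at (hEk k) (hEk k) (hM A hA κ) (hz A hA κ k) hk (by rwa [hone])
        rw [hone] at this
        have h2 : ∀ i, ps (I i).1 (I i).2 (φk k) (x k) = ps (I i).1 (I i).2 (φk k) (X0 + u) :=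
          fun i => congrFun hk' i
        simp only [h2]
        exact this
      · have := relD_at hE hE (hM A hA κ) (hX3 A hA κ) hX1 (by rwa [hone])
        rwa [hone] at this
    have hall' : ∀ᶠ k in atTop, ∀ A ∈ S, ∀ κ : Option ι,
        ps A κ (φk k) (X0 + u) = ps A κ (φk k) (x k) := by
      rw [Filter.eventually_all_finset]
      intro A hA
      rw [Filter.eventually_all]
      intro κ
      filter_upwards [hall A hA κ] with k hk
      exact hk.symm
    filter_upwards [hall', hxne, hune] with k h1 h2 h3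
    exact key (hEk k) (hP k) h3 h2 h1

end

end Pool.Agent.CMT
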