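import Pool.Agent.CMT.LDer
import Pool.Agent.CMT.Defs2

/-!
# CMT-KRel: values of the relations

PLAN. `rel_at`: `ev_hom` with `ev (GG .. (some i)) z = ev (NN ..) z * ev φ' (α z)^4 = ps .. * F`, `F = ev (FF ..) z = (ev φ z)^4 (ev φ' (α z))^4 ≠ 0`
(`ev_sc`, `ev_mul`, `ev_pow`), `ev (GG .. none) z = ps A κ φ' (α z) * F`. So `ev (hom ..) z = F^M * ∑ ..` (`dg m = m none + ∑ m (some i)`,
`dg m ≤ M`). `relD_at`: the same; terms with `m none = 0` vanish, for the others the total power of `F` is `M - 1`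
(`∑ m (some i) + (m none - 1) + (M - dg m) = M - 1`); if the sum were `0` then `ev (homD ..) z = 0`.
-/

set_option autoImplicit false

namespace Pool.Agent.CMT

open Finset MvPowerSeries Filter Topology

noncomputable section

variable {ι : Type} [Fintype ι] [DecidableEq ι]

theorem rel_at {I : ι → (ι →₀ ℕ) × Option ι} {A : ι →₀ ℕ} {κ : Option ι} {α : ι → ℂ}
    {φ φ' : MvPowerSeries ι ℂ} (h : Ent φ) (h' : Ent φ') {Ms : Finset (Option ι →₀ ℕ)} {M : ℕ}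
    {r : (Option ι →₀ ℕ) → ℂ} (hM : ∀ m ∈ Ms, dg m ≤ M)
    (h0 : hom Ms M r (GG I A κ α φ φ') (FF α φ φ') = 0) {z : ι → ℂ} (hz : ev φ z ≠ 0)
    (hz' : ev φ' (fun i => α i * z i) ≠ 0) :
    ∑ m ∈ Ms, r m * (∏ i, ps (I i).1 (I i).2 φ z ^ m (some i)) *
      ps A κ φ' (fun i => α i * z i) ^ m none = 0 := by
  sorry

theorem relD_at {I : ι → (ι →₀ ℕ) × Option ι} {A : ι →₀ ℕ} {κ : Option ι} {α : ι → ℂ}
    {φ φ' : MvPowerSeries ι ℂ} (h : Ent φ) (h' : Ent φ') {Ms : Finset (Option ι →₀ ℕ)} {M : ℕ}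
    {r : (Option ι →₀ ℕ) → ℂ} (hM : ∀ m ∈ Ms, dg m ≤ M) {z : ι → ℂ}
    (h0 : ev (homD Ms M r (GG I A κ α φ φ') (FF α φ φ')) z ≠ 0) (hz : ev φ z ≠ 0)
    (hz' : ev φ' (fun i => α i * z i) ≠ 0) :
    ∑ m ∈ Ms, (m none : ℂ) * r m * (∏ i, ps (I i).1 (I i).2 φ z ^ m (some i)) *
      ps A κ φ' (fun i => α i * z i) ^ (m none - 1) ≠ 0 := by
  sorry

theorem Ent.homD {I : ι → (ι →₀ ℕ) × Option ι} {A : ι →₀ ℕ} {κ : Option ι} {α : ι → ℂ}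
    {φ φ' : MvPowerSeries ι ℂ} (h : Ent φ) (h' : Ent φ') (Ms : Finset (Option ι →₀ ℕ)) (M : ℕ)
    (r : (Option ι →₀ ℕ) → ℂ) : Ent (homD Ms M r (GG I A κ α φ φ') (FF α φ φ')) := by
  sorry

end

end Pool.Agent.CMT
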