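import Pool.Agent.CMT.LShift

/-!
# CMT-LHir: `f(x+y) f(x-y) = ∑ w_A(x) y^A`

PLAN. `hasSum_shift` for `y` and for `-y` (`mo (-y) A = (-1)^|A| mo y A`), Cauchy product over
`antidiagonal` (`tsum_mul_tsum_eq_tsum_sum_antidiagonal_of_summable_norm`, `summable_shift`), `ev_mul`, `ev_sum` for
`hw`. `PP_ev`: replace `hw B φ` by the finite sum (`PP`), exchange the finite sums with the series:
`∑_B mo y B * coeff B (hw A' φ) = ev (hw A' φ) y`. `PP_dup`: the case `y = x`.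
-/

set_option autoImplicit false

namespace Pool.Agent.CMT

open Finset MvPowerSeries

noncomputable section

variable {ι : Type} [Fintype ι] [DecidableEq ι]

omit [DecidableEq ι] in
private theorem lhir_mo_neg (y : ι → ℂ) (A : ι →₀ ℕ) : mo (-y) A = (-1) ^ dg A * mo y A := by
  unfold mo dg
  rw [← Finset.prod_pow_eq_pow_sum, ← Finset.prod_mul_distrib]
  refine Finset.prod_congr rfl fun i _ => ?_
  rw [Pi.neg_apply, neg_pow]

private theorem lhir_ev_one (x : ι → ℂ) : ev (1 : MvPowerSeries ι ℂ) x = 1 := by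
  have h := ev_C (ι := ι) 1 x
  rwa [map_one] at h

private theorem lhir_ev_term {φ : MvPowerSeries ι ℂ} (h : Ent φ) (x : ι → ℂ) (p : (ι →₀ ℕ) × (ι →₀ ℕ)) :
    ev ((-1 : MvPowerSeries ι ℂ) ^ dg p.2 * (dd p.1 φ * dd p.2 φ)) x = (-1) ^ dg p.2 * (ev (dd p.1 φ) x * ev (dd p.2 φ) x) := by
  have h1 : Ent (-1 : MvPowerSeries ι ℂ) := Ent.one.neg
  rw [ev_mul (h1.pow _) ((h.dd p.1).mul (h.dd p.2)), ev_mul (h.dd p.1) (h.dd p.2), ev_pow h1,
    ev_neg, lhir_ev_one]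


private theorem lhir_ev_hw {φ : MvPowerSeries ι ℂ} (h : Ent φ) (x : ι → ℂ) (A : ι →₀ ℕ) :
    ev (hw A φ) x = ∑ p ∈ antidiagonal A, (-1 : ℂ) ^ dg p.2 * (ev (dd p.1 φ) x * ev (dd p.2 φ) x) := by
  have h1 : Ent (-1 : MvPowerSeries ι ℂ) := Ent.one.neg
  have h2 : ∀ p ∈ antidiagonal A, Ent ((-1 : MvPowerSeries ι ℂ) ^ dg p.2 * (dd p.1 φ * dd p.2 φ)) :=
    fun p _ => (h1.pow _).mul ((h.dd p.1).mul (h.dd p.2))
  have h3 := ev_sum (antidiagonal A) h2 x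
  refine Eq.trans h3 ?_
  exact Finset.sum_congr rfl fun p _ => lhir_ev_term h x p

theorem hasSum_hw {φ : MvPowerSeries ι ℂ} (h : Ent φ) (x y : ι → ℂ) :
    HasSum (fun A : ι →₀ ℕ => ev (hw A φ) x * mo y A) (ev φ (x + y) * ev φ (x - y)) := by
  obtain ⟨f, hfd⟩ : ∃ f : (ι →₀ ℕ) → ℂ, f = fun A => ev (dd A φ) x * mo y A := ⟨_, rfl⟩
  obtain ⟨g, hgd⟩ : ∃ g : (ι →₀ ℕ) → ℂ, g = fun A => ev (dd A φ) x * mo (-y) A := ⟨_, rfl⟩
  have hf : Summable fun A => ‖f A‖ := by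
    rw [hfd]; exact summable_shift h x y
  have hg : Summable fun A => ‖g A‖ := by
    rw [hgd]; exact summable_shift h x (-y)
  have hf1 : ∑' A, f A = ev φ (x + y) := by
    rw [hfd]; exact (hasSum_shift h x y).tsum_eq
  have hg1 : ∑' A, g A = ev φ (x - y) := by
    rw [hgd, sub_eq_add_neg]; exact (hasSum_shift h x (-y)).tsum_eq
  have e2 : ∀ A : ι →₀ ℕ, ev (hw A φ) x * mo y A = ∑ p ∈ antidiagonal A, f p.1 * g p.2 := by
    intro A
    rw [lhir_ev_hw h, Finset.sum_mul]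
    refine Finset.sum_congr rfl fun p hp => ?_
    rw [hfd, hgd]
    show _ = (ev (dd p.1 φ) x * mo y p.1) * (ev (dd p.2 φ) x * mo (-y) p.2)
    rw [lhir_mo_neg, ← mem_antidiagonal.1 hp, mo_add]
    ring
  have hfg : Summable fun p : (ι →₀ ℕ) × (ι →₀ ℕ) => f p.1 * g p.2 :=
    summable_mul_of_summable_norm hf hg
  have e1 := hf.of_norm.tsum_mul_tsum_eq_tsum_sum_antidiagonal hg.of_norm hfg
  have hs := (summable_sum_mul_antidiagonal_of_summable_mul hfg).hasSum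
  rw [← e1, hf1, hg1] at hs
  exact hs.congr_fun e2

/-- identity (P) for the functions -/
theorem PP_ev {φ : MvPowerSeries ι ℂ} (h : Ent φ) {S : Finset (ι →₀ ℕ)}
    {γ : (ι →₀ ℕ) → (ι →₀ ℕ) → ℂ} (hP : PP S γ φ) (x y : ι → ℂ) :
    ev φ (x + y) * ev φ (x - y) =
      ∑ A ∈ S, ∑ A' ∈ S, γ A A' * (ev (hw A φ) x * ev (hw A' φ) y) := by
  refine (hasSum_hw h x y).unique ?_
  have h1 : ∀ A', HasSum (fun B : ι →₀ ℕ => coeff B (hw A' φ) * mo y B) (ev (hw A' φ) y) :=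
    fun A' => ((h.hw A').summable y).of_norm.hasSum
  have h2 : HasSum (fun B : ι →₀ ℕ => ∑ A ∈ S, ∑ A' ∈ S,
      γ A A' * (ev (hw A φ) x * (coeff B (hw A' φ) * mo y B)))
      (∑ A ∈ S, ∑ A' ∈ S, γ A A' * (ev (hw A φ) x * ev (hw A' φ) y)) :=
    hasSum_sum fun A _ => hasSum_sum fun A' _ => ((h1 A').mul_left _).mul_left _
  refine h2.congr_fun fun B => ?_
  have e3 := congrArg (fun ψ : MvPowerSeries ι ℂ => ev ψ x) (hP B)
  have hE : ∀ A ∈ S, Ent (C (∑ A' ∈ S, γ A A' * coeff B (hw A' φ)) * hw A φ) :=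
    fun A _ => (Ent.C _).mul (h.hw A)
  have e4 := ev_sum S hE x
  have e5 : ev (hw B φ) x = ∑ A ∈ S, ev (C (∑ A' ∈ S, γ A A' * coeff B (hw A' φ)) * hw A φ) x :=
    e3.trans e4
  rw [e5, Finset.sum_mul]
  refine Finset.sum_congr rfl fun A _ => ?_
  rw [ev_mul (Ent.C _) (h.hw A), ev_C, Finset.sum_mul, Finset.sum_mul]
  refine Finset.sum_congr rfl fun A' _ => ?_
  ring

end
end Pool.Agent.CMT
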