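import Pool.Agent.CMT.Defs

/-!
# CMT-LMul: `Ent` is a ring and `ev` is a ring homomorphism on it
-/

set_option autoImplicit false

namespace Pool.Agent.CMT

open Finset MvPowerSeries

noncomputable section

variable {ι : Type} [Fintype ι] [DecidableEq ι]

theorem mo_add (z : ι → ℂ) (p q : ι →₀ ℕ) : mo z (p + q) = mo z p * mo z q := by
  unfold mo
  rw [← Finset.prod_mul_distrib]
  refine Finset.prod_congr rfl fun i _ => ?_
  rw [Finsupp.add_apply, pow_add]

omit [DecidableEq ι] in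
theorem dg_add (p q : ι →₀ ℕ) : dg (p + q) = dg p + dg q := by
  unfold dg
  rw [← Finset.sum_add_distrib]
  rfl

theorem norm_mo_le (z : ι → ℂ) {r : ℝ} (hz : ∀ i, ‖z i‖ ≤ r) (n : ι →₀ ℕ) :
    ‖mo z n‖ ≤ r ^ dg n := by
  unfold mo dg
  rw [norm_prod, ← Finset.prod_pow_eq_pow_sum]
  refine Finset.prod_le_prod (fun i _ => norm_nonneg _) fun i _ => ?_
  rw [norm_pow]
  exact pow_le_pow_left₀ (norm_nonneg _) (hz i) _

/-- absolute convergence -/
theorem Ent.summable {φ : MvPowerSeries ι ℂ} (h : Ent φ) (z : ι → ℂ) :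
    Summable (fun n : ι →₀ ℕ => ‖coeff n φ * mo z n‖) := by
  have hz : ∀ i, ‖z i‖ ≤ ∑ i, ‖z i‖ := fun i =>
    Finset.single_le_sum (f := fun i => ‖z i‖) (fun i _ => norm_nonneg _) (Finset.mem_univ i)
  refine Summable.of_nonneg_of_le (fun n => norm_nonneg _) (fun n => ?_)
    (h (∑ i, ‖z i‖) (Finset.sum_nonneg fun i _ => norm_nonneg _))
  rw [norm_mul]
  exact mul_le_mul_of_nonneg_left (norm_mo_le z hz n) (norm_nonneg _)

theorem Ent.C (c : ℂ) : Ent (MvPowerSeries.C c : MvPowerSeries ι ℂ) := by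
  intro r _
  refine summable_of_ne_finset_zero (s := {0}) fun n hn => ?_
  rw [Finset.mem_singleton] at hn
  rw [MvPowerSeries.coeff_C, if_neg hn, norm_zero, zero_mul]

theorem Ent.one : Ent (1 : MvPowerSeries ι ℂ) := by
  have h := Ent.C (ι := ι) 1
  rwa [map_one] at h

theorem Ent.zero : Ent (0 : MvPowerSeries ι ℂ) := by
  have h := Ent.C (ι := ι) 0
  rwa [map_zero] at h

theorem Ent.add {φ ψ : MvPowerSeries ι ℂ} (h : Ent φ) (h' : Ent ψ) : Ent (φ + ψ) := by
  intro r hr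
  refine Summable.of_nonneg_of_le (fun n => by positivity) (fun n => ?_) ((h r hr).add (h' r hr))
  rw [map_add, ← add_mul]
  exact mul_le_mul_of_nonneg_right (norm_add_le _ _) (by positivity)

theorem Ent.neg {φ : MvPowerSeries ι ℂ} (h : Ent φ) : Ent (-φ) := by
  intro r hr
  refine (h r hr).congr fun n => ?_
  rw [map_neg, norm_neg]

theorem Ent.sub {φ ψ : MvPowerSeries ι ℂ} (h : Ent φ) (h' : Ent ψ) : Ent (φ - ψ) := by
  rw [sub_eq_add_neg]
  exact h.add h'.neg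

theorem lmul_le (φ ψ : MvPowerSeries ι ℂ) {r : ℝ} (hr : 0 ≤ r) (n : ι →₀ ℕ) :
    ‖coeff n (φ * ψ)‖ * r ^ dg n ≤ ∑ p ∈ antidiagonal n,
      (‖coeff p.1 φ‖ * r ^ dg p.1) * (‖coeff p.2 ψ‖ * r ^ dg p.2) := by
  rw [MvPowerSeries.coeff_mul]
  calc ‖∑ p ∈ antidiagonal n, coeff p.1 φ * coeff p.2 ψ‖ * r ^ dg n
      ≤ (∑ p ∈ antidiagonal n, ‖coeff p.1 φ * coeff p.2 ψ‖) * r ^ dg n :=
        mul_le_mul_of_nonneg_right (norm_sum_le _ _) (by positivity)
    _ = ∑ p ∈ antidiagonal n, (‖coeff p.1 φ‖ * r ^ dg p.1) * (‖coeff p.2 ψ‖ * r ^ dg p.2) := by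
        rw [Finset.sum_mul]
        refine Finset.sum_congr rfl fun p hp => ?_
        rw [HasAntidiagonal.mem_antidiagonal] at hp
        rw [← hp, dg_add, pow_add, norm_mul]
        ring

theorem Ent.mul {φ ψ : MvPowerSeries ι ℂ} (h : Ent φ) (h' : Ent ψ) : Ent (φ * ψ) := by
  intro r hr
  have h1 := summable_sum_mul_antidiagonal_of_summable_mul
    (Summable.mul_of_nonneg (h r hr) (h' r hr) (fun n => by simp only [Pi.zero_apply]; positivity)
      (fun n => by simp only [Pi.zero_apply]; positivity))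
  exact Summable.of_nonneg_of_le (fun n => by positivity) (fun n => lmul_le φ ψ hr n) h1

theorem Ent.pow {φ : MvPowerSeries ι ℂ} (h : Ent φ) (k : ℕ) : Ent (φ ^ k) := by
  induction k with
  | zero =>
    rw [pow_zero]
    exact Ent.one
  | succ k ih =>
    rw [pow_succ]
    exact ih.mul h

theorem Ent.sum {κ : Type} (s : Finset κ) {φ : κ → MvPowerSeries ι ℂ} (h : ∀ k ∈ s, Ent (φ k)) :
    Ent (∑ k ∈ s, φ k) := by
  classical
  induction s using Finset.induction_on with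
  | empty =>
    rw [Finset.sum_empty]
    exact Ent.zero
  | insert a s ha ih =>
    rw [Finset.sum_insert ha]
    exact (h a (Finset.mem_insert_self a s)).add
      (ih fun k hk => h k (Finset.mem_insert_of_mem hk))

theorem Ent.prod {κ : Type} (s : Finset κ) {φ : κ → MvPowerSeries ι ℂ} (h : ∀ k ∈ s, Ent (φ k)) :
    Ent (∏ k ∈ s, φ k) := by
  classical
  induction s using Finset.induction_on with
  | empty =>
    rw [Finset.prod_empty]
    exact Ent.one
  | insert a s ha ih =>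
    rw [Finset.prod_insert ha]
    exact (h a (Finset.mem_insert_self a s)).mul
      (ih fun k hk => h k (Finset.mem_insert_of_mem hk))

theorem ev_C (c : ℂ) (z : ι → ℂ) : ev (MvPowerSeries.C c : MvPowerSeries ι ℂ) z = c := by
  unfold ev
  rw [tsum_eq_single 0]
  · rw [MvPowerSeries.coeff_C, if_pos rfl]
    simp [mo]
  · intro n hn
    rw [MvPowerSeries.coeff_C, if_neg hn, zero_mul]

theorem ev_zero (φ : MvPowerSeries ι ℂ) : ev φ 0 = coeff 0 φ := by
  unfold ev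
  rw [tsum_eq_single 0]
  · simp [mo]
  · intro n hn
    have h1 : ∃ i, n i ≠ 0 := by
      by_contra hcon
      push Not at hcon
      exact hn (Finsupp.ext hcon)
    obtain ⟨i, hi⟩ := h1
    have h2 : mo (0 : ι → ℂ) n = 0 := by
      unfold mo
      refine Finset.prod_eq_zero (Finset.mem_univ i) ?_
      rw [Pi.zero_apply, zero_pow hi]
    rw [h2, mul_zero]

theorem ev_add {φ ψ : MvPowerSeries ι ℂ} (h : Ent φ) (h' : Ent ψ) (z : ι → ℂ) :
    ev (φ + ψ) z = ev φ z + ev ψ z := by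
  unfold ev
  rw [← (h.summable z).of_norm.tsum_add (h'.summable z).of_norm]
  refine tsum_congr fun n => ?_
  rw [map_add, add_mul]

theorem ev_neg (φ : MvPowerSeries ι ℂ) (z : ι → ℂ) : ev (-φ) z = -ev φ z := by
  unfold ev
  rw [← tsum_neg]
  refine tsum_congr fun n => ?_
  rw [map_neg, neg_mul]

theorem ev_sub {φ ψ : MvPowerSeries ι ℂ} (h : Ent φ) (h' : Ent ψ) (z : ι → ℂ) :
    ev (φ - ψ) z = ev φ z - ev ψ z := by
  rw [sub_eq_add_neg, ev_add h h'.neg, ev_neg, ← sub_eq_add_neg]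

theorem ev_mul {φ ψ : MvPowerSeries ι ℂ} (h : Ent φ) (h' : Ent ψ) (z : ι → ℂ) :
    ev (φ * ψ) z = ev φ z * ev ψ z := by
  have h0 : Summable fun x : (ι →₀ ℕ) × (ι →₀ ℕ) =>
      (coeff x.1 φ * mo z x.1) * (coeff x.2 ψ * mo z x.2) :=
    summable_mul_of_summable_norm (f := fun n : ι →₀ ℕ => coeff n φ * mo z n)
      (g := fun n : ι →₀ ℕ => coeff n ψ * mo z n) (h.summable z) (h'.summable z)
  have h1 := Summable.tsum_mul_tsum_eq_tsum_sum_antidiagonal
    (f := fun n : ι →₀ ℕ => coeff n φ * mo z n) (g := fun n : ι →₀ ℕ => coeff n ψ * mo z n)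
    (h.summable z).of_norm (h'.summable z).of_norm h0
  unfold ev
  rw [h1]
  refine tsum_congr fun n => ?_
  rw [MvPowerSeries.coeff_mul, Finset.sum_mul]
  refine Finset.sum_congr rfl fun p hp => ?_
  rw [HasAntidiagonal.mem_antidiagonal] at hp
  rw [← hp, mo_add]
  ring

theorem ev_pow {φ : MvPowerSeries ι ℂ} (h : Ent φ) (k : ℕ) (z : ι → ℂ) :
    ev (φ ^ k) z = ev φ z ^ k := by
  induction k with
  | zero =>
    rw [pow_zero, pow_zero]
    have h1 := ev_C (ι := ι) 1 z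
    rwa [map_one] at h1
  | succ k ih =>
    rw [pow_succ, pow_succ, ev_mul (h.pow k) h, ih]

theorem ev_sum {κ : Type} (s : Finset κ) {φ : κ → MvPowerSeries ι ℂ} (h : ∀ k ∈ s, Ent (φ k))
    (z : ι → ℂ) : ev (∑ k ∈ s, φ k) z = ∑ k ∈ s, ev (φ k) z := by
  classical
  induction s using Finset.induction_on with
  | empty =>
    rw [Finset.sum_empty, Finset.sum_empty]
    have h1 := ev_C (ι := ι) 0 z
    rwa [map_zero] at h1
  | insert a s ha ih =>
    rw [Finset.sum_insert ha, Finset.sum_insert ha, ev_add (h a (Finset.mem_insert_self a s))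
      (Ent.sum s fun k hk => h k (Finset.mem_insert_of_mem hk)),
      ih fun k hk => h k (Finset.mem_insert_of_mem hk)]

theorem ev_prod {κ : Type} (s : Finset κ) {φ : κ → MvPowerSeries ι ℂ} (h : ∀ k ∈ s, Ent (φ k))
    (z : ι → ℂ) : ev (∏ k ∈ s, φ k) z = ∏ k ∈ s, ev (φ k) z := by
  classical
  induction s using Finset.induction_on with
  | empty =>
    rw [Finset.prod_empty, Finset.prod_empty]
    have h1 := ev_C (ι := ι) 1 z
    rwa [map_one] at h1
  | insert a s ha ih =>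
    rw [Finset.prod_insert ha, Finset.prod_insert ha, ev_mul (h a (Finset.mem_insert_self a s))
      (Ent.prod s fun k hk => h k (Finset.mem_insert_of_mem hk)),
      ih fun k hk => h k (Finset.mem_insert_of_mem hk)]

theorem nr_nonneg {r : ℝ} (hr : 0 ≤ r) (φ : MvPowerSeries ι ℂ) : 0 ≤ nr r φ := by
  exact tsum_nonneg fun n => by positivity

theorem nr_add_le {φ ψ : MvPowerSeries ι ℂ} (h : Ent φ) (h' : Ent ψ) {r : ℝ} (hr : 0 ≤ r) :
    nr r (φ + ψ) ≤ nr r φ + nr r ψ := by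
  unfold nr
  rw [← (h r hr).tsum_add (h' r hr)]
  refine ((h.add h') r hr).tsum_le_tsum (fun n => ?_) ((h r hr).add (h' r hr))
  rw [map_add, ← add_mul]
  exact mul_le_mul_of_nonneg_right (norm_add_le _ _) (by positivity)

theorem nr_mul_le {φ ψ : MvPowerSeries ι ℂ} (h : Ent φ) (h' : Ent ψ) {r : ℝ} (hr : 0 ≤ r) :
    nr r (φ * ψ) ≤ nr r φ * nr r ψ := by
  have h2 : Summable fun x : (ι →₀ ℕ) × (ι →₀ ℕ) =>
      (‖coeff x.1 φ‖ * r ^ dg x.1) * (‖coeff x.2 ψ‖ * r ^ dg x.2) :=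
    Summable.mul_of_nonneg (h r hr) (h' r hr) (fun n => by simp only [Pi.zero_apply]; positivity)
      (fun n => by simp only [Pi.zero_apply]; positivity)
  have h1 := summable_sum_mul_antidiagonal_of_summable_mul
    (f := fun n : ι →₀ ℕ => ‖coeff n φ‖ * r ^ dg n) (g := fun n : ι →₀ ℕ => ‖coeff n ψ‖ * r ^ dg n) h2
  have h3 := Summable.tsum_mul_tsum_eq_tsum_sum_antidiagonal
    (f := fun n : ι →₀ ℕ => ‖coeff n φ‖ * r ^ dg n) (g := fun n : ι →₀ ℕ => ‖coeff n ψ‖ * r ^ dg n)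
    (h r hr) (h' r hr) h2
  unfold nr
  rw [h3]
  exact ((h.mul h') r hr).tsum_le_tsum (fun n => lmul_le φ ψ hr n) h1

theorem nr_C (c : ℂ) {r : ℝ} (hr : 0 ≤ r) :
    nr r (MvPowerSeries.C c : MvPowerSeries ι ℂ) = ‖c‖ := by
  unfold nr
  rw [tsum_eq_single 0]
  · rw [MvPowerSeries.coeff_C, if_pos rfl]
    simp [dg]
  · intro n hn
    rw [MvPowerSeries.coeff_C, if_neg hn, norm_zero, zero_mul]

theorem nr_mono {φ : MvPowerSeries ι ℂ} (h : Ent φ) {r r' : ℝ} (hr : 0 ≤ r) (hrr : r ≤ r') :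
    nr r φ ≤ nr r' φ := by
  unfold nr
  refine (h r hr).tsum_le_tsum (fun n => ?_) (h r' (hr.trans hrr))
  exact mul_le_mul_of_nonneg_left (pow_le_pow_left₀ hr hrr _) (norm_nonneg _)

theorem norm_ev_le {φ : MvPowerSeries ι ℂ} (h : Ent φ) {r : ℝ} {z : ι → ℂ}
    (hz : ∀ i, ‖z i‖ ≤ r) (hr : 0 ≤ r) : ‖ev φ z‖ ≤ nr r φ := by
  unfold ev nr
  refine (norm_tsum_le_tsum_norm (h.summable z)).trans
    ((h.summable z).tsum_le_tsum (fun n => ?_) (h r hr))
  rw [norm_mul]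
  exact mul_le_mul_of_nonneg_left (norm_mo_le z hz n) (norm_nonneg _)

theorem norm_coeff_le {φ : MvPowerSeries ι ℂ} (h : Ent φ) {r : ℝ} (hr : 0 ≤ r) (n : ι →₀ ℕ) :
    ‖coeff n φ‖ * r ^ dg n ≤ nr r φ := by
  exact (h r hr).le_tsum n fun m _ => by positivity

end

end Pool.Agent.CMT
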