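import Pool.Agent.CMT.RDefs

/-!
# CMT block R2: pairs `φ(X+Y) ψ(X-Y)` and derivations of `ℂ`

Application (block DTH, alld_h10.md, (1a), (1b)): `f` a theta function, `s` an even theta function,
`s(0) = 1`; for every derivation `δ` of `ℂ` the series `∑ δ(f_n) X^n` is entire.
-/

set_option autoImplicit false
set_option linter.unusedSectionVars false

namespace Pool.Agent.CMT.Rec

open Finset MvPowerSeries

noncomputable section

variable {ι : Type} [Fintype ι] [DecidableEq ι]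

section Ring

variable {R : Type} [CommRing R]

/-- the coefficient of `Y^A` in `φ(X+Y) ψ(X-Y)` -/
def hw2 (A : ι →₀ ℕ) (φ ψ : MvPowerSeries ι R) : MvPowerSeries ι R :=
  ∑ p ∈ antidiagonal A, (-1 : MvPowerSeries ι R) ^ dg p.2 * (dd p.1 φ * dd p.2 ψ)

theorem hw2_self (A : ι →₀ ℕ) (φ : MvPowerSeries ι R) : hw2 A φ φ = hw A φ := rfl

/-- `φ(X+Y) ψ(X-Y) = ∑ γ_{AA'} w_A(X) w_{A'}(Y)`, `w_A = hw2 A φ ψ` -/
def PP2 (S : Finset (ι →₀ ℕ)) (γ : (ι →₀ ℕ) → (ι →₀ ℕ) → R) (φ ψ : MvPowerSeries ι R) : Prop :=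
  ∀ B : ι →₀ ℕ, hw2 B φ ψ = ∑ A ∈ S, C (∑ A' ∈ S, γ A A' * coeff B (hw2 A' φ ψ)) * hw2 A φ ψ

theorem PP2_self {S : Finset (ι →₀ ℕ)} {γ : (ι →₀ ℕ) → (ι →₀ ℕ) → R} {φ : MvPowerSeries ι R} :
    PP2 S γ φ φ ↔ PP S γ φ := Iff.rfl

/-- only even exponents -/
def Evn (ψ : MvPowerSeries ι R) : Prop := ∀ n : ι →₀ ℕ, ¬ Even (dg n) → coeff n ψ = 0

/-- one term of the coefficient of `X^C` in `hw2 A φ ψ` -/
def tm2 (u v : (ι →₀ ℕ) → R) (p q : (ι →₀ ℕ) × (ι →₀ ℕ)) : R :=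
  (-1) ^ dg p.2 * ((mb q.1 p.1 : R) * (mb q.2 p.2 : R)) * (u (q.1 + p.1) * v (q.2 + p.2))

/-- the coefficient of `X^C` in `hw2 A φ ψ` -/
def hc2 (A C : ι →₀ ℕ) (u v : (ι →₀ ℕ) → R) : R :=
  ∑ p ∈ antidiagonal A, ∑ q ∈ antidiagonal C, tm2 u v p q

end Ring

/-- a derivation applied to the coefficients -/
def dl (δ : Derivation ℚ ℂ ℂ) (φ : MvPowerSeries ι ℂ) : MvPowerSeries ι ℂ := fun n => δ (coeff n φ)

/-- absolute convergence on the closed polydisc of radius `r` -/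
def Rad (r : ℝ) (φ : MvPowerSeries ι ℂ) : Prop :=
  Summable (fun n : ι →₀ ℕ => ‖coeff n φ‖ * r ^ dg n)

/-- the submultiplicative size of a complex number with respect to `δ` -/
def nd (δ : Derivation ℚ ℂ ℂ) (z : ℂ) : ℝ := ‖z‖ + ‖δ z‖

/-- `W` contains all functions `x ↦ f(x+y) s(x-y)` -/
def FRk (f s : (ι → ℂ) → ℂ) : Prop :=
  ∃ W : Submodule ℂ ((ι → ℂ) → ℂ), FiniteDimensional ℂ W ∧
    ∀ y : ι → ℂ, (fun x : ι → ℂ => f (x + y) * s (x - y)) ∈ W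

end

end Pool.Agent.CMT.Rec
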