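import Pool.Agent.CMT.R2Defs

/-!
# CMT-R2Nd: the size `nd δ` and the rules for `dl δ`
-/

set_option autoImplicit false
set_option linter.unusedSectionVars false

namespace Pool.Agent.CMT.Rec

open Finset MvPowerSeries

noncomputable section

variable {ι : Type} [Fintype ι] [DecidableEq ι] (δ : Derivation ℚ ℂ ℂ)

private theorem nd_aux_nat (k : ℕ) (x : ℂ) : δ ((k : ℂ) * x) = (k : ℂ) * δ x := by
  rw [← nsmul_eq_mul, ← nsmul_eq_mul, map_nsmul]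

private theorem nd_aux_inv (k : ℕ) (x : ℂ) : δ ((k : ℂ)⁻¹ * x) = (k : ℂ)⁻¹ * δ x := by
  have e : ∀ y : ℂ, (k : ℂ)⁻¹ * y = ((k : ℚ)⁻¹) • y := by
    intro y
    rw [Algebra.smul_def]
    simp
  rw [e, e, Derivation.map_smul]

private theorem nd_aux_coeff (φ : MvPowerSeries ι ℂ) (n : ι →₀ ℕ) :
    coeff n (dl δ φ) = δ (coeff n φ) := rfl

theorem nd_nonneg (z : ℂ) : 0 ≤ nd δ z := by
  unfold nd
  positivity

theorem nd_add_le (x y : ℂ) : nd δ (x + y) ≤ nd δ x + nd δ y := by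
  unfold nd
  rw [map_add]
  have h1 := norm_add_le x y
  have h2 := norm_add_le (δ x) (δ y)
  linarith

theorem nd_neg (x : ℂ) : nd δ (-x) = nd δ x := by
  unfold nd
  rw [map_neg, norm_neg, norm_neg]

theorem nd_sum_le {κ : Type*} (s : Finset κ) (f : κ → ℂ) : nd δ (∑ k ∈ s, f k) ≤ ∑ k ∈ s, nd δ (f k) := by
  unfold nd
  rw [map_sum, Finset.sum_add_distrib]
  exact add_le_add (norm_sum_le _ _) (norm_sum_le _ _)

theorem nd_mul_le (x y : ℂ) : nd δ (x * y) ≤ nd δ x * nd δ y := by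
  unfold nd
  have h : ‖δ (x * y)‖ ≤ ‖x‖ * ‖δ y‖ + ‖y‖ * ‖δ x‖ := by
    rw [Derivation.leibniz, smul_eq_mul, smul_eq_mul]
    refine (norm_add_le _ _).trans ?_
    rw [norm_mul, norm_mul]
  rw [norm_mul]
  have h1 : 0 ≤ ‖δ x‖ * ‖δ y‖ := by positivity
  nlinarith

theorem nd_natCast_mul (k : ℕ) (x : ℂ) : nd δ ((k : ℂ) * x) = k * nd δ x := by
  unfold nd
  rw [nd_aux_nat, norm_mul, norm_mul, Complex.norm_natCast]
  ring

theorem nd_inv_natCast_mul (k : ℕ) (x : ℂ) : nd δ ((k : ℂ)⁻¹ * x) = (k : ℝ)⁻¹ * nd δ x := by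
  unfold nd
  rw [nd_aux_inv, norm_mul, norm_mul, norm_inv, Complex.norm_natCast]
  ring

theorem dl_add (φ ψ : MvPowerSeries ι ℂ) : dl δ (φ + ψ) = dl δ φ + dl δ ψ := by
  ext n
  rw [nd_aux_coeff, map_add, map_add, map_add, nd_aux_coeff, nd_aux_coeff]

theorem dl_sum {κ : Type*} (s : Finset κ) (f : κ → MvPowerSeries ι ℂ) :
    dl δ (∑ k ∈ s, f k) = ∑ k ∈ s, dl δ (f k) := by
  ext n
  rw [nd_aux_coeff, map_sum, map_sum, map_sum]
  rfl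

theorem dl_mul (φ ψ : MvPowerSeries ι ℂ) : dl δ (φ * ψ) = dl δ φ * ψ + φ * dl δ ψ := by
  ext n
  rw [nd_aux_coeff, map_add, coeff_mul, coeff_mul, coeff_mul, map_sum, ← Finset.sum_add_distrib]
  refine Finset.sum_congr rfl fun p _ => ?_
  rw [nd_aux_coeff, nd_aux_coeff, Derivation.leibniz, smul_eq_mul, smul_eq_mul]
  ring

theorem dl_C (c : ℂ) : dl δ (C c : MvPowerSeries ι ℂ) = C (δ c) := by
  ext n
  rw [nd_aux_coeff, coeff_C, coeff_C]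
  split_ifs
  · rfl
  · exact map_zero δ

theorem dl_dd (A : ι →₀ ℕ) (φ : MvPowerSeries ι ℂ) : dl δ (dd A φ) = dd A (dl δ φ) := by
  ext n
  exact nd_aux_nat δ _ _

theorem dl_sc2 (φ : MvPowerSeries ι ℂ) :
    dl δ (sc (fun _ => (2 : ℂ)) φ) = sc (fun _ => (2 : ℂ)) (dl δ φ) := by
  ext n
  have e : ∀ c : ℂ, (∏ i, (2 : ℂ) ^ n i) * c = ((∏ i, 2 ^ n i : ℕ) : ℂ) * c := by
    intro c
    push_cast
    rfl
  change δ ((∏ i, (2 : ℂ) ^ n i) * coeff n φ) = (∏ i, (2 : ℂ) ^ n i) * δ (coeff n φ)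
  rw [e, e]
  exact nd_aux_nat δ _ _

theorem dl_hw2 (A : ι →₀ ℕ) (φ ψ : MvPowerSeries ι ℂ) :
    dl δ (hw2 A φ ψ) = hw2 A (dl δ φ) ψ + hw2 A φ (dl δ ψ) := by
  unfold hw2
  rw [dl_sum, ← Finset.sum_add_distrib]
  refine Finset.sum_congr rfl fun p _ => ?_
  have h : dl δ (dd p.1 φ * dd p.2 ψ) =
      dd p.1 (dl δ φ) * dd p.2 ψ + dd p.1 φ * dd p.2 (dl δ ψ) := by
    rw [dl_mul, dl_dd, dl_dd]
  rw [← mul_add, ← h]
  rcases neg_one_pow_eq_or (MvPowerSeries ι ℂ) (dg p.2) with h1 | h1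
  · rw [h1, one_mul, one_mul]
  · rw [h1, neg_one_mul, neg_one_mul]
    ext n
    rw [nd_aux_coeff, map_neg, map_neg, map_neg, nd_aux_coeff]

end

end Pool.Agent.CMT.Rec
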