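import Pool.Agent.CMT.RVan

/-!
# CMT-RGro: the growth lemma

(strong induction with the weights `∏ i, (n i + 1)⁻²`)
-/

set_option autoImplicit false
set_option linter.unusedSectionVars false

namespace Pool.Agent.CMT.Rec

open Finset

noncomputable section

variable {ι : Type} [Fintype ι] [DecidableEq ι]

private def gw (n : ι →₀ ℕ) : ℝ := ∏ i, (((n i : ℝ) + 1) ^ 2)⁻¹

private theorem gw_pos (n : ι →₀ ℕ) : 0 < gw n := Finset.prod_pos fun i _ => by positivity

private theorem gw_le_one (n : ι →₀ ℕ) : gw n ≤ 1 := by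
  refine Finset.prod_le_one (fun i _ => by positivity) fun i _ => ?_
  refine inv_le_one_of_one_le₀ ?_
  have : (0 : ℝ) ≤ n i := Nat.cast_nonneg _
  nlinarith

private theorem gw_zero : gw (0 : ι →₀ ℕ) = 1 := by simp [gw]

private theorem g_sq_sum (N : ℕ) :
    ∑ k ∈ range (N + 1), (((k : ℝ) + 1) ^ 2)⁻¹ ≤ 2 - ((N : ℝ) + 1)⁻¹ := by
  induction N with
  | zero => norm_num
  | succ N ih =>
    rw [Finset.sum_range_succ]
    have h : ((((N + 1 : ℕ) : ℝ) + 1) ^ 2)⁻¹ ≤ ((N : ℝ) + 1)⁻¹ - (((N + 1 : ℕ) : ℝ) + 1)⁻¹ := by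
      push_cast
      have hN : (0 : ℝ) ≤ N := Nat.cast_nonneg _
      rw [inv_sub_inv (by positivity) (by positivity), inv_eq_one_div,
        div_le_div_iff₀ (by positivity) (by positivity)]
      nlinarith
    linarith

private theorem g_conv1 (N : ℕ) :
    ∑ q ∈ antidiagonal N, (((q.1 : ℝ) + 1) ^ 2)⁻¹ * (((q.2 : ℝ) + 1) ^ 2)⁻¹ ≤
      16 * (((N : ℝ) + 1) ^ 2)⁻¹ := by
  have h1 : ∀ q ∈ antidiagonal N, (((q.1 : ℝ) + 1) ^ 2)⁻¹ * (((q.2 : ℝ) + 1) ^ 2)⁻¹ ≤
      2 * (((N : ℝ) + 1) ^ 2)⁻¹ * ((((q.1 : ℝ) + 1) ^ 2)⁻¹ + (((q.2 : ℝ) + 1) ^ 2)⁻¹) := by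
    intro q hq
    rw [Finset.HasAntidiagonal.mem_antidiagonal] at hq
    have hN : (N : ℝ) = q.1 + q.2 := by rw [← hq]; push_cast; rfl
    have hx : (0 : ℝ) ≤ q.1 := Nat.cast_nonneg _
    have hy : (0 : ℝ) ≤ q.2 := Nat.cast_nonneg _
    rw [hN]
    obtain ⟨x, hxe⟩ : ∃ x : ℝ, x = (q.1 : ℝ) := ⟨_, rfl⟩
    obtain ⟨y, hye⟩ : ∃ y : ℝ, y = (q.2 : ℝ) := ⟨_, rfl⟩
    rw [← hxe] at hx
    rw [← hye] at hy
    rw [← hxe, ← hye]
    obtain ⟨a, ha⟩ : ∃ a : ℝ, a = ((x + 1) ^ 2)⁻¹ := ⟨_, rfl⟩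
    obtain ⟨b, hb⟩ : ∃ b : ℝ, b = ((y + 1) ^ 2)⁻¹ := ⟨_, rfl⟩
    obtain ⟨c, hc⟩ : ∃ c : ℝ, c = ((x + y + 1) ^ 2)⁻¹ := ⟨_, rfl⟩
    have ha0 : 0 < a := by rw [ha]; positivity
    have hb0 : 0 < b := by rw [hb]; positivity
    have hc0 : 0 < c := by rw [hc]; positivity
    have ha1 : a * (x + 1) ^ 2 = 1 := by rw [ha]; exact inv_mul_cancel₀ (by positivity)
    have hb1 : b * (y + 1) ^ 2 = 1 := by rw [hb]; exact inv_mul_cancel₀ (by positivity)
    have hc1 : c * (x + y + 1) ^ 2 = 1 := by rw [hc]; exact inv_mul_cancel₀ (by positivity)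
    rw [← ha, ← hb, ← hc]
    have h2 : 2 * c * (a + b) - a * b =
        a * b * c * (2 * (x + 1) ^ 2 + 2 * (y + 1) ^ 2 - (x + y + 1) ^ 2) := by
      have e1 : 2 * c * (a + b) = 2 * c * (a * (b * (y + 1) ^ 2) + b * (a * (x + 1) ^ 2)) := by
        rw [ha1, hb1]; ring
      have e2 : a * b = a * b * (c * (x + y + 1) ^ 2) := by rw [hc1]; ring
      rw [e1]
      calc _ = 2 * c * (a * (b * (y + 1) ^ 2) + b * (a * (x + 1) ^ 2)) -
            a * b * (c * (x + y + 1) ^ 2) := by rw [← e2]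
        _ = _ := by ring
    have h3 : 0 ≤ 2 * (x + 1) ^ 2 + 2 * (y + 1) ^ 2 - (x + y + 1) ^ 2 := by
      nlinarith [sq_nonneg (x - y)]
    have h4 : 0 ≤ a * b * c * (2 * (x + 1) ^ 2 + 2 * (y + 1) ^ 2 - (x + y + 1) ^ 2) :=
      mul_nonneg (by positivity) h3
    linarith
  refine (Finset.sum_le_sum h1).trans ?_
  rw [← Finset.mul_sum, Finset.sum_add_distrib]
  have h5 : ∑ q ∈ antidiagonal N, (((q.1 : ℝ) + 1) ^ 2)⁻¹ ≤ 2 := by
    rw [Finset.Nat.sum_antidiagonal_eq_sum_range_succ_mk]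
    have := g_sq_sum N
    have h6 : 0 < ((N : ℝ) + 1)⁻¹ := by positivity
    exact this.trans (by linarith)
  have h7 : ∑ q ∈ antidiagonal N, (((q.2 : ℝ) + 1) ^ 2)⁻¹ ≤ 2 := by
    rw [← Finset.Nat.sum_antidiagonal_swap]
    exact h5
  have h8 : 0 ≤ (((N : ℝ) + 1) ^ 2)⁻¹ := by positivity
  calc _ ≤ 2 * (((N : ℝ) + 1) ^ 2)⁻¹ * (2 + 2) :=
        mul_le_mul_of_nonneg_left (add_le_add h5 h7) (by positivity)
    _ ≤ _ := by nlinarith

private theorem g_conv (n : ι →₀ ℕ) :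
    ∑ p ∈ antidiagonal n, gw p.1 * gw p.2 ≤ 16 ^ Fintype.card ι * gw n := by
  have h1 : ∀ p ∈ antidiagonal n, gw p.1 * gw p.2 =
      ∏ i, ((((p.1 i : ℕ) : ℝ) + 1) ^ 2)⁻¹ * ((((p.2 i : ℕ) : ℝ) + 1) ^ 2)⁻¹ := by
    intro p _
    unfold gw
    rw [Finset.prod_mul_distrib]
  rw [Finset.sum_congr rfl h1,
    prod_anti n (fun _ a b => (((a : ℝ) + 1) ^ 2)⁻¹ * (((b : ℝ) + 1) ^ 2)⁻¹)]
  calc _ ≤ ∏ i : ι, (16 * (((n i : ℝ) + 1) ^ 2)⁻¹) :=
        Finset.prod_le_prod (fun i _ => Finset.sum_nonneg fun q _ => by positivity)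
          fun i _ => g_conv1 (n i)
    _ = _ := by
        rw [Finset.prod_mul_distrib, Finset.prod_const, Finset.card_univ]
        rfl

private theorem g_shift (A n B : ι →₀ ℕ) (b : ℕ) (hB : B ≤ n) (hb : dg B = b) :
    gw (A + (n - B)) ≤ (((b : ℝ) + 1) ^ 2) ^ Fintype.card ι * gw n := by
  calc gw (A + (n - B)) ≤ ∏ i : ι, (((b : ℝ) + 1) ^ 2 * (((n i : ℝ) + 1) ^ 2)⁻¹) := by
        refine Finset.prod_le_prod (fun i _ => by positivity) fun i _ => ?_
        have e1 : (A + (n - B)) i = A i + (n i - B i) := by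
          rw [Finsupp.add_apply, Finsupp.tsub_apply]
        have hBi : B i ≤ n i := hB i
        have hbi : B i ≤ b := by
          rw [← hb]
          exact Finset.single_le_sum (f := fun j => B j) (fun j _ => Nat.zero_le _) (mem_univ i)
        obtain ⟨m, hm⟩ : ∃ m, n i = B i + m := ⟨n i - B i, by omega⟩
        have e2 : (A + (n - B)) i = A i + m := by rw [e1, hm]; omega
        rw [e2, hm]
        push_cast
        have h1 : (0 : ℝ) ≤ A i := Nat.cast_nonneg _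
        have h2 : (0 : ℝ) ≤ B i := Nat.cast_nonneg _
        have h3 : (0 : ℝ) ≤ m := Nat.cast_nonneg _
        have h4 : (B i : ℝ) ≤ b := Nat.cast_le.2 hbi
        have h5 : (B i : ℝ) + m + 1 ≤ ((b : ℝ) + 1) * (A i + m + 1) := by
          nlinarith [mul_nonneg h3 (h2.trans h4), mul_nonneg h1 (h2.trans h4)]
        have h6 : ((B i : ℝ) + m + 1) ^ 2 ≤ ((b : ℝ) + 1) ^ 2 * (A i + m + 1) ^ 2 := by
          rw [← mul_pow]
          exact pow_le_pow_left₀ (by positivity) h5 2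
        rw [inv_eq_one_div, ← div_eq_mul_inv, div_le_div_iff₀ (by positivity) (by positivity)]
        linarith
    _ = _ := by
        rw [Finset.prod_mul_distrib, Finset.prod_const, Finset.card_univ]
        rfl

private theorem g_anti (n : ι →₀ ℕ) (p : (ι →₀ ℕ) × (ι →₀ ℕ)) (hp : p ∈ antidiagonal n) :
    dg p.1 + dg p.2 = dg n := by
  rw [Finset.HasAntidiagonal.mem_antidiagonal] at hp
  rw [← dg_add, hp]

private theorem g_fin (N0 : ℕ) : {n : ι →₀ ℕ | dg n ≤ N0}.Finite := by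
  refine (Set.finite_Icc (0 : ι →₀ ℕ) (Finsupp.equivFunOnFinite.symm fun _ => N0)).subset ?_
  intro n hn
  refine ⟨bot_le, fun i => ?_⟩
  have h : n i ≤ dg n :=
    Finset.single_le_sum (f := fun j => n j) (fun j _ => Nat.zero_le _) (mem_univ i)
  exact h.trans hn

theorem growth (ν : (ι →₀ ℕ) → ℝ) (h0 : ∀ n, 0 ≤ ν n) (hν0 : ν 0 = 1) (a b N0 : ℕ) (hab : a < b)
    (hN0 : b ≤ N0) (K : ℝ) (hK : 0 ≤ K) (S : Finset (ι →₀ ℕ)) (ha : ∀ A ∈ S, dg A ≤ a)
    (hrec : ∀ n, N0 < dg n → ∃ B : ι →₀ ℕ, B ≤ n ∧ dg B = b ∧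
      ν n ≤ 1 / 2 * (∑ p ∈ antidiagonal n, if p.1 = 0 ∨ p.2 = 0 then 0 else ν p.1 * ν p.2) +
        K * ∑ A ∈ S, ∑ p ∈ antidiagonal (A + (n - B)), ν p.1 * ν p.2) :
    ∃ ρ : ℝ, 1 ≤ ρ ∧ ∀ n, ν n ≤ ρ ^ (dg n + 1) := by
  have _ := hN0
  obtain ⟨G, hG⟩ : ∃ G : ℝ, G = 16 ^ Fintype.card ι := ⟨_, rfl⟩
  obtain ⟨C1, hC1⟩ : ∃ C1 : ℝ, C1 = (((b : ℝ) + 1) ^ 2) ^ Fintype.card ι := ⟨_, rfl⟩
  have hG1 : 1 ≤ G := by rw [hG]; exact one_le_pow₀ (by norm_num)
  have hG0 : 0 < G := by linarith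
  have hC0 : 0 ≤ C1 := by rw [hC1]; positivity
  -- the choice of ρ
  obtain ⟨M, hM⟩ : ∃ M : ℝ, ∀ n : ι →₀ ℕ, dg n ≤ N0 → ν n * G * (gw n)⁻¹ ≤ M := by
    obtain ⟨M, hM⟩ := ((g_fin (ι := ι) N0).image (fun n => ν n * G * (gw n)⁻¹)).bddAbove
    exact ⟨M, fun n hn => hM ⟨n, hn, rfl⟩⟩
  obtain ⟨ρ, hρ⟩ : ∃ ρ : ℝ, ρ = max 1 (max M (2 * (K * S.card * (G * C1)) * G)) := ⟨_, rfl⟩
  have hρ1 : 1 ≤ ρ := by rw [hρ]; exact le_max_left _ _
  have hρM : M ≤ ρ := by rw [hρ]; exact (le_max_left _ _).trans (le_max_right _ _)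
  have hρK : 2 * (K * S.card * (G * C1)) * G ≤ ρ := by
    rw [hρ]; exact (le_max_right _ _).trans (le_max_right _ _)
  have hρ0 : 0 < ρ := by linarith
  have main : ∀ d : ℕ, ∀ n : ι →₀ ℕ, dg n = d → n ≠ 0 → ν n ≤ G⁻¹ * (ρ ^ dg n * gw n) := by
    intro d
    induction d using Nat.strong_induction_on with
    | _ d ih =>
      intro n hn hn0
      have hpos : 1 ≤ dg n := dg_pos.2 hn0
      rcases Nat.lt_or_ge N0 (dg n) with hlt | hge
      · obtain ⟨B, hB, hBb, hle⟩ := hrec n hlt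
        have ih1 : ∀ m : ι →₀ ℕ, dg m < dg n → m ≠ 0 → ν m ≤ G⁻¹ * (ρ ^ dg m * gw m) :=
          fun m hm hm0 => ih (dg m) (by omega) m rfl hm0
        have ih2 : ∀ m : ι →₀ ℕ, dg m < dg n → ν m ≤ ρ ^ dg m * gw m := by
          intro m hm
          by_cases hm0 : m = 0
          · rw [hm0, hν0, dg_zero, gw_zero, pow_zero, mul_one]
          · refine (ih1 m hm hm0).trans ?_
            have h1 : 0 ≤ ρ ^ dg m * gw m := mul_nonneg (by positivity) (gw_pos m).le
            have h2 : G⁻¹ ≤ 1 := inv_le_one_of_one_le₀ hG1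
            nlinarith
        -- first sum
        have s1 : (∑ p ∈ antidiagonal n, if p.1 = 0 ∨ p.2 = 0 then 0 else ν p.1 * ν p.2) ≤
            G⁻¹ * (ρ ^ dg n * gw n) := by
          have t1 : ∀ p ∈ antidiagonal n, (if p.1 = 0 ∨ p.2 = 0 then 0 else ν p.1 * ν p.2) ≤
              G⁻¹ * G⁻¹ * ρ ^ dg n * (gw p.1 * gw p.2) := by
            intro p hp
            have hd := g_anti n p hp
            have h3 : 0 ≤ G⁻¹ * G⁻¹ * ρ ^ dg n * (gw p.1 * gw p.2) := by
              have := gw_pos p.1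
              have := gw_pos p.2
              positivity
            by_cases hz : p.1 = 0 ∨ p.2 = 0
            · rw [if_pos hz]
              exact h3
            · rw [if_neg hz]
              rw [not_or] at hz
              have q1 : 1 ≤ dg p.1 := dg_pos.2 hz.1
              have q2 : 1 ≤ dg p.2 := dg_pos.2 hz.2
              have i1 := ih1 p.1 (by omega) hz.1
              have i2 := ih1 p.2 (by omega) hz.2
              refine (mul_le_mul i1 i2 (h0 _) ((h0 _).trans i1)).trans (le_of_eq ?_)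
              rw [← hd, pow_add]
              ring
          refine (Finset.sum_le_sum t1).trans ?_
          rw [← Finset.mul_sum]
          have t2 := g_conv n
          rw [← hG] at t2
          refine (mul_le_mul_of_nonneg_left t2 (by positivity)).trans (le_of_eq ?_)
          field_simp
        -- second sum
        have s2 : ∀ A ∈ S, ∑ p ∈ antidiagonal (A + (n - B)), ν p.1 * ν p.2 ≤
            G * C1 * (ρ ^ (dg n - 1) * gw n) := by
          intro A hA
          have hA1 := ha A hA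
          have hd1 : dg (A + (n - B)) = dg A + dg (n - B) := dg_add _ _
          have hd2 := dg_sub hB
          have hlt2 : dg (A + (n - B)) ≤ dg n - 1 := by omega
          have t1 : ∀ p ∈ antidiagonal (A + (n - B)), ν p.1 * ν p.2 ≤
              ρ ^ dg (A + (n - B)) * (gw p.1 * gw p.2) := by
            intro p hp
            have hd := g_anti _ p hp
            have i1 := ih2 p.1 (by omega)
            have i2 := ih2 p.2 (by omega)
            refine (mul_le_mul i1 i2 (h0 _) ((h0 _).trans i1)).trans (le_of_eq ?_)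
            rw [← hd, pow_add]
            ring
          refine (Finset.sum_le_sum t1).trans ?_
          rw [← Finset.mul_sum]
          have t2 := g_conv (A + (n - B))
          have t3 := g_shift A n B b hB hBb
          rw [← hG] at t2
          rw [← hC1] at t3
          have t4 : ρ ^ dg (A + (n - B)) ≤ ρ ^ (dg n - 1) := pow_le_pow_right₀ hρ1 hlt2
          have w0 := gw_pos n
          have w1 := gw_pos (A + (n - B))
          calc ρ ^ dg (A + (n - B)) * ∑ p ∈ antidiagonal (A + (n - B)), gw p.1 * gw p.2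
              ≤ ρ ^ dg (A + (n - B)) * (G * gw (A + (n - B))) :=
                mul_le_mul_of_nonneg_left t2 (by positivity)
            _ ≤ ρ ^ (dg n - 1) * (G * (C1 * gw n)) := by
                refine mul_le_mul t4 (mul_le_mul_of_nonneg_left t3 hG0.le) (by positivity)
                  (by positivity)
            _ = _ := by ring
        have s3 : K * ∑ A ∈ S, ∑ p ∈ antidiagonal (A + (n - B)), ν p.1 * ν p.2 ≤
            K * (S.card * (G * C1 * (ρ ^ (dg n - 1) * gw n))) := by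
          refine mul_le_mul_of_nonneg_left ?_ hK
          refine (Finset.sum_le_sum s2).trans (le_of_eq ?_)
          rw [Finset.sum_const, nsmul_eq_mul]
        have s4 : K * (S.card * (G * C1 * (ρ ^ (dg n - 1) * gw n))) ≤
            1 / 2 * (G⁻¹ * (ρ ^ dg n * gw n)) := by
          have e1 : ρ ^ dg n = ρ ^ (dg n - 1) * ρ := by
            rw [← pow_succ]
            congr 1
            omega
          have w0 := gw_pos n
          have e2 : K * S.card * (G * C1) ≤ 1 / 2 * (G⁻¹ * ρ) := by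
            have e3 : 1 / 2 * (G⁻¹ * (2 * (K * S.card * (G * C1)) * G)) ≤ 1 / 2 * (G⁻¹ * ρ) :=
              mul_le_mul_of_nonneg_left (mul_le_mul_of_nonneg_left hρK (by positivity))
                (by norm_num)
            refine le_trans (le_of_eq ?_) e3
            field_simp
          have e4 : 0 ≤ ρ ^ (dg n - 1) * gw n := by positivity
          calc K * (S.card * (G * C1 * (ρ ^ (dg n - 1) * gw n)))
              = K * S.card * (G * C1) * (ρ ^ (dg n - 1) * gw n) := by ring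
            _ ≤ 1 / 2 * (G⁻¹ * ρ) * (ρ ^ (dg n - 1) * gw n) :=
                mul_le_mul_of_nonneg_right e2 e4
            _ = _ := by rw [e1]; ring
        linarith
      · have h1 := hM n hge
        have w0 := gw_pos n
        have h2 : ν n * G * (gw n)⁻¹ ≤ ρ := h1.trans hρM
        have h3 : ρ ≤ ρ ^ dg n := le_self_pow₀ hρ1 (by omega)
        have h4 : ν n * G * (gw n)⁻¹ ≤ ρ ^ dg n := h2.trans h3
        have h5 : G⁻¹ * ((ν n * G * (gw n)⁻¹) * gw n) ≤ G⁻¹ * (ρ ^ dg n * gw n) :=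
          mul_le_mul_of_nonneg_left (mul_le_mul_of_nonneg_right h4 w0.le) (by positivity)
        refine le_trans (le_of_eq ?_) h5
        field_simp
  refine ⟨ρ, hρ1, fun n => ?_⟩
  by_cases hn0 : n = 0
  · rw [hn0, hν0, dg_zero, zero_add, pow_one]
    exact hρ1
  · refine (main (dg n) n rfl hn0).trans ?_
    have h1 : G⁻¹ ≤ 1 := inv_le_one_of_one_le₀ hG1
    have h2 := gw_le_one n
    have h3 := gw_pos n
    have h4 : (0 : ℝ) < ρ ^ dg n := by positivity
    have h5 : ρ ^ dg n * gw n ≤ ρ ^ dg n := by nlinarith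
    have h6 : 0 ≤ ρ ^ dg n * gw n := by positivity
    calc G⁻¹ * (ρ ^ dg n * gw n) ≤ ρ ^ dg n * gw n := by nlinarith
      _ ≤ ρ ^ dg n := h5
      _ ≤ ρ ^ (dg n + 1) := pow_le_pow_right₀ hρ1 (Nat.le_succ _)

end

end Pool.Agent.CMT.Rec
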