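import Pool.Agent.CMT.RDefs

/-!
# CMT-RWn: the weighted norm `wn r` of rational polynomials
-/

set_option autoImplicit false
set_option linter.unusedSectionVars false

namespace Pool.Agent.CMT.Rec

open Finset

noncomputable section

variable {Q : Type} [Fintype Q]

private theorem wn_eq_of_subset (r : ℝ) (P : MvPolynomial Q ℚ) (s : Finset (Q →₀ ℕ)) (hs : P.support ⊆ s) :
    wn r P = ∑ m ∈ s, |((P.coeff m : ℚ) : ℝ)| * r ^ (∑ i, m i) := by
  unfold wn
  apply Finset.sum_subset hs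
  intro e _ he
  rw [MvPolynomial.notMem_support_iff] at he
  simp [he]

private theorem wn_monomial (r : ℝ) (m : Q →₀ ℕ) (a : ℚ) :
    wn r (MvPolynomial.monomial m a) = |((a : ℚ) : ℝ)| * r ^ (∑ i, m i) := by
  classical
  rw [wn_eq_of_subset r (MvPolynomial.monomial m a) {m} MvPolynomial.support_monomial_subset]
  simp

theorem wn_nonneg {r : ℝ} (hr : 0 ≤ r) (P : MvPolynomial Q ℚ) : 0 ≤ wn r P := by
  exact Finset.sum_nonneg (fun _ _ => mul_nonneg (abs_nonneg _) (pow_nonneg hr _))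

theorem wn_add_le {r : ℝ} (hr : 0 ≤ r) (P P' : MvPolynomial Q ℚ) :
    wn r (P + P') ≤ wn r P + wn r P' := by
  classical
  rw [wn_eq_of_subset r (P + P') (P.support ∪ P'.support) MvPolynomial.support_add,
    wn_eq_of_subset r P (P.support ∪ P'.support) Finset.subset_union_left,
    wn_eq_of_subset r P' (P.support ∪ P'.support) Finset.subset_union_right, ← Finset.sum_add_distrib]
  apply Finset.sum_le_sum
  intro e _
  rw [MvPolynomial.coeff_add, ← add_mul]
  push_cast
  exact mul_le_mul_of_nonneg_right (abs_add_le _ _) (pow_nonneg hr _)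

theorem wn_neg (r : ℝ) (P : MvPolynomial Q ℚ) : wn r (-P) = wn r P := by
  unfold wn
  rw [MvPolynomial.support_neg]
  simp

theorem wn_sub_le {r : ℝ} (hr : 0 ≤ r) (P P' : MvPolynomial Q ℚ) :
    wn r (P - P') ≤ wn r P + wn r P' := by
  rw [sub_eq_add_neg]
  exact (wn_add_le hr _ _).trans (by rw [wn_neg])

private theorem wn_zero' (r : ℝ) : wn r (0 : MvPolynomial Q ℚ) = 0 := by
  simp [wn]

private theorem wn_sum_le' {r : ℝ} (hr : 0 ≤ r) {κ : Type*} (s : Finset κ) (f : κ → MvPolynomial Q ℚ) :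
    wn r (∑ k ∈ s, f k) ≤ ∑ k ∈ s, wn r (f k) := by
  classical
  induction s using Finset.induction_on with
  | empty => simp [wn_zero']
  | insert a s ha ih =>
    rw [Finset.sum_insert ha, Finset.sum_insert ha]
    exact (wn_add_le hr _ _).trans (by gcongr)

theorem wn_mul_le {r : ℝ} (hr : 0 ≤ r) (P P' : MvPolynomial Q ℚ) :
    wn r (P * P') ≤ wn r P * wn r P' := by
  classical
  have h : P * P' = ∑ e ∈ P.support, ∑ f ∈ P'.support,
      MvPolynomial.monomial (e + f) (P.coeff e * P'.coeff f) := by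
    conv_lhs => rw [P.as_sum, P'.as_sum]
    rw [Finset.sum_mul_sum]
    apply Finset.sum_congr rfl
    intro e _
    apply Finset.sum_congr rfl
    intro f _
    rw [MvPolynomial.monomial_mul]
  rw [h]
  refine (wn_sum_le' hr _ _).trans ?_
  unfold wn
  rw [Finset.sum_mul]
  apply Finset.sum_le_sum
  intro e _
  refine (wn_sum_le' hr _ _).trans ?_
  rw [Finset.mul_sum]
  apply Finset.sum_le_sum
  intro f _
  have e1 : ∑ i, (e + f) i = ∑ i, e i + ∑ i, f i := by
    simp [Finset.sum_add_distrib]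
  rw [wn_monomial, e1, pow_add]
  push_cast
  rw [abs_mul]
  apply le_of_eq
  ring

theorem wn_C (r : ℝ) (c : ℚ) : wn r (MvPolynomial.C c : MvPolynomial Q ℚ) = |(c : ℝ)| := by
  exact (wn_monomial r 0 c).trans (by simp)

theorem wn_zero (r : ℝ) : wn r (0 : MvPolynomial Q ℚ) = 0 := by
  simp [wn]

theorem wn_one (r : ℝ) : wn r (1 : MvPolynomial Q ℚ) = 1 := by
  have h := wn_C (Q := Q) r 1
  rw [MvPolynomial.C_1] at h
  rw [h]; simp

theorem wn_X (r : ℝ) (q : Q) : wn r (MvPolynomial.X q : MvPolynomial Q ℚ) = r := by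
  classical
  have h := wn_monomial (Q := Q) r (Finsupp.single q 1) 1
  have e1 : ∑ i, (Finsupp.single q 1 : Q →₀ ℕ) i = 1 := by
    rw [Finset.sum_eq_single q]
    · simp
    · intro b _ hb
      simp [hb.symm]
    · intro hq
      exact absurd (Finset.mem_univ q) hq
  rw [e1] at h
  rw [MvPolynomial.X, h]
  simp

theorem wn_sum_le {r : ℝ} (hr : 0 ≤ r) {κ : Type*} (s : Finset κ) (f : κ → MvPolynomial Q ℚ) :
    wn r (∑ k ∈ s, f k) ≤ ∑ k ∈ s, wn r (f k) := by
  exact wn_sum_le' hr s f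

theorem wn_mono {r r' : ℝ} (hr : 0 ≤ r) (h : r ≤ r') (P : MvPolynomial Q ℚ) : wn r P ≤ wn r' P := by
  unfold wn
  apply Finset.sum_le_sum
  intro m _
  exact mul_le_mul_of_nonneg_left (pow_le_pow_left₀ hr h _) (abs_nonneg _)

theorem wn_pderiv {r : ℝ} (hr : 1 ≤ r) (q : Q) (P : MvPolynomial Q ℚ) :
    wn r (MvPolynomial.pderiv q P) ≤ wn (2 * r) P := by
  classical
  have hr0 : (0 : ℝ) ≤ r := zero_le_one.trans hr
  have h : MvPolynomial.pderiv q P = ∑ m ∈ P.support,
      MvPolynomial.monomial (m - Finsupp.single q 1) (P.coeff m * (m q : ℚ)) := by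
    conv_lhs => rw [P.as_sum]
    rw [map_sum]
    apply Finset.sum_congr rfl
    intro m _
    rw [MvPolynomial.pderiv_monomial]
  rw [h]
  refine (wn_sum_le' hr0 _ _).trans ?_
  rw [show wn (2 * r) P = ∑ m ∈ P.support, |((P.coeff m : ℚ) : ℝ)| * (2 * r) ^ (∑ i, m i) from rfl]
  apply Finset.sum_le_sum
  intro m _
  rw [wn_monomial, Rat.cast_mul, Rat.cast_natCast, abs_mul, mul_assoc]
  apply mul_le_mul_of_nonneg_left _ (abs_nonneg _)
  rw [abs_of_nonneg (Nat.cast_nonneg _), mul_pow]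
  have h1 : ((m q : ℕ) : ℝ) ≤ 2 ^ (∑ i, m i) := by
    have h2 : m q ≤ ∑ i, m i := Finset.single_le_sum (f := fun i => m i) (fun _ _ => Nat.zero_le _)
      (Finset.mem_univ q)
    have h3 : ∑ i, m i < 2 ^ (∑ i, m i) := Nat.lt_two_pow_self
    have h4 : m q ≤ 2 ^ (∑ i, m i) := h2.trans h3.le
    exact_mod_cast h4
  have h2 : r ^ (∑ i, (m - Finsupp.single q 1 : Q →₀ ℕ) i) ≤ r ^ (∑ i, m i) := by
    apply pow_le_pow_right₀ hr
    apply Finset.sum_le_sum
    intro i _
    simp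
  exact mul_le_mul h1 h2 (pow_nonneg hr0 _) (by positivity)

theorem norm_aeval_le {r : ℝ} (c : Q → ℂ) (hc : ∀ q, ‖c q‖ ≤ r) (P : MvPolynomial Q ℚ) :
    ‖MvPolynomial.aeval c P‖ ≤ wn r P := by
  classical
  rw [MvPolynomial.aeval_def, MvPolynomial.eval₂_eq']
  refine (norm_sum_le _ _).trans ?_
  unfold wn
  apply Finset.sum_le_sum
  intro e he
  rw [norm_mul, norm_prod]
  have h1 : ‖(algebraMap ℚ ℂ) (P.coeff e)‖ = |((P.coeff e : ℚ) : ℝ)| := by
    rw [eq_ratCast, ← Complex.ofReal_ratCast, Complex.norm_real, Real.norm_eq_abs]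
  rw [h1]
  apply mul_le_mul_of_nonneg_left _ (abs_nonneg _)
  rw [← Finset.prod_pow_eq_pow_sum]
  apply Finset.prod_le_prod
  · intro i _; positivity
  · intro i _
    rw [norm_pow]
    exact pow_le_pow_left₀ (norm_nonneg _) (hc i) _

end

end Pool.Agent.CMT.Rec
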