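import Pool.Agent.CMT.RHw
import Pool.Agent.CMT.RGro
import Pool.Agent.CMT.RSpl
import Pool.Agent.CMT.RWn

/-!
# CMT-RBd: growth of the solutions of the recursion

Majorants of the recursion and the lemma `growth`.
-/

set_option autoImplicit false
set_option linter.unusedSectionVars false

namespace Pool.Agent.CMT.Rec

open Finset

noncomputable section

variable {ι : Type} [Fintype ι] [DecidableEq ι] {Q : Type} [Fintype Q]

private theorem rbd_tm {r : ℝ} (hr : 0 ≤ r) (P : (ι →₀ ℕ) → MvPolynomial Q ℚ)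
    (p q : (ι →₀ ℕ) × (ι →₀ ℕ)) : wn r (tm P p q) ≤
      ((mb q.1 p.1 : ℝ) * (mb q.2 p.2 : ℝ)) * (wn r (P (q.1 + p.1)) * wn r (P (q.2 + p.2))) := by
  have e : tm P p q = MvPolynomial.C (((-1) ^ dg p.2 * ((mb q.1 p.1 : ℚ) * (mb q.2 p.2 : ℚ)))) *
      (P (q.1 + p.1) * P (q.2 + p.2)) := by
    unfold tm
    simp only [map_mul, map_pow, map_neg, map_one, map_natCast]
  rw [e]
  refine (wn_mul_le hr _ _).trans ?_
  rw [wn_C]
  have e2 : |(((-1) ^ dg p.2 * ((mb q.1 p.1 : ℚ) * (mb q.2 p.2 : ℚ)) : ℚ) : ℝ)| =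
      (mb q.1 p.1 : ℝ) * (mb q.2 p.2 : ℝ) := by
    push_cast
    rw [abs_mul, abs_pow, abs_neg, abs_one, one_pow, one_mul, abs_of_nonneg (by positivity)]
  rw [e2]
  exact mul_le_mul_of_nonneg_left (wn_mul_le hr _ _) (by positivity)

private theorem rbd_rs {r : ℝ} (hr : 0 ≤ r) (P : (ι →₀ ℕ) → MvPolynomial Q ℚ) (B C : ι →₀ ℕ) :
    wn r (rs B C P) ≤ (mb C B : ℝ) * ∑ m ∈ antidiagonal (B + C),
      (if m.1 = 0 ∨ m.2 = 0 then 0 else wn r (P m.1) * wn r (P m.2)) := by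
  rw [← van_sum B C (fun m => if m.1 = 0 ∨ m.2 = 0 then 0 else wn r (P m.1) * wn r (P m.2))]
  unfold rs
  refine (wn_sum_le hr _ _).trans (Finset.sum_le_sum fun p _ => ?_)
  refine (wn_sum_le hr _ _).trans (Finset.sum_le_sum fun q _ => ?_)
  by_cases h : q.1 + p.1 = 0 ∨ q.2 + p.2 = 0
  · rw [if_pos h, if_pos h, wn_zero, mul_zero]
  · rw [if_neg h, if_neg h]
    exact rbd_tm hr P p q

/-- majorant of `hc` -/
private def rbdZ (r : ℝ) (P : (ι →₀ ℕ) → MvPolynomial Q ℚ) (A B : ι →₀ ℕ) : ℝ :=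
  ∑ p ∈ antidiagonal A, ∑ q ∈ antidiagonal B,
    ((mb q.1 p.1 : ℝ) * (mb q.2 p.2 : ℝ)) * (wn r (P (q.1 + p.1)) * wn r (P (q.2 + p.2)))

private theorem rbdZ_nonneg {r : ℝ} (hr : 0 ≤ r) (P : (ι →₀ ℕ) → MvPolynomial Q ℚ)
    (A B : ι →₀ ℕ) : 0 ≤ rbdZ r P A B := by
  unfold rbdZ
  refine Finset.sum_nonneg fun p _ => Finset.sum_nonneg fun q _ => ?_
  have h1 := wn_nonneg hr (P (q.1 + p.1))
  have h2 := wn_nonneg hr (P (q.2 + p.2))
  positivity

private theorem rbd_hc {r : ℝ} (hr : 0 ≤ r) (P : (ι →₀ ℕ) → MvPolynomial Q ℚ) (A C : ι →₀ ℕ) :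
    wn r (hc A C P) ≤ rbdZ r P A C := by
  unfold hc rbdZ
  refine (wn_sum_le hr _ _).trans (Finset.sum_le_sum fun p _ => ?_)
  exact (wn_sum_le hr _ _).trans (Finset.sum_le_sum fun q _ => rbd_tm hr P p q)

private theorem rbd_Z_le {r : ℝ} (hr : 0 ≤ r) (P : (ι →₀ ℕ) → MvPolynomial Q ℚ) (A C : ι →₀ ℕ)
    {M b : ℕ} (hM : dg (A + C) ≤ M) (hb : dg A ≤ b) :
    rbdZ r P A C ≤ (((M : ℝ) + 1) ^ b * ((antidiagonal A).card : ℝ)) *
      ∑ m ∈ antidiagonal (A + C), wn r (P m.1) * wn r (P m.2) := by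
  have hM1 : (1 : ℝ) ≤ (M : ℝ) + 1 := by
    have : (0 : ℝ) ≤ M := Nat.cast_nonneg M
    linarith
  have h1 : ∀ p ∈ antidiagonal A, ∑ q ∈ antidiagonal C,
      ((mb q.1 p.1 : ℝ) * (mb q.2 p.2 : ℝ)) * (wn r (P (q.1 + p.1)) * wn r (P (q.2 + p.2))) ≤
      ((M : ℝ) + 1) ^ b * ∑ m ∈ antidiagonal (A + C), wn r (P m.1) * wn r (P m.2) := by
    intro p hp
    have hp' := HasAntidiagonal.mem_antidiagonal.1 hp
    have h2 : ∀ q ∈ antidiagonal C,
        ((mb q.1 p.1 : ℝ) * (mb q.2 p.2 : ℝ)) * (wn r (P (q.1 + p.1)) * wn r (P (q.2 + p.2))) ≤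
        ((M : ℝ) + 1) ^ b * (wn r (P (q.1 + p.1)) * wn r (P (q.2 + p.2))) := by
      intro q hq
      have hq' := HasAntidiagonal.mem_antidiagonal.1 hq
      refine mul_le_mul_of_nonneg_right ?_ (mul_nonneg (wn_nonneg hr _) (wn_nonneg hr _))
      have hs : (q.1 + p.1) + (q.2 + p.2) = A + C := by
        rw [← hp', ← hq']
        abel
      have hd : dg (q.1 + p.1) + dg (q.2 + p.2) = dg (A + C) := by rw [← dg_add, hs]
      have e1 : mb q.1 p.1 ≤ (M + 1) ^ dg p.1 :=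
        (mb_le_pow _ _).trans (Nat.pow_le_pow_left (by omega) _)
      have e2 : mb q.2 p.2 ≤ (M + 1) ^ dg p.2 :=
        (mb_le_pow _ _).trans (Nat.pow_le_pow_left (by omega) _)
      have e3 : mb q.1 p.1 * mb q.2 p.2 ≤ (M + 1) ^ b := by
        refine (Nat.mul_le_mul e1 e2).trans ?_
        rw [← pow_add, ← dg_add, hp']
        exact Nat.pow_le_pow_right (Nat.succ_pos M) hb
      exact_mod_cast e3
    refine (Finset.sum_le_sum h2).trans ?_
    rw [← Finset.mul_sum]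
    refine mul_le_mul_of_nonneg_left ?_ (by positivity)
    exact inj_sum A C p hp (fun m => wn r (P m.1) * wn r (P m.2))
      (fun m => mul_nonneg (wn_nonneg hr _) (wn_nonneg hr _))
  unfold rbdZ
  refine (Finset.sum_le_sum h1).trans ?_
  rw [Finset.sum_const, nsmul_eq_mul]
  apply le_of_eq
  ring

theorem sol_growth {a K : ℕ} {sp : (ι →₀ ℕ) → (ι →₀ ℕ)} (hsp : Spl a K sp) {S : Finset (ι →₀ ℕ)}
    (ha : ∀ A ∈ S, dg A ≤ a) {jg : (ι →₀ ℕ) → (ι →₀ ℕ) → Q} {jf : (ι →₀ ℕ) → Q}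
    {P : (ι →₀ ℕ) → MvPolynomial Q ℚ} (hP : Sol a sp S jg jf P) (r : ℝ) (hr : 1 ≤ r) :
    ∃ ρ : ℝ, 1 ≤ ρ ∧ ∀ n, wn r (P n) ≤ ρ ^ (dg n + 1) := by
  have hr0 : 0 ≤ r := by linarith
  have hab := b0_gt a
  have hb2 := b0_le a
  obtain ⟨K1, hK1⟩ : ∃ K1 : ℝ, K1 = ∑ B' ∈ Finset.finsuppAntidiag (univ : Finset ι) (b0 a),
    ∑ A' ∈ S, rbdZ r P A' B' := ⟨_, rfl⟩
  obtain ⟨K2, hK2⟩ : ∃ K2 : ℝ, K2 = ∑ A ∈ S, ((antidiagonal A).card : ℝ) := ⟨_, rfl⟩
  have hK10 : 0 ≤ K1 := by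
    rw [hK1]
    exact Finset.sum_nonneg fun B _ => Finset.sum_nonneg fun A _ => rbdZ_nonneg hr0 P A B
  have hK20 : 0 ≤ K2 := by
    rw [hK2]
    positivity
  have hZ : ∀ A' ∈ S, ∀ B : ι →₀ ℕ, dg B = b0 a → rbdZ r P A' B ≤ K1 := by
    intro A' hA' B hB
    have hmem : B ∈ Finset.finsuppAntidiag (univ : Finset ι) (b0 a) := by
      rw [Finset.mem_finsuppAntidiag]
      exact ⟨hB, Finset.subset_univ _⟩
    rw [hK1]
    refine le_trans ?_ (Finset.single_le_sum (f := fun B' => ∑ A' ∈ S, rbdZ r P A' B')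
      (fun B' _ => Finset.sum_nonneg fun A _ => rbdZ_nonneg hr0 P A B') hmem)
    exact Finset.single_le_sum (f := fun A' => rbdZ r P A' B)
      (fun A _ => rbdZ_nonneg hr0 P A B) hA'
  refine growth (fun n => wn r (P n)) (fun n => wn_nonneg hr0 _) ?_ a (b0 a) (2 * a + 4) hab
    (by omega) (r * K1 * K * S.card * K2) (by positivity) S ha ?_
  · show wn r (P 0) = 1
    rw [hP 0]
    unfold Fr
    rw [if_pos rfl, wn_one]
  · intro n hn
    obtain ⟨h1, h2, h3⟩ := hsp n hn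
    refine ⟨sp n, h1, h2, ?_⟩
    show wn r (P n) ≤ 1 / 2 * (∑ p ∈ antidiagonal n,
      if p.1 = 0 ∨ p.2 = 0 then 0 else wn r (P p.1) * wn r (P p.2)) +
      (r * K1 * K * S.card * K2) * ∑ A ∈ S, ∑ p ∈ antidiagonal (A + (n - sp n)),
        wn r (P p.1) * wn r (P p.2)
    obtain ⟨C, hC⟩ : ∃ C : ι →₀ ℕ, C = n - sp n := ⟨_, rfl⟩
    obtain ⟨B, hB⟩ : ∃ B : ι →₀ ℕ, B = sp n := ⟨_, rfl⟩
    have hBC : B + C = n := by
      rw [hB, hC]
      exact add_tsub_cancel_of_le h1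
    have hdBC : dg B + dg C = dg n := by rw [← dg_add, hBC]
    have hdB : dg B = b0 a := by rw [hB]; exact h2
    rw [← hC]
    rw [← hC, ← hB] at h3
    obtain ⟨T, hT⟩ : ∃ T : (ι →₀ ℕ) → ℝ, T = fun A => ∑ p ∈ antidiagonal (A + C),
      wn r (P p.1) * wn r (P p.2) := ⟨_, rfl⟩
    have hT0 : ∀ A, 0 ≤ T A := by
      intro A
      rw [hT]
      exact Finset.sum_nonneg fun p _ => mul_nonneg (wn_nonneg hr0 _) (wn_nonneg hr0 _)
    obtain ⟨G, hG⟩ : ∃ G : ℝ, G = ∑ p ∈ antidiagonal n,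
      (if p.1 = 0 ∨ p.2 = 0 then (0 : ℝ) else wn r (P p.1) * wn r (P p.2)) := ⟨_, rfl⟩
    have hG0 : 0 ≤ G := by
      rw [hG]
      refine Finset.sum_nonneg fun p _ => ?_
      split_ifs
      · exact le_rfl
      · exact mul_nonneg (wn_nonneg hr0 _) (wn_nonneg hr0 _)
    have hTs : ∑ A ∈ S, ∑ p ∈ antidiagonal (A + C), wn r (P p.1) * wn r (P p.2) =
        ∑ A ∈ S, T A := by rw [hT]
    rw [hTs, ← hG]
    have hST : 0 ≤ ∑ A ∈ S, T A := Finset.sum_nonneg fun A _ => hT0 A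
    have hn0 : n ≠ 0 := by
      intro h
      rw [h, dg_zero] at hn
      omega
    have hPn := hP n
    unfold Fr at hPn
    rw [if_neg hn0, if_neg (by omega : ¬ dg n ≤ 2 * a + 4)] at hPn
    by_cases he : Even (dg n)
    · rw [if_neg (not_not.2 he), ← hC, ← hB] at hPn
      have hm : (1 : ℝ) ≤ (mb C B : ℝ) := by
        have := mb_pos C B
        exact_mod_cast this
      have hm0 : (0 : ℝ) < (mb C B : ℝ) := by linarith
      have hbn : ((dg n : ℝ) + 1) ^ b0 a ≤ (K : ℝ) * (mb C B : ℝ) := by exact_mod_cast h3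
      -- the second part
      have hA : ∀ A ∈ S, wn r (hc A C P) ≤ ((K : ℝ) * (mb C B : ℝ) * K2) * T A := by
        intro A hA
        have hdA := ha A hA
        refine (rbd_hc hr0 P A C).trans ?_
        refine (rbd_Z_le hr0 P A C (M := dg n) (b := b0 a) ?_ (by omega)).trans ?_
        · rw [dg_add]
          omega
        · have e1 : (∑ m ∈ antidiagonal (A + C), wn r (P m.1) * wn r (P m.2)) = T A := by rw [hT]
          rw [e1]
          refine mul_le_mul_of_nonneg_right ?_ (hT0 A)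
          refine mul_le_mul hbn ?_ (by positivity) (by positivity)
          rw [hK2]
          exact Finset.single_le_sum (f := fun A => ((antidiagonal A).card : ℝ))
            (fun A _ => by positivity) hA
      have hsum : wn r (∑ A ∈ S, ∑ A' ∈ S, MvPolynomial.X (jg A A') *
          (hc A' B P * hc A C P) : MvPolynomial Q ℚ) ≤
          (r * K1 * K * S.card * K2) * (mb C B : ℝ) * ∑ A ∈ S, T A := by
        refine (wn_sum_le hr0 _ _).trans ?_
        rw [Finset.mul_sum]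
        refine Finset.sum_le_sum fun A hAS => ?_
        refine (wn_sum_le hr0 _ _).trans ?_
        have h5 : ∀ A' ∈ S, wn r (MvPolynomial.X (jg A A') * (hc A' B P * hc A C P) :
            MvPolynomial Q ℚ) ≤ r * (K1 * (((K : ℝ) * (mb C B : ℝ) * K2) * T A)) := by
          intro A' hA'
          refine (wn_mul_le hr0 _ _).trans ?_
          rw [wn_X]
          refine mul_le_mul_of_nonneg_left ?_ hr0
          refine (wn_mul_le hr0 _ _).trans ?_
          exact mul_le_mul ((rbd_hc hr0 P A' B).trans (hZ A' hA' B hdB)) (hA A hAS)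
            (wn_nonneg hr0 _) hK10
        refine (Finset.sum_le_sum h5).trans ?_
        rw [Finset.sum_const, nsmul_eq_mul]
        apply le_of_eq
        ring
      have hrs : wn r (rs B C P) ≤ (mb C B : ℝ) * G := by
        have h6 := rbd_rs hr0 P B C
        rw [hBC, ← hG] at h6
        exact h6
      rw [hPn]
      refine (wn_mul_le hr0 _ _).trans ?_
      rw [wn_C]
      have e7 : |((((2 * (mb C B : ℚ))⁻¹ : ℚ)) : ℝ)| = (2 * (mb C B : ℝ))⁻¹ := by
        push_cast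
        rw [abs_of_nonneg (by positivity)]
      rw [e7]
      have h8 := (wn_sub_le hr0 (∑ A ∈ S, ∑ A' ∈ S, MvPolynomial.X (jg A A') *
          (hc A' B P * hc A C P) : MvPolynomial Q ℚ) (rs B C P)).trans (add_le_add hsum hrs)
      refine (mul_le_mul_of_nonneg_left h8 (by positivity)).trans ?_
      have e9 : (2 * (mb C B : ℝ))⁻¹ * ((r * K1 * K * S.card * K2) * (mb C B : ℝ) *
          (∑ A ∈ S, T A) + (mb C B : ℝ) * G) =
          1 / 2 * G + 1 / 2 * ((r * K1 * K * S.card * K2) * ∑ A ∈ S, T A) := by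
        field_simp
        ring
      rw [e9]
      have h10 : 0 ≤ (r * K1 * K * S.card * K2) * ∑ A ∈ S, T A := by positivity
      linarith
    · rw [if_pos he] at hPn
      rw [hPn, wn_zero]
      positivity

end

end Pool.Agent.CMT.Rec
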