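import Pool.Agent.CMT.Defs

/-!
# CMT block R: the recursion for the Taylor coefficients

`f(X+Y) f(X-Y) = ∑ γ_{AA'} w_A(X) w_{A'}(Y)` at the coefficient `X^C Y^B`, `|B|` even, `B + C = n`:
`2 binom(n, B) φ_n + (terms φ_D φ_D', D + D' = n, D, D' ≠ 0) = ∑ γ_{AA'} (coeff B w_A') (coeff C w_A)`.
We always take `|B| = b0 a` (even, `a < b0 a ≤ a + 2`, `a ≥ |A|` for all `A ∈ S`), so `coeff B w_A'`
contains only coefficients of order `≤ 2a + 2` and `coeff C w_A` only coefficients of order `< |n|`.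
-/

set_option autoImplicit false
set_option linter.unusedSectionVars false

namespace Pool.Agent.CMT.Rec

open Finset MvPowerSeries

noncomputable section

variable {ι : Type} [Fintype ι] [DecidableEq ι]

section Ring

variable {R : Type} [CommRing R]

/-- one term of the coefficient of `X^C` in `hw A φ`: `p ∈ antidiagonal A`, `q ∈ antidiagonal C` -/
def tm (u : (ι →₀ ℕ) → R) (p q : (ι →₀ ℕ) × (ι →₀ ℕ)) : R :=
  (-1) ^ dg p.2 * ((mb q.1 p.1 : R) * (mb q.2 p.2 : R)) * (u (q.1 + p.1) * u (q.2 + p.2))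

/-- the coefficient of `X^C` in `hw A φ`, `u n = coeff n φ` -/
def hc (A C : ι →₀ ℕ) (u : (ι →₀ ℕ) → R) : R :=
  ∑ p ∈ antidiagonal A, ∑ q ∈ antidiagonal C, tm u p q

/-- the same sum without the two extreme terms -/
def rs (A C : ι →₀ ℕ) (u : (ι →₀ ℕ) → R) : R :=
  ∑ p ∈ antidiagonal A, ∑ q ∈ antidiagonal C,
    if q.1 + p.1 = 0 ∨ q.2 + p.2 = 0 then 0 else tm u p q

end Ring

/-- the even number among `a + 1`, `a + 2` -/
def b0 (a : ℕ) : ℕ := 2 * ((a + 2) / 2)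

/-- the splitting `n = sp n + (n - sp n)` -/
def Spl (a K : ℕ) (sp : (ι →₀ ℕ) → (ι →₀ ℕ)) : Prop :=
  ∀ n : ι →₀ ℕ, 2 * a + 4 < dg n → sp n ≤ n ∧ dg (sp n) = b0 a ∧
    (dg n + 1) ^ b0 a ≤ K * mb (n - sp n) (sp n)

variable {Q : Type} [Fintype Q]

/-- the right hand side of the recursion -/
def Fr (a : ℕ) (sp : (ι →₀ ℕ) → (ι →₀ ℕ)) (S : Finset (ι →₀ ℕ))
    (jg : (ι →₀ ℕ) → (ι →₀ ℕ) → Q) (jf : (ι →₀ ℕ) → Q) (n : ι →₀ ℕ)
    (u : (ι →₀ ℕ) → MvPolynomial Q ℚ) : MvPolynomial Q ℚ :=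
  if n = 0 then 1 else if dg n ≤ 2 * a + 4 then MvPolynomial.X (jf n) else
  if ¬ Even (dg n) then 0 else
    MvPolynomial.C ((2 * (mb (n - sp n) (sp n) : ℚ))⁻¹) *
      ((∑ A ∈ S, ∑ A' ∈ S, MvPolynomial.X (jg A A') * (hc A' (sp n) u * hc A (n - sp n) u)) -
        rs (sp n) (n - sp n) u)

/-- `P` solves the recursion -/
def Sol (a : ℕ) (sp : (ι →₀ ℕ) → (ι →₀ ℕ)) (S : Finset (ι →₀ ℕ))
    (jg : (ι →₀ ℕ) → (ι →₀ ℕ) → Q) (jf : (ι →₀ ℕ) → Q)
    (P : (ι →₀ ℕ) → MvPolynomial Q ℚ) : Prop := ∀ n, P n = Fr a sp S jg jf n P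

theorem b0_gt (a : ℕ) : a < b0 a := by unfold b0; omega

theorem b0_le (a : ℕ) : b0 a ≤ a + 2 := by unfold b0; omega

theorem b0_even (a : ℕ) : Even (b0 a) := ⟨(a + 2) / 2, by unfold b0; ring⟩

theorem dg_add (m n : ι →₀ ℕ) : dg (m + n) = dg m + dg n := by
  simp [dg, Finset.sum_add_distrib]

theorem dg_zero : dg (0 : ι →₀ ℕ) = 0 := by simp [dg]

theorem dg_eq_zero {n : ι →₀ ℕ} : dg n = 0 ↔ n = 0 := by
  constructor
  · intro h
    ext i
    have := (Finset.sum_eq_zero_iff.1 h) i (mem_univ i)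
    simpa using this
  · rintro rfl
    exact dg_zero

theorem dg_pos {n : ι →₀ ℕ} : 0 < dg n ↔ n ≠ 0 := by
  rw [Nat.pos_iff_ne_zero, ne_eq, dg_eq_zero]

theorem dg_le {m n : ι →₀ ℕ} (h : m ≤ n) : dg m ≤ dg n :=
  Finset.sum_le_sum fun i _ => h i

theorem dg_sub {m n : ι →₀ ℕ} (h : m ≤ n) : dg (n - m) + dg m = dg n := by
  rw [← dg_add, tsub_add_cancel_of_le h]

/-- recursion on `dg` -/
theorem exists_rec {α : Type} (x0 : α) (F : (ι →₀ ℕ) → ((ι →₀ ℕ) → α) → α)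
    (h : ∀ n f g, (∀ m, dg m < dg n → f m = g m) → F n f = F n g) :
    ∃ f : (ι →₀ ℕ) → α, ∀ n, f n = F n f := by
  let G : ℕ → (ι →₀ ℕ) → α := fun k => Nat.rec (fun _ => x0) (fun _ f n => F n f) k
  have hG : ∀ k n, G (k + 1) n = F n (G k) := fun k n => rfl
  have key : ∀ d : ℕ, ∀ n : ι →₀ ℕ, dg n = d → ∀ k, d < k → G k n = G (d + 1) n := by
    intro d
    induction d using Nat.strong_induction_on with
    | _ d ih =>
      intro n hn k hk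
      obtain ⟨k', rfl⟩ : ∃ k', k = k' + 1 := ⟨k - 1, by omega⟩
      rw [hG, hG]
      refine h n _ _ fun m hm => ?_
      rw [ih (dg m) (by omega) m rfl k' (by omega), ih (dg m) (by omega) m rfl d (by omega)]
  refine ⟨fun n => G (dg n + 1) n, fun n => ?_⟩
  show G (dg n + 1) n = _
  rw [hG]
  refine h n _ _ fun m hm => ?_
  exact key (dg m) m rfl (dg n) hm

end

end Pool.Agent.CMT.Rec
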