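import Pool.Agent.CMT.RSpl

/-!
# CMT-RDen: denominators of the solutions of the recursion
-/

set_option autoImplicit false
set_option linter.unusedSectionVars false

namespace Pool.Agent.CMT.Rec

open Finset

noncomputable section

variable {ι : Type} [Fintype ι] [DecidableEq ι] {Q : Type} [Fintype Q]

/-- the subring of the integral polynomials -/
private def rd_I (Q : Type) : Subring (MvPolynomial Q ℚ) :=
  (MvPolynomial.map (Int.castRingHom ℚ)).range

private theorem rd_nat (n : ℕ) : (n : MvPolynomial Q ℚ) ∈ rd_I Q := natCast_mem _ n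

private theorem rd_X (q : Q) : (MvPolynomial.X q : MvPolynomial Q ℚ) ∈ rd_I Q :=
  ⟨MvPolynomial.X q, MvPolynomial.map_X _ _⟩

private theorem rd_tm (u : (ι →₀ ℕ) → MvPolynomial Q ℚ) (E : ℕ)
    (p q : (ι →₀ ℕ) × (ι →₀ ℕ)) :
    ((E * (fac (p.1 + p.2) * fac (q.1 + q.2)) : ℕ) : MvPolynomial Q ℚ) * tm u p q =
      (-1) ^ dg p.2 * ((mb p.1 p.2 * mb q.1 q.2 : ℕ) : MvPolynomial Q ℚ) *
        (((E * (fac (q.1 + p.1) * fac (q.2 + p.2)) : ℕ) : MvPolynomial Q ℚ) *
          (u (q.1 + p.1) * u (q.2 + p.2))) := by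
  have h1 : fac (p.1 + p.2) * fac (q.1 + q.2) * (mb q.1 p.1 * mb q.2 p.2) =
      mb p.1 p.2 * mb q.1 q.2 * (fac (q.1 + p.1) * fac (q.2 + p.2)) := by
    rw [fac_add p.1 p.2, fac_add q.1 q.2, fac_add q.1 p.1, fac_add q.2 p.2]
    ring
  have h2 := congrArg (Nat.cast : ℕ → MvPolynomial Q ℚ) h1
  unfold tm
  push_cast at h2 ⊢
  linear_combination ((E : MvPolynomial Q ℚ) * (-1) ^ dg p.2 *
    (u (q.1 + p.1) * u (q.2 + p.2))) * h2

private theorem rd_tm_mem {u : (ι →₀ ℕ) → MvPolynomial Q ℚ} {E : ℕ}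
    {p q : (ι →₀ ℕ) × (ι →₀ ℕ)}
    (h : ((E * (fac (q.1 + p.1) * fac (q.2 + p.2)) : ℕ) : MvPolynomial Q ℚ) *
      (u (q.1 + p.1) * u (q.2 + p.2)) ∈ rd_I Q) :
    ((E * (fac (p.1 + p.2) * fac (q.1 + q.2)) : ℕ) : MvPolynomial Q ℚ) * tm u p q ∈ rd_I Q := by
  rw [rd_tm]
  exact mul_mem (mul_mem (pow_mem (neg_mem (one_mem _)) _) (rd_nat _)) h

private theorem rd_hc {u : (ι →₀ ℕ) → MvPolynomial Q ℚ} {E : ℕ} {A C : ι →₀ ℕ}
    (h : ∀ x y, x + y = A + C →
      ((E * (fac x * fac y) : ℕ) : MvPolynomial Q ℚ) * (u x * u y) ∈ rd_I Q) :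
    ((E * (fac A * fac C) : ℕ) : MvPolynomial Q ℚ) * hc A C u ∈ rd_I Q := by
  unfold hc
  rw [Finset.mul_sum]
  refine sum_mem fun p hp => ?_
  rw [Finset.mul_sum]
  refine sum_mem fun q hq => ?_
  rw [HasAntidiagonal.mem_antidiagonal] at hp hq
  rw [← hp, ← hq]
  refine rd_tm_mem (h _ _ ?_)
  rw [← hp, ← hq]
  abel

private theorem rd_rs {u : (ι →₀ ℕ) → MvPolynomial Q ℚ} {E : ℕ} {A C : ι →₀ ℕ}
    (h : ∀ x y, x + y = A + C → x ≠ 0 → y ≠ 0 →
      ((E * (fac x * fac y) : ℕ) : MvPolynomial Q ℚ) * (u x * u y) ∈ rd_I Q) :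
    ((E * (fac A * fac C) : ℕ) : MvPolynomial Q ℚ) * rs A C u ∈ rd_I Q := by
  unfold rs
  rw [Finset.mul_sum]
  refine sum_mem fun p hp => ?_
  rw [Finset.mul_sum]
  refine sum_mem fun q hq => ?_
  rw [HasAntidiagonal.mem_antidiagonal] at hp hq
  split_ifs with h1
  · rw [mul_zero]
    exact zero_mem _
  · rw [not_or] at h1
    rw [← hp, ← hq]
    refine rd_tm_mem (h _ _ ?_ h1.1 h1.2)
    rw [← hp, ← hq]
    abel

theorem sol_int {a K : ℕ} {sp : (ι →₀ ℕ) → (ι →₀ ℕ)} (hsp : Spl a K sp) {S : Finset (ι →₀ ℕ)}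
    (ha : ∀ A ∈ S, dg A ≤ a) {jg : (ι →₀ ℕ) → (ι →₀ ℕ) → Q} {jf : (ι →₀ ℕ) → Q}
    {P : (ι →₀ ℕ) → MvPolynomial Q ℚ} (hP : Sol a sp S jg jf P) :
    ∃ d : ℕ, 0 < d ∧ ∀ n, ∃ P' : MvPolynomial Q ℤ,
      MvPolynomial.map (Int.castRingHom ℚ) P' =
        MvPolynomial.C ((d : ℚ) ^ (dg n + 1) * fac n) * P n := by
  obtain ⟨Δ, hΔ⟩ : ∃ Δ : ℕ, Δ = (∏ A ∈ S, fac A) ^ 2 := ⟨_, rfl⟩
  have hΔ0 : 0 < Δ := by
    rw [hΔ]
    exact pow_pos (Finset.prod_pos fun A _ => fac_pos A) 2
  obtain ⟨d, hd⟩ : ∃ d : ℕ, d = 2 * Δ := ⟨_, rfl⟩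
  have hd0 : 0 < d := by omega
  -- initial values
  have hI : ∀ x : ι →₀ ℕ, dg x ≤ 2 * a + 4 → ((fac x : ℕ) : MvPolynomial Q ℚ) * P x ∈ rd_I Q := by
    intro x hx
    refine mul_mem (rd_nat _) ?_
    rw [hP x]
    unfold Fr
    by_cases h0 : x = 0
    · rw [if_pos h0]
      exact one_mem _
    · rw [if_neg h0, if_pos hx]
      exact rd_X _
  have key : ∀ N : ℕ, ∀ n : ι →₀ ℕ, dg n = N →
      ((d ^ (dg n - 1) * fac n : ℕ) : MvPolynomial Q ℚ) * P n ∈ rd_I Q := by
    intro N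
    induction N using Nat.strong_induction_on with
    | _ N ih =>
      intro n hn
      rcases Nat.lt_or_ge (2 * a + 4) (dg n) with hlt | hle
      swap
      · rw [Nat.cast_mul, mul_assoc]
        exact mul_mem (rd_nat _) (hI n hle)
      have hn0 : n ≠ 0 := by
        rintro rfl
        rw [dg_zero] at hlt
        omega
      by_cases hev : Even (dg n)
      swap
      · have h1 : P n = 0 := by
          rw [hP n]
          unfold Fr
          rw [if_neg hn0, if_neg (by omega), if_pos hev]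
        rw [h1, mul_zero]
        exact zero_mem _
      obtain ⟨hB1, hB2, _⟩ := hsp n hlt
      have hb1 := b0_gt a
      have hb2 := b0_le a
      have hJ : ∀ x : ι →₀ ℕ, dg x < N → ∀ e, dg x - 1 ≤ e →
          ((d ^ e * fac x : ℕ) : MvPolynomial Q ℚ) * P x ∈ rd_I Q := by
        intro x hx e he
        obtain ⟨k, rfl⟩ : ∃ k, e = k + (dg x - 1) := ⟨e - (dg x - 1), by omega⟩
        rw [pow_add, mul_assoc, Nat.cast_mul, mul_assoc]
        exact mul_mem (rd_nat _) (ih (dg x) hx x rfl)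
      obtain ⟨B, hB⟩ : ∃ B, B = sp n := ⟨_, rfl⟩
      obtain ⟨C', hC⟩ : ∃ C', C' = n - sp n := ⟨_, rfl⟩
      have hCB : C' + B = n := by rw [hB, hC, tsub_add_cancel_of_le hB1]
      have hdg : dg C' + dg B = N := by rw [← dg_add, hCB, hn]
      have hdB : dg B = b0 a := by rw [hB, hB2]
      have hPn : P n = MvPolynomial.C ((2 * (mb C' B : ℚ))⁻¹) *
          ((∑ A ∈ S, ∑ A' ∈ S, MvPolynomial.X (jg A A') * (hc A' B P * hc A C' P)) -
            rs B C' P) := by
        rw [hP n]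
        unfold Fr
        rw [if_neg hn0, if_neg (by omega), if_neg (not_not.2 hev), hB, hC]
      -- the two kinds of terms
      have hrs : ((d ^ (N - 2) * Δ * (fac B * fac C') : ℕ) : MvPolynomial Q ℚ) * rs B C' P ∈
          rd_I Q := by
        refine rd_rs fun x y hxy hx0 hy0 => ?_
        have h1 : dg x + dg y = N := by
          rw [← dg_add, hxy, dg_add]
          omega
        have h2 := dg_pos.2 hx0
        have h3 := dg_pos.2 hy0
        have h4 : N - 2 = (dg x - 1) + (dg y - 1) := by omega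
        have h5 := ih (dg x) (by omega) x rfl
        have h6 := ih (dg y) (by omega) y rfl
        have h7 : ((d ^ (N - 2) * Δ * (fac x * fac y) : ℕ) : MvPolynomial Q ℚ) * (P x * P y) =
            (Δ : MvPolynomial Q ℚ) *
            ((((d ^ (dg x - 1) * fac x : ℕ) : MvPolynomial Q ℚ) * P x) *
            (((d ^ (dg y - 1) * fac y : ℕ) : MvPolynomial Q ℚ) * P y)) := by
          rw [h4, pow_add]
          push_cast
          ring
        rw [h7]
        exact mul_mem (rd_nat _) (mul_mem h5 h6)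
      have hprod : ∀ A ∈ S, ∀ A' ∈ S,
          ((d ^ (N - 2) * Δ * (fac B * fac C') : ℕ) : MvPolynomial Q ℚ) *
            (MvPolynomial.X (jg A A') * (hc A' B P * hc A C' P)) ∈ rd_I Q := by
        intro A hA A' hA'
        obtain ⟨Δ', hΔ'⟩ : fac A * fac A' ∣ Δ := by
          rw [hΔ, sq]
          exact mul_dvd_mul (Finset.dvd_prod_of_mem fac hA) (Finset.dvd_prod_of_mem fac hA')
        have h1 : ((1 * (fac A' * fac B) : ℕ) : MvPolynomial Q ℚ) * hc A' B P ∈ rd_I Q := by
          refine rd_hc fun x y hxy => ?_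
          have h2 : dg x + dg y = dg A' + dg B := by rw [← dg_add, hxy, dg_add]
          have h3 := ha A' hA'
          have h4 : ((1 * (fac x * fac y) : ℕ) : MvPolynomial Q ℚ) * (P x * P y) =
              (((fac x : ℕ) : MvPolynomial Q ℚ) * P x) *
              (((fac y : ℕ) : MvPolynomial Q ℚ) * P y) := by
            push_cast
            ring
          rw [h4]
          exact mul_mem (hI x (by omega)) (hI y (by omega))
        have h2 : ((d ^ (N - 2) * (fac A * fac C') : ℕ) : MvPolynomial Q ℚ) * hc A C' P ∈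
            rd_I Q := by
          refine rd_hc fun x y hxy => ?_
          have h2 : dg x + dg y = dg A + dg C' := by rw [← dg_add, hxy, dg_add]
          have h3 := ha A hA
          obtain ⟨e, he1, he2⟩ : ∃ e, dg x - 1 ≤ e ∧ e + (dg y - 1) ≤ N - 2 :=
            ⟨dg x - 1, le_rfl, by omega⟩
          obtain ⟨e', he'⟩ : ∃ e', N - 2 = e + e' := ⟨N - 2 - e, by omega⟩
          have h5 := hJ x (by omega) e he1
          have h6 := hJ y (by omega) e' (by omega)
          have h7 : ((d ^ (N - 2) * (fac x * fac y) : ℕ) : MvPolynomial Q ℚ) * (P x * P y) =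
              (((d ^ e * fac x : ℕ) : MvPolynomial Q ℚ) * P x) *
              (((d ^ e' * fac y : ℕ) : MvPolynomial Q ℚ) * P y) := by
            rw [he', pow_add]
            push_cast
            ring
          rw [h7]
          exact mul_mem h5 h6
        have h3 : ((d ^ (N - 2) * Δ * (fac B * fac C') : ℕ) : MvPolynomial Q ℚ) *
            (MvPolynomial.X (jg A A') * (hc A' B P * hc A C' P)) =
            (Δ' : MvPolynomial Q ℚ) * MvPolynomial.X (jg A A') *
            ((((1 * (fac A' * fac B) : ℕ) : MvPolynomial Q ℚ) * hc A' B P) *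
            (((d ^ (N - 2) * (fac A * fac C') : ℕ) : MvPolynomial Q ℚ) * hc A C' P)) := by
          rw [hΔ']
          push_cast
          ring
        rw [h3]
        exact mul_mem (mul_mem (rd_nat _) (rd_X _)) (mul_mem h1 h2)
      have hscal : ∀ Z : MvPolynomial Q ℚ, ((d ^ (dg n - 1) * fac n : ℕ) : MvPolynomial Q ℚ) *
          (MvPolynomial.C ((2 * (mb C' B : ℚ))⁻¹) * Z) =
          ((d ^ (N - 2) * Δ * (fac B * fac C') : ℕ) : MvPolynomial Q ℚ) * Z := by
        intro Z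
        rw [← mul_assoc]
        congr 1
        have h1 : (mb C' B : ℚ) ≠ 0 := by
          exact_mod_cast (mb_pos C' B).ne'
        have h2 : (((d ^ (dg n - 1) * fac n : ℕ) : ℚ)) * (2 * (mb C' B : ℚ))⁻¹ =
            ((d ^ (N - 2) * Δ * (fac B * fac C') : ℕ) : ℚ) := by
          have h3 : dg n - 1 = (N - 2) + 1 := by omega
          have h4 : d ^ (dg n - 1) * fac n =
              (d ^ (N - 2) * Δ * (fac B * fac C')) * (2 * mb C' B) := by
            rw [h3, pow_succ, ← hCB, fac_add, hd]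
            ring
          rw [h4]
          push_cast
          field_simp
        have h5 := congrArg (MvPolynomial.C (σ := Q)) h2
        rw [map_mul, map_natCast, map_natCast] at h5
        exact h5
      rw [hPn, hscal, mul_sub, Finset.mul_sum]
      refine sub_mem (sum_mem fun A hA => ?_) hrs
      rw [Finset.mul_sum]
      exact sum_mem fun A' hA' => hprod A hA A' hA'
  refine ⟨d, hd0, fun n => ?_⟩
  have h1 : MvPolynomial.C ((d : ℚ) ^ (dg n + 1) * fac n) * P n ∈ rd_I Q := by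
    obtain ⟨k, hk⟩ : ∃ k, dg n + 1 = k + (dg n - 1) := ⟨dg n + 1 - (dg n - 1), by omega⟩
    have h2 : MvPolynomial.C ((d : ℚ) ^ (dg n + 1) * fac n) * P n =
        ((d ^ k : ℕ) : MvPolynomial Q ℚ) *
          (((d ^ (dg n - 1) * fac n : ℕ) : MvPolynomial Q ℚ) * P n) := by
      rw [hk, pow_add]
      simp only [map_mul, map_pow, map_natCast]
      push_cast
      ring
    rw [h2]
    exact mul_mem (rd_nat _) (key (dg n) n rfl)
  exact h1

end

end Pool.Agent.CMT.Rec
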