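import Pool.Agent.CMT.RHw
import Pool.Agent.CMT.RVan

/-!
# CMT-RDup: the duplication formula `φ(2X) = ∑ γ_{AA'} w_A(X) w_{A'}(X)`
-/

set_option autoImplicit false
set_option linter.unusedSectionVars false

namespace Pool.Agent.CMT

open Finset MvPowerSeries

noncomputable section

variable {ι : Type} [Fintype ι] [DecidableEq ι] {R : Type} [CommRing R]

/-- regrouping of the index set -/
private theorem rdup_regroup (n : ι →₀ ℕ)
    (F : (ι →₀ ℕ) × (ι →₀ ℕ) → (ι →₀ ℕ) × (ι →₀ ℕ) → R) :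
    ∑ m ∈ antidiagonal n, ∑ p ∈ antidiagonal m.2, ∑ q ∈ antidiagonal m.1, F p q =
      ∑ M ∈ antidiagonal n, ∑ s ∈ antidiagonal M.1, ∑ t ∈ antidiagonal M.2,
        F (s.2, t.2) (s.1, t.1) := by
  rw [Finset.sum_sigma', Finset.sum_sigma', Finset.sum_sigma', Finset.sum_sigma']
  refine Finset.sum_nbij'
    (fun x => ⟨⟨(x.2.1 + x.1.2.1, x.2.2 + x.1.2.2), (x.2.1, x.1.2.1)⟩, (x.2.2, x.1.2.2)⟩)
    (fun x => ⟨⟨(x.1.2.1 + x.2.1, x.1.2.2 + x.2.2), (x.1.2.2, x.2.2)⟩, (x.1.2.1, x.2.1)⟩)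
    ?_ ?_ ?_ ?_ ?_
  · rintro ⟨⟨⟨m1, m2⟩, ⟨p1, p2⟩⟩, ⟨q1, q2⟩⟩ hx
    simp only [Finset.mem_sigma, HasAntidiagonal.mem_antidiagonal] at hx ⊢
    obtain ⟨⟨h1, h2⟩, h3⟩ := hx
    refine ⟨⟨?_, trivial⟩, trivial⟩
    rw [← h1, ← h2, ← h3]
    abel
  · rintro ⟨⟨⟨m1, m2⟩, ⟨p1, p2⟩⟩, ⟨q1, q2⟩⟩ hx
    simp only [Finset.mem_sigma, HasAntidiagonal.mem_antidiagonal] at hx ⊢
    obtain ⟨⟨h1, h2⟩, h3⟩ := hx
    refine ⟨⟨?_, trivial⟩, trivial⟩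
    rw [← h1, ← h2, ← h3]
    abel
  · rintro ⟨⟨⟨m1, m2⟩, ⟨p1, p2⟩⟩, ⟨q1, q2⟩⟩ hx
    simp only [Finset.mem_sigma, HasAntidiagonal.mem_antidiagonal] at hx
    obtain ⟨⟨h1, h2⟩, h3⟩ := hx
    subst h2
    subst h3
    rfl
  · rintro ⟨⟨⟨m1, m2⟩, ⟨p1, p2⟩⟩, ⟨q1, q2⟩⟩ hx
    simp only [Finset.mem_sigma, HasAntidiagonal.mem_antidiagonal] at hx
    obtain ⟨⟨h1, h2⟩, h3⟩ := hx
    subst h2
    subst h3
    rfl
  · rintro ⟨⟨⟨m1, m2⟩, ⟨p1, p2⟩⟩, ⟨q1, q2⟩⟩ _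
    rfl

private theorem rdup_inner (u : (ι →₀ ℕ) → R) (x y : ι →₀ ℕ) :
    ∑ s ∈ antidiagonal x, ∑ t ∈ antidiagonal y, Rec.tm u (s.2, t.2) (s.1, t.1) =
      if y = 0 then u x * u y * 2 ^ dg x else 0 := by
  have e1 : ∀ s ∈ antidiagonal x, ∀ t ∈ antidiagonal y, Rec.tm u (s.2, t.2) (s.1, t.1) =
      (u x * u y) * ((mb s.1 s.2 : R) * (((-1 : ℤ) ^ dg t.2 * (mb t.1 t.2 : ℤ) : ℤ) : R)) := by
    intro s hs t ht
    rw [HasAntidiagonal.mem_antidiagonal] at hs ht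
    unfold Rec.tm
    simp only
    rw [hs, ht]
    push_cast
    ring
  rw [Finset.sum_congr rfl fun s hs => Finset.sum_congr rfl fun t ht => e1 s hs t ht]
  simp only [← Finset.mul_sum]
  rw [← Finset.sum_mul, ← Int.cast_sum, Rec.sum_mb_neg, ← Nat.cast_sum, Rec.sum_mb]
  by_cases hy : y = 0
  · rw [if_pos hy, if_pos hy]
    push_cast
    ring
  · rw [if_neg hy, if_neg hy]
    simp

theorem PP_dup {S : Finset (ι →₀ ℕ)} {γ : (ι →₀ ℕ) → (ι →₀ ℕ) → R} {φ : MvPowerSeries ι R}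
    (h : PP S γ φ) (hE : Ev1 φ) :
    sc (fun _ => (2 : R)) φ = ∑ A ∈ S, ∑ A' ∈ S, C (γ A A') * (hw A φ * hw A' φ) := by
  ext n
  have hL : coeff n (sc (fun _ => (2 : R)) φ) = (∏ i, (2 : R) ^ n i) * coeff n φ := rfl
  rw [hL, Finset.prod_pow_eq_pow_sum]
  have hR : coeff n (∑ A ∈ S, ∑ A' ∈ S, C (γ A A') * (hw A φ * hw A' φ)) =
      ∑ m ∈ antidiagonal n, Rec.hc m.2 m.1 (fun n => coeff n φ) := by
    have e1 : ∀ m ∈ antidiagonal n, Rec.hc m.2 m.1 (fun n => coeff n φ) =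
        ∑ A ∈ S, ∑ A' ∈ S, γ A A' * (Rec.hc A m.1 (fun n => coeff n φ) *
          Rec.hc A' m.2 (fun n => coeff n φ)) := by
      intro m _
      rw [Rec.PP_coeff h m.2 m.1]
      refine Finset.sum_congr rfl fun A _ => Finset.sum_congr rfl fun A' _ => ?_
      ring
    rw [Finset.sum_congr rfl e1, map_sum, Finset.sum_comm]
    refine Finset.sum_congr rfl fun A _ => ?_
    rw [map_sum, Finset.sum_comm]
    refine Finset.sum_congr rfl fun A' _ => ?_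
    rw [MvPowerSeries.coeff_C_mul, MvPowerSeries.coeff_mul, Finset.mul_sum]
    refine Finset.sum_congr rfl fun m _ => ?_
    rw [Rec.coeff_hw, Rec.coeff_hw]
  rw [hR]
  have hS : ∑ m ∈ antidiagonal n, Rec.hc m.2 m.1 (fun n => coeff n φ) =
      ∑ M ∈ antidiagonal n, if M.2 = 0 then coeff M.1 φ * coeff M.2 φ * 2 ^ dg M.1 else 0 := by
    unfold Rec.hc
    rw [rdup_regroup n (fun p q => Rec.tm (fun n => coeff n φ) p q)]
    exact Finset.sum_congr rfl fun M _ => rdup_inner (fun n => coeff n φ) M.1 M.2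
  rw [hS, Finset.sum_eq_single_of_mem (n, 0)
    (HasAntidiagonal.mem_antidiagonal.2 (add_zero n))]
  · rw [if_pos rfl]
    simp only
    rw [hE.1]
    unfold dg
    ring
  · intro M hM hne
    rw [if_neg]
    intro h0
    apply hne
    rw [HasAntidiagonal.mem_antidiagonal] at hM
    rw [h0, add_zero] at hM
    exact Prod.ext hM h0

end

end Pool.Agent.CMT
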