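import Pool.Agent.CMT.RSol
import Pool.Agent.CMT.RBd
import Pool.Agent.CMT.RDen

/-!
# CMT block R: the final theorem

An even power series with `φ(0) = 1` and identity (P) has a model over its finitely many structure
constants.
-/

set_option autoImplicit false
set_option linter.unusedSectionVars false

namespace Pool.Agent.CMT

open Finset MvPowerSeries

noncomputable section

variable {ι : Type} [Fintype ι] [DecidableEq ι] {Q : Type} [Fintype Q]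

theorem model_of_PP (c : Q → ℂ) (φ : MvPowerSeries ι ℂ) (hE : Ev1 φ) (S : Finset (ι →₀ ℕ))
    (γ : (ι →₀ ℕ) → (ι →₀ ℕ) → ℂ) (hPP : PP S γ φ) (a : ℕ) (ha : ∀ A ∈ S, dg A ≤ a)
    (jg : (ι →₀ ℕ) → (ι →₀ ℕ) → Q) (hjg : ∀ A ∈ S, ∀ A' ∈ S, c (jg A A') = γ A A')
    (jf : (ι →₀ ℕ) → Q) (hjf : ∀ n, dg n ≤ 2 * a + 4 → c (jf n) = coeff n φ) :
    Nonempty (Model c φ) := by
  obtain ⟨K, sp, hsp⟩ := Rec.exists_spl ι a
  obtain ⟨P, hP⟩ := Rec.exists_sol hsp ha jg jf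
  exact ⟨⟨P, Rec.sol_coeff hsp ha hP c φ hE γ hPP hjg hjf, fun r hr => Rec.sol_growth hsp ha hP r hr,
    Rec.sol_int hsp ha hP⟩⟩

private theorem rfin_finite (N : ℕ) : Set.Finite {n : ι →₀ ℕ | dg n ≤ N} := by
  refine Set.Finite.subset (Set.Finite.biUnion (Finset.range (N + 1)).finite_toSet
    (fun m _ => (Finset.finsuppAntidiag (Finset.univ : Finset ι) m).finite_toSet)) ?_
  intro n hn
  rw [Set.mem_iUnion₂]
  refine ⟨dg n, ?_, ?_⟩
  · rw [Finset.mem_coe, Finset.mem_range]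
    exact Nat.lt_succ_of_le hn
  · rw [Finset.mem_coe, Finset.mem_finsuppAntidiag]
    exact ⟨rfl, Finset.subset_univ _⟩

/-- the parameters can be taken among the structure constants and Taylor coefficients -/
theorem exists_params (φ : MvPowerSeries ι ℂ) (hE : Ev1 φ) (S : Finset (ι →₀ ℕ))
    (γ : (ι →₀ ℕ) → (ι →₀ ℕ) → ℂ) (hPP : PP S γ φ) :
    ∃ (q : ℕ) (c : Fin q → ℂ), Nonempty (Model c φ) ∧
      ∀ i, (∃ A A', c i = γ A A') ∨ ∃ n, c i = coeff n φ := by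
  classical
  obtain ⟨a, ha⟩ : ∃ a : ℕ, ∀ A ∈ S, dg A ≤ a :=
    ⟨S.sup dg, fun A hA => Finset.le_sup (f := dg) hA⟩
  let T : Set (ι →₀ ℕ) := {n | dg n ≤ 2 * a + 4}
  have : Fintype T := (rfin_finite (ι := ι) (2 * a + 4)).fintype
  have h0 : (0 : ι →₀ ℕ) ∈ T := by
    show dg 0 ≤ _
    rw [Rec.dg_zero]
    exact Nat.zero_le _
  let Q' : Type := (S × S) ⊕ T
  let e : Q' ≃ Fin (Fintype.card Q') := Fintype.equivFin Q'
  let c' : Q' → ℂ := Sum.elim (fun p => γ p.1 p.2) (fun n => coeff (n : ι →₀ ℕ) φ)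
  let jg : (ι →₀ ℕ) → (ι →₀ ℕ) → Q' := fun A A' =>
    if h : A ∈ S ∧ A' ∈ S then Sum.inl (⟨A, h.1⟩, ⟨A', h.2⟩) else Sum.inr ⟨0, h0⟩
  let jf : (ι →₀ ℕ) → Q' := fun n => if h : n ∈ T then Sum.inr ⟨n, h⟩ else Sum.inr ⟨0, h0⟩
  refine ⟨Fintype.card Q', fun i => c' (e.symm i), ?_, ?_⟩
  · refine model_of_PP (fun i => c' (e.symm i)) φ hE S γ hPP a ha (fun A A' => e (jg A A')) ?_
      (fun n => e (jf n)) ?_
    · intro A hA A' hA'
      show c' (e.symm (e (jg A A'))) = _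
      rw [Equiv.symm_apply_apply]
      show c' (if h : A ∈ S ∧ A' ∈ S then Sum.inl (⟨A, h.1⟩, ⟨A', h.2⟩) else Sum.inr ⟨0, h0⟩) = _
      rw [dif_pos ⟨hA, hA'⟩]
      rfl
    · intro n hn
      show c' (e.symm (e (jf n))) = _
      rw [Equiv.symm_apply_apply]
      show c' (if h : n ∈ T then Sum.inr ⟨n, h⟩ else Sum.inr ⟨0, h0⟩) = _
      rw [dif_pos (show n ∈ T from hn)]
      rfl
  · intro i
    rcases h : e.symm i with p | n
    · left
      exact ⟨p.1, p.2, by simp only [h]; rfl⟩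
    · right
      exact ⟨n, by simp only [h]; rfl⟩

end

end Pool.Agent.CMT
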