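import Pool.Agent.CMT.RDefs

/-!
# CMT-RHw: the coefficients of `hw` and of the identity (P)
-/

set_option autoImplicit false
set_option linter.unusedSectionVars false

namespace Pool.Agent.CMT.Rec

open Finset MvPowerSeries

noncomputable section

variable {ι : Type} [Fintype ι] [DecidableEq ι] {R : Type} [CommRing R]

theorem coeff_hw (A C : ι →₀ ℕ) (φ : MvPowerSeries ι R) :
    coeff C (hw A φ) = hc A C (fun n => coeff n φ) := by
  unfold hw hc
  rw [map_sum]
  refine Finset.sum_congr rfl fun p _ => ?_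
  have e : (-1 : MvPowerSeries ι R) ^ dg p.2 = MvPowerSeries.C ((-1 : R) ^ dg p.2) := by
    rw [map_pow, map_neg, map_one]
  rw [e, MvPowerSeries.coeff_C_mul, MvPowerSeries.coeff_mul, Finset.mul_sum]
  refine Finset.sum_congr rfl fun q _ => ?_
  have e1 : ∀ n A : ι →₀ ℕ, coeff n (dd A φ) = (mb n A : R) * coeff (n + A) φ := fun n A => rfl
  rw [e1, e1]
  unfold tm
  ring

private theorem rhw_mb0 : mb (0 : ι →₀ ℕ) 0 = 1 := by
  unfold mb
  simp

private theorem rhw_sum1 (B C : ι →₀ ℕ) (hB : Even (dg B)) (u : (ι →₀ ℕ) → R) (hu : u 0 = 1) :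
    ∑ p ∈ antidiagonal B, ∑ q ∈ antidiagonal C, (if q.1 + p.1 = 0 then tm u p q else 0) =
      (mb C B : R) * u (B + C) := by
  rw [Finset.sum_eq_single (0, B), Finset.sum_eq_single (0, C)]
  · rw [if_pos (by simp)]
    unfold tm
    simp only [rhw_mb0, Nat.cast_one, one_mul, add_zero, hu, hB.neg_one_pow]
    rw [add_comm C B]
  · intro q hq hne
    rw [if_neg]
    intro h
    apply hne
    rw [HasAntidiagonal.mem_antidiagonal] at hq
    have h1 : q.1 = 0 := by simpa using h
    rw [h1, zero_add] at hq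
    exact Prod.ext h1 hq
  · intro h
    exact absurd (HasAntidiagonal.mem_antidiagonal.2 (zero_add C)) h
  · intro p hp hne
    refine Finset.sum_eq_zero fun q _ => ?_
    rw [if_neg]
    intro h
    apply hne
    rw [HasAntidiagonal.mem_antidiagonal] at hp
    have h1 : p.1 = 0 := (add_eq_zero.1 h).2
    rw [h1, zero_add] at hp
    exact Prod.ext h1 hp
  · intro h
    exact absurd (HasAntidiagonal.mem_antidiagonal.2 (zero_add B)) h

private theorem rhw_sum2 (B C : ι →₀ ℕ) (u : (ι →₀ ℕ) → R) (hu : u 0 = 1) :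
    ∑ p ∈ antidiagonal B, ∑ q ∈ antidiagonal C, (if q.2 + p.2 = 0 then tm u p q else 0) =
      (mb C B : R) * u (B + C) := by
  rw [Finset.sum_eq_single (B, 0), Finset.sum_eq_single (C, 0)]
  · rw [if_pos (by simp)]
    unfold tm
    simp only [rhw_mb0, Nat.cast_one, mul_one, one_mul, add_zero, hu, dg_zero, pow_zero]
    rw [add_comm C B]
  · intro q hq hne
    rw [if_neg]
    intro h
    apply hne
    rw [HasAntidiagonal.mem_antidiagonal] at hq
    have h1 : q.2 = 0 := by simpa using h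
    rw [h1, add_zero] at hq
    exact Prod.ext hq h1
  · intro h
    exact absurd (HasAntidiagonal.mem_antidiagonal.2 (add_zero C)) h
  · intro p hp hne
    refine Finset.sum_eq_zero fun q _ => ?_
    rw [if_neg]
    intro h
    apply hne
    rw [HasAntidiagonal.mem_antidiagonal] at hp
    have h1 : p.2 = 0 := (add_eq_zero.1 h).2
    rw [h1, add_zero] at hp
    exact Prod.ext hp h1
  · intro h
    exact absurd (HasAntidiagonal.mem_antidiagonal.2 (add_zero B)) h

theorem hc_split (B C : ι →₀ ℕ) (hB : Even (dg B)) (h : B + C ≠ 0) (u : (ι →₀ ℕ) → R)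
    (hu : u 0 = 1) : hc B C u = 2 * (mb C B : R) * u (B + C) + rs B C u := by
  have e : ∀ p ∈ antidiagonal B, ∀ q ∈ antidiagonal C, tm u p q =
      ((if q.1 + p.1 = 0 then tm u p q else 0) + (if q.2 + p.2 = 0 then tm u p q else 0)) +
        (if q.1 + p.1 = 0 ∨ q.2 + p.2 = 0 then 0 else tm u p q) := by
    intro p hp q hq
    rw [HasAntidiagonal.mem_antidiagonal] at hp hq
    by_cases h1 : q.1 + p.1 = 0
    · have h2 : ¬ q.2 + p.2 = 0 := by
        intro h2
        apply h
        rw [← hp, ← hq]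
        have : p.1 + p.2 + (q.1 + q.2) = (q.1 + p.1) + (q.2 + p.2) := by abel
        rw [this, h1, h2, add_zero]
      rw [if_pos h1, if_neg h2, if_pos (Or.inl h1)]
      simp
    · by_cases h2 : q.2 + p.2 = 0
      · rw [if_neg h1, if_pos h2, if_pos (Or.inr h2)]
        simp
      · rw [if_neg h1, if_neg h2, if_neg (by tauto)]
        simp
  have e2 : hc B C u =
      ((∑ p ∈ antidiagonal B, ∑ q ∈ antidiagonal C, (if q.1 + p.1 = 0 then tm u p q else 0)) +
        ∑ p ∈ antidiagonal B, ∑ q ∈ antidiagonal C, (if q.2 + p.2 = 0 then tm u p q else 0)) +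
      rs B C u := by
    unfold hc rs
    rw [← Finset.sum_add_distrib, ← Finset.sum_add_distrib]
    refine Finset.sum_congr rfl fun p hp => ?_
    rw [← Finset.sum_add_distrib, ← Finset.sum_add_distrib]
    exact Finset.sum_congr rfl fun q hq => e p hp q hq
  rw [e2, rhw_sum1 B C hB u hu, rhw_sum2 B C u hu]
  ring

theorem PP_coeff {S : Finset (ι →₀ ℕ)} {γ : (ι →₀ ℕ) → (ι →₀ ℕ) → R} {φ : MvPowerSeries ι R}
    (h : PP S γ φ) (B C : ι →₀ ℕ) : hc B C (fun n => coeff n φ) =
      ∑ A ∈ S, ∑ A' ∈ S, γ A A' * (hc A' B (fun n => coeff n φ) * hc A C (fun n => coeff n φ)) := by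
  rw [← coeff_hw, h B, map_sum]
  refine Finset.sum_congr rfl fun A _ => ?_
  rw [MvPowerSeries.coeff_C_mul, coeff_hw, Finset.sum_mul]
  refine Finset.sum_congr rfl fun A' _ => ?_
  rw [coeff_hw, mul_assoc]

private theorem rhw_map_tm {R' : Type} [CommRing R'] (f : R →+* R') (u : (ι →₀ ℕ) → R)
    (p q : (ι →₀ ℕ) × (ι →₀ ℕ)) : f (tm u p q) = tm (fun n => f (u n)) p q := by
  unfold tm
  simp only [map_mul, map_pow, map_neg, map_one, map_natCast]

/-- `hc` and ring homomorphisms -/
theorem map_hc {R' : Type} [CommRing R'] (f : R →+* R') (A C : ι →₀ ℕ) (u : (ι →₀ ℕ) → R) :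
    f (hc A C u) = hc A C (fun n => f (u n)) := by
  unfold hc
  rw [map_sum]
  refine Finset.sum_congr rfl fun p _ => ?_
  rw [map_sum]
  exact Finset.sum_congr rfl fun q _ => rhw_map_tm f u p q

theorem map_rs {R' : Type} [CommRing R'] (f : R →+* R') (A C : ι →₀ ℕ) (u : (ι →₀ ℕ) → R) :
    f (rs A C u) = rs A C (fun n => f (u n)) := by
  unfold rs
  rw [map_sum]
  refine Finset.sum_congr rfl fun p _ => ?_
  rw [map_sum]
  refine Finset.sum_congr rfl fun q _ => ?_
  rw [apply_ite f, map_zero, rhw_map_tm]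

end

end Pool.Agent.CMT.Rec
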