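import Pool.Agent.CMT.RHw
import Pool.Agent.CMT.RSpl

/-!
# CMT-RSol: existence of the solution of the recursion and its value at `c`
-/

set_option autoImplicit false
set_option linter.unusedSectionVars false

namespace Pool.Agent.CMT.Rec

open Finset MvPowerSeries

noncomputable section

variable {ι : Type} [Fintype ι] [DecidableEq ι] {Q : Type} [Fintype Q]

private theorem rsol_hc {R : Type} [CommRing R] {A C : ι →₀ ℕ} {u v : (ι →₀ ℕ) → R}
    (h : ∀ m, dg m ≤ dg A + dg C → u m = v m) : hc A C u = hc A C v := by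
  unfold hc
  refine Finset.sum_congr rfl fun p hp => Finset.sum_congr rfl fun q hq => ?_
  have hp1 : dg p.1 + dg p.2 = dg A := by rw [← dg_add, mem_antidiagonal.1 hp]
  have hq1 : dg q.1 + dg q.2 = dg C := by rw [← dg_add, mem_antidiagonal.1 hq]
  unfold tm
  rw [h (q.1 + p.1) (by rw [dg_add]; omega), h (q.2 + p.2) (by rw [dg_add]; omega)]

private theorem rsol_rs {R : Type} [CommRing R] {A C : ι →₀ ℕ} {u v : (ι →₀ ℕ) → R}
    (h : ∀ m, dg m < dg A + dg C → u m = v m) : rs A C u = rs A C v := by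
  unfold rs
  refine Finset.sum_congr rfl fun p hp => Finset.sum_congr rfl fun q hq => ?_
  have hp1 : dg p.1 + dg p.2 = dg A := by rw [← dg_add, mem_antidiagonal.1 hp]
  have hq1 : dg q.1 + dg q.2 = dg C := by rw [← dg_add, mem_antidiagonal.1 hq]
  by_cases hz : q.1 + p.1 = 0 ∨ q.2 + p.2 = 0
  · rw [if_pos hz, if_pos hz]
  · rw [if_neg hz, if_neg hz]
    obtain ⟨z1, z2⟩ := not_or.1 hz
    have w1 := dg_pos.2 z1
    have w2 := dg_pos.2 z2
    rw [dg_add] at w1 w2
    unfold tm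
    rw [h (q.1 + p.1) (by rw [dg_add]; omega), h (q.2 + p.2) (by rw [dg_add]; omega)]

theorem exists_sol {a K : ℕ} {sp : (ι →₀ ℕ) → (ι →₀ ℕ)} (hsp : Spl a K sp) {S : Finset (ι →₀ ℕ)}
    (ha : ∀ A ∈ S, dg A ≤ a) (jg : (ι →₀ ℕ) → (ι →₀ ℕ) → Q) (jf : (ι →₀ ℕ) → Q) :
    ∃ P : (ι →₀ ℕ) → MvPolynomial Q ℚ, Sol a sp S jg jf P := by
  refine exists_rec 0 (fun n u => Fr a sp S jg jf n u) fun n f g h => ?_
  show Fr a sp S jg jf n f = Fr a sp S jg jf n g
  unfold Fr
  split_ifs with h1 h2 h3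
  · rfl
  · rfl
  · have h4 : 2 * a + 4 < dg n := by omega
    obtain ⟨s1, s2, -⟩ := hsp n h4
    have s3 := dg_sub s1
    have b1 := b0_gt a
    have b2 := b0_le a
    have h5 : rs (sp n) (n - sp n) f = rs (sp n) (n - sp n) g :=
      rsol_rs fun m hm => h m (by omega)
    have h6 : (∑ A ∈ S, ∑ A' ∈ S, MvPolynomial.X (jg A A') *
          (hc A' (sp n) f * hc A (n - sp n) f)) =
        ∑ A ∈ S, ∑ A' ∈ S, MvPolynomial.X (jg A A') *
          (hc A' (sp n) g * hc A (n - sp n) g) := by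
      refine Finset.sum_congr rfl fun A hA => Finset.sum_congr rfl fun A' hA' => ?_
      have e1 := ha A hA
      have e2 := ha A' hA'
      have e3 : hc A' (sp n) f = hc A' (sp n) g := rsol_hc fun m hm => h m (by omega)
      have e4 : hc A (n - sp n) f = hc A (n - sp n) g := rsol_hc fun m hm => h m (by omega)
      rw [e3, e4]
    rw [h5, h6]
  · rfl

theorem sol_coeff {a K : ℕ} {sp : (ι →₀ ℕ) → (ι →₀ ℕ)} (hsp : Spl a K sp) {S : Finset (ι →₀ ℕ)}
    (ha : ∀ A ∈ S, dg A ≤ a) {jg : (ι →₀ ℕ) → (ι →₀ ℕ) → Q} {jf : (ι →₀ ℕ) → Q}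
    {P : (ι →₀ ℕ) → MvPolynomial Q ℚ} (hP : Sol a sp S jg jf P) (c : Q → ℂ)
    (φ : MvPowerSeries ι ℂ) (hE : Ev1 φ) (γ : (ι →₀ ℕ) → (ι →₀ ℕ) → ℂ) (hPP : PP S γ φ)
    (hjg : ∀ A ∈ S, ∀ A' ∈ S, c (jg A A') = γ A A')
    (hjf : ∀ n, dg n ≤ 2 * a + 4 → c (jf n) = coeff n φ) (n : ι →₀ ℕ) :
    coeff n φ = MvPolynomial.aeval c (P n) := by
  suffices H : ∀ d : ℕ, ∀ n : ι →₀ ℕ, dg n = d → coeff n φ = MvPolynomial.aeval c (P n) from
    H (dg n) n rfl
  intro d
  induction d using Nat.strong_induction_on with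
  | _ d ih =>
    intro n hn
    have ih' : ∀ m, dg m < dg n → MvPolynomial.aeval c (P m) = coeff m φ := fun m hm =>
      (ih (dg m) (by omega) m rfl).symm
    rw [hP n]
    unfold Fr
    split_ifs with h1 h2 h3
    · rw [h1, hE.1, map_one]
    · rw [MvPolynomial.aeval_X, hjf n h2]
    · have h4 : 2 * a + 4 < dg n := by omega
      obtain ⟨s1, s2, -⟩ := hsp n h4
      have s3 := dg_sub s1
      have b1 := b0_gt a
      have b2 := b0_le a
      have m1 : ∀ A C : ι →₀ ℕ, MvPolynomial.aeval c (hc A C P) =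
          hc A C (fun m => MvPolynomial.aeval c (P m)) := fun A C =>
        map_hc (MvPolynomial.aeval c : MvPolynomial Q ℚ →ₐ[ℚ] ℂ).toRingHom A C P
      have m2 : ∀ A C : ι →₀ ℕ, MvPolynomial.aeval c (rs A C P) =
          rs A C (fun m => MvPolynomial.aeval c (P m)) := fun A C =>
        map_rs (MvPolynomial.aeval c : MvPolynomial Q ℚ →ₐ[ℚ] ℂ).toRingHom A C P
      have e1 : sp n + (n - sp n) = n := add_tsub_cancel_of_le s1
      have e2 := hc_split (sp n) (n - sp n) (by rw [s2]; exact b0_even a) (by rw [e1]; exact h1)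
        (fun m => coeff m φ) hE.1
      rw [e1, PP_coeff hPP (sp n) (n - sp n)] at e2
      have e3 : MvPolynomial.aeval c ((∑ A ∈ S, ∑ A' ∈ S, MvPolynomial.X (jg A A') *
            (hc A' (sp n) P * hc A (n - sp n) P)) - rs (sp n) (n - sp n) P) =
          2 * ((mb (n - sp n) (sp n) : ℕ) : ℂ) * coeff n φ := by
        rw [map_sub, m2, rsol_rs (v := fun m => coeff m φ) fun m hm => ih' m (by omega),
          eq_comm, eq_sub_iff_add_eq, ← e2, map_sum]
        refine Finset.sum_congr rfl fun A hA => ?_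
        rw [map_sum]
        refine Finset.sum_congr rfl fun A' hA' => ?_
        have g1 := ha A hA
        have g2 := ha A' hA'
        rw [map_mul, map_mul, MvPolynomial.aeval_X, hjg A hA A' hA', m1, m1,
          rsol_hc (A := A') (v := fun m => coeff m φ) fun m hm => ih' m (by omega),
          rsol_hc (A := A) (v := fun m => coeff m φ) fun m hm => ih' m (by omega)]
      have e4 : ((mb (n - sp n) (sp n) : ℕ) : ℂ) ≠ 0 :=
        Nat.cast_ne_zero.2 (mb_pos _ _).ne'
      have e5 : MvPolynomial.aeval c (MvPolynomial.C ((2 * (mb (n - sp n) (sp n) : ℚ))⁻¹) :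
          MvPolynomial Q ℚ) = (2 * ((mb (n - sp n) (sp n) : ℕ) : ℂ))⁻¹ := by
        rw [MvPolynomial.aeval_C]
        simp
      rw [map_mul, e3, e5]
      field_simp
    · rw [map_zero, hE.2 n h3]

end

end Pool.Agent.CMT.Rec
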